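import Pool.Agent.H91.NL.PadeV

/-!
JOB NL-11 (two consecutive approximants are not proportional, about 100-150 lines).

Work with polynomials over `ℚ`: `Qn = ∑_{j≤n} C((-1)^j pa q n j) X^j`,
`Pn = ∑_{k ≤ n} C((-1)^k ps q n k) X^k`, and the power series `F = ∑_i (-1)^i pc q i X^i`.  In `ℚ⟦X⟧`:
`Qn F - Pn = ∑_{k ≥ 2n+1} (-1)^k ps q n k X^k` (by `mid_zero`), i.e. `Qn F - Pn = X^(2n+1) * G_n` with
constant coefficient of `G_n` equal to `(-1)^(2n+1) ps q n (2n+1) ≠ 0`.  Then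
`Qn P' - Q' Pn = Q' (Qn F - Pn) - Qn (Q' F - P') = X^(2n+1) (Q' G_n - X^2 Qn G_(n+1))` where `'` means
`n+1`.  The left side is a polynomial of degree `≤ 2n+1`, so it equals `c X^(2n+1)` with
`c = Q'(0) G_n(0) ≠ 0` (`Q'(0) = pa q (n+1) 0 = choose (2n+2) (n+1) ≠ 0`).  Evaluate at `1/a`:
`QA q a n = q^(2n) a^n Qn(1/a)`, `QB q a n = q^(2n) a^n Pn(1/a)` (`ps_of_le`).  So
`QA q a n * QB q a (n+1) - QA q a (n+1) * QB q a n = q^(4n+2) a^(2n+1) c a^(-2n-1) ≠ 0`.
-/

namespace Pool.Agent.H91.NL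

private noncomputable def PadeD_Q (q n : ℕ) : Polynomial ℚ :=
  ∑ j ∈ Finset.range (n + 1), Polynomial.C ((-1) ^ j * pa q n j) * Polynomial.X ^ j

private noncomputable def PadeD_P (q n : ℕ) : Polynomial ℚ :=
  ∑ k ∈ Finset.range (n + 1), Polynomial.C ((-1) ^ k * ps q n k) * Polynomial.X ^ k

private noncomputable def PadeD_F (q : ℕ) : PowerSeries ℚ :=
  PowerSeries.mk fun i => (-1) ^ i * pc q i

private noncomputable def PadeD_R (q n : ℕ) : PowerSeries ℚ :=
  (PadeD_Q q n : PowerSeries ℚ) * PadeD_F q - (PadeD_P q n : PowerSeries ℚ)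

private theorem PadeD_coeff (f : ℕ → ℚ) (n k : ℕ) :
    (∑ j ∈ Finset.range (n + 1), Polynomial.C (f j) * Polynomial.X ^ j).coeff k =
      if k ≤ n then f k else 0 := by
  rw [Polynomial.finsetSum_coeff]
  simp only [Polynomial.coeff_C_mul, Polynomial.coeff_X_pow]
  by_cases h : k ≤ n
  · rw [if_pos h, Finset.sum_eq_single k]
    · simp
    · intro j _ hj
      rw [if_neg (fun h => hj h.symm), mul_zero]
    · intro hk
      exact absurd (Finset.mem_range.2 (Nat.lt_succ_of_le h)) hk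
  · rw [if_neg h]
    refine Finset.sum_eq_zero fun j hj => ?_
    have h1 := Finset.mem_range.1 hj
    rw [if_neg (by omega), mul_zero]

private theorem PadeD_deg (f : ℕ → ℚ) (n : ℕ) :
    (∑ j ∈ Finset.range (n + 1), Polynomial.C (f j) * Polynomial.X ^ j).natDegree ≤ n := by
  rw [Polynomial.natDegree_le_iff_coeff_eq_zero]
  intro k hk
  rw [PadeD_coeff, if_neg (by omega)]

private theorem PadeD_QF (q n k : ℕ) :
    PowerSeries.coeff k ((PadeD_Q q n : PowerSeries ℚ) * PadeD_F q) = (-1) ^ k * ps q n k := by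
  rw [PowerSeries.coeff_mul]
  unfold ps
  rw [Finset.mul_sum]
  refine Finset.sum_congr rfl fun ij hij => ?_
  have h3 := Finset.HasAntidiagonal.mem_antidiagonal.1 hij
  rw [Polynomial.coeff_coe, PadeD_Q, PadeD_coeff (fun j => (-1) ^ j * pa q n j), PadeD_F,
    PowerSeries.coeff_mk, ← h3, pow_add]
  by_cases h : ij.1 ≤ n
  · rw [if_pos h, if_pos h]; ring
  · rw [if_neg h, if_neg h]; ring

private theorem PadeD_R_coeff (q n k : ℕ) :
    PowerSeries.coeff k (PadeD_R q n) = if k ≤ n then 0 else (-1) ^ k * ps q n k := by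
  unfold PadeD_R
  rw [map_sub, PadeD_QF, Polynomial.coeff_coe, PadeD_P,
    PadeD_coeff (fun j => (-1) ^ j * ps q n j)]
  by_cases h : k ≤ n
  · rw [if_pos h, if_pos h, sub_self]
  · rw [if_neg h, if_neg h, sub_zero]

private theorem PadeD_R_low {q n k : ℕ} (hq : 1 ≤ q) (hk : k < 2 * n + 1) :
    PowerSeries.coeff k (PadeD_R q n) = 0 := by
  rw [PadeD_R_coeff]
  by_cases h : k ≤ n
  · rw [if_pos h]
  · rw [if_neg h, mid_zero hq (by omega) (by omega), mul_zero]

private theorem PadeD_mul_low (A B : PowerSeries ℚ) (m k : ℕ)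
    (hB : ∀ i < m, PowerSeries.coeff i B = 0) (hk : k < m) :
    PowerSeries.coeff k (A * B) = 0 := by
  rw [PowerSeries.coeff_mul]
  refine Finset.sum_eq_zero fun ij hij => ?_
  have h3 := Finset.HasAntidiagonal.mem_antidiagonal.1 hij
  rw [hB ij.2 (by omega), mul_zero]

private theorem PadeD_mul_eq (A B : PowerSeries ℚ) (m : ℕ)
    (hB : ∀ i < m, PowerSeries.coeff i B = 0) :
    PowerSeries.coeff m (A * B) = PowerSeries.coeff 0 A * PowerSeries.coeff m B := by
  rw [PowerSeries.coeff_mul, Finset.sum_eq_single ((0, m) : ℕ × ℕ)]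
  · intro ij hij hne
    have h3 := Finset.HasAntidiagonal.mem_antidiagonal.1 hij
    have h4 : ij.2 < m := by
      by_contra hcon
      apply hne
      refine Prod.ext ?_ ?_
      · show ij.1 = 0
        omega
      · show ij.2 = m
        omega
    rw [hB ij.2 h4, mul_zero]
  · intro h
    exact absurd (Finset.HasAntidiagonal.mem_antidiagonal.2 (by simp)) h

private noncomputable def PadeD_D (q n : ℕ) : Polynomial ℚ :=
  PadeD_Q q n * PadeD_P q (n + 1) - PadeD_Q q (n + 1) * PadeD_P q n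

private theorem PadeD_D_coe (q n : ℕ) : (PadeD_D q n : PowerSeries ℚ) =
    (PadeD_Q q (n + 1) : PowerSeries ℚ) * PadeD_R q n -
      (PadeD_Q q n : PowerSeries ℚ) * PadeD_R q (n + 1) := by
  unfold PadeD_D PadeD_R
  rw [Polynomial.coe_sub, Polynomial.coe_mul, Polynomial.coe_mul]
  ring

private theorem PadeD_D_deg (q n : ℕ) : (PadeD_D q n).natDegree ≤ 2 * n + 1 := by
  have h1 : (PadeD_Q q n).natDegree ≤ n := PadeD_deg (fun j => (-1) ^ j * pa q n j) n
  have h2 : (PadeD_Q q (n + 1)).natDegree ≤ n + 1 :=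
    PadeD_deg (fun j => (-1) ^ j * pa q (n + 1) j) (n + 1)
  have h3 : (PadeD_P q n).natDegree ≤ n := PadeD_deg (fun j => (-1) ^ j * ps q n j) n
  have h4 : (PadeD_P q (n + 1)).natDegree ≤ n + 1 :=
    PadeD_deg (fun j => (-1) ^ j * ps q (n + 1) j) (n + 1)
  unfold PadeD_D
  refine (Polynomial.natDegree_sub_le _ _).trans (max_le ?_ ?_)
  · exact Polynomial.natDegree_mul_le.trans (by omega)
  · exact Polynomial.natDegree_mul_le.trans (by omega)

private theorem PadeD_D_low {q n k : ℕ} (hq : 1 ≤ q) (hk : k < 2 * n + 1) :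
    (PadeD_D q n).coeff k = 0 := by
  rw [← Polynomial.coeff_coe, PadeD_D_coe, map_sub,
    PadeD_mul_low _ _ (2 * n + 1) k (fun i hi => PadeD_R_low hq hi) hk,
    PadeD_mul_low _ _ (2 * (n + 1) + 1) k (fun i hi => PadeD_R_low hq hi) (by omega), sub_zero]

private theorem PadeD_D_top {q n : ℕ} (hq : 2 ≤ q) : (PadeD_D q n).coeff (2 * n + 1) ≠ 0 := by
  have hq1 : 1 ≤ q := by omega
  rw [← Polynomial.coeff_coe, PadeD_D_coe, map_sub,
    PadeD_mul_eq _ _ (2 * n + 1) (fun i hi => PadeD_R_low hq1 hi),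
    PadeD_mul_low _ _ (2 * (n + 1) + 1) (2 * n + 1) (fun i hi => PadeD_R_low hq1 hi) (by omega),
    sub_zero, Polynomial.coeff_coe, PadeD_Q, PadeD_coeff (fun j => (-1) ^ j * pa q (n + 1) j),
    if_pos (Nat.zero_le _), PadeD_R_coeff, if_neg (by omega)]
  refine mul_ne_zero (mul_ne_zero (by simp) ?_) (mul_ne_zero (by simp) (first_coeff hq))
  unfold pa
  rw [Ring.choose_zero_right, one_mul]
  have h1 : (2 * (n + 1) - 0).choose (n + 1) ≠ 0 := by
    have := Nat.choose_pos (n := 2 * (n + 1) - 0) (k := n + 1) (by omega)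
    omega
  exact_mod_cast h1

private theorem PadeD_D_eq {q n : ℕ} (hq : 2 ≤ q) : PadeD_D q n =
    Polynomial.C ((PadeD_D q n).coeff (2 * n + 1)) * Polynomial.X ^ (2 * n + 1) := by
  ext k
  rw [Polynomial.coeff_C_mul, Polynomial.coeff_X_pow]
  rcases lt_trichotomy k (2 * n + 1) with h | h | h
  · rw [if_neg h.ne, mul_zero, PadeD_D_low (by omega) h]
  · rw [if_pos h, mul_one, h]
  · rw [if_neg h.ne', mul_zero]
    exact Polynomial.coeff_eq_zero_of_natDegree_lt ((PadeD_D_deg q n).trans_lt h)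

private theorem PadeD_pow {a : ℕ} (ha : 1 ≤ a) {n k : ℕ} (hk : k ≤ n) :
    (a : ℚ) ^ (n - k) = (a : ℚ) ^ n * (1 / (a : ℚ)) ^ k := by
  have ha0 : (a : ℚ) ≠ 0 := by
    have : 0 < a := ha
    exact_mod_cast this.ne'
  have e1 : (a : ℚ) ^ n = (a : ℚ) ^ (n - k) * (a : ℚ) ^ k := by
    rw [← pow_add]
    congr 1
    omega
  rw [e1, mul_assoc, ← mul_pow, mul_one_div_cancel ha0, one_pow, mul_one]

private theorem PadeD_QA {q a : ℕ} (ha : 1 ≤ a) (n : ℕ) :
    QA q a n = (q : ℚ) ^ (2 * n) * (a : ℚ) ^ n * (PadeD_Q q n).eval (1 / (a : ℚ)) := by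
  unfold QA PadeD_Q
  rw [Polynomial.eval_finsetSum, Finset.mul_sum]
  refine Finset.sum_congr rfl fun j hj => ?_
  have h1 := Finset.mem_range.1 hj
  rw [PadeD_pow ha (by omega : j ≤ n)]
  simp only [Polynomial.eval_mul, Polynomial.eval_C, Polynomial.eval_pow, Polynomial.eval_X]
  ring

private theorem PadeD_QB {q a : ℕ} (ha : 1 ≤ a) (n : ℕ) :
    QB q a n = (q : ℚ) ^ (2 * n) * (a : ℚ) ^ n * (PadeD_P q n).eval (1 / (a : ℚ)) := by
  unfold QB PadeD_P
  rw [Polynomial.eval_finsetSum, Finset.mul_sum]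
  refine Finset.sum_congr rfl fun j hj => ?_
  have h1 := Finset.mem_range.1 hj
  rw [PadeD_pow ha (by omega : j ≤ n), ← ps_of_le (by omega : j ≤ n)]
  simp only [Polynomial.eval_mul, Polynomial.eval_C, Polynomial.eval_pow, Polynomial.eval_X]
  ring

theorem det_ne_zero {q a : ℕ} (hq : 2 ≤ q) (ha : 1 ≤ a) (n : ℕ) :
    QA q a n * QB q a (n + 1) ≠ QA q a (n + 1) * QB q a n := by
  intro h
  have ha0 : (a : ℚ) ≠ 0 := by
    have : 0 < a := ha
    exact_mod_cast this.ne'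
  have hq0 : (q : ℚ) ≠ 0 := by
    have : 0 < q := by omega
    exact_mod_cast this.ne'
  have hD : (PadeD_D q n).eval (1 / (a : ℚ)) ≠ 0 := by
    rw [PadeD_D_eq hq]
    simp only [Polynomial.eval_mul, Polynomial.eval_C, Polynomial.eval_pow, Polynomial.eval_X]
    exact mul_ne_zero (PadeD_D_top hq) (pow_ne_zero _ (one_div_ne_zero ha0))
  have hE : (PadeD_D q n).eval (1 / (a : ℚ)) =
      (PadeD_Q q n).eval (1 / (a : ℚ)) * (PadeD_P q (n + 1)).eval (1 / (a : ℚ)) -
        (PadeD_Q q (n + 1)).eval (1 / (a : ℚ)) * (PadeD_P q n).eval (1 / (a : ℚ)) := by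
    unfold PadeD_D
    rw [Polynomial.eval_sub, Polynomial.eval_mul, Polynomial.eval_mul]
  have hK : ((q : ℚ) ^ (2 * n) * (a : ℚ) ^ n) * ((q : ℚ) ^ (2 * (n + 1)) * (a : ℚ) ^ (n + 1)) ≠ 0 :=
    mul_ne_zero (mul_ne_zero (pow_ne_zero _ hq0) (pow_ne_zero _ ha0))
      (mul_ne_zero (pow_ne_zero _ hq0) (pow_ne_zero _ ha0))
  rw [PadeD_QA ha n, PadeD_QA ha (n + 1), PadeD_QB ha n, PadeD_QB ha (n + 1)] at h
  apply mul_ne_zero hK hD
  rw [hE]
  linear_combination h

end Pool.Agent.H91.NL
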