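import Pool.Agent.H91.NL.PadeR
import Pool.Agent.H91.NL.PadeD

/-!
JOB NL-12 (the equation `|a X^q - (a-1) Y^q| = 1` for large `a`, about 150-200 lines).

Let `κ = 8 q^2 ≥ 72`, `a ≥ κ^21`, `θ = theta q a`, `0 < θ < 1`, `θ^q = 1 - 1/a`.
If `X = Y` then `a X^q - (a-1) Y^q = X^q`, so `X = Y = 1` (and the case `-1` is impossible).  Assume `X ≠ Y`.
(1) `|X^q - (θY)^q| = 1/a` and `X^q - (θY)^q = (X - θY) * ∑_{i<q} X^i (θY)^(q-1-i)`, the sum is
`≥ (θY)^(q-1) ≥ θ^q Y^(q-1) ≥ Y^(q-1)/2 ≥ Y^2/2` (`q ≥ 3`, `Y ≥ 1`).  So `|X - θY| ≤ 2/(a Y^2)`.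
(2) `1 ≤ |X - Y| ≤ |X - θY| + Y (1-θ) ≤ 2/a + Y/a` (`1 - θ ≤ 1 - θ^q = 1/a`), so `Y ≥ a - 2 ≥ a/2`.
(3) Let `A_m, B_m` be the integers `QA q a m`, `QB q a m`, `I_m = A_m X - B_m Y ∈ ℤ`.
`|I_m| ≤ |A_m| |X - θY| + Y |A_m θ - B_m| ≤ (κ a)^m * 2/(a Y^2) + 2 Y (κ/a)^m / a`.
(4) Let `n` be the least natural number with `(a/κ)^n > 4 Y / a` (exists as `a/κ > 1`).
For `m ∈ {n, n+1}` the second term is `< 1/2`.  If `n ≥ 1` then `(a/κ)^(n-1) ≤ 4Y/a`, i.e.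
`(a/κ)^(n+1) ≤ (4 Y/a) (a/κ)^2 = 4 Y a/κ^2`; if `n = 0`, `(a/κ)^(n+1) = a/κ ≤ 4 Y a/κ^2` as `4Y ≥ κ`.
So in both cases `t^(n+1) ≤ 4 Y a/κ^2`, `t = a/κ ≥ κ^20`.
(5) First term for `m ≤ n+1`: `(κ a)^m ≤ (κa)^(n+1) = t^(n+1) κ^(2(n+1))` and
`(κ^(2(n+1)))^10 = (κ^20)^(n+1) ≤ t^(n+1)`.  So `((κa)^(n+1))^10 ≤ (t^(n+1))^11 ≤ (4Ya/κ^2)^11`.
We want `(κa)^(n+1) < a Y^2/4`: it is enough that `(4 Y a/κ^2)^11 < (a Y^2/4)^10`, i.e.
`4^21 a < κ^22 Y^9`; true since `κ^22 ≥ 4^21` and `Y^9 > a` (`Y ≥ a/2`, `a` large).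
So the first term is `< 1/2`, and `|I_m| < 1`, `I_m = 0` for `m = n` and `m = n+1`.
Then `A_n X = B_n Y`, `A_(n+1) X = B_(n+1) Y`, so `A_n B_(n+1) = A_(n+1) B_n` (multiply by `X Y ≠ 0`: from
`A_n X B_(n+1) Y = B_n Y A_(n+1) X`), contradicting `det_ne_zero`.
-/

namespace Pool.Agent.H91.NL

private theorem Thue_pow {x y : ℝ} (hx : 0 ≤ x) (hy : 0 ≤ y) {q : ℕ} (hq : 1 ≤ q) :
    |x - y| * y ^ (q - 1) ≤ |x ^ q - y ^ q| := by
  rw [← geom_sum₂_mul, abs_mul, mul_comm]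
  refine mul_le_mul_of_nonneg_right ?_ (abs_nonneg _)
  have h1 : y ^ (q - 1) ≤ ∑ i ∈ Finset.range q, x ^ i * y ^ (q - 1 - i) := by
    have h2 : (0 : ℕ) ∈ Finset.range q := Finset.mem_range.2 hq
    have h3 := Finset.single_le_sum (f := fun i : ℕ => x ^ i * y ^ (q - 1 - i))
      (fun i _ => by positivity) h2
    simpa using h3
  exact h1.trans (le_abs_self _)

private theorem Thue_theta {q a : ℕ} (hq : 1 ≤ q) (ha : 2 ≤ a) :
    0 < theta q a ∧ theta q a ≤ 1 ∧ theta q a ^ q = 1 - 1 / (a : ℝ) ∧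
      1 - 1 / (a : ℝ) ≤ theta q a := by
  have ha' : (2 : ℝ) ≤ a := by exact_mod_cast ha
  have h1 : 1 / (a : ℝ) ≤ 1 / 2 := one_div_le_one_div_of_le (by norm_num) ha'
  have h1' : 0 < 1 / (a : ℝ) := by positivity
  have h2 : 0 < 1 - 1 / (a : ℝ) := by linarith
  have h3 : 0 < theta q a := Real.rpow_pos_of_pos h2 _
  have h4 : theta q a ≤ 1 := Real.rpow_le_one h2.le (by linarith) (by positivity)
  have h5 : theta q a ^ q = 1 - 1 / (a : ℝ) := by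
    unfold theta
    rw [one_div (q : ℝ)]
    exact Real.rpow_inv_natCast_pow h2.le (by omega)
  refine ⟨h3, h4, h5, ?_⟩
  rw [← h5]
  exact pow_le_of_le_one h3.le h4 (by omega)

private theorem Thue_numbers {κ a Y : ℝ} (hκ : 72 ≤ κ) (ha : κ ^ 21 ≤ a) (hY : a / 2 ≤ Y) :
    ∃ n : ℕ, 4 * Y < a * (a / κ) ^ n ∧ (κ * a) ^ (n + 1) < a * Y ^ 2 / 4 := by
  have hκ0 : 0 < κ := by linarith
  have hκ1 : 1 ≤ κ := by linarith
  have ha72 : 72 * κ ≤ a := by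
    refine le_trans ?_ ha
    have h1 : κ ^ 2 ≤ κ ^ 21 := pow_le_pow_right₀ hκ1 (by norm_num)
    nlinarith
  have ha0 : 0 < a := by nlinarith
  have hY0 : 0 < Y := by linarith
  set t : ℝ := a / κ with ht
  have hta : t * κ = a := by rw [ht]; field_simp
  have ht72 : 72 ≤ t := by
    rw [ht, le_div_iff₀ hκ0]; exact ha72
  have ht20 : κ ^ 20 ≤ t := by
    rw [ht, le_div_iff₀ hκ0, ← pow_succ]; exact ha
  have hex : ∃ n : ℕ, 4 * Y < a * t ^ n := by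
    obtain ⟨n, hn⟩ := pow_unbounded_of_one_lt (4 * Y / a) (by linarith : (1 : ℝ) < t)
    refine ⟨n, ?_⟩
    rw [div_lt_iff₀ ha0] at hn
    linarith
  classical
  set n := Nat.find hex with hn
  have hn1 : 4 * Y < a * t ^ n := Nat.find_spec hex
  have hn2 : t ^ (n + 1) * κ ^ 2 ≤ 4 * Y * a := by
    rcases Nat.eq_zero_or_pos n with h0 | h0
    · rw [h0, zero_add, pow_one]
      have h1 : t * κ ^ 2 = a * κ := by rw [pow_two, ← mul_assoc, hta]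
      rw [h1]
      nlinarith
    · have h1 : ¬ 4 * Y < a * t ^ (n - 1) := Nat.find_min hex (by omega)
      push Not at h1
      have h2 : t ^ (n + 1) = t ^ (n - 1) * t ^ 2 := by
        rw [← pow_add]; congr 1; omega
      have h3 : t ^ 2 * κ ^ 2 = a ^ 2 := by rw [← mul_pow, hta]
      calc t ^ (n + 1) * κ ^ 2 = (a * t ^ (n - 1)) * a := by
            rw [h2]; linear_combination t ^ (n - 1) * h3
        _ ≤ 4 * Y * a := mul_le_mul_of_nonneg_right h1 ha0.le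
  refine ⟨n, hn1, ?_⟩
  have h5 : (κ * a) ^ (n + 1) = t ^ (n + 1) * κ ^ (2 * (n + 1)) := by
    rw [← hta, pow_mul, ← mul_pow]; congr 1; ring
  have h6 : (κ ^ (2 * (n + 1))) ^ 10 ≤ t ^ (n + 1) := by
    have : (κ ^ (2 * (n + 1))) ^ 10 = (κ ^ 20) ^ (n + 1) := by
      rw [← pow_mul, ← pow_mul]; congr 1; ring
    rw [this]
    exact pow_le_pow_left₀ (by positivity) ht20 _
  have h7 : ((κ * a) ^ (n + 1)) ^ 10 ≤ (t ^ (n + 1)) ^ 11 := by
    rw [h5, mul_pow]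
    calc (t ^ (n + 1)) ^ 10 * (κ ^ (2 * (n + 1))) ^ 10 ≤ (t ^ (n + 1)) ^ 10 * t ^ (n + 1) :=
          mul_le_mul_of_nonneg_left h6 (by positivity)
      _ = (t ^ (n + 1)) ^ 11 := by ring
  have h8 : ((κ * a) ^ (n + 1)) ^ 10 * (κ ^ 2) ^ 11 ≤ (4 * Y * a) ^ 11 := by
    calc ((κ * a) ^ (n + 1)) ^ 10 * (κ ^ 2) ^ 11 ≤ (t ^ (n + 1)) ^ 11 * (κ ^ 2) ^ 11 :=
          mul_le_mul_of_nonneg_right h7 (by positivity)
      _ = (t ^ (n + 1) * κ ^ 2) ^ 11 := by rw [mul_pow]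
      _ ≤ (4 * Y * a) ^ 11 := pow_le_pow_left₀ (by positivity) hn2 _
  have h9 : (4 * Y * a) ^ 11 < (a * Y ^ 2 / 4) ^ 10 * (κ ^ 2) ^ 11 := by
    have hk : (4 : ℝ) ^ 21 ≤ (κ ^ 2) ^ 11 := by
      rw [← pow_mul]
      calc (4 : ℝ) ^ 21 ≤ 72 ^ (2 * 11) := by norm_num
        _ ≤ κ ^ (2 * 11) := pow_le_pow_left₀ (by norm_num) hκ _
    have hYa : a < Y ^ 9 := by
      have hY1 : (4 : ℝ) ≤ Y := by linarith
      have h10 : Y ^ 2 ≤ Y ^ 9 := pow_le_pow_right₀ (by linarith) (by norm_num)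
      nlinarith
    have h11 : (4 : ℝ) ^ 21 * a < (κ ^ 2) ^ 11 * Y ^ 9 := by
      calc (4 : ℝ) ^ 21 * a < 4 ^ 21 * Y ^ 9 := mul_lt_mul_of_pos_left hYa (by norm_num)
        _ ≤ (κ ^ 2) ^ 11 * Y ^ 9 := mul_le_mul_of_nonneg_right hk (by positivity)
    have h12 : (4 * Y * a) ^ 11 = ((4 : ℝ) ^ 21 * a) * (Y ^ 11 * a ^ 10 / 4 ^ 10) := by ring
    have h13 : (a * Y ^ 2 / 4) ^ 10 * (κ ^ 2) ^ 11 =
        ((κ ^ 2) ^ 11 * Y ^ 9) * (Y ^ 11 * a ^ 10 / 4 ^ 10) := by ring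
    rw [h12, h13]
    exact mul_lt_mul_of_pos_right h11 (by positivity)
  have h14 : ((κ * a) ^ (n + 1)) ^ 10 < (a * Y ^ 2 / 4) ^ 10 :=
    lt_of_mul_lt_mul_right (h8.trans_lt h9) (by positivity)
  exact lt_of_pow_lt_pow_left₀ 10 (by positivity) h14

theorem thue_unique {q a X Y : ℕ} (hq : 3 ≤ q) (ha : (8 * q ^ 2) ^ 21 ≤ a) (hX : 1 ≤ X)
    (hY : 1 ≤ Y) (h : (a : ℤ) * X ^ q - (a - 1) * Y ^ q = 1 ∨
      (a : ℤ) * X ^ q - (a - 1) * Y ^ q = -1) : X = 1 ∧ Y = 1 := by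
  by_cases hXY : X = Y
  · subst hXY
    have h1 : (a : ℤ) * X ^ q - (a - 1) * X ^ q = X ^ q := by ring
    rw [h1] at h
    have h2 : X ^ q = 1 := by
      rcases h with h | h
      · exact_mod_cast h
      · have : (0 : ℤ) ≤ (X : ℤ) ^ q := by positivity
        omega
    have h3 : X = 1 := by
      rcases Nat.pow_eq_one.1 h2 with h | h
      · exact h
      · omega
    exact ⟨h3, h3⟩
  exfalso
  have hq2 : 9 ≤ q ^ 2 := by nlinarith
  have hκN : 72 ≤ 8 * q ^ 2 := by omega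
  have ha2N : 72 ≤ a := by
    refine le_trans ?_ ha
    calc 72 ≤ 8 * q ^ 2 := hκN
      _ = (8 * q ^ 2) ^ 1 := (pow_one _).symm
      _ ≤ (8 * q ^ 2) ^ 21 := Nat.pow_le_pow_right (by omega) (by norm_num)
  obtain ⟨hθ0, hθ1, hθq, hθ2⟩ := Thue_theta (q := q) (a := a) (by omega) (by omega)
  set θ := theta q a with hθ
  have haR : (72 : ℝ) ≤ a := by exact_mod_cast ha2N
  have ha0 : (0 : ℝ) < a := by linarith
  have hXR : (1 : ℝ) ≤ X := by exact_mod_cast hX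
  have hYR : (1 : ℝ) ≤ Y := by exact_mod_cast hY
  set κ : ℝ := 8 * (q : ℝ) ^ 2 with hκ
  have hκ72 : 72 ≤ κ := by rw [hκ]; exact_mod_cast hκN
  have hκa : κ ^ 21 ≤ a := by rw [hκ]; exact_mod_cast ha
  have hinv : 1 / (a : ℝ) ≤ 1 / 72 := one_div_le_one_div_of_le (by norm_num) haR
  have hinv0 : 0 < 1 / (a : ℝ) := by positivity
  -- step 1
  have hR : |(X : ℝ) ^ q - (θ * Y) ^ q| = 1 / a := by
    have h1 : (a : ℝ) * ((X : ℝ) ^ q - (θ * Y) ^ q) = a * X ^ q - (a - 1) * Y ^ q := by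
      rw [mul_pow, hθq]; field_simp
    have h2 : |(a : ℝ) * ((X : ℝ) ^ q - (θ * Y) ^ q)| = 1 := by
      rw [h1]
      rcases h with h | h
      · have : (a : ℝ) * X ^ q - (a - 1) * Y ^ q = 1 := by exact_mod_cast h
        rw [this, abs_one]
      · have : (a : ℝ) * X ^ q - (a - 1) * Y ^ q = -1 := by exact_mod_cast h
        rw [this, abs_neg, abs_one]
    rw [abs_mul, abs_of_pos ha0] at h2
    rw [eq_div_iff ha0.ne', mul_comm]
    exact h2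
  have hA : |(X : ℝ) - θ * Y| * (Y : ℝ) ^ 2 ≤ 2 / a := by
    have h1 := Thue_pow (x := X) (y := θ * Y) (by linarith) (by positivity) (q := q) (by omega)
    rw [hR] at h1
    have h2 : (Y : ℝ) ^ 2 / 2 ≤ (θ * Y) ^ (q - 1) := by
      rw [mul_pow]
      have h3 : θ ^ q ≤ θ ^ (q - 1) := pow_le_pow_of_le_one hθ0.le hθ1 (by omega)
      have h4 : (1 : ℝ) / 2 ≤ θ ^ (q - 1) := by
        rw [hθq] at h3; linarith
      have h5 : (Y : ℝ) ^ 2 ≤ (Y : ℝ) ^ (q - 1) := pow_le_pow_right₀ hYR (by omega)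
      calc (Y : ℝ) ^ 2 / 2 = 1 / 2 * (Y : ℝ) ^ 2 := by ring
        _ ≤ θ ^ (q - 1) * (Y : ℝ) ^ (q - 1) := mul_le_mul h4 h5 (by positivity) (by positivity)
    have h6 : |(X : ℝ) - θ * Y| * ((Y : ℝ) ^ 2 / 2) ≤ 1 / a :=
      (mul_le_mul_of_nonneg_left h2 (abs_nonneg _)).trans h1
    calc |(X : ℝ) - θ * (Y : ℝ)| * (Y : ℝ) ^ 2 =
          2 * (|(X : ℝ) - θ * (Y : ℝ)| * ((Y : ℝ) ^ 2 / 2)) := by ring
      _ ≤ 2 * (1 / (a : ℝ)) := by linarith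
      _ = 2 / (a : ℝ) := by ring
  -- step 2
  have hYa : (a : ℝ) / 2 ≤ Y := by
    have h1 : (1 : ℝ) ≤ |(X : ℝ) - Y| := by
      have h2 : (1 : ℤ) ≤ |(X : ℤ) - Y| := by
        apply Int.one_le_abs
        intro h3
        apply hXY
        omega
      exact_mod_cast h2
    have h2 : |(X : ℝ) - Y| ≤ |(X : ℝ) - θ * Y| + Y * (1 - θ) := by
      have h3 : (X : ℝ) - Y = ((X : ℝ) - θ * Y) + (-(Y * (1 - θ))) := by ring
      rw [h3]
      refine (abs_add_le _ _).trans ?_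
      have h3' : (0 : ℝ) ≤ Y * (1 - θ) := mul_nonneg (by linarith) (by linarith)
      rw [abs_neg, abs_of_nonneg h3']
    have h4 : |(X : ℝ) - θ * Y| ≤ 2 / a := by
      refine le_trans ?_ hA
      have h5 : (1 : ℝ) ≤ (Y : ℝ) ^ 2 := one_le_pow₀ hYR
      nlinarith [abs_nonneg ((X : ℝ) - θ * Y)]
    have h6 : (Y : ℝ) * (1 - θ) ≤ Y * (1 / a) :=
      mul_le_mul_of_nonneg_left (by linarith) (by linarith)
    have h7 : (1 : ℝ) ≤ 2 / a + Y * (1 / a) := by linarith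
    have h8 : (2 : ℝ) / a + Y * (1 / a) = (2 + Y) / a := by ring
    rw [h8, le_div_iff₀ ha0] at h7
    linarith
  -- step 4, 5
  obtain ⟨n, hn1, hn2⟩ := Thue_numbers hκ72 hκa hYa
  have hκa1 : 1 ≤ κ * a := by nlinarith
  have ht1 : 1 ≤ (a : ℝ) / κ := by
    rw [le_div_iff₀ (by linarith), one_mul]
    refine le_trans ?_ hκa
    calc κ = κ ^ 1 := (pow_one _).symm
      _ ≤ κ ^ 21 := pow_le_pow_right₀ (by linarith) (by norm_num)
  have key : ∀ m : ℕ, n ≤ m → m ≤ n + 1 → QA q a m * X = QB q a m * Y := by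
    intro m h1 h2
    obtain ⟨A, hAz⟩ := QA_int (q := q) (by omega) a m
    obtain ⟨B, hBz⟩ := QB_int (q := q) (by omega) a m
    have hrem := remainder (q := q) (a := a) (n := m) (by omega) (by omega)
    have habs := abs_QA_le (q := q) (a := a) (n := m) (by omega) (by omega)
    rw [hAz] at hrem habs
    rw [hBz] at hrem
    have habs' : |(A : ℝ)| ≤ (κ * a) ^ m := by
      rw [hκ]
      exact_mod_cast habs
    have hrem' : |(A : ℝ) * θ - B| ≤ 2 * (κ / a) ^ m / a := by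
      rw [hκ, hθ]
      simpa using hrem
    have e1 : (A : ℝ) * X - B * Y = A * (X - θ * Y) + Y * (A * θ - B) := by ring
    have h3 : |(A : ℝ) * X - B * Y| ≤ (κ * a) ^ m * |(X : ℝ) - θ * Y| +
        Y * (2 * (κ / a) ^ m / a) := by
      rw [e1]
      refine (abs_add_le _ _).trans ?_
      rw [abs_mul, abs_mul, abs_of_nonneg (by linarith : (0 : ℝ) ≤ Y)]
      exact add_le_add (mul_le_mul_of_nonneg_right habs' (abs_nonneg _))
        (mul_le_mul_of_nonneg_left hrem' (by linarith))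
    have h4 : Y * (2 * (κ / a) ^ m / a) < 1 / 2 := by
      have h5 : (a / κ : ℝ) ^ n ≤ (a / κ) ^ m := pow_le_pow_right₀ ht1 h1
      have h6 : (κ / a : ℝ) ^ m = 1 / (a / κ) ^ m := by
        rw [one_div, ← inv_pow, inv_div]
      rw [h6]
      have h7 : 0 < (a / κ : ℝ) ^ m := by positivity
      have h8 : 4 * (Y : ℝ) < a * (a / κ) ^ m :=
        hn1.trans_le (mul_le_mul_of_nonneg_left h5 ha0.le)
      have h9 : (Y : ℝ) * (2 * (1 / (a / κ) ^ m) / a) = 2 * Y / (a * (a / κ) ^ m) := by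
        field_simp
      rw [h9, div_lt_iff₀ (by positivity)]
      linarith
    have h10 : (κ * a) ^ m * |(X : ℝ) - θ * Y| < 1 / 2 := by
      have h11 : (κ * a) ^ m ≤ (κ * a) ^ (n + 1) := pow_le_pow_right₀ hκa1 h2
      have h12 : (κ * a) ^ m < a * Y ^ 2 / 4 := h11.trans_lt hn2
      rcases (abs_nonneg ((X : ℝ) - θ * Y)).eq_or_lt with h13 | h13
      · rw [← h13]; norm_num
      · calc (κ * a) ^ m * |(X : ℝ) - θ * Y| < a * Y ^ 2 / 4 * |(X : ℝ) - θ * Y| :=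
              mul_lt_mul_of_pos_right h12 h13
          _ = a / 4 * (|(X : ℝ) - θ * Y| * Y ^ 2) := by ring
          _ ≤ a / 4 * (2 / a) := mul_le_mul_of_nonneg_left hA (by positivity)
          _ = 1 / 2 := by field_simp; norm_num
    have h14 : |(A : ℝ) * X - B * Y| < 1 := by linarith
    have h15 : |A * (X : ℤ) - B * Y| < 1 := by exact_mod_cast h14
    have h16 : A * (X : ℤ) - B * Y = 0 := Int.abs_lt_one_iff.1 h15
    have h17 : A * (X : ℤ) = B * Y := by linarith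
    rw [hAz, hBz]
    exact_mod_cast h17
  have k1 := key n le_rfl (by omega)
  have k2 := key (n + 1) (by omega) le_rfl
  have hX0 : (X : ℚ) ≠ 0 := by
    have : X ≠ 0 := by omega
    exact_mod_cast this
  have hY0 : (Y : ℚ) ≠ 0 := by
    have : Y ≠ 0 := by omega
    exact_mod_cast this
  refine det_ne_zero (q := q) (a := a) (by omega) (by omega) n ?_
  apply mul_right_cancel₀ (mul_ne_zero hX0 hY0)
  calc QA q a n * QB q a (n + 1) * ((X : ℚ) * Y) = (QA q a n * X) * (QB q a (n + 1) * Y) := by ring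
    _ = (QB q a n * Y) * (QA q a (n + 1) * X) := by rw [k1, ← k2]
    _ = QA q a (n + 1) * QB q a n * ((X : ℚ) * Y) := by ring

end Pool.Agent.H91.NL
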