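import Pool.Agent.H91.NL.Def
import Pool.Agent.H91.NL.Thue

/-!
JOB NL-13 (for large `|x|` a solution has `n` not `1` mod `q` and `2q` does not divide `n`; about
150-220 lines).

Let `A0 = (8q^2)^21`, `|x| ≥ A0 + 2`, `rep x n = y^q`, so `(x-1) y^q = x^n - 1`.
(1) `n ≡ 1 mod q`: `n = m q + 1`, `m ≥ 1` since `n ≥ 2`.
`x > 0`: `x (x^m)^q - (x-1) y^q = 1`, `y > 0` (as `rep x n > 0` and `q` odd, or `y^q > 0`).
`thue_unique` with `a = x`, `X = x^m`, `Y = y` gives `x^m = 1`, impossible.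
`x = -z < 0`: `T = (-z)^m`: `(z+1) y^q - z T^q = 1` [from `(-z-1) y^q = (-z) T^q - 1`].  If `T > 0`: then
`(z+1) y^q = 1 + z T^q > 0`, `y > 0`; use `a = z+1`, `X = y`, `Y = T`: `Y = T = 1`, impossible (`z ≥ 2`).
If `T < 0`: `(z+1) y^q = 1 - z |T|^q < 0`, `y < 0`, `(z+1) |y|^q - z |T|^q = -1` (`q` odd), again `|T| = 1`.
(2) `2q ∣ n`: write `n = 2^s * (q ν)`, `ν` odd, `s ≥ 1` (`n = 2^s n'`, `n'` odd, `q ∣ n'` as `q` is odd).
`Y0 = x^(qν) = W^q`, `W = x^ν`, `N = 2^s`.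
`rep x n = rep x (qν) * rep Y0 N` (geometric sums: `∑_{i<ab} x^i = (∑_{i<a} x^i)(∑_{j<b} (x^a)^j)`).
`rep x (qν)` is odd: an odd number of terms; if `x` is odd all terms are odd; if `x` is even all but the
first are even.
`gcd (rep x (qν), rep Y0 N)` divides `N`: `Y0 ≡ 1` mod `rep x (qν)` (it divides `(x-1) rep = Y0 - 1`), so
`rep Y0 N ≡ N`.  The gcd is odd and divides `2^s`, so it is 1; the product is the `q`-th power `y^q`,
`q` odd, so `rep Y0 N = g^q` for an integer `g` (`Int.isCoprime_iff_gcd_eq_one`,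
`exists_associated_pow_of_mul_eq_pow`, and a unit of `ℤ` is a `q`-th power as `q` is odd).
`(W^q - 1) g^q = W^(qN) - 1 = W^q (W^(N-1))^q - 1`.
`W > 0`: `a = W^q ≥ A0`, `X = W^(N-1)`, `Y = g > 0`: `a X^q - (a-1) Y^q = 1`, so `W^(N-1) = 1`, impossible as
`N ≥ 2`, `|W| ≥ 2`.
`W = -V < 0`: `W^q = -V^q`, `W^(qN) = V^(qN)` (`N` even): `-(V^q + 1) g^q = V^q (V^(N-1))^q - 1 > 0`, so
`g < 0`, `G = -g`: `(V^q+1) G^q - V^q (V^(N-1))^q = -1`; `thue_unique` with `a = V^q + 1`, `X = G`,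
`Y = V^(N-1)`: `V^(N-1) = 1`, impossible.
-/

namespace Pool.Agent.H91.NL

theorem adm_thue_int {q : ℕ} {a X Y : ℤ} (hq3 : 3 ≤ q) (hqo : Odd q)
    (ha : ((8 * q ^ 2) ^ 21 : ℤ) ≤ a) (hX : X ≠ 0) (hY : Y ≠ 0)
    (h : a * X ^ q - (a - 1) * Y ^ q = 1 ∨ a * X ^ q - (a - 1) * Y ^ q = -1) :
    |X| = 1 ∧ |Y| = 1 := by
  have hq0 : (0 : ℤ) ≤ (8 * (q : ℤ) ^ 2) ^ 21 := by positivity
  have hq1 : (3 : ℤ) ≤ (q : ℤ) := by exact_mod_cast hq3
  have h8 : (3 : ℤ) ≤ (8 * (q : ℤ) ^ 2) ^ 21 := by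
    have h1 : (3 : ℤ) ≤ 8 * (q : ℤ) ^ 2 := by nlinarith
    calc (3 : ℤ) ≤ 8 * (q : ℤ) ^ 2 := h1
      _ = (8 * (q : ℤ) ^ 2) ^ 1 := (pow_one _).symm
      _ ≤ (8 * (q : ℤ) ^ 2) ^ 21 := pow_le_pow_right₀ (by linarith) (by norm_num)
  have ha3 : 3 ≤ a := h8.trans ha
  have haN : (8 * q ^ 2) ^ 21 ≤ a.toNat := by
    zify
    rw [Int.toNat_of_nonneg (by linarith)]
    exact ha
  have haC : ((a.toNat : ℕ) : ℤ) = a := Int.toNat_of_nonneg (by linarith)
  have key : ∀ U V : ℤ, 0 < U → 0 < V →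
      (a * U ^ q - (a - 1) * V ^ q = 1 ∨ a * U ^ q - (a - 1) * V ^ q = -1) → U = 1 ∧ V = 1 := by
    intro U V hU hV hUV
    have hUC : ((U.toNat : ℕ) : ℤ) = U := Int.toNat_of_nonneg hU.le
    have hVC : ((V.toNat : ℕ) : ℤ) = V := Int.toNat_of_nonneg hV.le
    have h1 := thue_unique (q := q) (a := a.toNat) (X := U.toNat) (Y := V.toNat) hq3 haN
      (by omega) (by omega) (by rw [haC, hUC, hVC]; exact hUV)
    constructor
    · rw [← hUC, h1.1]; rfl
    · rw [← hVC, h1.2]; rfl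
  rcases lt_or_gt_of_ne hX with hX' | hX' <;> rcases lt_or_gt_of_ne hY with hY' | hY'
  · -- both negative
    have h1 := key (-X) (-Y) (by linarith) (by linarith) (by
      rw [hqo.neg_pow, hqo.neg_pow]
      rcases h with h | h
      · right; linarith
      · left; linarith)
    rw [abs_of_neg hX', abs_of_neg hY']
    exact h1
  · exfalso
    have h1 : X ^ q ≤ -1 := by
      have : X ^ q < 0 := hqo.pow_neg hX'
      linarith [Int.add_one_le_iff.2 this]
    have h2 : 1 ≤ Y ^ q := by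
      have : 0 < Y ^ q := pow_pos hY' q
      linarith [Int.add_one_le_iff.2 this]
    rcases h with h | h <;> nlinarith
  · exfalso
    have h1 : Y ^ q ≤ -1 := by
      have : Y ^ q < 0 := hqo.pow_neg hY'
      linarith [Int.add_one_le_iff.2 this]
    have h2 : 1 ≤ X ^ q := by
      have : 0 < X ^ q := pow_pos hX' q
      linarith [Int.add_one_le_iff.2 this]
    rcases h with h | h <;> nlinarith
  · have h1 := key X Y hX' hY' h
    rw [abs_of_pos hX', abs_of_pos hY']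
    exact h1

theorem adm_key {q : ℕ} {x T y : ℤ} (hq3 : 3 ≤ q) (hqo : Odd q)
    (hx : ((8 * q ^ 2) ^ 21 + 2 : ℤ) ≤ |x|) (hT : T ≠ 0)
    (h : x * T ^ q - (x - 1) * y ^ q = 1) : |T| = 1 := by
  have hq0 : (0 : ℤ) ≤ (8 * (q : ℤ) ^ 2) ^ 21 := by positivity
  have hy : y ≠ 0 := by
    intro hy
    rw [hy, zero_pow (by omega), mul_zero, sub_zero] at h
    have h1 : x ∣ 1 := Dvd.intro _ h
    have h2 : |x| = 1 := Int.isUnit_iff_abs_eq.1 (isUnit_of_dvd_one h1)
    linarith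
  rcases le_or_gt 0 x with hx0 | hx0
  · rw [abs_of_nonneg hx0] at hx
    exact (adm_thue_int (a := x) hq3 hqo (by linarith) hT hy (Or.inl h)).1
  · rw [abs_of_neg hx0] at hx
    exact (adm_thue_int (a := 1 - x) (X := y) (Y := T) hq3 hqo (by linarith) hy hT
      (Or.inl (by linarith))).2

theorem adm_rep_mul {x : ℤ} (hx : x ≠ 1) (a b : ℕ) :
    rep x (a * b) = rep x a * rep (x ^ a) b := by
  have h0 : x - 1 ≠ 0 := sub_ne_zero.2 hx
  apply mul_left_cancel₀ h0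
  rw [rep_mul, ← mul_assoc, rep_mul, rep_mul, pow_mul]

theorem adm_rep_odd (x : ℤ) (t : ℕ) : Odd (rep x (2 * t + 1)) := by
  induction t with
  | zero => simp [rep]
  | succ t ih =>
    have h1 : rep x (2 * (t + 1) + 1) = rep x (2 * t + 1) + x ^ (2 * t) * (x * (x + 1)) := by
      unfold rep
      rw [show 2 * (t + 1) + 1 = (2 * t + 1) + 1 + 1 by ring, Finset.sum_range_succ,
        Finset.sum_range_succ]
      ring
    rw [h1]
    exact ih.add_even ((Int.even_mul_succ_self x).mul_left _)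

theorem adm_rep_cong (Y : ℤ) (N : ℕ) : ∃ t : ℤ, rep Y N = N + (Y - 1) * t := by
  have h1 : (Y - 1) ∣ rep Y N - N := by
    have h2 : rep Y N - N = ∑ i ∈ Finset.range N, (Y ^ i - 1) := by
      unfold rep
      rw [Finset.sum_sub_distrib]
      simp
    rw [h2]
    apply Finset.dvd_sum
    intro i _
    simpa using sub_dvd_pow_sub_pow Y 1 i
  obtain ⟨t, ht⟩ := h1
  exact ⟨t, by linarith⟩

theorem adm {q n : ℕ} {x y : ℤ} (hq : q.Prime) (hq3 : 3 ≤ q) (hn : 2 ≤ n)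
    (hx : ((8 * q ^ 2) ^ 21 + 2 : ℤ) ≤ |x|) (h : rep x n = y ^ q) :
    ¬ n ≡ 1 [MOD q] ∧ ¬ 2 * q ∣ n := by
  have hqo : Odd q := by
    rcases hq.eq_two_or_odd' with h | h
    · omega
    · exact h
  have hq0 : (0 : ℤ) ≤ (8 * (q : ℤ) ^ 2) ^ 21 := by positivity
  have hx2 : 2 ≤ |x| := by linarith
  have hx0 : x ≠ 0 := by
    intro h0
    rw [h0, abs_zero] at hx2
    linarith
  have hx1 : x ≠ 1 := by
    intro h0
    rw [h0, abs_one] at hx2
    linarith
  have hrep := rep_mul x n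
  rw [h] at hrep
  refine ⟨?_, ?_⟩
  · intro hmod
    have hd : q ∣ n - 1 := (Nat.modEq_iff_dvd' (by omega)).1 hmod.symm
    obtain ⟨m, hm⟩ := hd
    have hnm : n = m * q + 1 := by
      rw [mul_comm]
      omega
    have hm1 : 1 ≤ m := by
      rcases Nat.eq_zero_or_pos m with h0 | h0
      · rw [h0] at hnm
        omega
      · exact h0
    have h1 : x * (x ^ m) ^ q - (x - 1) * y ^ q = 1 := by
      rw [hrep, hnm, pow_succ, pow_mul]
      ring
    have h2 := adm_key hq3 hqo hx (pow_ne_zero m hx0) h1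
    rw [abs_pow] at h2
    have h3 : (1 : ℤ) < |x| ^ m := one_lt_pow₀ (by linarith) (by omega)
    linarith
  · intro hd
    obtain ⟨k, m, hmo, hnm⟩ := Nat.exists_eq_two_pow_mul_odd (n := n) (by omega)
    have hqm : q ∣ m := by
      have h1 : q ∣ 2 ^ k * m := by
        rw [← hnm]
        exact (Dvd.intro_left 2 rfl).trans hd
      refine (Nat.Coprime.dvd_mul_left ?_).1 h1
      apply Nat.Coprime.pow_right
      rw [Nat.coprime_two_right]
      exact hqo
    have hk : 1 ≤ k := by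
      rcases Nat.eq_zero_or_pos k with h0 | h0
      · exfalso
        rw [h0, pow_zero, one_mul] at hnm
        have h2 : 2 ∣ n := (Dvd.intro q rfl).trans hd
        rw [hnm] at h2
        have := Nat.odd_iff.1 hmo
        omega
      · exact h0
    obtain ⟨t, ht⟩ := hmo
    have hoddrep : Odd (rep x m) := by
      rw [ht]
      exact adm_rep_odd x t
    have hmul : rep x m * rep (x ^ m) (2 ^ k) = y ^ q := by
      rw [← adm_rep_mul hx1, mul_comm m, ← hnm, h]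
    have hcop : IsCoprime (rep x m) (rep (x ^ m) (2 ^ k)) := by
      obtain ⟨s, hs⟩ := adm_rep_cong (x ^ m) (2 ^ k)
      rw [hs, ← rep_mul x m, show (((2 ^ k : ℕ) : ℤ) + (x - 1) * rep x m * s) =
        (((2 ^ k : ℕ) : ℤ) + rep x m * ((x - 1) * s)) by ring]
      apply IsCoprime.add_mul_left_right
      push_cast
      apply IsCoprime.pow_right
      obtain ⟨r, hr⟩ := hoddrep
      exact ⟨1, -r, by rw [hr]; ring⟩
    obtain ⟨g, hg⟩ := Int.eq_pow_of_mul_eq_pow_odd_right hcop hqo hmul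
    obtain ⟨ν, hν⟩ := hqm
    have hm0 : 1 ≤ m := by omega
    have hν1 : 1 ≤ ν := by
      rcases Nat.eq_zero_or_pos ν with h0 | h0
      · rw [h0] at hν
        omega
      · exact h0
    have hW : x ^ m = (x ^ ν) ^ q := by rw [hν, ← pow_mul, mul_comm]
    have hN : 2 ≤ 2 ^ k := by
      calc 2 = 2 ^ 1 := rfl
        _ ≤ 2 ^ k := Nat.pow_le_pow_right (by norm_num) hk
    obtain ⟨N, hNN⟩ : ∃ N, 2 ^ k = N + 1 := ⟨2 ^ k - 1, by omega⟩
    have hrep2 := rep_mul (x ^ m) (2 ^ k)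
    rw [hg, hNN] at hrep2
    have h1 : x ^ m * ((x ^ ν) ^ N) ^ q - (x ^ m - 1) * g ^ q = 1 := by
      rw [hrep2]
      have h5 : ((x ^ ν) ^ N) ^ q = (x ^ m) ^ N := by
        rw [hW, ← pow_mul, ← pow_mul, ← pow_mul, ← pow_mul]
        congr 1
        ring
      rw [h5]
      ring
    have hxm : |x| ≤ |x ^ m| := by
      rw [abs_pow]
      exact le_self_pow₀ (by linarith) (by omega)
    have h2 := adm_key hq3 hqo (hx.trans hxm) (pow_ne_zero N (pow_ne_zero ν hx0)) h1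
    rw [← pow_mul, abs_pow] at h2
    have h3 : (1 : ℤ) < |x| ^ (ν * N) := by
      apply one_lt_pow₀ (by linarith)
      apply Nat.mul_ne_zero
      · omega
      · omega
    linarith

end Pool.Agent.H91.NL
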