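import Mathlib

/-!
JOB NL-07 (a vanishing binomial sum, about 60-100 lines).

`Ring.choose A j` (over `ℚ`) is the generalised binomial coefficient.  If `A + B = n` is a natural
number, `k > n` and `g` is a polynomial of degree `≤ n`, then
`∑_{j+i=k} choose A j * choose B i * g(j) = 0`.
Proof.  (1) For `g(j) = choose j t` (natural binomial), `t ≤ n`:
`choose A j * choose j t = choose A t * choose (A-t) (j-t)` for `t ≤ j` (`Ring.choose_smul_choose`), `0`
for `j < t`.  So the sum is `choose A t * ∑_{j'+i=k-t} choose (A-t) j' * choose B i =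
choose A t * choose (A - t + B) (k-t)` (Vandermonde, `Ring.add_choose_eq`) `= choose A t *
choose (n - t) (k - t) = 0` (`Ring.choose_natCast`, `n - t < k - t`).
(2) Every polynomial of degree `≤ n` is a linear combination of the functions `j ↦ choose j t`, `t ≤ n`,
on the naturals: induction on the degree with `j * choose j t = t * choose j t + (t+1) choose j (t+1)`
(so the span of the `choose · t`, `t ≤ d`, contains `j^d`), or Newton's formula
(`shift_eq_sum_fwdDiff_iter`).
-/

namespace Pool.Agent.H91.NL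

theorem Bin_step1 (A B : ℚ) (n k t : ℕ) (hAB : A + B = n) (hk : n < k) (ht : t ≤ n) :
    ∑ ij ∈ Finset.HasAntidiagonal.antidiagonal k,
      Ring.choose A ij.1 * Ring.choose B ij.2 * (Nat.choose ij.1 t : ℚ) = 0 := by
  rw [Finset.Nat.sum_antidiagonal_eq_sum_range_succ_mk]
  have hsplit : k.succ = t + (k - t + 1) := by omega
  rw [hsplit, Finset.sum_range_add]
  have h1 : ∑ x ∈ Finset.range t, Ring.choose A (x, k - x).1 * Ring.choose B (x, k - x).2 *
      (Nat.choose (x, k - x).1 t : ℚ) = 0 := by
    refine Finset.sum_eq_zero ?_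
    intro x hx
    have hx' : x < t := Finset.mem_range.1 hx
    simp [Nat.choose_eq_zero_of_lt hx']
  rw [h1, zero_add]
  have h2 : ∀ x ∈ Finset.range (k - t + 1),
      Ring.choose A (t + x, k - (t + x)).1 * Ring.choose B (t + x, k - (t + x)).2 *
        (Nat.choose (t + x, k - (t + x)).1 t : ℚ) =
      Ring.choose A t * (Ring.choose (A - t) x * Ring.choose B (k - t - x)) := by
    intro x hx
    have hc := Ring.choose_smul_choose A (n := t + x) (k := t) (Nat.le_add_right t x)
    rw [nsmul_eq_mul, Nat.add_sub_cancel_left] at hc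
    have hk2 : k - (t + x) = k - t - x := by omega
    simp only [hk2]
    calc Ring.choose A (t + x) * Ring.choose B (k - t - x) * ((t + x).choose t : ℚ)
        = (((t + x).choose t : ℚ) * Ring.choose A (t + x)) * Ring.choose B (k - t - x) := by ring
      _ = (Ring.choose A t * Ring.choose (A - t) x) * Ring.choose B (k - t - x) := by rw [hc]
      _ = _ := by ring
  rw [Finset.sum_congr rfl h2, ← Finset.mul_sum]
  have h3 : ∑ x ∈ Finset.range (k - t + 1), Ring.choose (A - t) x * Ring.choose B (k - t - x) =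
      Ring.choose (A - t + B) (k - t) := by
    rw [Ring.add_choose_eq (k - t) (Commute.all (A - (t : ℚ)) B),
      Finset.Nat.sum_antidiagonal_eq_sum_range_succ_mk]
  rw [h3]
  have h4 : A - t + B = ((n - t : ℕ) : ℚ) := by
    rw [Nat.cast_sub ht, ← hAB]
    ring
  rw [h4, Ring.choose_natCast, Nat.choose_eq_zero_of_lt (by omega)]
  simp

theorem Bin_step2 (A B : ℚ) (n k : ℕ) (hAB : A + B = n) (hk : n < k) (m : ℕ) :
    ∀ t : ℕ, m + t ≤ n →
    ∑ ij ∈ Finset.HasAntidiagonal.antidiagonal k,
      Ring.choose A ij.1 * Ring.choose B ij.2 * ((ij.1 : ℚ) ^ m * (Nat.choose ij.1 t : ℚ)) = 0 := by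
  induction m with
  | zero =>
    intro t ht
    simpa using Bin_step1 A B n k t hAB hk (by omega)
  | succ m ih =>
    intro t ht
    have e1 := ih t (by omega)
    have e2 := ih (t + 1) (by omega)
    have key : ∀ j : ℕ, (j : ℚ) * (Nat.choose j t : ℚ) =
        (t : ℚ) * (Nat.choose j t : ℚ) + ((t : ℚ) + 1) * (Nat.choose j (t + 1) : ℚ) := by
      intro j
      have h := Nat.choose_succ_right_eq j t
      rcases le_or_gt t j with hj | hj
      · have h' : (Nat.choose j (t + 1) : ℚ) * ((t : ℚ) + 1) =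
            (Nat.choose j t : ℚ) * ((j : ℚ) - t) := by
          have h2 : ((Nat.choose j (t + 1) * (t + 1) : ℕ) : ℚ) = ((Nat.choose j t * (j - t) : ℕ) : ℚ) := by
            rw [h]
          rw [Nat.cast_mul, Nat.cast_mul, Nat.cast_sub hj] at h2
          push_cast at h2
          exact h2
        linear_combination (-1 : ℚ) * h'
      · rw [Nat.choose_eq_zero_of_lt hj, Nat.choose_eq_zero_of_lt (Nat.lt_succ_of_lt hj)]
        simp
    have : ∀ ij ∈ Finset.HasAntidiagonal.antidiagonal k,
        Ring.choose A ij.1 * Ring.choose B ij.2 * ((ij.1 : ℚ) ^ (m + 1) * (Nat.choose ij.1 t : ℚ)) =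
        (t : ℚ) * (Ring.choose A ij.1 * Ring.choose B ij.2 *
          ((ij.1 : ℚ) ^ m * (Nat.choose ij.1 t : ℚ))) +
        ((t : ℚ) + 1) * (Ring.choose A ij.1 * Ring.choose B ij.2 *
          ((ij.1 : ℚ) ^ m * (Nat.choose ij.1 (t + 1) : ℚ))) := by
      intro ij _
      have hk' := key ij.1
      rw [pow_succ]
      linear_combination (Ring.choose A ij.1 * Ring.choose B ij.2 * (ij.1 : ℚ) ^ m) * hk'
    rw [Finset.sum_congr rfl this, Finset.sum_add_distrib, ← Finset.mul_sum, ← Finset.mul_sum,
      e1, e2]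
    simp

theorem choose_sum_zero (A B : ℚ) (n k : ℕ) (hAB : A + B = n) (hk : n < k)
    (g : Polynomial ℚ) (hg : g.natDegree ≤ n) :
    ∑ ij ∈ Finset.HasAntidiagonal.antidiagonal k,
      Ring.choose A ij.1 * Ring.choose B ij.2 * g.eval (ij.1 : ℚ) = 0 := by
  have hev : ∀ x : ℚ, g.eval x = ∑ m ∈ Finset.range (n + 1), g.coeff m * x ^ m := by
    intro x
    exact Polynomial.eval_eq_sum_range' (by omega) x
  have h1 : ∀ ij ∈ Finset.HasAntidiagonal.antidiagonal k,
      Ring.choose A ij.1 * Ring.choose B ij.2 * g.eval (ij.1 : ℚ) =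
      ∑ m ∈ Finset.range (n + 1), g.coeff m * (Ring.choose A ij.1 * Ring.choose B ij.2 *
        ((ij.1 : ℚ) ^ m * (Nat.choose ij.1 0 : ℚ))) := by
    intro ij _
    rw [hev, Finset.mul_sum]
    refine Finset.sum_congr rfl ?_
    intro m _
    rw [Nat.choose_zero_right, Nat.cast_one]
    ring
  rw [Finset.sum_congr rfl h1, Finset.sum_comm]
  refine Finset.sum_eq_zero ?_
  intro m hm
  have hm' : m < n + 1 := Finset.mem_range.1 hm
  rw [← Finset.mul_sum, Bin_step2 A B n k hAB hk m 0 (by omega), mul_zero]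

end Pool.Agent.H91.NL
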