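import Pool.Agent.H91.NL.DetM

/-!
JOB NL-03 (the determinant is divisible by a high power of `M`, about 80-120 lines).

Let `x = (k,l)` be the row, `y` the column, `(r,s) = e y`, `r ≤ R`, `u = s + q (R - r)`.
Multiply the row `(k,l)` by `γ^(q R l)`:
`γ^(qRl) * (α^r γ^s)^l = (α γ^q)^(r l) * γ^(l (s + q (R-r))) = (α γ^q)^(rl) * (γ^l)^u`.
Since `M^n ∣ α γ^q - 1 ∣ (α γ^q)^(rl) - 1`, `(α γ^q)^(rl) = 1 + M^n w`.
Expansion: `choose u k * (γ^l)^u = ∑_{t < T} choose u t * c t (k,l)` for every `T > u`, with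
`c t (k,l) = if k ≤ t then choose t k * γ^(l k) * (γ^l - 1)^(t - k) else 0`
(`choose u t * choose t k = choose u k * choose (u-k) (t-k)` (`Nat.choose_mul`) and
`∑_t choose (u-k) (t-k) (γ^l-1)^(t-k) = (γ^l)^(u-k)` for `k ≤ u` (binomial theorem); for `k > u` both
sides are zero).  `M ∣ γ - 1 ∣ γ^l - 1`, so `M^(t - k) ∣ c t (k,l)`.
So the new determinant has the shape of `det_dvd` with `κ (k,l) = k`, `g y t = choose (u y) t`,
`b x y = w * choose u k * (γ^l)^u`, and is divisible by `M^E`,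
`E = N(N-1)/2 - ∑ κ`, `N = K L`, `∑ κ = L K (K-1)/2`, so `E = K*K*(L*(L-1)/2)` (check: twice:
`KL(KL-1) - LK(K-1) = K^2 L(L-1)`, with `L(L-1)` even).
The new determinant is `∏_{(k,l)} γ^(qRl) * det` (`Matrix.det_mul_row` or `det_mul_column`), and
`γ^(..)` is coprime to `M` (`γ = 1 + M t`: `IsCoprime M γ`), so `M^E` divides `det`
(`IsCoprime.dvd_of_dvd_mul_left`).
-/

namespace Pool.Agent.H91.NL

private theorem BinE_expand (z : ℤ) {u k T : ℕ} (hT : u < T) :
    ∑ t ∈ Finset.range T, (u.choose t : ℤ) *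
      (if k ≤ t then (t.choose k : ℤ) * z ^ k * (z - 1) ^ (t - k) else 0) =
      (u.choose k : ℤ) * z ^ u := by
  rcases lt_or_ge u k with h | h
  · rw [Nat.choose_eq_zero_of_lt h]
    rw [Nat.cast_zero, zero_mul]
    refine Finset.sum_eq_zero fun t _ => ?_
    by_cases hk : k ≤ t
    · rw [Nat.choose_eq_zero_of_lt (h.trans_le hk), Nat.cast_zero, zero_mul]
    · rw [if_neg hk, mul_zero]
  · obtain ⟨d, rfl⟩ := Nat.exists_eq_add_of_le h
    obtain ⟨m, rfl⟩ := Nat.exists_eq_add_of_lt hT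
    have e1 : k + d + m + 1 = k + ((d + 1) + m) := by ring
    rw [e1, Finset.sum_range_add, Finset.sum_range_add]
    have h1 : ∑ t ∈ Finset.range k, ((k + d).choose t : ℤ) *
        (if k ≤ t then (t.choose k : ℤ) * z ^ k * (z - 1) ^ (t - k) else 0) = 0 := by
      refine Finset.sum_eq_zero fun t ht => ?_
      rw [if_neg (not_le.2 (Finset.mem_range.1 ht)), mul_zero]
    have h2 : ∑ j ∈ Finset.range m, ((k + d).choose (k + (d + 1 + j)) : ℤ) *
        (if k ≤ k + (d + 1 + j) then ((k + (d + 1 + j)).choose k : ℤ) * z ^ k *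
          (z - 1) ^ (k + (d + 1 + j) - k) else 0) = 0 := by
      refine Finset.sum_eq_zero fun j _ => ?_
      rw [Nat.choose_eq_zero_of_lt (by omega), Nat.cast_zero, zero_mul]
    rw [h1, h2, zero_add, add_zero]
    have h3 : ∀ j ∈ Finset.range (d + 1), ((k + d).choose (k + j) : ℤ) *
        (if k ≤ k + j then ((k + j).choose k : ℤ) * z ^ k * (z - 1) ^ (k + j - k) else 0) =
        ((k + d).choose k : ℤ) * z ^ k * ((z - 1) ^ j * 1 ^ (d - j) * (d.choose j : ℤ)) := by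
      intro j hj
      have hj' : j ≤ d := Nat.lt_succ_iff.1 (Finset.mem_range.1 hj)
      rw [if_pos (Nat.le_add_right _ _), Nat.add_sub_cancel_left, one_pow, mul_one]
      have h4 : (k + d).choose (k + j) * (k + j).choose k = (k + d).choose k * d.choose j := by
        have h5 := Nat.choose_mul (n := k + d) (k := k + j) (s := k) (Nat.le_add_right _ _)
        rw [Nat.add_sub_cancel_left, Nat.add_sub_cancel_left] at h5
        exact h5
      have h6 : ((k + d).choose (k + j) : ℤ) * ((k + j).choose k : ℤ) =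
          ((k + d).choose k : ℤ) * (d.choose j : ℤ) := by exact_mod_cast h4
      linear_combination (z ^ k * (z - 1) ^ j) * h6
    rw [Finset.sum_congr rfl h3, ← Finset.mul_sum, ← add_pow, sub_add_cancel, pow_add]
    ring

private theorem BinE_two (K L : ℕ) :
    K * L * (K * L - 1) / 2 - ∑ x : Fin K × Fin L, (x.1 : ℕ) = K * K * (L * (L - 1) / 2) := by
  have h1 : ∑ x : Fin K × Fin L, (x.1 : ℕ) = L * (K * (K - 1) / 2) := by
    rw [Fintype.sum_prod_type]
    simp only [Finset.sum_const, Finset.card_univ, Fintype.card_fin, smul_eq_mul]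
    rw [← Finset.mul_sum, Fin.sum_univ_eq_sum_range (fun i => i) K, Finset.sum_range_id]
  rw [h1]
  have hP : 2 * (K * (K - 1) / 2) = K * (K - 1) :=
    Nat.mul_div_cancel' (Nat.even_mul_pred_self K).two_dvd
  have hQ : 2 * (L * (L - 1) / 2) = L * (L - 1) :=
    Nat.mul_div_cancel' (Nat.even_mul_pred_self L).two_dvd
  have h2 : K * L * (K * L - 1) = 2 * (L * (K * (K - 1) / 2) + K * K * (L * (L - 1) / 2)) := by
    have h3 : 2 * (L * (K * (K - 1) / 2) + K * K * (L * (L - 1) / 2)) =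
        L * (2 * (K * (K - 1) / 2)) + K * K * (2 * (L * (L - 1) / 2)) := by ring
    rw [h3, hP, hQ]
    rcases K with _ | a
    · simp
    rcases L with _ | b
    · simp
    have h4 : (a + 1) * (b + 1) - 1 = a * b + a + b := by
      have : (a + 1) * (b + 1) = a * b + a + b + 1 := by ring
      omega
    rw [h4, Nat.add_sub_cancel, Nat.add_sub_cancel]
    ring
  rw [h2, Nat.mul_div_cancel_left _ (by norm_num), Nat.add_sub_cancel_left]

theorem det_pow_dvd {M γ α : ℤ} {q K L R n : ℕ} (hγ : M ∣ γ - 1) (hα : M ^ n ∣ α * γ ^ q - 1)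
    (hn : K * L ≤ n + 1) (e : Fin K × Fin L → ℕ × ℕ) (he : ∀ y, (e y).1 ≤ R) :
    M ^ (K * K * (L * (L - 1) / 2)) ∣ (Matrix.of (fun x y : Fin K × Fin L =>
      (((e y).2 + q * (R - (e y).1)).choose x.1 : ℤ) *
        (α ^ (e y).1 * γ ^ (e y).2) ^ (x.2 : ℕ))).det := by
  classical
  set u : Fin K × Fin L → ℕ := fun y => (e y).2 + q * (R - (e y).1) with hu
  set T : ℕ := (∑ y, u y) + 1 with hT
  have huT : ∀ y, u y < T := fun y =>
    Nat.lt_succ_iff.2 (Finset.single_le_sum (f := u) (fun _ _ => Nat.zero_le _) (Finset.mem_univ y))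
  have hw : ∀ x y : Fin K × Fin L, ∃ w : ℤ,
      (α * γ ^ q) ^ ((e y).1 * (x.2 : ℕ)) = 1 + M ^ n * w := by
    intro x y
    have h1 : α * γ ^ q - 1 ∣ (α * γ ^ q) ^ ((e y).1 * (x.2 : ℕ)) - 1 := by
      have h2 := sub_dvd_pow_sub_pow (α * γ ^ q) 1 ((e y).1 * (x.2 : ℕ))
      rwa [one_pow] at h2
    obtain ⟨w, hw⟩ := hα.trans h1
    exact ⟨w, by linear_combination hw⟩
  choose w hw using hw
  have key := det_dvd (ι := Fin K × Fin L) T n M (fun x => (x.1 : ℕ))
    (fun t x => if (x.1 : ℕ) ≤ t then (t.choose (x.1 : ℕ) : ℤ) * (γ ^ (x.2 : ℕ)) ^ (x.1 : ℕ) *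
      (γ ^ (x.2 : ℕ) - 1) ^ (t - (x.1 : ℕ)) else 0)
    (fun y t => ((u y).choose t : ℤ))
    (fun x y => w x y * (((u y).choose (x.1 : ℕ) : ℤ) * (γ ^ (x.2 : ℕ)) ^ (u y)))
    (by
      rw [Fintype.card_prod, Fintype.card_fin, Fintype.card_fin]
      exact hn)
    (by
      intro t x
      by_cases hk : (x.1 : ℕ) ≤ t
      · rw [if_pos hk]
        apply Dvd.dvd.mul_left
        apply pow_dvd_pow_of_dvd
        refine hγ.trans ?_
        have h2 := sub_dvd_pow_sub_pow γ 1 (x.2 : ℕ)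
        rwa [one_pow] at h2
      · rw [if_neg hk]
        exact dvd_zero _)
  rw [Fintype.card_prod, Fintype.card_fin, Fintype.card_fin, BinE_two] at key
  have hmat : (Matrix.of (fun x y : Fin K × Fin L => ∑ t ∈ Finset.range T,
      ((u y).choose t : ℤ) * (if (x.1 : ℕ) ≤ t then (t.choose (x.1 : ℕ) : ℤ) *
        (γ ^ (x.2 : ℕ)) ^ (x.1 : ℕ) * (γ ^ (x.2 : ℕ) - 1) ^ (t - (x.1 : ℕ)) else 0) +
      M ^ n * (w x y * (((u y).choose (x.1 : ℕ) : ℤ) * (γ ^ (x.2 : ℕ)) ^ (u y))))) =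
      Matrix.of (fun x y : Fin K × Fin L => γ ^ (q * R * (x.2 : ℕ)) *
        (Matrix.of (fun x y : Fin K × Fin L =>
          ((u y).choose (x.1 : ℕ) : ℤ) * (α ^ (e y).1 * γ ^ (e y).2) ^ (x.2 : ℕ))) x y) := by
    ext x y
    rw [Matrix.of_apply, Matrix.of_apply, Matrix.of_apply, BinE_expand _ (huT y)]
    have h1 : ((u y).choose (x.1 : ℕ) : ℤ) * (γ ^ (x.2 : ℕ)) ^ (u y) +
        M ^ n * (w x y * (((u y).choose (x.1 : ℕ) : ℤ) * (γ ^ (x.2 : ℕ)) ^ (u y))) =
        ((u y).choose (x.1 : ℕ) : ℤ) * ((1 + M ^ n * w x y) * (γ ^ (x.2 : ℕ)) ^ (u y)) := by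
      ring
    rw [h1, ← hw x y]
    have h2 : (α * γ ^ q) ^ ((e y).1 * (x.2 : ℕ)) * (γ ^ (x.2 : ℕ)) ^ (u y) =
        γ ^ (q * R * (x.2 : ℕ)) * (α ^ (e y).1 * γ ^ (e y).2) ^ (x.2 : ℕ) := by
      obtain ⟨d, hd⟩ := Nat.exists_eq_add_of_le (he y)
      have h3 : R - (e y).1 = d := by omega
      simp only [hu, h3]
      rw [hd]
      generalize (e y).1 = r
      generalize (e y).2 = s
      generalize (x.2 : ℕ) = l
      ring
    rw [h2]
    ring
  rw [hmat, Matrix.det_mul_column] at key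
  have hcop : IsCoprime M γ := by
    obtain ⟨t, ht⟩ := hγ
    exact ⟨-t, 1, by linear_combination ht⟩
  have hcop2 : IsCoprime (M ^ (K * K * (L * (L - 1) / 2)))
      (∏ x : Fin K × Fin L, γ ^ (q * R * (x.2 : ℕ))) :=
    IsCoprime.prod_right fun x _ => (hcop.pow_left).pow_right
  exact hcop2.dvd_of_dvd_mul_left key

end Pool.Agent.H91.NL
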