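import Mathlib

/-!
JOB NL-19 (counting integers in given residue classes, about 80-120 lines; `count_crt'` in
`Pool/Agent/H16` (grep) proves a similar statement for `range M` and sets of residues in `ℕ`).

Let `M = ∏_{l ∈ P} l`.  (1) The number of `x ∈ [-X, X]` in one residue class mod `M` is at most
`2X/M + 2` (`(2X+1)/M + 1`).  (2) The number of residue classes `a` mod `M` with `a mod l ∈ D l` for all
`l ∈ P` is `∏ #(D l)`: the map `ZMod M → ∏_{l ∈ P} ZMod l` is injective (a number divisible by all `l ∈ P`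
is divisible by `M`, distinct primes: `Finset.prod_primes_dvd`).  So: the map
`x ↦ (x mod l)_{l ∈ P}` from the set of `x` to `Finset.pi P D` (`Finset.card_pi`) has fibres contained in one
residue class mod `M` (`Finset.card_le_mul_card_image` or `card_eq_sum_card_fiberwise`).
-/

namespace Pool.Agent.H91.NL

private theorem Crt_class (M X : ℕ) (hM : 1 ≤ M) (v : ℤ) :
    (((Finset.Ioc (-(X:ℤ) - 1) X).filter fun x => x ≡ v [ZMOD (M:ℤ)]).card : ℝ) ≤
      2 * X / (M : ℝ) + 2 := by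
  have hM0 : (0:ℤ) < (M:ℤ) := by exact_mod_cast hM
  have h1 := Int.Ioc_filter_modEq_card (-(X:ℤ) - 1) (X:ℤ) hM0 v
  have hMq : (0:ℚ) < (M:ℚ) := by exact_mod_cast hM
  have hM1 : (1:ℚ) ≤ (M:ℚ) := by exact_mod_cast hM
  have h2 : ((max (⌊(((X:ℤ):ℚ) - v) / (((M:ℤ):ℤ) : ℚ)⌋ - ⌊((((-(X:ℤ) - 1) : ℤ) : ℚ) - v) / (((M:ℤ):ℤ) : ℚ)⌋) 0 : ℤ) : ℚ) ≤
      2 * X / (M : ℚ) + 2 := by
    rw [Int.cast_max]
    apply max_le
    · rw [Int.cast_sub]
      have a1 := Int.floor_le ((((X:ℤ):ℚ) - v) / (((M:ℤ):ℤ) : ℚ))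
      have a2 := Int.lt_floor_add_one (((((-(X:ℤ) - 1) : ℤ) : ℚ) - v) / (((M:ℤ):ℤ) : ℚ))
      have a3 : (((X:ℤ):ℚ) - v) / (((M:ℤ):ℤ) : ℚ) - ((((-(X:ℤ) - 1) : ℤ) : ℚ) - v) / (((M:ℤ):ℤ) : ℚ) =
          2 * X / (M : ℚ) + 1 / M := by
        push_cast
        field_simp
        ring
      have a4 : 1 / (M:ℚ) ≤ 1 := by
        rw [div_le_one hMq]
        exact hM1
      linarith
    · push_cast
      positivity
  rw [← h1] at h2
  have h3 : ((((Finset.Ioc (-(X:ℤ) - 1) X).filter fun x => x ≡ v [ZMOD (M:ℤ)]).card : ℤ) : ℚ) ≤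
      2 * X / (M : ℚ) + 2 := h2
  have h4 : ((((((Finset.Ioc (-(X:ℤ) - 1) X).filter fun x => x ≡ v [ZMOD (M:ℤ)]).card : ℤ) : ℚ)) : ℝ) ≤
      ((2 * X / (M : ℚ) + 2 : ℚ) : ℝ) := by exact_mod_cast h3
  push_cast at h4
  exact h4

theorem card_crt (P : Finset ℕ) (hP : ∀ l ∈ P, l.Prime) (E : (l : ℕ) → Finset (ZMod l)) (X : ℕ) :
    (({x : ℤ | |x| ≤ (X : ℤ) ∧ ∀ l ∈ P, ((x : ℤ) : ZMod l) ∈ E l}.ncard : ℕ) : ℝ) ≤
      (2 * X / ((∏ l ∈ P, l : ℕ) : ℝ) + 2) * ∏ l ∈ P, ((E l).card : ℝ) := by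
  classical
  set M : ℕ := ∏ l ∈ P, l with hM
  have hM1 : 1 ≤ M := Finset.prod_pos fun l hl => (hP l hl).pos
  set S : Finset ℤ := (Finset.Ioc (-(X:ℤ) - 1) X).filter fun x => ∀ l ∈ P, ((x : ℤ) : ZMod l) ∈ E l
    with hS
  have hSeq : {x : ℤ | |x| ≤ (X : ℤ) ∧ ∀ l ∈ P, ((x : ℤ) : ZMod l) ∈ E l} = (S : Set ℤ) := by
    ext x
    rw [hS, Finset.coe_filter]
    simp only [Set.mem_ofPred_eq, Finset.mem_Ioc]
    rw [abs_le]
    constructor
    · rintro ⟨⟨h1, h2⟩, h3⟩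
      exact ⟨⟨by omega, h2⟩, h3⟩
    · rintro ⟨⟨h1, h2⟩, h3⟩
      exact ⟨⟨by omega, h2⟩, h3⟩
  rw [hSeq, Set.ncard_coe_finset]
  set φ : ℤ → (∀ l ∈ P, ZMod l) := fun x l _ => ((x : ℤ) : ZMod l) with hφ
  have hmaps : (S : Set ℤ).MapsTo φ (Finset.pi P E) := by
    intro x hx
    rw [Finset.mem_coe, Finset.mem_pi]
    intro l hl
    exact (Finset.mem_filter.mp hx).2 l hl
  rw [Finset.card_eq_sum_card_fiberwise hmaps]
  push_cast
  have hfib : ∀ b ∈ Finset.pi P E, (((S.filter fun a => φ a = b).card : ℕ) : ℝ) ≤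
      2 * X / (M : ℝ) + 2 := by
    intro b _
    by_cases hne : (S.filter fun a => φ a = b).Nonempty
    · obtain ⟨v, hv⟩ := hne
      refine le_trans ?_ (Crt_class M X hM1 v)
      have hsub : (S.filter fun a => φ a = b) ⊆
          (Finset.Ioc (-(X:ℤ) - 1) X).filter fun x => x ≡ v [ZMOD (M:ℤ)] := by
        intro x hx
        rw [Finset.mem_filter] at hx hv ⊢
        refine ⟨(Finset.mem_filter.mp hx.1).1, ?_⟩
        have hxv : φ x = φ v := hx.2.trans hv.2.symm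
        have hdvd : ∀ l ∈ P, (l:ℤ) ∣ v - x := by
          intro l hl
          have h1 : ((x : ℤ) : ZMod l) = ((v : ℤ) : ZMod l) := congrFun (congrFun hxv l) hl
          exact (ZMod.intCast_eq_intCast_iff_dvd_sub x v l).mp h1
        rw [Int.modEq_iff_dvd]
        have hnat : M ∣ (v - x).natAbs := by
          rw [hM]
          apply Finset.prod_primes_dvd
          · intro l hl
            exact (hP l hl).prime
          · intro l hl
            exact Int.natCast_dvd.mp (hdvd l hl)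
        exact Int.natCast_dvd.mpr hnat
      exact_mod_cast Finset.card_le_card hsub
    · rw [Finset.not_nonempty_iff_eq_empty] at hne
      rw [hne, Finset.card_empty]
      push_cast
      positivity
  refine (Finset.sum_le_sum hfib).trans ?_
  rw [Finset.sum_const, Finset.card_pi, nsmul_eq_mul]
  push_cast
  rw [mul_comm]

end Pool.Agent.H91.NL
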