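import Mathlib

/-!
Definitions for the Nagell-Ljunggren project NL (MP_023499_nt).
-/

namespace Pool.Agent.H91.NL

/-- number of integers `x` with `|x| ≤ X` in the set `S` -/
noncomputable def cnt (S : Set ℤ) (X : ℕ) : ℕ := Set.ncard {x : ℤ | |x| ≤ (X : ℤ) ∧ x ∈ S}

/-- `1 + x + ... + x^(n-1)` -/
def rep (x : ℤ) (n : ℕ) : ℤ := ∑ i ∈ Finset.range n, x ^ i

theorem rep_mul (x : ℤ) (n : ℕ) : (x - 1) * rep x n = x ^ n - 1 := mul_geom_sum x n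

theorem finite_cnt (S : Set ℤ) (X : ℕ) : {x : ℤ | |x| ≤ (X : ℤ) ∧ x ∈ S}.Finite := by
  refine Set.Finite.subset (Set.finite_Icc (-(X : ℤ)) X) ?_
  intro x hx
  exact abs_le.1 hx.1

theorem cnt_mono {S T : Set ℤ} (h : S ⊆ T) (X : ℕ) : cnt S X ≤ cnt T X :=
  Set.ncard_le_ncard (fun _ hx => ⟨hx.1, h hx.2⟩) (finite_cnt T X)

theorem cnt_union (S T : Set ℤ) (X : ℕ) : cnt (S ∪ T) X ≤ cnt S X + cnt T X := by
  refine le_trans (Set.ncard_le_ncard ?_ ((finite_cnt S X).union (finite_cnt T X)))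
    (Set.ncard_union_le _ _)
  rintro x ⟨h1, h2 | h2⟩
  · exact Or.inl ⟨h1, h2⟩
  · exact Or.inr ⟨h1, h2⟩

end Pool.Agent.H91.NL
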