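import Pool.Agent.H91.CA.DetA

/-!
JOB NL-01 (divisibility of an interpolation determinant, about 100-150 lines; the files
`Pool/Agent/H91/CA/DetT.lean` (theorem `det_two`) and `Pool/Agent/H91/CA/DetA.lean` contain the
same expansion, copy as much as possible from there).

Rows `i`, columns `j`, `N = card ι`.  Proof.  Write the entry `(i,j)` as a sum over `o : Option (Fin T)`
of `G j (some t) i = g j t * c t i`, `G j none i = M^n * b i j`; then
`det = ∑_{f : ι → Option (Fin T)} det (G j (f j) i)_{i,j}`.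
If `f j = f j' = some t` with `j ≠ j'`, two columns are multiples of the vector `c t` and the
determinant is `0`.  Otherwise let `S = {j | f j ≠ none}`, `ν = #S`; the values `t_j` (`j ∈ S`) are
distinct.  `det (..) = ∑_σ sign σ ∏_j G j (f j) (σ j)` and each product is divisible by
`M ^ (∑_{j ∈ S} (t_j - κ (σ j)) + n * (N - ν))` (natural subtraction), and
`∑_{j ∈ S} (t_j - κ (σ j)) ≥ ∑_{j∈S} t_j - ∑_{j∈S} κ (σ j) ≥ ν(ν-1)/2 - ∑_i κ i`
(sum of `ν` distinct naturals; `σ` is injective), while `n (N - ν) ≥ (N-1)(N-ν) ≥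
N(N-1)/2 - ν(ν-1)/2` because `N(N-1) - ν(ν-1) = (N-ν)(N+ν-1) ≤ 2 (N-ν)(N-1)` for `ν ≤ N-1`
(trivial for `ν = N`).  So the exponent is at least `N(N-1)/2 - ∑ κ`.
-/

namespace Pool.Agent.H91.NL

theorem detM_weight {ι : Type*} [Fintype ι] [DecidableEq ι] (T n : ℕ) (f : ι → Option (Fin T))
    (hn : Fintype.card ι ≤ n + 1)
    (hf : ∀ j j', j ≠ j' → ∀ t, f j = some t → f j' ≠ some t) :
    Fintype.card ι * (Fintype.card ι - 1) / 2 ≤
      ∑ j, (match f j with
        | some t => (t : ℕ)
        | none => n) := by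
  classical
  set w : ι → ℕ := fun j => (match f j with
        | some t => (t : ℕ)
        | none => n) with hw
  set v : ι → ℕ := fun j => (match f j with
        | some t => (t : ℕ)
        | none => 0) with hv
  set S : Finset ι := Finset.univ.filter (fun j => f j ≠ none) with hS
  have hinj : Set.InjOn v (S : Set ι) := by
    intro j hj j' hj' h
    by_contra hne
    have h1 : f j ≠ none := by simpa [hS] using hj
    have h2 : f j' ≠ none := by simpa [hS] using hj'
    obtain ⟨t, ht⟩ := Option.ne_none_iff_exists'.1 h1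
    obtain ⟨t', ht'⟩ := Option.ne_none_iff_exists'.1 h2
    simp only [hv, ht, ht'] at h
    have : t = t' := Fin.ext h
    subst this
    exact hf j j' hne t ht ht'
  have h1 := Pool.Agent.H91.CA.detA_sum_nat (S.image v)
  rw [Finset.card_image_of_injOn hinj, Finset.sum_image hinj] at h1
  have h2 : ∑ j ∈ S, (v j : ℝ) = ∑ j ∈ S, (w j : ℝ) := by
    refine Finset.sum_congr rfl fun j hj => ?_
    have h1 : f j ≠ none := by simpa [hS] using hj
    obtain ⟨t, ht⟩ := Option.ne_none_iff_exists'.1 h1
    simp only [hv, hw, ht]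
  have h3 : ∑ j ∈ Sᶜ, (w j : ℝ) = (Sᶜ.card : ℝ) * (n : ℝ) := by
    rw [← nsmul_eq_mul]
    refine Finset.sum_eq_card_nsmul fun j hj => ?_
    have h1 : f j = none := by simpa [hS] using hj
    simp only [hw, h1]
  have h4 : ∑ j, (w j : ℝ) = ∑ j ∈ S, (w j : ℝ) + ∑ j ∈ Sᶜ, (w j : ℝ) :=
    (Finset.sum_add_sum_compl S (fun j => (w j : ℝ))).symm
  have h5 : S.card + Sᶜ.card = Fintype.card ι := Finset.card_add_card_compl S
  have h5' : (S.card : ℝ) + (Sᶜ.card : ℝ) = (Fintype.card ι : ℝ) := by exact_mod_cast h5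
  have hn' : (Fintype.card ι : ℝ) ≤ (n : ℝ) + 1 := by exact_mod_cast hn
  have h6 : (0 : ℝ) ≤ (Sᶜ.card : ℝ) := Nat.cast_nonneg _
  have h7 : (0 : ℝ) ≤ (Sᶜ.card : ℝ) * ((Sᶜ.card : ℝ) - 1) := by
    rcases Nat.eq_zero_or_pos Sᶜ.card with h | h
    · rw [h]
      simp
    · have h8 : (1 : ℝ) ≤ (Sᶜ.card : ℝ) := by exact_mod_cast h
      exact mul_nonneg h6 (by linarith)
  have h8 : (Fintype.card ι : ℝ) * ((Fintype.card ι : ℝ) - 1) ≤ 2 * ∑ j, (w j : ℝ) := by
    rw [h4, h3, ← h2]
    have h9 : (Sᶜ.card : ℝ) * ((Fintype.card ι : ℝ) - 1) ≤ (Sᶜ.card : ℝ) * (n : ℝ) :=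
      mul_le_mul_of_nonneg_left (by linarith) h6
    rw [← h5'] at h9 ⊢
    nlinarith [h1, h7, h9]
  have h9 : Fintype.card ι * (Fintype.card ι - 1) ≤ 2 * ∑ j, w j := by
    rcases Nat.eq_zero_or_pos (Fintype.card ι) with h | h
    · rw [h]
      simp
    · have h10 : ((Fintype.card ι * (Fintype.card ι - 1) : ℕ) : ℝ) ≤
          ((2 * ∑ j, w j : ℕ) : ℝ) := by
        push_cast [Nat.cast_sub h]
        exact h8
      exact_mod_cast h10
  exact Nat.div_le_of_le_mul h9

theorem det_dvd {ι : Type*} [Fintype ι] [DecidableEq ι] (T n : ℕ) (M : ℤ) (κ : ι → ℕ)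
    (c : ℕ → ι → ℤ) (g : ι → ℕ → ℤ) (b : ι → ι → ℤ)
    (hn : Fintype.card ι ≤ n + 1) (hc : ∀ t i, M ^ (t - κ i) ∣ c t i) :
    M ^ (Fintype.card ι * (Fintype.card ι - 1) / 2 - ∑ i, κ i) ∣
      (Matrix.of (fun i j => ∑ t ∈ Finset.range T, g j t * c t i + M ^ n * b i j)).det := by
  classical
  let base : Option (Fin T) → ι → ι → ℤ := fun o j i => match o with
    | some t => c t i
    | none => M ^ n * b i j
  let sc : Option (Fin T) → ι → ℤ := fun o j => match o with
    | some t => g j (t : ℕ)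
    | none => 1
  have hent : ∀ i j, ∑ t ∈ Finset.range T, g j t * c t i + M ^ n * b i j =
      ∑ o : Option (Fin T), sc o j * base o j i := by
    intro i j
    rw [Fintype.sum_option, add_comm]
    simp only [sc, base, one_mul]
    rw [Finset.sum_range]
  have hdet : (Matrix.of (fun i j =>
      ∑ t ∈ Finset.range T, g j t * c t i + M ^ n * b i j)).det =
      ∑ f : ι → Option (Fin T), (∏ j, sc (f j) j) *
        (Matrix.of (fun j i => base (f j) j i)).det := by
    rw [← Matrix.det_transpose]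
    have h1 : (Matrix.of (fun i j =>
        ∑ t ∈ Finset.range T, g j t * c t i + M ^ n * b i j)).transpose =
        (fun j => ∑ o : Option (Fin T), (fun i => sc o j * base o j i)) := by
      funext j i
      simp only [Matrix.transpose_apply, Matrix.of_apply]
      rw [hent i j, Finset.sum_apply]
    rw [h1]
    have h2 := (Matrix.detRowAlternating (n := ι) (R := ℤ)).toMultilinearMap.map_sum
      (fun j (o : Option (Fin T)) => (fun i => sc o j * base o j i))
    have h3 : Matrix.det (fun j => ∑ o : Option (Fin T), (fun i => sc o j * base o j i)) =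
      ∑ f : ι → Option (Fin T), Matrix.det (fun j => (fun i => sc (f j) j * base (f j) j i)) := h2
    rw [h3]
    refine Finset.sum_congr rfl fun f _ => ?_
    exact Matrix.det_mul_column (fun j => sc (f j) j) (Matrix.of (fun j i => base (f j) j i))
  rw [hdet]
  refine Finset.dvd_sum fun f _ => Dvd.dvd.mul_left ?_ _
  by_cases hf : ∀ j j', j ≠ j' → ∀ t, f j = some t → f j' ≠ some t
  · have hwt := detM_weight T n f hn hf
    rw [← Matrix.det_transpose, Matrix.det_apply']
    refine Finset.dvd_sum fun σ _ => Dvd.dvd.mul_left ?_ _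
    have h1 : ∀ j ∈ (Finset.univ : Finset ι), M ^ ((match f j with
        | some t => (t : ℕ) - κ (σ j)
        | none => n) : ℕ) ∣ (Matrix.of (fun j i => base (f j) j i)).transpose (σ j) j := by
      intro j _
      rw [Matrix.transpose_apply, Matrix.of_apply]
      rcases hfj : f j with _ | t
      · simp only [base]
        exact Dvd.intro _ rfl
      · simp only [base]
        exact hc _ _
    have h2 := Finset.prod_dvd_prod_of_dvd _ _ h1
    rw [Finset.prod_pow_eq_pow_sum] at h2
    refine (pow_dvd_pow M ?_).trans h2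
    have h3 : ∑ i, κ i = ∑ j, κ (σ j) := (Equiv.sum_comp σ κ).symm
    rw [h3, Nat.sub_le_iff_le_add, ← Finset.sum_add_distrib]
    refine hwt.trans (Finset.sum_le_sum fun j _ => ?_)
    rcases hfj : f j with _ | t
    · exact Nat.le_add_right _ _
    · simp only []
      omega
  · push Not at hf
    obtain ⟨j, j', hjj, t, h1, h2⟩ := hf
    have h3 : (Matrix.of (fun j i => base (f j) j i)).det = 0 := by
      refine Matrix.det_zero_of_row_eq hjj ?_
      funext i
      simp only [Matrix.of_apply, base, h1, h2]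
    rw [h3]
    exact dvd_zero _

end Pool.Agent.H91.NL
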