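import Pool.Agent.H16.Mertens

/-!
JOB NL-22 (numbers with a large smooth part, about 100-150 lines).

`sm m y = ∏_{p ∣ m, p ≤ y} p^(v_p m)` is the `y`-smooth part of `m`.
`log (sm m y) = ∑_{p ≤ y} v_p(m) log p` and
`∑_{1≤m≤X} log (sm m y) = ∑_{p ≤ y} log p ∑_{j≥1} ⌊X/p^j⌋ ≤ X ∑_{p≤y} log p/(p-1)`.
[`∑_{m ≤ X} v_p(m) = v_p(X!)` and `v_p(X!) ≤ X/(p-1)` (`Nat.Prime.sub_one_mul_padicValNat_factorial` /
Legendre).]
`∑_{p≤y} log p/(p-1) ≤ ∑_{p ≤ y} log p/p + ∑_p log p/(p(p-1)) ≤ log y + C1`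
(`mA_le` of `Pool/Agent/H16/Mertens.lean` bounds `∑_{p≤n} log p/p ≤ log n + log 4`; the second sum is
bounded, `telescoping_bound` there).  With `y = ⌊X^β⌋₊`: `∑ ≤ X (β log X + C)`.
Markov: if `sm m y > X^(√β)` then `log sm > √β log X`, so the number of such `m` is at most
`X (β log X + C)/(√β log X) = (√β + C/(√β log X)) X`.
-/

namespace Pool.Agent.H91.NL

/-- the part of `m` composed of the primes `≤ y` -/
def sm (m y : ℕ) : ℕ := ∏ p ∈ m.primeFactors.filter (fun p => p ≤ y), p ^ m.factorization p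

theorem EA_pos (m y : ℕ) : 0 < sm m y := by
  refine Finset.prod_pos fun p hp => ?_
  rw [Finset.mem_filter, Nat.mem_primeFactors] at hp
  exact pow_pos hp.1.1.pos _

theorem EA_log_sm (m y : ℕ) : Real.log (sm m y) =
    ∑ p ∈ Nat.primesLE y, (m.factorization p : ℝ) * Real.log p := by
  unfold sm
  rw [Nat.cast_prod, Real.log_prod]
  · have h1 : ∑ i ∈ m.primeFactors.filter (fun p => p ≤ y),
        Real.log ((i ^ m.factorization i : ℕ) : ℝ) =
        ∑ i ∈ m.primeFactors.filter (fun p => p ≤ y),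
          (m.factorization i : ℝ) * Real.log i := by
      refine Finset.sum_congr rfl fun i _ => ?_
      rw [Nat.cast_pow, Real.log_pow]
    rw [h1]
    apply Finset.sum_subset
    · intro p hp
      rw [Finset.mem_filter, Nat.mem_primeFactors] at hp
      rw [Nat.mem_primesLE]
      exact ⟨hp.2, hp.1.1⟩
    · intro p hp hp2
      rw [Nat.mem_primesLE] at hp
      have h2 : p ∉ m.primeFactors := by
        intro h3
        exact hp2 (Finset.mem_filter.2 ⟨h3, hp.1⟩)
      rw [← Nat.support_factorization, Finsupp.notMem_support_iff] at h2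
      rw [h2]
      simp
  · intro p hp
    rw [Finset.mem_filter, Nat.mem_primeFactors] at hp
    exact_mod_cast (pow_pos hp.1.1.pos _).ne'

theorem EA_val (p X : ℕ) : ∑ m ∈ Finset.Icc 1 X, m.factorization p =
    X.factorial.factorization p := by
  induction X with
  | zero => simp
  | succ n ih =>
    rw [Finset.sum_Icc_succ_top (by omega), ih, Nat.factorial_succ,
      Nat.factorization_mul (by omega) (Nat.factorial_ne_zero n), Finsupp.add_apply, add_comm]

theorem EA_leg {p : ℕ} (hp : p.Prime) (X : ℕ) :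
    (X.factorial.factorization p : ℝ) ≤ X / ((p : ℝ) - 1) := by
  have : Fact p.Prime := ⟨hp⟩
  have h := sub_one_mul_padicValNat_factorial (p := p) X
  rw [← Nat.factorization_def _ hp] at h
  have h1 : (p - 1) * X.factorial.factorization p ≤ X := by omega
  have h2 : ((p : ℝ) - 1) * X.factorial.factorization p ≤ X := by
    have h3 : (((p - 1 : ℕ) : ℝ)) * X.factorial.factorization p ≤ X := by exact_mod_cast h1
    rwa [Nat.cast_sub hp.one_lt.le, Nat.cast_one] at h3
  have h4 : (0 : ℝ) < (p : ℝ) - 1 := by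
    have : (1 : ℝ) < p := by exact_mod_cast hp.one_lt
    linarith
  rw [le_div_iff₀ h4]
  linarith

theorem EA_mertens {y : ℕ} (hy : 1 ≤ y) :
    ∑ p ∈ Nat.primesLE y, Real.log p / ((p : ℝ) - 1) ≤ Real.log y + Real.log 4 + 2 := by
  have h1 : ∑ p ∈ Nat.primesLE y, Real.log p / ((p : ℝ) - 1) =
      Pool.Agent.H16.mA y + ∑ p ∈ Nat.primesLE y, Real.log p / ((p : ℝ) * (p - 1)) := by
    unfold Pool.Agent.H16.mA
    rw [← Finset.sum_add_distrib]
    refine Finset.sum_congr rfl fun p hp => ?_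
    rw [Nat.mem_primesLE] at hp
    have h2 : (1 : ℝ) < p := by exact_mod_cast hp.2.one_lt
    have h3 : (p : ℝ) - 1 ≠ 0 := by linarith
    have h4 : (p : ℝ) ≠ 0 := by linarith
    field_simp
    ring
  have h2 : ∑ p ∈ Nat.primesLE y, Real.log p / ((p : ℝ) * (p - 1)) ≤
      ∑ k ∈ Finset.Ioc 1 y, Real.log k / ((k : ℝ) * (k - 1)) := by
    refine Finset.sum_le_sum_of_subset_of_nonneg ?_ ?_
    · intro p hp
      rw [Nat.mem_primesLE] at hp
      rw [Finset.mem_Ioc]
      exact ⟨hp.2.one_lt, hp.1⟩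
    · intro k hk _
      rw [Finset.mem_Ioc] at hk
      have h3 : (1 : ℝ) < k := by exact_mod_cast hk.1
      have h4 : 0 ≤ Real.log k := Real.log_nonneg h3.le
      have h5 : 0 < (k : ℝ) * (k - 1) := mul_pos (by linarith) (by linarith)
      positivity
  have h3 := Pool.Agent.H16.telescoping_bound y hy
  have h4 := Pool.Agent.H16.mA_le y hy
  have h5 : 0 ≤ (Real.log y + 2) / y := by
    have : 0 ≤ Real.log y := Real.log_natCast_nonneg y
    positivity
  rw [h1]
  linarith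

theorem EA_sum {y : ℕ} (hy : 1 ≤ y) (X : ℕ) :
    ∑ m ∈ Finset.Icc 1 X, Real.log (sm m y) ≤ X * (Real.log y + Real.log 4 + 2) := by
  have h1 : ∑ m ∈ Finset.Icc 1 X, Real.log (sm m y) =
      ∑ p ∈ Nat.primesLE y, (X.factorial.factorization p : ℝ) * Real.log p := by
    have h2 : ∀ m ∈ Finset.Icc 1 X, Real.log (sm m y) =
        ∑ p ∈ Nat.primesLE y, (m.factorization p : ℝ) * Real.log p := fun m _ => EA_log_sm m y
    rw [Finset.sum_congr rfl h2, Finset.sum_comm]
    refine Finset.sum_congr rfl fun p _ => ?_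
    rw [← Finset.sum_mul, ← EA_val p X, Nat.cast_sum]
  rw [h1]
  calc ∑ p ∈ Nat.primesLE y, (X.factorial.factorization p : ℝ) * Real.log p
      ≤ ∑ p ∈ Nat.primesLE y, (X : ℝ) * (Real.log p / ((p : ℝ) - 1)) := by
        refine Finset.sum_le_sum fun p hp => ?_
        rw [Nat.mem_primesLE] at hp
        have h3 := mul_le_mul_of_nonneg_right (EA_leg hp.2 X) (Real.log_natCast_nonneg p)
        calc (X.factorial.factorization p : ℝ) * Real.log p
            ≤ (X : ℝ) / ((p : ℝ) - 1) * Real.log p := h3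
          _ = (X : ℝ) * (Real.log p / ((p : ℝ) - 1)) := by ring
    _ = (X : ℝ) * ∑ p ∈ Nat.primesLE y, Real.log p / ((p : ℝ) - 1) := by
        rw [Finset.mul_sum]
    _ ≤ X * (Real.log y + Real.log 4 + 2) :=
        mul_le_mul_of_nonneg_left (EA_mertens hy) (Nat.cast_nonneg X)

theorem smooth_part : ∃ C : ℝ, 0 < C ∧ ∀ β : ℝ, 0 < β → β ≤ 1 → ∀ X : ℕ, 2 ≤ X →
    (({m : ℕ | 1 ≤ m ∧ m ≤ X ∧ (X : ℝ) ^ √β < (sm m ⌊(X : ℝ) ^ β⌋₊ : ℝ)}.ncard : ℕ) : ℝ) ≤
      (√β + C / (√β * Real.log X)) * X := by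
  have h4 : 0 < Real.log 4 := Real.log_pos (by norm_num)
  refine ⟨Real.log 4 + 2, by linarith, fun β hβ _ X hX => ?_⟩
  have hX1 : (1 : ℝ) < X := by exact_mod_cast (by omega : 1 < X)
  have hX0 : (0 : ℝ) < X := by linarith
  have hlog : 0 < Real.log X := Real.log_pos hX1
  have hsb : 0 < √β := Real.sqrt_pos.2 hβ
  have hpow : 1 ≤ (X : ℝ) ^ β := Real.one_le_rpow hX1.le hβ.le
  have hy : 1 ≤ ⌊(X : ℝ) ^ β⌋₊ := Nat.le_floor (by exact_mod_cast hpow)
  have hylog : Real.log (⌊(X : ℝ) ^ β⌋₊ : ℝ) ≤ β * Real.log X := by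
    have h5 : ((⌊(X : ℝ) ^ β⌋₊ : ℕ) : ℝ) ≤ (X : ℝ) ^ β := Nat.floor_le (by positivity)
    have h6 := Real.log_le_log (by exact_mod_cast hy) h5
    rwa [Real.log_rpow hX0] at h6
  have hsum := EA_sum hy X
  set y := ⌊(X : ℝ) ^ β⌋₊ with hydef
  have hset : {m : ℕ | 1 ≤ m ∧ m ≤ X ∧ (X : ℝ) ^ √β < (sm m y : ℝ)} =
      ((Finset.Icc 1 X).filter (fun m => √β * Real.log X < Real.log (sm m y)) : Set ℕ) := by
    ext m
    rw [Finset.coe_filter, Set.mem_ofPred_eq, Set.mem_ofPred_eq, Finset.mem_Icc, and_assoc]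
    refine and_congr_right fun _ => and_congr_right fun _ => ?_
    have h5 : (0 : ℝ) < (X : ℝ) ^ √β := by positivity
    have h6 : (0 : ℝ) < (sm m y : ℝ) := by exact_mod_cast EA_pos m y
    rw [← Real.log_lt_log_iff h5 h6, Real.log_rpow hX0]
  rw [hset, Set.ncard_coe_finset]
  set S := (Finset.Icc 1 X).filter (fun m => √β * Real.log X < Real.log (sm m y)) with hS
  have h7 : (S.card : ℝ) * (√β * Real.log X) ≤ ∑ m ∈ Finset.Icc 1 X, Real.log (sm m y) := by
    calc (S.card : ℝ) * (√β * Real.log X) = ∑ _m ∈ S, √β * Real.log X := by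
          rw [Finset.sum_const, nsmul_eq_mul]
      _ ≤ ∑ m ∈ S, Real.log (sm m y) := by
          refine Finset.sum_le_sum fun m hm => ?_
          rw [hS, Finset.mem_filter] at hm
          exact hm.2.le
      _ ≤ ∑ m ∈ Finset.Icc 1 X, Real.log (sm m y) := by
          refine Finset.sum_le_sum_of_subset_of_nonneg (Finset.filter_subset _ _) fun m _ _ => ?_
          exact Real.log_natCast_nonneg _
  have h8 : (S.card : ℝ) * (√β * Real.log X) ≤ X * (β * Real.log X + (Real.log 4 + 2)) := by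
    refine h7.trans (hsum.trans ?_)
    refine mul_le_mul_of_nonneg_left ?_ hX0.le
    linarith
  have h9 : √β * √β = β := Real.mul_self_sqrt hβ.le
  have h10 : (√β + (Real.log 4 + 2) / (√β * Real.log X)) * X =
      X * (β * Real.log X + (Real.log 4 + 2)) / (√β * Real.log X) := by
    have h11 : √β ≠ 0 := hsb.ne'
    field_simp
    rw [Real.sq_sqrt hβ.le]
    ring
  rw [h10, le_div_iff₀ (mul_pos hsb hlog)]
  exact h8

end Pool.Agent.H91.NL
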