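import Pool.Agent.H90.PNT
import Pool.Agent.H91.NL.EA

/-!
JOB NL-23 (few integers have at most one prime factor `> X^β`, about 150-200 lines).

Let `0 < β ≤ 1/4`, `s = √β ≤ 1/2`, `y = ⌊X^β⌋₊`, `X` large.  Let `1 ≤ m ≤ X` without two distinct prime
factors `> X^β`.  `m = sm m y * B`, `B = ∏` of the prime powers `p^(v_p m)`, `p > y` (a prime `p` is `> y`
iff `p > X^β`), so `B = 1` or `B = p^v` for one prime `p > X^β`.
(i) `sm m y > X^s`: at most `(s + C/(s log X)) X ≤ 2 s X` such `m` (`smooth_part`).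
(ii) `B = 1`, `sm m y ≤ X^s`: at most `X^s` such `m` (`m = sm m y`).
(iii) `v ≥ 2`: `p^2 ∣ m` for some prime `p > X^β`: at most `∑_{p > X^β} X/p^2 ≤ 2 X/X^β`.
(iv) `m = a p`, `a = sm m y ≤ X^s`, `p ≤ X/a`: at most `∑_{a ≤ X^s} π(X/a)`; `X/a ≥ X^(1/2)`, so
`π(X/a) ≤ 2 (X/a)/log(X/a) ≤ 4 (X/a)/log X` for large `X` (`tendsto_primeCounting` of
`Pool/Agent/H90/PNT.lean`, or any Chebyshev upper bound of Mathlib), and the sum is at most
`4 X (1 + s log X)/log X ≤ 8 s X` for large `X`.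
Total `≤ 12 s X` for large `X`.
-/

namespace Pool.Agent.H91.NL

open Finset

lemma EB_one_le_sm (m y : ℕ) : 1 ≤ sm m y := by
  unfold sm
  refine Finset.one_le_prod' fun p hp => ?_
  have := (Nat.prime_of_mem_primeFactors (Finset.mem_filter.1 hp).1).pos
  exact Nat.one_le_pow _ _ this

/-- numbers divisible by the square of some `k > y` -/
def EB_FC (X y : ℕ) : Finset ℕ :=
  (Ioc y X).biUnion fun k => (Ioc 0 X).filter fun m => k ^ 2 ∣ m

/-- numbers `a * p` -/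
def EB_FD (X A : ℕ) : Finset ℕ :=
  (Icc 1 A).biUnion fun a => ((range (X / a + 1)).filter Nat.Prime).image fun p => a * p

lemma EB_cover {X y m A : ℕ} (h1 : 1 ≤ m) (hX : m ≤ X)
    (h2 : ¬ ∃ p1 p2 : ℕ, p1.Prime ∧ p2.Prime ∧ p1 ≠ p2 ∧ p1 ∣ m ∧ p2 ∣ m ∧ y < p1 ∧ y < p2)
    (hA : sm m y ≤ A) : m ∈ Icc 1 A ∪ EB_FC X y ∪ EB_FD X A := by
  have hm0 : m ≠ 0 := by omega
  have ha1 := EB_one_le_sm m y
  have hprod : sm m y * ∏ p ∈ m.primeFactors.filter (fun p => ¬ p ≤ y), p ^ m.factorization p = m := by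
    unfold sm
    rw [Finset.prod_filter_mul_prod_filter_not]
    exact Nat.prod_factorization_pow_eq_self hm0
  have hcard : (m.primeFactors.filter (fun p => ¬ p ≤ y)).card ≤ 1 := by
    rw [Finset.card_le_one]
    intro p hp q hq
    by_contra hne
    rw [Finset.mem_filter] at hp hq
    exact h2 ⟨p, q, Nat.prime_of_mem_primeFactors hp.1, Nat.prime_of_mem_primeFactors hq.1, hne,
      Nat.dvd_of_mem_primeFactors hp.1, Nat.dvd_of_mem_primeFactors hq.1, by omega, by omega⟩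
  rcases Finset.card_le_one_iff_subset_singleton.1 hcard with ⟨p, hp⟩
  by_cases hpm : p ∈ m.primeFactors.filter (fun p => ¬ p ≤ y)
  · have heq : m.primeFactors.filter (fun p => ¬ p ≤ y) = {p} :=
      Finset.Subset.antisymm hp (Finset.singleton_subset_iff.2 hpm)
    rw [heq, Finset.prod_singleton] at hprod
    rw [Finset.mem_filter] at hpm
    have hpp := Nat.prime_of_mem_primeFactors hpm.1
    have hdv := Nat.dvd_of_mem_primeFactors hpm.1
    have hv : 1 ≤ m.factorization p :=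
      (hpp.dvd_iff_one_le_factorization hm0).1 hdv
    have hpX : p ≤ X := (Nat.le_of_dvd (by omega) hdv).trans hX
    rcases Nat.lt_or_ge (m.factorization p) 2 with hlt | hge
    · have hv1 : m.factorization p = 1 := by omega
      rw [hv1, pow_one] at hprod
      refine Finset.mem_union_right _ ?_
      unfold EB_FD
      rw [Finset.mem_biUnion]
      refine ⟨sm m y, Finset.mem_Icc.2 ⟨ha1, hA⟩, ?_⟩
      rw [Finset.mem_image]
      refine ⟨p, ?_, hprod⟩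
      rw [Finset.mem_filter, Finset.mem_range]
      refine ⟨Nat.lt_succ_of_le ?_, hpp⟩
      rw [Nat.le_div_iff_mul_le (by omega), mul_comm, hprod]
      exact hX
    · refine Finset.mem_union_left _ (Finset.mem_union_right _ ?_)
      unfold EB_FC
      rw [Finset.mem_biUnion]
      refine ⟨p, Finset.mem_Ioc.2 ⟨by omega, hpX⟩, ?_⟩
      rw [Finset.mem_filter, Finset.mem_Ioc]
      refine ⟨⟨by omega, hX⟩, ?_⟩
      have : p ^ 2 ∣ p ^ m.factorization p := pow_dvd_pow p hge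
      refine this.trans ?_
      conv_rhs => rw [← hprod]
      exact Dvd.intro_left _ rfl
  · have heq : m.primeFactors.filter (fun p => ¬ p ≤ y) = ∅ := by
      rcases Finset.subset_singleton_iff.1 hp with h | h
      · exact h
      · rw [h] at hpm
        exact absurd (Finset.mem_singleton_self p) hpm
    rw [heq, Finset.prod_empty, mul_one] at hprod
    refine Finset.mem_union_left _ (Finset.mem_union_left _ ?_)
    rw [Finset.mem_Icc]
    exact ⟨h1, hprod ▸ hA⟩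

lemma EB_card_FC {X y : ℕ} (hy : 1 ≤ y) (hyX : y ≤ X) : ((EB_FC X y).card : ℝ) ≤ X / y := by
  have h1 : (EB_FC X y).card ≤ ∑ k ∈ Ioc y X, X / k ^ 2 := by
    refine Finset.card_biUnion_le.trans (Finset.sum_le_sum fun k _ => ?_)
    rw [Nat.Ioc_filter_dvd_card_eq_div]
  have h2 : ((EB_FC X y).card : ℝ) ≤ ((∑ k ∈ Ioc y X, X / k ^ 2 : ℕ) : ℝ) := by exact_mod_cast h1
  refine h2.trans ?_
  rw [Nat.cast_sum]
  have h3 : ∀ k ∈ Ioc y X, ((X / k ^ 2 : ℕ) : ℝ) ≤ X * ((k : ℝ) ^ 2)⁻¹ := by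
    intro k _
    refine (Nat.cast_div_le).trans (le_of_eq ?_)
    push_cast
    rw [div_eq_mul_inv]
  refine (Finset.sum_le_sum h3).trans ?_
  rw [← Finset.mul_sum, div_eq_mul_inv]
  refine mul_le_mul_of_nonneg_left ?_ (Nat.cast_nonneg _)
  refine (sum_Ioc_inv_sq_le_sub (by omega) hyX).trans ?_
  have : (0 : ℝ) ≤ (X : ℝ)⁻¹ := by positivity
  linarith

lemma EB_card_FD (X A : ℕ) (c : ℝ)
    (h : ∀ a ∈ Icc 1 A, ((Nat.primeCounting (X / a) : ℕ) : ℝ) ≤ c * (a : ℝ)⁻¹) (hc : 0 ≤ c) :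
    ((EB_FD X A).card : ℝ) ≤ c * (1 + Real.log A) := by
  have h1 : (EB_FD X A).card ≤ ∑ a ∈ Icc 1 A, Nat.primeCounting (X / a) := by
    refine Finset.card_biUnion_le.trans (Finset.sum_le_sum fun a _ => ?_)
    refine Finset.card_image_le.trans (le_of_eq ?_)
    rw [Nat.primeCounting, Nat.primeCounting', Nat.count_eq_card_filter_range]
  have h2 : ((EB_FD X A).card : ℝ) ≤ ((∑ a ∈ Icc 1 A, Nat.primeCounting (X / a) : ℕ) : ℝ) := by
    exact_mod_cast h1
  refine h2.trans ?_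
  rw [Nat.cast_sum]
  refine (Finset.sum_le_sum h).trans ?_
  rw [← Finset.mul_sum]
  refine mul_le_mul_of_nonneg_left ?_ hc
  have h3 := harmonic_le_one_add_log A
  rw [harmonic_eq_sum_Icc] at h3
  push_cast at h3
  exact h3

theorem few_large : ∃ C : ℝ, 0 < C ∧ ∀ β : ℝ, 0 < β → β ≤ 1 / 4 → ∃ X0 : ℕ, ∀ X ≥ X0,
    (({m : ℕ | 1 ≤ m ∧ m ≤ X ∧ ¬ ∃ p1 p2 : ℕ, p1.Prime ∧ p2.Prime ∧ p1 ≠ p2 ∧ p1 ∣ m ∧ p2 ∣ m ∧
      (X : ℝ) ^ β < p1 ∧ (X : ℝ) ^ β < p2}.ncard : ℕ) : ℝ) ≤ C * √β * X := by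
  obtain ⟨C1, hC1, hsm⟩ := smooth_part
  refine ⟨12, by norm_num, fun β hβ hβ4 => ?_⟩
  set s : ℝ := √β with hs
  have hs0 : 0 < s := Real.sqrt_pos.2 hβ
  have hs2 : s ≤ 1 / 2 := by
    rw [hs, show (1 / 2 : ℝ) = √(1 / 4) by
      rw [show (1 / 4 : ℝ) = (1 / 2) ^ 2 by norm_num, Real.sqrt_sq (by norm_num)]]
    exact Real.sqrt_le_sqrt hβ4
  -- the prime number theorem
  have hpnt : ∀ᶠ x : ℝ in Filter.atTop, (Nat.primeCounting ⌊x⌋₊ : ℝ) ≤ 2 * (x / Real.log x) := by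
    have h1 := Pool.Agent.H90.tendsto_primeCounting.eventually (gt_mem_nhds one_lt_two)
    filter_upwards [h1, Filter.eventually_gt_atTop 1] with x hx hx1
    have hpos : 0 < x / Real.log x := div_pos (by linarith) (Real.log_pos hx1)
    rw [div_lt_iff₀ hpos] at hx
    exact hx.le
  obtain ⟨x0, hx0⟩ := Filter.eventually_atTop.1 hpnt
  have hcast : Filter.Tendsto (fun X : ℕ => (X : ℝ)) Filter.atTop Filter.atTop :=
    tendsto_natCast_atTop_atTop
  have hlog : Filter.Tendsto (fun X : ℕ => Real.log (X : ℝ)) Filter.atTop Filter.atTop :=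
    Real.tendsto_log_atTop.comp hcast
  have hpow : ∀ r : ℝ, 0 < r → Filter.Tendsto (fun X : ℕ => (X : ℝ) ^ r) Filter.atTop Filter.atTop :=
    fun r hr => (tendsto_rpow_atTop hr).comp hcast
  obtain ⟨X0, hX0⟩ := Filter.eventually_atTop.1
    ((Filter.eventually_ge_atTop 2).and
      ((hlog.eventually (Filter.eventually_ge_atTop (C1 / s ^ 2))).and
      ((hlog.eventually (Filter.eventually_ge_atTop (1 / s))).and
      (((hpow (1 / 2) (by norm_num)).eventually (Filter.eventually_ge_atTop (max x0 (1 / s)))).and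
      ((hpow β hβ).eventually (Filter.eventually_ge_atTop (max 1 (2 / s))))))))
  refine ⟨X0, fun X hX => ?_⟩
  obtain ⟨e0, e1, e2, e3, e4⟩ := hX0 X hX
  have hXpos : (0 : ℝ) < X := by
    have : 0 < X := by omega
    exact_mod_cast this
  have hX1 : (1 : ℝ) ≤ X := by
    have : 1 ≤ X := by omega
    exact_mod_cast this
  have e4a : (1 : ℝ) ≤ (X : ℝ) ^ β := (le_max_left _ _).trans e4
  have e4b : 2 / s ≤ (X : ℝ) ^ β := (le_max_right _ _).trans e4
  have e3a : x0 ≤ (X : ℝ) ^ (1 / 2 : ℝ) := (le_max_left _ _).trans e3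
  have e3b : 1 / s ≤ (X : ℝ) ^ (1 / 2 : ℝ) := (le_max_right _ _).trans e3
  have hlpos : 0 < Real.log X := lt_of_lt_of_le (by positivity) e2
  set y : ℕ := ⌊(X : ℝ) ^ β⌋₊ with hy
  have hy1 : 1 ≤ y := Nat.le_floor (by rw [Nat.cast_one]; exact e4a)
  have hyX : y ≤ X := by
    have h1 : (X : ℝ) ^ β ≤ X := by
      calc (X : ℝ) ^ β ≤ (X : ℝ) ^ (1 : ℝ) :=
            Real.rpow_le_rpow_of_exponent_le hX1 (by linarith)
        _ = X := Real.rpow_one _
    have h2 : (y : ℝ) ≤ X := (Nat.floor_le (by positivity)).trans h1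
    exact_mod_cast h2
  have hyhalf : (X : ℝ) ^ β / 2 ≤ y := by
    have h1 := Nat.lt_floor_add_one ((X : ℝ) ^ β)
    rw [← hy] at h1
    have h2 : (1 : ℝ) ≤ y := by exact_mod_cast hy1
    linarith
  set A : ℕ := ⌊(X : ℝ) ^ s⌋₊ with hA
  have hAle : (A : ℝ) ≤ (X : ℝ) ^ s := Nat.floor_le (by positivity)
  have hXs1 : (1 : ℝ) ≤ (X : ℝ) ^ s := Real.one_le_rpow hX1 hs0.le
  have hA1 : 1 ≤ A := Nat.le_floor (by rw [Nat.cast_one]; exact hXs1)
  have hXs : (X : ℝ) ^ s ≤ (X : ℝ) ^ (1 / 2 : ℝ) := Real.rpow_le_rpow_of_exponent_le hX1 hs2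
  have hhalf : (X : ℝ) ^ (1 / 2 : ℝ) * (X : ℝ) ^ (1 / 2 : ℝ) = X := by
    rw [← Real.rpow_add hXpos]
    norm_num
  -- the covering
  have hcov : {m : ℕ | 1 ≤ m ∧ m ≤ X ∧ ¬ ∃ p1 p2 : ℕ, p1.Prime ∧ p2.Prime ∧ p1 ≠ p2 ∧ p1 ∣ m ∧
      p2 ∣ m ∧ (X : ℝ) ^ β < p1 ∧ (X : ℝ) ^ β < p2} ⊆
      {m : ℕ | 1 ≤ m ∧ m ≤ X ∧ (X : ℝ) ^ s < (sm m y : ℝ)} ∪
        ((Icc 1 A ∪ EB_FC X y ∪ EB_FD X A : Finset ℕ) : Set ℕ) := by
    rintro m ⟨h1, h2, h3⟩
    by_cases h4 : (X : ℝ) ^ s < (sm m y : ℝ)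
    · exact Or.inl ⟨h1, h2, h4⟩
    · right
      rw [not_lt] at h4
      refine Finset.mem_coe.2 (EB_cover h1 h2 ?_ (Nat.le_floor h4))
      rintro ⟨p1, p2, hp1, hp2, hne, hd1, hd2, hl1, hl2⟩
      exact h3 ⟨p1, p2, hp1, hp2, hne, hd1, hd2, (Nat.floor_lt (by positivity)).1 hl1,
        (Nat.floor_lt (by positivity)).1 hl2⟩
  have hfinA : {m : ℕ | 1 ≤ m ∧ m ≤ X ∧ (X : ℝ) ^ s < (sm m y : ℝ)}.Finite :=
    (Set.finite_Icc 1 X).subset fun m hm => ⟨hm.1, hm.2.1⟩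
  have hcard : (({m : ℕ | 1 ≤ m ∧ m ≤ X ∧ ¬ ∃ p1 p2 : ℕ, p1.Prime ∧ p2.Prime ∧ p1 ≠ p2 ∧ p1 ∣ m ∧
      p2 ∣ m ∧ (X : ℝ) ^ β < p1 ∧ (X : ℝ) ^ β < p2}.ncard : ℕ) : ℝ) ≤
      ({m : ℕ | 1 ≤ m ∧ m ≤ X ∧ (X : ℝ) ^ s < (sm m y : ℝ)}.ncard : ℝ) +
        ((A : ℝ) + (EB_FC X y).card + (EB_FD X A).card) := by
    have h1 := Set.ncard_le_ncard hcov (hfinA.union (Finset.finite_toSet _))
    have h2 := h1.trans (Set.ncard_union_le _ _)
    rw [Set.ncard_coe_finset] at h2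
    have h3 : (Icc 1 A ∪ EB_FC X y ∪ EB_FD X A).card ≤ A + (EB_FC X y).card + (EB_FD X A).card := by
      refine (Finset.card_union_le _ _).trans (Nat.add_le_add_right ?_ _)
      refine (Finset.card_union_le _ _).trans (Nat.add_le_add_right ?_ _)
      rw [Nat.card_Icc]
      omega
    have h4 := h2.trans (Nat.add_le_add_left h3 _)
    exact_mod_cast h4
  refine hcard.trans ?_
  -- (i)
  have b1 : ({m : ℕ | 1 ≤ m ∧ m ≤ X ∧ (X : ℝ) ^ s < (sm m y : ℝ)}.ncard : ℝ) ≤ 2 * s * X := by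
    refine (hsm β hβ (by linarith) X e0).trans ?_
    refine mul_le_mul_of_nonneg_right ?_ hXpos.le
    have h1 : C1 / (s * Real.log X) ≤ s := by
      rw [div_le_iff₀ (by positivity)]
      rw [div_le_iff₀ (by positivity)] at e1
      linarith
    linarith
  -- (ii)
  have b2 : (A : ℝ) ≤ s * X := by
    refine (hAle.trans hXs).trans ?_
    have h1 : 1 ≤ s * (X : ℝ) ^ (1 / 2 : ℝ) := by
      rw [div_le_iff₀ hs0] at e3b
      linarith
    have h2 : (0 : ℝ) < (X : ℝ) ^ (1 / 2 : ℝ) := by positivity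
    calc (X : ℝ) ^ (1 / 2 : ℝ) = 1 * (X : ℝ) ^ (1 / 2 : ℝ) := (one_mul _).symm
      _ ≤ (s * (X : ℝ) ^ (1 / 2 : ℝ)) * (X : ℝ) ^ (1 / 2 : ℝ) := by gcongr
      _ = s * X := by rw [mul_assoc, hhalf]
  -- (iii)
  have b3 : ((EB_FC X y).card : ℝ) ≤ s * X := by
    refine (EB_card_FC hy1 hyX).trans ?_
    have hy0 : (0 : ℝ) < y := by
      have : 0 < y := by omega
      exact_mod_cast this
    rw [div_le_iff₀ hy0]
    have h1 : 1 ≤ s * (y : ℝ) := by
      rw [div_le_iff₀ hs0] at e4b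
      nlinarith
    nlinarith
  -- (iv)
  have b4 : ((EB_FD X A).card : ℝ) ≤ 8 * s * X := by
    have h1 := EB_card_FD X A (4 * X / Real.log X) (fun a ha => by
      rw [Finset.mem_Icc] at ha
      have ha0 : (0 : ℝ) < a := by
        have : 0 < a := by omega
        exact_mod_cast this
      have haA : (a : ℝ) ≤ (X : ℝ) ^ (1 / 2 : ℝ) := by
        have : (a : ℝ) ≤ A := by exact_mod_cast ha.2
        exact this.trans (hAle.trans hXs)
      have hxa : (X : ℝ) ^ (1 / 2 : ℝ) ≤ (X : ℝ) / a := by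
        rw [le_div_iff₀ ha0]
        calc (X : ℝ) ^ (1 / 2 : ℝ) * a ≤ (X : ℝ) ^ (1 / 2 : ℝ) * (X : ℝ) ^ (1 / 2 : ℝ) := by gcongr
          _ = X := hhalf
      have h2 := hx0 ((X : ℝ) / a) (e3a.trans hxa)
      rw [Nat.floor_div_eq_div] at h2
      refine h2.trans ?_
      have h3 : Real.log X / 2 ≤ Real.log ((X : ℝ) / a) := by
        have h4 := Real.log_le_log (by positivity) hxa
        rw [Real.log_rpow hXpos] at h4
        linarith
      have h5 : 0 < Real.log ((X : ℝ) / a) := by linarith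
      calc 2 * ((X : ℝ) / a / Real.log ((X : ℝ) / a)) ≤ 2 * ((X : ℝ) / a / (Real.log X / 2)) := by
            gcongr
        _ = 4 * X / Real.log X * (a : ℝ)⁻¹ := by
            field_simp
            ring) (by positivity)
    refine h1.trans ?_
    have h6 : Real.log A ≤ s * Real.log X := by
      have hA0 : (0 : ℝ) < A := by
        have : 0 < A := by omega
        exact_mod_cast this
      rw [← Real.log_rpow hXpos]
      exact Real.log_le_log hA0 hAle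
    have h7 : 1 ≤ s * Real.log X := by
      rw [div_le_iff₀ hs0] at e2
      linarith
    calc 4 * X / Real.log X * (1 + Real.log A) ≤ 4 * X / Real.log X * (2 * (s * Real.log X)) := by
          gcongr
          linarith
      _ = 8 * s * X := by
          field_simp
          ring
  nlinarith [b1, b2, b3, b4]

end Pool.Agent.H91.NL
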