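import Pool.Agent.H22.FundLemma

/-!
JOB NL-24 (Brun-Titchmarsh for the class `1` mod a prime `q`, about 80-120 lines).

Count of `j < Y` with `j q + 1` prime.  Let `z = ⌊Y^(1/110)⌋₊`, `b = 10` in `fund_lemma` (`z ≥ z0` for `Y ≥ Y0`),
`R p = {r ∈ range p | p ∣ r q + 1}` for primes `p ≤ z`: one element if `p ≠ q`, empty if `p = q`
(`p ∣ q` only for `p = q`); `#(R p) ≤ 1 < p`, so `≤ 2`.
A counted `j` with `j q + 1 > z` satisfies `j % p ∉ R p` for all `p ≤ z`; the other `j` satisfy `j ≤ z`.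
Count `≤ (z + 1) + (1 + 3/2^10) Y dens R z`, `dens R z = ∏_{p ≤ z, p ≠ q} (1 - 1/p) ≤ 2 ∏_{p≤z} (1-1/p) ≤
2/log (z+1) ≤ 220/log Y` (`prod_primes_le` in `Pool/Agent/H16/Euler.lean`; the missing factor
`(1-1/q)^(-1) ≤ 2`).  `z + 1 ≤ Y/log Y` for large `Y`.  For `2 ≤ Y < Y0` use `C ≥ log Y0` (the count is at
most `Y`).
-/

namespace Pool.Agent.H91.NL

open Pool.Agent.H16 Pool.Agent.H22

/-- residues `r` mod `p` with `p ∣ r q + 1` -/
private def EC_R (q p : ℕ) : Finset ℕ := (Finset.range p).filter fun r => p ∣ r * q + 1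

private theorem EC_card_le {q p : ℕ} (hp : p.Prime) : (EC_R q p).card ≤ 1 := by
  rw [Finset.card_le_one]
  have key : ∀ r ∈ EC_R q p, ∀ s ∈ EC_R q p, r ≤ s → r = s := by
    intro r hr s hs hrs
    unfold EC_R at hr hs
    rw [Finset.mem_filter, Finset.mem_range] at hr hs
    have h1 : p ∣ (s - r) * q := by
      have h2 := Nat.dvd_sub hs.2 hr.2
      have e : s * q + 1 - (r * q + 1) = (s - r) * q := by
        rw [Nat.sub_mul]
        omega
      rwa [e] at h2
    rcases (Nat.Prime.dvd_mul hp).1 h1 with h2 | h2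
    · have h3 : s - r = 0 := Nat.eq_zero_of_dvd_of_lt h2 (by omega)
      omega
    · exfalso
      have h3 : p ∣ r * q := Dvd.dvd.mul_left h2 r
      have h4 : p ∣ 1 := (Nat.dvd_add_right h3).1 hr.2
      exact hp.one_lt.ne' (Nat.dvd_one.1 h4)
  intro r hr s hs
  rcases le_total r s with h | h
  · exact key r hr s hs h
  · exact (key s hs r hr h).symm

private theorem EC_card_pos {q p : ℕ} (hp : p.Prime) (hq : q.Prime) (hne : p ≠ q) :
    0 < (EC_R q p).card := by
  have : Fact p.Prime := ⟨hp⟩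
  have hq0 : (q : ZMod p) ≠ 0 := by
    intro h
    rw [ZMod.natCast_eq_zero_iff] at h
    exact hne ((Nat.prime_dvd_prime_iff_eq hp hq).1 h)
  rw [Finset.card_pos]
  refine ⟨(-(q : ZMod p)⁻¹).val, ?_⟩
  unfold EC_R
  rw [Finset.mem_filter, Finset.mem_range]
  refine ⟨ZMod.val_lt _, ?_⟩
  rw [← ZMod.natCast_eq_zero_iff]
  push_cast
  rw [ZMod.natCast_zmod_val, neg_mul, inv_mul_cancel₀ hq0, neg_add_cancel]

private theorem EC_dens {q : ℕ} (hq : q.Prime) (z : ℕ) (hz : 1 ≤ z) :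
    dens (EC_R q) z ≤ 2 / Real.log (z + 1) := by
  have h1 := prod_primes_le z hz
  have h2 : primesIoc 0 z = Nat.primesLE z := by
    ext p
    rw [mem_primesIoc, Nat.mem_primesLE]
    constructor
    · exact fun h => ⟨h.2.1, h.2.2⟩
    · exact fun h => ⟨h.2.pos, h.1, h.2⟩
  have h3 : dens (EC_R q) z ≤
      ∏ p ∈ Nat.primesLE z, ((1 - 1 / (p : ℝ)) * (if p = q then 2 else 1)) := by
    unfold dens
    rw [h2]
    refine Finset.prod_le_prod ?_ ?_
    · intro p hp
      rw [Nat.mem_primesLE] at hp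
      have hc : ((EC_R q p).card : ℝ) ≤ 1 := by exact_mod_cast EC_card_le hp.2
      have hp1 : (1 : ℝ) < p := by exact_mod_cast hp.2.one_lt
      rw [sub_nonneg, div_le_one (by linarith)]
      linarith
    · intro p hp
      rw [Nat.mem_primesLE] at hp
      have hp2 : (2 : ℝ) ≤ p := by exact_mod_cast hp.2.two_le
      by_cases h : p = q
      · rw [if_pos h]
        have hc : (0 : ℝ) ≤ (EC_R q p).card / p := by positivity
        have h4 : 1 / (p : ℝ) ≤ 1 / 2 := one_div_le_one_div_of_le (by norm_num) hp2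
        linarith
      · rw [if_neg h, mul_one]
        have hc : (1 : ℝ) ≤ (EC_R q p).card := by exact_mod_cast EC_card_pos hp.2 hq h
        have h4 : 1 / (p : ℝ) ≤ (EC_R q p).card / p := by gcongr
        linarith
  refine h3.trans ?_
  rw [Finset.prod_mul_distrib]
  have h4 : ∏ p ∈ Nat.primesLE z, (if p = q then (2 : ℝ) else 1) ≤ 2 := by
    rw [Finset.prod_ite_eq']
    split_ifs <;> norm_num
  have h5 : 0 ≤ ∏ p ∈ Nat.primesLE z, (1 - 1 / (p : ℝ)) := by
    refine Finset.prod_nonneg fun p hp => ?_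
    rw [Nat.mem_primesLE] at hp
    have hp1 : (1 : ℝ) < p := by exact_mod_cast hp.2.one_lt
    rw [sub_nonneg, div_le_one (by linarith)]
    linarith
  calc (∏ p ∈ Nat.primesLE z, (1 - 1 / (p : ℝ))) * ∏ p ∈ Nat.primesLE z, (if p = q then (2 : ℝ) else 1)
      ≤ (∏ p ∈ Nat.primesLE z, (1 - 1 / (p : ℝ))) * 2 := mul_le_mul_of_nonneg_left h4 h5
    _ ≤ 1 / Real.log (z + 1) * 2 := mul_le_mul_of_nonneg_right h1 (by norm_num)
    _ = 2 / Real.log (z + 1) := by ring

private theorem EC_root (Y : ℕ) (hY : 1 ≤ Y) : ∃ z : ℕ, z ^ 110 ≤ Y ∧ Y < (z + 1) ^ 110 := by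
  have h0 : (1 : ℕ) ^ 110 ≤ Y := by simpa using hY
  refine ⟨Nat.findGreatest (fun z => z ^ 110 ≤ Y) Y, ?_, ?_⟩
  · exact Nat.findGreatest_spec (P := fun z => z ^ 110 ≤ Y) hY h0
  · by_contra hcon
    have hcon' : (Nat.findGreatest (fun z => z ^ 110 ≤ Y) Y + 1) ^ 110 ≤ Y := not_lt.1 hcon
    have h1 : Nat.findGreatest (fun z => z ^ 110 ≤ Y) Y + 1 ≤ Y :=
      (Nat.le_self_pow (by norm_num) _).trans hcon'
    exact absurd hcon' (Nat.findGreatest_is_greatest (P := fun z => z ^ 110 ≤ Y)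
      (Nat.lt_succ_self _) h1)

private theorem EC_count {q : ℕ} (hq : q.Prime) (Y z : ℕ) :
    ((Finset.range Y).filter (fun j => (j * q + 1).Prime)).card ≤ (z + 1) +
      ((Finset.range Y).filter (fun k => ∀ p ∈ primesIoc 0 z, k % p ∉ EC_R q p)).card := by
  have hsub : (Finset.range Y).filter (fun j => (j * q + 1).Prime) ⊆ Finset.range (z + 1) ∪
      (Finset.range Y).filter (fun k => ∀ p ∈ primesIoc 0 z, k % p ∉ EC_R q p) := by
    intro j hj
    rw [Finset.mem_filter] at hj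
    rw [Finset.mem_union, Finset.mem_filter, Finset.mem_range]
    by_cases h : j ≤ z
    · exact Or.inl (by omega)
    · refine Or.inr ⟨hj.1, ?_⟩
      intro p hp hm
      rw [mem_primesIoc] at hp
      unfold EC_R at hm
      rw [Finset.mem_filter] at hm
      have h1 : p ∣ j * q + 1 := by
        have h2 : j * q + 1 = (j % p * q + 1) + p * (j / p * q) := by
          conv_lhs => rw [← Nat.mod_add_div j p]
          ring
        rw [h2]
        exact Nat.dvd_add hm.2 (Nat.dvd_mul_right _ _)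
      have h3 : p = j * q + 1 := (Nat.prime_dvd_prime_iff_eq hp.2.2 hj.2).1 h1
      have h4 : j * 1 ≤ j * q := Nat.mul_le_mul_left j hq.one_lt.le
      omega
  refine (Finset.card_le_card hsub).trans ((Finset.card_union_le _ _).trans ?_)
  rw [Finset.card_range]

private theorem EC_arith {N z Y d s lY lz B : ℝ} (hz : 2 ≤ z) (hY : 0 ≤ Y) (hlz0 : 0 < lz)
    (hlz : lz ≤ z) (hlY0 : 0 < lY) (hlY : lY ≤ 110 * lz) (hN : N ≤ z + 1 + s)
    (hs : s ≤ 2 * (Y * d)) (hd : d ≤ 2 / lz) (hzY : z ^ 2 ≤ Y) (hB : 0 ≤ B) :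
    N * lY ≤ (660 + B) * Y := by
  have a1 : (z + 1) * lY ≤ 220 * Y := by
    have h7 : lY ≤ 110 * z := by linarith
    calc (z + 1) * lY ≤ (z + 1) * (110 * z) := mul_le_mul_of_nonneg_left h7 (by linarith)
      _ ≤ 220 * z ^ 2 := by nlinarith
      _ ≤ 220 * Y := by linarith
  have a2 : 2 * (Y * d) * lY ≤ 440 * Y := by
    have h8 : Y * d ≤ Y * (2 / lz) := mul_le_mul_of_nonneg_left hd hY
    calc 2 * (Y * d) * lY ≤ 2 * (Y * (2 / lz)) * (110 * lz) :=
          mul_le_mul (by linarith) hlY hlY0.le (by positivity)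
      _ = 440 * Y := by
          field_simp
          ring
  calc N * lY ≤ ((z + 1) + 2 * (Y * d)) * lY :=
        mul_le_mul_of_nonneg_right (by linarith) hlY0.le
    _ = (z + 1) * lY + 2 * (Y * d) * lY := by ring
    _ ≤ 660 * Y := by linarith
    _ ≤ (660 + B) * Y := mul_le_mul_of_nonneg_right (by linarith) hY

theorem brun_t : ∃ C : ℝ, 0 < C ∧ ∀ q : ℕ, q.Prime → ∀ Y : ℕ, 2 ≤ Y →
    (((Finset.range Y).filter (fun j => (j * q + 1).Prime)).card : ℝ) ≤ C * Y / Real.log Y := by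
  obtain ⟨z0, hz0, hfund⟩ := fund_lemma
  have hY0 : 1 ≤ z0 ^ 110 := Nat.one_le_pow _ _ (by omega)
  have hlY0 : 0 ≤ Real.log ((z0 ^ 110 : ℕ) : ℝ) := Real.log_natCast_nonneg _
  refine ⟨660 + Real.log ((z0 ^ 110 : ℕ) : ℝ), by linarith, ?_⟩
  intro q hq Y hY
  have hYr : (2 : ℝ) ≤ Y := by exact_mod_cast hY
  have hlog : 0 < Real.log Y := Real.log_pos (by linarith)
  rw [le_div_iff₀ hlog]
  rcases lt_or_ge Y (z0 ^ 110) with h | h
  · have h1 : (((Finset.range Y).filter (fun j => (j * q + 1).Prime)).card : ℝ) ≤ Y := by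
      have := Finset.card_filter_le (Finset.range Y) (fun j => (j * q + 1).Prime)
      rw [Finset.card_range] at this
      exact_mod_cast this
    have h2 : Real.log Y ≤ Real.log ((z0 ^ 110 : ℕ) : ℝ) :=
      Real.log_le_log (by linarith) (by exact_mod_cast h.le)
    calc (((Finset.range Y).filter (fun j => (j * q + 1).Prime)).card : ℝ) * Real.log Y
        ≤ Y * Real.log ((z0 ^ 110 : ℕ) : ℝ) := mul_le_mul h1 h2 hlog.le (by linarith)
      _ = Real.log ((z0 ^ 110 : ℕ) : ℝ) * Y := mul_comm _ _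
      _ ≤ (660 + Real.log ((z0 ^ 110 : ℕ) : ℝ)) * Y :=
        mul_le_mul_of_nonneg_right (le_add_of_nonneg_left (by norm_num)) (by linarith)
  · obtain ⟨z, hz1, hz2⟩ := EC_root Y (by omega)
    have hzz : z0 ≤ z := by
      by_contra hcon
      have h3 : (z + 1) ^ 110 ≤ z0 ^ 110 := Nat.pow_le_pow_left (by omega) _
      omega
    have hz2' : 2 ≤ z := hz0.trans hzz
    have hzr : (2 : ℝ) ≤ z := by exact_mod_cast hz2'
    have hf := hfund z hzz 10 le_rfl Y (by norm_num; exact hz1) (EC_R q)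
      (fun p _ _ => Finset.filter_subset _ _)
      (fun p hp _ => (EC_card_le hp).trans (by norm_num))
      (fun p hp _ => (EC_card_le hp).trans_lt hp.one_lt)
    have hd := EC_dens hq z (by omega)
    have hl1 : 0 < Real.log ((z : ℝ) + 1) := Real.log_pos (by linarith)
    have hlY : Real.log Y ≤ 110 * Real.log ((z : ℝ) + 1) := by
      have h4 : (Y : ℝ) ≤ ((z : ℝ) + 1) ^ 110 := by exact_mod_cast hz2.le
      have h5 := Real.log_le_log (by linarith) h4
      rw [Real.log_pow] at h5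
      exact_mod_cast h5
    have hlz : Real.log ((z : ℝ) + 1) ≤ z := by
      have := Real.log_le_sub_one_of_pos (show 0 < (z : ℝ) + 1 by linarith)
      linarith
    have hc := EC_count hq Y z
    have hcr : (((Finset.range Y).filter (fun j => (j * q + 1).Prime)).card : ℝ) ≤ ((z : ℝ) + 1) +
        ((Finset.range Y).filter (fun k => ∀ p ∈ primesIoc 0 z, k % p ∉ EC_R q p)).card := by
      exact_mod_cast hc
    have hdn : 0 ≤ (Y : ℝ) * dens (EC_R q) z := by
      refine mul_nonneg (by linarith) ?_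
      unfold dens
      refine Finset.prod_nonneg fun p hp => ?_
      rw [mem_primesIoc] at hp
      have hc : ((EC_R q p).card : ℝ) ≤ 1 := by exact_mod_cast EC_card_le hp.2.2
      have hp1 : (1 : ℝ) < p := by exact_mod_cast hp.2.2.one_lt
      rw [sub_nonneg, div_le_one (by linarith)]
      linarith
    have hs : (((Finset.range Y).filter
        (fun k => ∀ p ∈ primesIoc 0 z, k % p ∉ EC_R q p)).card : ℝ) ≤
        2 * (Y * dens (EC_R q) z) := by
      have h6 := (abs_le.1 hf).2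
      norm_num at h6
      linarith
    have hYz : (z : ℝ) ^ 110 ≤ Y := by exact_mod_cast hz1
    have hz220 : (z : ℝ) ^ 2 ≤ z ^ 110 := pow_le_pow_right₀ (by linarith) (by norm_num)
    exact EC_arith hzr (by linarith) hl1 hlz hlog hlY hcr hs hd (hz220.trans hYz) hlY0

end Pool.Agent.H91.NL
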