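import Pool.Agent.H91.NL.EC

/-!
JOB NL-25 (sums of `1/p` over large primes `p ≡ 1 mod q`, about 120-170 lines).

`W q X β = ∑ 1/p` over the primes `p ≤ X`, `p > X^β`, `q ∣ p - 1` (`p = j q + 1`, `j ≥ 1`).
(1) `W_trivial`: `W ≤ ∑_{1≤j≤X} 1/(j q) ≤ (1 + log X)/q` (`X ≥ 1`, `q ≥ 1`).
(2) `W_le`: let `q ≤ X^(β/2)`, `X` large.  `p = j q + 1 > X^β` gives `j ≥ (X^β - 1)/q ≥ X^(β/2)/2 =: J0`
(`X^β - 1 ≥ X^β/2`), `J0 ≥ 2`, `j ≤ X`.  Split into dyadic blocks `2^i ≤ j < 2^(i+1)`, for which
`2^(i+1) > J0` and `2^i ≤ X`; there are at most `2 log X` such blocks... more precisely the number of `i`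
with `2^i ≤ X` is at most `1 + log X/log 2 ≤ 3 log X`; a block contributes at most
`(1/(q 2^i)) * #{j < 2^(i+1) : j q + 1 prime} ≤ (1/(q 2^i)) C 2^(i+1)/log(2^(i+1)) ≤ 2C/(q log J0)` and
`log J0 ≥ (β/4) log X` for large `X`.  So `W ≤ 3 log X * 8 C/(q β log X) = 24 C/(β q)`.
-/

namespace Pool.Agent.H91.NL

/-- sum of `1/p` over the primes `X^β < p ≤ X` with `q ∣ p - 1` -/
noncomputable def W (q X : ℕ) (β : ℝ) : ℝ :=
  open Classical in
  ∑ p ∈ (Finset.Icc 1 X).filter (fun p => p.Prime ∧ q ∣ p - 1 ∧ (X : ℝ) ^ β < p), 1 / (p : ℝ)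

open Classical in
theorem ed_W_le {q X : ℕ} {β : ℝ} (hq : 1 ≤ q) :
    W q X β ≤ ∑ j ∈ (Finset.Icc 1 X).filter (fun j => (j * q + 1).Prime ∧
      (X : ℝ) ^ β < ((j * q + 1 : ℕ) : ℝ)), 1 / ((j : ℝ) * q) := by
  unfold W
  set S := (Finset.Icc 1 X).filter (fun p => p.Prime ∧ q ∣ p - 1 ∧ (X : ℝ) ^ β < p) with hS
  set J := (Finset.Icc 1 X).filter (fun j => (j * q + 1).Prime ∧
      (X : ℝ) ^ β < ((j * q + 1 : ℕ) : ℝ)) with hJ
  have key : ∀ p ∈ S, ((p - 1) / q) * q + 1 = p ∧ 1 ≤ (p - 1) / q ∧ (p - 1) / q ≤ X := by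
    intro p hp
    rw [hS, Finset.mem_filter, Finset.mem_Icc] at hp
    obtain ⟨⟨h1, h2⟩, h3, h4, h5⟩ := hp
    have h6 := h3.two_le
    have h7 : (p - 1) / q * q = p - 1 := Nat.div_mul_cancel h4
    refine ⟨by omega, ?_, ?_⟩
    · rcases Nat.eq_zero_or_pos ((p - 1) / q) with h | h
      · rw [h] at h7
        omega
      · exact h
    · exact (Nat.div_le_self _ _).trans (by omega)
  have hinj : Set.InjOn (fun p : ℕ => (p - 1) / q) (S : Set ℕ) := by
    intro a ha b hb hab
    have h1 := (key a ha).1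
    have h2 := (key b hb).1
    simp only at hab
    rw [← h1, ← h2, hab]
  calc ∑ p ∈ S, 1 / (p : ℝ) ≤ ∑ p ∈ S, 1 / ((((p - 1) / q : ℕ) : ℝ) * q) := by
        apply Finset.sum_le_sum
        intro p hp
        obtain ⟨h1, h2, h3⟩ := key p hp
        have h4 : ((((p - 1) / q : ℕ) : ℝ) * q) + 1 = p := by exact_mod_cast h1
        have h5 : (0 : ℝ) < (((p - 1) / q : ℕ) : ℝ) * q := by
          have : 0 < ((p - 1) / q) * q := Nat.mul_pos h2 hq
          exact_mod_cast this
        exact one_div_le_one_div_of_le h5 (by linarith)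
    _ = ∑ j ∈ S.image (fun p : ℕ => (p - 1) / q), 1 / ((j : ℝ) * q) := by
        rw [Finset.sum_image hinj]
    _ ≤ ∑ j ∈ J, 1 / ((j : ℝ) * q) := by
        apply Finset.sum_le_sum_of_subset_of_nonneg
        · intro j hj
          obtain ⟨p, hp, rfl⟩ := Finset.mem_image.1 hj
          obtain ⟨h1, h2, h3⟩ := key p hp
          rw [hS, Finset.mem_filter] at hp
          rw [hJ, Finset.mem_filter, Finset.mem_Icc]
          refine ⟨⟨h2, h3⟩, ?_, ?_⟩
          · rw [h1]
            exact hp.2.1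
          · rw [h1]
            exact hp.2.2.2
        · intro j _ _
          positivity

theorem W_trivial {q X : ℕ} {β : ℝ} (hq : 1 ≤ q) (hX : 1 ≤ X) :
    W q X β ≤ (1 + Real.log X) / q := by
  classical
  refine (ed_W_le hq).trans ?_
  have h1 : (∑ j ∈ (Finset.Icc 1 X).filter (fun j => (j * q + 1).Prime ∧
      (X : ℝ) ^ β < ((j * q + 1 : ℕ) : ℝ)), 1 / ((j : ℝ) * q)) ≤
      ∑ j ∈ Finset.Icc 1 X, 1 / ((j : ℝ) * q) :=
    Finset.sum_le_sum_of_subset_of_nonneg (Finset.filter_subset _ _) (fun _ _ _ => by positivity)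
  refine h1.trans ?_
  have h2 : ∑ j ∈ Finset.Icc 1 X, 1 / ((j : ℝ) * q) = ((harmonic X : ℚ) : ℝ) / q := by
    rw [harmonic_eq_sum_Icc, Rat.cast_sum, Finset.sum_div]
    apply Finset.sum_congr rfl
    intro j _
    push_cast
    rw [one_div, mul_inv, div_eq_mul_inv]
  rw [h2]
  exact div_le_div_of_nonneg_right (harmonic_le_one_add_log X) (Nat.cast_nonneg q)

theorem W_le : ∃ C : ℝ, 0 < C ∧ ∀ β : ℝ, 0 < β → β ≤ 1 / 4 → ∃ X0 : ℕ, ∀ X ≥ X0, ∀ q : ℕ,
    q.Prime → (q : ℝ) ≤ (X : ℝ) ^ (β / 2) → W q X β ≤ C / (β * q) := by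
  classical
  obtain ⟨C, hC, hbt⟩ := brun_t
  refine ⟨24 * C, by positivity, ?_⟩
  intro β hβ hβ4
  have hlog : Filter.Tendsto (fun X : ℕ => Real.log (X : ℝ)) Filter.atTop Filter.atTop :=
    Real.tendsto_log_atTop.comp tendsto_natCast_atTop_atTop
  obtain ⟨X0, hX0⟩ := (hlog.eventually_ge_atTop (4 / β)).exists_forall_of_atTop
  refine ⟨max X0 3, fun X hX q hq hqX => ?_⟩
  have hlX : 4 / β ≤ Real.log X := hX0 X (le_trans (le_max_left _ _) hX)
  have hX3 : 3 ≤ X := le_trans (le_max_right _ _) hX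
  have hXpos : (0 : ℝ) < X := by
    have : 0 < X := by omega
    exact_mod_cast this
  have hq0 : (0 : ℝ) < q := by exact_mod_cast hq.pos
  have hl16 : 16 ≤ Real.log X := by
    refine le_trans ?_ hlX
    rw [le_div_iff₀ hβ]
    linarith
  have hβl : 4 ≤ β * Real.log X := by
    rw [div_le_iff₀ hβ] at hlX
    linarith
  have hl2 : Real.log 2 < 0.6931471808 := Real.log_two_lt_d9
  have hl2' : 0.6931471803 < Real.log 2 := Real.log_two_gt_d9
  set Y : ℝ := (X : ℝ) ^ (β / 2) with hY
  have hYpos : 0 < Y := Real.rpow_pos_of_pos hXpos _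
  have hYY : (X : ℝ) ^ β = Y * Y := by
    rw [hY, ← Real.rpow_add hXpos]
    congr 1
    ring
  have hlogY : Real.log Y = β / 2 * Real.log X := by
    rw [hY, Real.log_rpow hXpos]
  have hY2 : 2 ≤ Y := by
    rw [← Real.log_le_log_iff (by norm_num) hYpos, hlogY]
    linarith
  refine (ed_W_le hq.one_lt.le).trans ?_
  set J := (Finset.Icc 1 X).filter (fun j => (j * q + 1).Prime ∧
      (X : ℝ) ^ β < ((j * q + 1 : ℕ) : ℝ)) with hJ
  have hmaps : ∀ j ∈ J, Nat.log 2 j ∈ Finset.range (Nat.log 2 X + 1) := by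
    intro j hj
    rw [hJ, Finset.mem_filter, Finset.mem_Icc] at hj
    rw [Finset.mem_range, Nat.lt_succ_iff]
    exact Nat.log_mono_right hj.1.2
  rw [← Finset.sum_fiberwise_of_maps_to hmaps]
  have hblock : ∀ i ∈ Finset.range (Nat.log 2 X + 1),
      (∑ j ∈ J with Nat.log 2 j = i, 1 / ((j : ℝ) * q)) ≤ 8 * C / (β * q * Real.log X) := by
    intro i _
    rcases Finset.eq_empty_or_nonempty (J.filter (fun j => Nat.log 2 j = i)) with he | ⟨j0, hj0⟩
    · rw [he, Finset.sum_empty]
      have : 0 < Real.log X := by linarith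
      positivity
    · have hb : ∀ j ∈ J.filter (fun j => Nat.log 2 j = i), 2 ^ i ≤ j ∧ j < 2 ^ (i + 1) ∧
          (j * q + 1).Prime := by
        intro j hj
        rw [Finset.mem_filter, hJ, Finset.mem_filter, Finset.mem_Icc] at hj
        obtain ⟨⟨⟨h1, h2⟩, h3, h4⟩, h5⟩ := hj
        refine ⟨?_, ?_, h3⟩
        · rw [← h5]
          exact Nat.pow_log_le_self 2 (by omega)
        · rw [← h5]
          exact Nat.lt_pow_succ_log_self (by norm_num) j
      have hj0' := hb j0 hj0
      have hj0lt : Y / 2 < ((2 ^ (i + 1) : ℕ) : ℝ) := by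
        rw [Finset.mem_filter, hJ, Finset.mem_filter] at hj0
        have h4 := hj0.1.2.2
        rw [hYY] at h4
        push_cast at h4
        have h6 : (j0 : ℝ) * q ≤ j0 * Y := mul_le_mul_of_nonneg_left hqX (Nat.cast_nonneg _)
        have h7 : Y / 2 < j0 := by
          by_contra hcon
          push Not at hcon
          have h8 : (j0 : ℝ) * Y ≤ Y / 2 * Y := mul_le_mul_of_nonneg_right hcon hYpos.le
          nlinarith
        have h9 : (j0 : ℝ) < ((2 ^ (i + 1) : ℕ) : ℝ) := by exact_mod_cast hj0'.2.1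
        linarith
      have hlogi : β / 4 * Real.log X ≤ Real.log ((2 ^ (i + 1) : ℕ) : ℝ) := by
        have h1 : Real.log (Y / 2) ≤ Real.log ((2 ^ (i + 1) : ℕ) : ℝ) :=
          Real.log_le_log (by positivity) hj0lt.le
        rw [Real.log_div hYpos.ne' (by norm_num), hlogY] at h1
        linarith
      have hcard := hbt q hq (2 ^ (i + 1)) (by
        calc 2 = 2 ^ 1 := by norm_num
          _ ≤ 2 ^ (i + 1) := Nat.pow_le_pow_right (by norm_num) (by omega))
      have hcard2 : ((J.filter (fun j => Nat.log 2 j = i)).card : ℝ) ≤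
          (((Finset.range (2 ^ (i + 1))).filter (fun j => (j * q + 1).Prime)).card : ℝ) := by
        have : (J.filter (fun j => Nat.log 2 j = i)).card ≤
          ((Finset.range (2 ^ (i + 1))).filter (fun j => (j * q + 1).Prime)).card := by
          apply Finset.card_le_card
          intro j hj
          have := hb j hj
          rw [Finset.mem_filter, Finset.mem_range]
          exact ⟨this.2.1, this.2.2⟩
        exact_mod_cast this
      have hp2 : (0 : ℝ) < (2 : ℝ) ^ i := by positivity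
      have hlp : 0 < β / 4 * Real.log X := by
        have : 0 < Real.log X := by linarith
        positivity
      calc (∑ j ∈ J with Nat.log 2 j = i, 1 / ((j : ℝ) * q))
          ≤ ∑ j ∈ J with Nat.log 2 j = i, 1 / ((2 : ℝ) ^ i * q) := by
            apply Finset.sum_le_sum
            intro j hj
            have h1 := (hb j hj).1
            have h2 : (2 : ℝ) ^ i ≤ j := by exact_mod_cast h1
            exact one_div_le_one_div_of_le (by positivity)
              (mul_le_mul_of_nonneg_right h2 hq0.le)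
        _ = ((J.filter (fun j => Nat.log 2 j = i)).card : ℝ) * (1 / ((2 : ℝ) ^ i * q)) := by
            rw [Finset.sum_const, nsmul_eq_mul]
        _ ≤ (C * ((2 ^ (i + 1) : ℕ) : ℝ) / Real.log ((2 ^ (i + 1) : ℕ) : ℝ)) *
              (1 / ((2 : ℝ) ^ i * q)) :=
            mul_le_mul_of_nonneg_right (hcard2.trans hcard) (by positivity)
        _ ≤ (C * ((2 ^ (i + 1) : ℕ) : ℝ) / (β / 4 * Real.log X)) *
              (1 / ((2 : ℝ) ^ i * q)) := by
            apply mul_le_mul_of_nonneg_right _ (by positivity)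
            apply div_le_div_of_nonneg_left (by positivity) hlp hlogi
        _ = 8 * C / (β * q * Real.log X) := by
            have hlX0 : Real.log X ≠ 0 := by
              intro h
              rw [h] at hl16
              linarith
            push_cast
            rw [pow_succ]
            field_simp
            ring
  refine (Finset.sum_le_sum hblock).trans ?_
  rw [Finset.sum_const, Finset.card_range, nsmul_eq_mul]
  have hn : ((Nat.log 2 X + 1 : ℕ) : ℝ) ≤ 3 * Real.log X := by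
    have h1 : 2 ^ Nat.log 2 X ≤ X := Nat.pow_log_le_self 2 (by omega)
    have h2 : (2 : ℝ) ^ Nat.log 2 X ≤ X := by exact_mod_cast h1
    have h3 := Real.log_le_log (by positivity) h2
    rw [Real.log_pow] at h3
    push_cast
    nlinarith
  have hpos : 0 < Real.log X := by linarith
  calc ((Nat.log 2 X + 1 : ℕ) : ℝ) * (8 * C / (β * q * Real.log X))
      ≤ (3 * Real.log X) * (8 * C / (β * q * Real.log X)) :=
        mul_le_mul_of_nonneg_right hn (by positivity)
    _ = 24 * C / (β * q) := by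
        field_simp
        ring

end Pool.Agent.H91.NL
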