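import Pool.Agent.H91.NL.EB
import Pool.Agent.H91.NL.ED

/-!
JOB NL-26 (integers all of whose large prime factors are `1` mod a common large prime `q`, about
150-200 lines).

`Bad β q m`: every prime factor `p > m^β` of `m` is `q` or `1` mod `q`.
Let `m ≤ X` be `Bad β q m` for a prime `q > Q`.  Either `m` has no two distinct prime factors `> X^β`
(`few_large`: at most `C1 √β X` such `m`), or there are primes `p1 ≠ p2`, `p1, p2 ∣ m`, `p1, p2 > X^β ≥ m^β`,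
each equal to `q` or `1` mod `q`.  In the second case `q ≤ X` (if `q ∣ p - 1`, `q < p ≤ m`).
(a) both `p1, p2 ≡ 1 mod q`: `p1 p2 ∣ m`, so the number of such `m` is at most
`∑_{Q < q ≤ X} ∑_{p1,p2} X/(p1 p2) = X ∑_q (W q X β)^2`.
(b) `p1 = q > X^β`, `p2 ≡ 1 mod q` (or exchanged): at most `X ∑_{X^β < q ≤ X} (1/q) W q X β`.
For `q ≤ X^(β/2)`: `W ≤ C2/(β q)` (`W_le`), `∑_{q > Q} 1/q^2 ≤ 1/Q`, contribution `≤ C2^2 X/(β^2 Q)`.
For `q > X^(β/2)`: `W ≤ (1 + log X)/q` (`W_trivial`), contribution of (a) and (b) at most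
`X ∑_{q > X^(β/2)} 2 (1 + log X)^2/q^2 ≤ X * 4 (1 + log X)^2/X^(β/2) ≤ √β X` for large `X`.
So with `Q0 ≥ C2^2/β^(5/2)` the total is at most `(C1 + 2) √β X`.
-/

namespace Pool.Agent.H91.NL

/-- every prime factor `p > m^β` of `m` is `q` or `1` mod `q` -/
def Bad (β : ℝ) (q m : ℕ) : Prop :=
  ∀ p : ℕ, p.Prime → p ∣ m → (m : ℝ) ^ β < p → p = q ∨ q ∣ p - 1

open Classical in
/-- the primes counted by `W` -/
noncomputable def ee_P (q X : ℕ) (β : ℝ) : Finset ℕ :=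
  (Finset.Icc 1 X).filter (fun p => p.Prime ∧ q ∣ p - 1 ∧ (X : ℝ) ^ β < p)

/-- numbers divisible by two of them -/
noncomputable def ee_B1 (q X : ℕ) (β : ℝ) : Finset ℕ :=
  (ee_P q X β ×ˢ ee_P q X β).biUnion fun x => (Finset.Ioc 0 X).filter fun m => x.1 * x.2 ∣ m

/-- numbers divisible by `q` and one of them -/
noncomputable def ee_B2 (q X : ℕ) (β : ℝ) : Finset ℕ :=
  open Classical in
  if (X : ℝ) ^ β < q then
    (ee_P q X β).biUnion fun p => (Finset.Ioc 0 X).filter fun m => q * p ∣ m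
  else ∅

theorem ee_W (q X : ℕ) (β : ℝ) : ∑ p ∈ ee_P q X β, 1 / (p : ℝ) = W q X β := rfl

theorem ee_W_nonneg (q X : ℕ) (β : ℝ) : 0 ≤ W q X β :=
  Finset.sum_nonneg fun _ _ => by positivity

theorem ee_card_B1 (q X : ℕ) (β : ℝ) : ((ee_B1 q X β).card : ℝ) ≤ X * W q X β ^ 2 := by
  have h1 : (ee_B1 q X β).card ≤ ∑ x ∈ ee_P q X β ×ˢ ee_P q X β, X / (x.1 * x.2) := by
    refine Finset.card_biUnion_le.trans (Finset.sum_le_sum fun k _ => ?_)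
    rw [Nat.Ioc_filter_dvd_card_eq_div]
  have h2 : ((ee_B1 q X β).card : ℝ) ≤
      ((∑ x ∈ ee_P q X β ×ˢ ee_P q X β, X / (x.1 * x.2) : ℕ) : ℝ) := by exact_mod_cast h1
  refine h2.trans ?_
  rw [Nat.cast_sum]
  have h3 : ∀ x ∈ ee_P q X β ×ˢ ee_P q X β, ((X / (x.1 * x.2) : ℕ) : ℝ) ≤
      X * ((1 / (x.1 : ℝ)) * (1 / (x.2 : ℝ))) := by
    intro x _
    refine (Nat.cast_div_le).trans (le_of_eq ?_)
    push_cast
    rw [div_mul_div_comm, one_mul, mul_one_div]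
  refine (Finset.sum_le_sum h3).trans (le_of_eq ?_)
  rw [← Finset.mul_sum, Finset.sum_product]
  dsimp only
  rw [← Finset.sum_mul_sum, ee_W, sq]

theorem ee_card_B2 (q X : ℕ) (β : ℝ) : ((ee_B2 q X β).card : ℝ) ≤ X * (W q X β / q) := by
  classical
  have hW := ee_W_nonneg q X β
  unfold ee_B2
  split_ifs with h
  · have h1 : ((ee_P q X β).biUnion fun p => (Finset.Ioc 0 X).filter fun m => q * p ∣ m).card ≤
        ∑ p ∈ ee_P q X β, X / (q * p) := by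
      refine Finset.card_biUnion_le.trans (Finset.sum_le_sum fun k _ => ?_)
      rw [Nat.Ioc_filter_dvd_card_eq_div]
    have h2 : ((((ee_P q X β).biUnion fun p => (Finset.Ioc 0 X).filter fun m => q * p ∣ m).card
        : ℕ) : ℝ) ≤ ((∑ p ∈ ee_P q X β, X / (q * p) : ℕ) : ℝ) := by exact_mod_cast h1
    refine h2.trans ?_
    rw [Nat.cast_sum]
    have h3 : ∀ p ∈ ee_P q X β, ((X / (q * p) : ℕ) : ℝ) ≤ X * (1 / (p : ℝ) / q) := by
      intro p _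
      refine (Nat.cast_div_le).trans (le_of_eq ?_)
      push_cast
      rw [div_div, mul_one_div, mul_comm (q : ℝ)]
    refine (Finset.sum_le_sum h3).trans (le_of_eq ?_)
    rw [← Finset.mul_sum, ← Finset.sum_div, ee_W]
  · simp only [Finset.card_empty, Nat.cast_zero]
    positivity

theorem ee_B2_of_not {q X : ℕ} {β : ℝ} (h : ¬ (X : ℝ) ^ β < q) : ee_B2 q X β = ∅ := by
  unfold ee_B2
  rw [if_neg h]

/-- the covering -/
theorem ee_cover {Q X m : ℕ} {β : ℝ} (hβ : 0 < β) (h1 : 1 ≤ m) (hX : m ≤ X)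
    (h2 : ∃ q : ℕ, q.Prime ∧ Q < q ∧ Bad β q m)
    (h3 : ∃ p1 p2 : ℕ, p1.Prime ∧ p2.Prime ∧ p1 ≠ p2 ∧ p1 ∣ m ∧ p2 ∣ m ∧
      (X : ℝ) ^ β < p1 ∧ (X : ℝ) ^ β < p2) :
    m ∈ ((Finset.Ioc Q X).filter Nat.Prime).biUnion fun q => ee_B1 q X β ∪ ee_B2 q X β := by
  classical
  obtain ⟨q, hq, hQq, hbad⟩ := h2
  obtain ⟨p1, p2, hp1, hp2, hne, hd1, hd2, hl1, hl2⟩ := h3
  have hmX : (m : ℝ) ^ β ≤ (X : ℝ) ^ β :=
    Real.rpow_le_rpow (by positivity) (by exact_mod_cast hX) hβ.le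
  have hmem : m ∈ Finset.Ioc 0 X := Finset.mem_Ioc.2 ⟨h1, hX⟩
  have hle1 : p1 ≤ X := (Nat.le_of_dvd h1 hd1).trans hX
  have hle2 : p2 ≤ X := (Nat.le_of_dvd h1 hd2).trans hX
  have hP : ∀ p : ℕ, p.Prime → p ≤ X → (X : ℝ) ^ β < p → q ∣ p - 1 → p ∈ ee_P q X β := by
    intro p hp hpX hpl hd
    exact Finset.mem_filter.2 ⟨Finset.mem_Icc.2 ⟨hp.one_le, hpX⟩, hp, hd, hpl⟩
  have hqX : ∀ p : ℕ, p.Prime → p ≤ X → q ∣ p - 1 → q ≤ X := by
    intro p hp hpX hd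
    have := Nat.le_of_dvd (by have := hp.two_le; omega) hd
    omega
  have hdvd : ∀ a b : ℕ, a.Prime → b.Prime → a ≠ b → a ∣ m → b ∣ m → a * b ∣ m := by
    intro a b ha hb hab h5 h6
    exact ((Nat.coprime_primes ha hb).2 hab).mul_dvd_of_dvd_of_dvd h5 h6
  -- one of the two primes is `q`
  have hB2 : ∀ p : ℕ, p.Prime → p ≤ X → (X : ℝ) ^ β < p → q ∣ p - 1 → p ∣ m → q ∣ m →
      (X : ℝ) ^ β < q → m ∈ ee_B2 q X β := by
    intro p hp hpX hpl hd hpm hqm hql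
    have hne' : q ≠ p := by
      rintro rfl
      have := Nat.le_of_dvd (by have := hp.two_le; omega) hd
      have := hp.two_le
      omega
    unfold ee_B2
    rw [if_pos hql, Finset.mem_biUnion]
    exact ⟨p, hP p hp hpX hpl hd, Finset.mem_filter.2 ⟨hmem, hdvd q p hq hp hne' hqm hpm⟩⟩
  rcases hbad p1 hp1 hd1 (hmX.trans_lt hl1) with e1 | e1
  · have e2 : q ∣ p2 - 1 := by
      rcases hbad p2 hp2 hd2 (hmX.trans_lt hl2) with e2 | e2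
      · exact absurd (e1.trans e2.symm) hne
      · exact e2
    rw [Finset.mem_biUnion]
    refine ⟨q, Finset.mem_filter.2 ⟨Finset.mem_Ioc.2 ⟨hQq, hqX p2 hp2 hle2 e2⟩, hq⟩, Finset.mem_union_right _ ?_⟩
    exact hB2 p2 hp2 hle2 hl2 e2 hd2 (e1 ▸ hd1) (e1 ▸ hl1)
  · rcases hbad p2 hp2 hd2 (hmX.trans_lt hl2) with e2 | e2
    · rw [Finset.mem_biUnion]
      refine ⟨q, Finset.mem_filter.2 ⟨Finset.mem_Ioc.2 ⟨hQq, hqX p1 hp1 hle1 e1⟩, hq⟩, Finset.mem_union_right _ ?_⟩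
      exact hB2 p1 hp1 hle1 hl1 e1 hd1 (e2 ▸ hd2) (e2 ▸ hl2)
    · rw [Finset.mem_biUnion]
      refine ⟨q, Finset.mem_filter.2 ⟨Finset.mem_Ioc.2 ⟨hQq, hqX p1 hp1 hle1 e1⟩, hq⟩, Finset.mem_union_left _ ?_⟩
      unfold ee_B1
      rw [Finset.mem_biUnion]
      refine ⟨(p1, p2), Finset.mem_product.2 ⟨hP p1 hp1 hle1 hl1 e1, hP p2 hp2 hle2 hl2 e2⟩, ?_⟩
      exact Finset.mem_filter.2 ⟨hmem, hdvd p1 p2 hp1 hp2 hne hd1 hd2⟩

theorem large_q : ∃ C : ℝ, 0 < C ∧ ∀ β : ℝ, 0 < β → β ≤ 1 / 4 → ∃ Q0 : ℕ, ∀ Q ≥ Q0, ∃ X0 : ℕ,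
    ∀ X ≥ X0, (({m : ℕ | 1 ≤ m ∧ m ≤ X ∧ ∃ q : ℕ, q.Prime ∧ Q < q ∧ Bad β q m}.ncard : ℕ) : ℝ) ≤
      C * √β * X := by
  classical
  obtain ⟨C1, hC1, h1⟩ := few_large
  obtain ⟨C2, hC2, h2⟩ := W_le
  refine ⟨C1 + 2, by positivity, fun β hβ hβ4 => ?_⟩
  obtain ⟨X1, hX1⟩ := h1 β hβ hβ4
  obtain ⟨X2, hX2⟩ := h2 β hβ hβ4
  have hs : 0 < √β := Real.sqrt_pos.2 hβ
  refine ⟨max 1 ⌈C2 ^ 2 / (β ^ 2 * √β)⌉₊, fun Q hQ => ?_⟩
  have hQ1 : 1 ≤ Q := (le_max_left _ _).trans hQ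
  have hQ2 : C2 ^ 2 / (β ^ 2 * √β) ≤ Q :=
    (Nat.le_ceil _).trans (by exact_mod_cast (le_max_right _ _).trans hQ)
  -- growth
  have hev : ∀ᶠ X : ℕ in Filter.atTop, 4 * (1 + 8 / β) ^ 2 / √β ≤ (X : ℝ) ^ (β / 4) := by
    have ht : Filter.Tendsto (fun X : ℕ => (X : ℝ) ^ (β / 4)) Filter.atTop Filter.atTop :=
      (tendsto_rpow_atTop (by positivity)).comp tendsto_natCast_atTop_atTop
    exact ht.eventually_ge_atTop _
  obtain ⟨X3, hX3⟩ := Filter.eventually_atTop.1 hev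
  refine ⟨max (max X1 X2) (max X3 2), fun X hX => ?_⟩
  have g1 : X1 ≤ X := ((le_max_left _ _).trans (le_max_left _ _)).trans hX
  have g2 : X2 ≤ X := ((le_max_right _ _).trans (le_max_left _ _)).trans hX
  have g3 : X3 ≤ X := ((le_max_left _ _).trans (le_max_right _ _)).trans hX
  have g4 : 2 ≤ X := ((le_max_right _ _).trans (le_max_right _ _)).trans hX
  have hXr : (1 : ℝ) ≤ X := by exact_mod_cast (by omega : 1 ≤ X)
  have hX0 : (0 : ℝ) < X := by linarith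
  have hlog : 0 ≤ Real.log X := Real.log_nonneg hXr
  set Z : ℝ := (X : ℝ) ^ (β / 2) with hZ
  have hZ1 : 1 ≤ Z := Real.one_le_rpow hXr (by positivity)
  -- `4 (1 + log X)^2 ≤ √β Z`
  have hgr : 4 * (1 + Real.log X) ^ 2 ≤ √β * Z := by
    have e1 : Real.log X ≤ (X : ℝ) ^ (β / 8) / (β / 8) :=
      Real.log_le_rpow_div hX0.le (by positivity)
    have e2 : (1 : ℝ) ≤ (X : ℝ) ^ (β / 8) := Real.one_le_rpow hXr (by positivity)
    have e3 : 1 + Real.log X ≤ (1 + 8 / β) * (X : ℝ) ^ (β / 8) := by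
      have : (X : ℝ) ^ (β / 8) / (β / 8) = 8 / β * (X : ℝ) ^ (β / 8) := by
        field_simp
      rw [this] at e1
      linarith
    have e4 : ((X : ℝ) ^ (β / 8)) ^ 2 = (X : ℝ) ^ (β / 4) := by
      rw [← Real.rpow_natCast, ← Real.rpow_mul hX0.le]
      congr 1
      push_cast
      ring
    have e5 : ((X : ℝ) ^ (β / 4)) * ((X : ℝ) ^ (β / 4)) = Z := by
      rw [hZ, ← Real.rpow_add hX0]
      congr 1
      ring
    have e6 := hX3 X g3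
    rw [div_le_iff₀ hs] at e6
    have e7 : 0 < (X : ℝ) ^ (β / 4) := Real.rpow_pos_of_pos hX0 _
    calc 4 * (1 + Real.log X) ^ 2 ≤ 4 * ((1 + 8 / β) * (X : ℝ) ^ (β / 8)) ^ 2 := by
          have := pow_le_pow_left₀ (by linarith) e3 2
          linarith
      _ = (4 * (1 + 8 / β) ^ 2) * (X : ℝ) ^ (β / 4) := by rw [mul_pow, e4]; ring
      _ ≤ ((X : ℝ) ^ (β / 4) * √β) * (X : ℝ) ^ (β / 4) :=
          mul_le_mul_of_nonneg_right e6 e7.le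
      _ = √β * Z := by rw [← e5]; ring
  -- the set
  set A : Set ℕ := {m : ℕ | 1 ≤ m ∧ m ≤ X ∧ ¬ ∃ p1 p2 : ℕ, p1.Prime ∧ p2.Prime ∧ p1 ≠ p2 ∧
    p1 ∣ m ∧ p2 ∣ m ∧ (X : ℝ) ^ β < p1 ∧ (X : ℝ) ^ β < p2} with hA
  set F : Finset ℕ := ((Finset.Ioc Q X).filter Nat.Prime).biUnion fun q =>
    ee_B1 q X β ∪ ee_B2 q X β with hF
  have hAf : A.Finite := (Set.finite_Icc 1 X).subset fun m hm => ⟨hm.1, hm.2.1⟩
  have hsub : {m : ℕ | 1 ≤ m ∧ m ≤ X ∧ ∃ q : ℕ, q.Prime ∧ Q < q ∧ Bad β q m} ⊆ A ∪ ↑F := by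
    rintro m ⟨m1, m2, m3⟩
    by_cases h : ∃ p1 p2 : ℕ, p1.Prime ∧ p2.Prime ∧ p1 ≠ p2 ∧
      p1 ∣ m ∧ p2 ∣ m ∧ (X : ℝ) ^ β < p1 ∧ (X : ℝ) ^ β < p2
    · exact Or.inr (ee_cover hβ m1 m2 m3 h)
    · exact Or.inl ⟨m1, m2, h⟩
  have hcard : {m : ℕ | 1 ≤ m ∧ m ≤ X ∧ ∃ q : ℕ, q.Prime ∧ Q < q ∧ Bad β q m}.ncard ≤
      A.ncard + F.card := by
    refine (Set.ncard_le_ncard hsub (hAf.union F.finite_toSet)).trans ?_
    refine (Set.ncard_union_le _ _).trans ?_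
    rw [Set.ncard_coe_finset]
  have hcardR : (({m : ℕ | 1 ≤ m ∧ m ≤ X ∧ ∃ q : ℕ, q.Prime ∧ Q < q ∧ Bad β q m}.ncard : ℕ) : ℝ) ≤
      (A.ncard : ℝ) + (F.card : ℝ) := by exact_mod_cast hcard
  have hA1 : (A.ncard : ℝ) ≤ C1 * √β * X := hX1 X g1
  -- the bound of one term
  have hterm : ∀ q ∈ Finset.Ioc Q X, (((ee_B1 q X β ∪ ee_B2 q X β).card : ℕ) : ℝ) ≤
      X * (C2 ^ 2 / β ^ 2 * ((q : ℝ) ^ 2)⁻¹) +
        (if q ∈ Finset.Ioc ⌊Z⌋₊ X then X * (2 * (1 + Real.log X) ^ 2 * ((q : ℝ) ^ 2)⁻¹) else 0) ∨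
      ¬ q.Prime := by
    intro q hq
    by_cases hqp : q.Prime
    · left
      have hq0 : (0 : ℝ) < q := by exact_mod_cast hqp.pos
      have hWn := ee_W_nonneg q X β
      have hu : (((ee_B1 q X β ∪ ee_B2 q X β).card : ℕ) : ℝ) ≤
          ((ee_B1 q X β).card : ℝ) + ((ee_B2 q X β).card : ℝ) := by
        exact_mod_cast Finset.card_union_le _ _
      have hb1 := ee_card_B1 q X β
      have hb2 := ee_card_B2 q X β
      by_cases hqZ : (q : ℝ) ≤ Z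
      · have hw := hX2 X g2 q hqp hqZ
        have hzb : Z ≤ (X : ℝ) ^ β := Real.rpow_le_rpow_of_exponent_le hXr (by linarith)
        have hb2' : ((ee_B2 q X β).card : ℝ) = 0 := by
          rw [ee_B2_of_not (not_lt.2 (hqZ.trans hzb))]
          simp
        have hw2 : W q X β ^ 2 ≤ C2 ^ 2 / β ^ 2 * ((q : ℝ) ^ 2)⁻¹ := by
          have h5 := pow_le_pow_left₀ hWn hw 2
          refine h5.trans (le_of_eq ?_)
          field_simp
        have h6 := mul_le_mul_of_nonneg_left hw2 hX0.le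
        have h7 : (0 : ℝ) ≤ (if q ∈ Finset.Ioc ⌊Z⌋₊ X then
            X * (2 * (1 + Real.log X) ^ 2 * ((q : ℝ) ^ 2)⁻¹) else 0) := by
          split_ifs
          · positivity
          · exact le_rfl
        linarith
      · push Not at hqZ
        have hmem : q ∈ Finset.Ioc ⌊Z⌋₊ X := by
          rw [Finset.mem_Ioc] at hq ⊢
          exact ⟨(Nat.floor_lt (by linarith)).2 hqZ, hq.2⟩
        rw [if_pos hmem]
        have hw := W_trivial (q := q) (X := X) (β := β) hqp.one_le (by omega)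
        have hw2 : W q X β ^ 2 ≤ (1 + Real.log X) ^ 2 * ((q : ℝ) ^ 2)⁻¹ := by
          have h5 := pow_le_pow_left₀ hWn hw 2
          refine h5.trans (le_of_eq ?_)
          field_simp
        have hw3 : W q X β / q ≤ (1 + Real.log X) ^ 2 * ((q : ℝ) ^ 2)⁻¹ := by
          have h5 : W q X β / q ≤ (1 + Real.log X) / q / q :=
            div_le_div_of_nonneg_right hw hq0.le
          have h6 : (1 + Real.log X) / q / q = (1 + Real.log X) * ((q : ℝ) ^ 2)⁻¹ := by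
            field_simp
          rw [h6] at h5
          refine h5.trans (mul_le_mul_of_nonneg_right ?_ (by positivity))
          nlinarith
        have h6 := mul_le_mul_of_nonneg_left hw2 hX0.le
        have h7 := mul_le_mul_of_nonneg_left hw3 hX0.le
        have h8 : (0 : ℝ) ≤ X * (C2 ^ 2 / β ^ 2 * ((q : ℝ) ^ 2)⁻¹) := by positivity
        have h9 : X * (2 * (1 + Real.log X) ^ 2 * ((q : ℝ) ^ 2)⁻¹) =
            X * ((1 + Real.log X) ^ 2 * ((q : ℝ) ^ 2)⁻¹) +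
              X * ((1 + Real.log X) ^ 2 * ((q : ℝ) ^ 2)⁻¹) := by ring
        rw [h9]
        linarith
    · exact Or.inr hqp
  have hsum : (F.card : ℝ) ≤ ∑ q ∈ Finset.Ioc Q X, (X * (C2 ^ 2 / β ^ 2 * ((q : ℝ) ^ 2)⁻¹) +
        (if q ∈ Finset.Ioc ⌊Z⌋₊ X then X * (2 * (1 + Real.log X) ^ 2 * ((q : ℝ) ^ 2)⁻¹)
          else 0)) := by
    have k1 : F.card ≤ ∑ q ∈ (Finset.Ioc Q X).filter Nat.Prime,
        (ee_B1 q X β ∪ ee_B2 q X β).card := Finset.card_biUnion_le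
    have k2 : (F.card : ℝ) ≤ ((∑ q ∈ (Finset.Ioc Q X).filter Nat.Prime,
        (ee_B1 q X β ∪ ee_B2 q X β).card : ℕ) : ℝ) := by exact_mod_cast k1
    refine k2.trans ?_
    rw [Nat.cast_sum]
    have k3 : ∀ q ∈ (Finset.Ioc Q X).filter Nat.Prime,
        (((ee_B1 q X β ∪ ee_B2 q X β).card : ℕ) : ℝ) ≤
        X * (C2 ^ 2 / β ^ 2 * ((q : ℝ) ^ 2)⁻¹) +
        (if q ∈ Finset.Ioc ⌊Z⌋₊ X then X * (2 * (1 + Real.log X) ^ 2 * ((q : ℝ) ^ 2)⁻¹)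
          else 0) := by
      intro q hq
      obtain ⟨hq1, hq2⟩ := Finset.mem_filter.1 hq
      rcases hterm q hq1 with h | h
      · exact h
      · exact absurd hq2 h
    refine (Finset.sum_le_sum k3).trans ?_
    refine Finset.sum_le_sum_of_subset_of_nonneg (Finset.filter_subset _ _) fun q _ _ => ?_
    have k4 : (0 : ℝ) ≤ (if q ∈ Finset.Ioc ⌊Z⌋₊ X then
        X * (2 * (1 + Real.log X) ^ 2 * ((q : ℝ) ^ 2)⁻¹) else 0) := by
      split_ifs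
      · positivity
      · exact le_rfl
    have k5 : (0 : ℝ) ≤ X * (C2 ^ 2 / β ^ 2 * ((q : ℝ) ^ 2)⁻¹) := by positivity
    linarith
  -- tails of `∑ 1/q^2`
  have htail : ∀ n : ℕ, n ≠ 0 → ∑ q ∈ Finset.Ioc n X, ((q : ℝ) ^ 2)⁻¹ ≤ (n : ℝ)⁻¹ := by
    intro n hn
    rcases le_or_gt n X with h | h
    · have := sum_Ioc_inv_sq_le_sub (α := ℝ) hn h
      have h5 : (0 : ℝ) ≤ (X : ℝ)⁻¹ := by positivity
      linarith
    · rw [Finset.Ioc_eq_empty_of_le h.le, Finset.sum_empty]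
      positivity
  have hp1 : ∑ q ∈ Finset.Ioc Q X, X * (C2 ^ 2 / β ^ 2 * ((q : ℝ) ^ 2)⁻¹) ≤ √β * X := by
    rw [← Finset.mul_sum, ← Finset.mul_sum]
    have k1 := htail Q (by omega)
    have hQ0 : (0 : ℝ) < Q := by exact_mod_cast hQ1
    have k2 : C2 ^ 2 / β ^ 2 * ∑ q ∈ Finset.Ioc Q X, ((q : ℝ) ^ 2)⁻¹ ≤ √β := by
      refine (mul_le_mul_of_nonneg_left k1 (by positivity)).trans ?_
      rw [div_le_iff₀ (by positivity)] at hQ2
      rw [← div_eq_mul_inv, div_le_iff₀ hQ0, div_le_iff₀ (by positivity)]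
      linarith
    have k3 := mul_le_mul_of_nonneg_left k2 hX0.le
    linarith
  have hp2 : ∑ q ∈ Finset.Ioc Q X, (if q ∈ Finset.Ioc ⌊Z⌋₊ X then
      X * (2 * (1 + Real.log X) ^ 2 * ((q : ℝ) ^ 2)⁻¹) else 0) ≤ √β * X := by
    rw [← Finset.sum_filter]
    have hZf : 1 ≤ ⌊Z⌋₊ := Nat.one_le_floor_iff _ |>.2 hZ1
    have hZf0 : (0 : ℝ) < ⌊Z⌋₊ := by exact_mod_cast hZf
    have hZ2 : Z ≤ 2 * ⌊Z⌋₊ := by
      have k1 := (Nat.lt_floor_add_one Z).le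
      have k2 : (1 : ℝ) ≤ ⌊Z⌋₊ := by exact_mod_cast hZf
      linarith
    have k0 : ∑ q ∈ (Finset.Ioc Q X).filter (fun q => q ∈ Finset.Ioc ⌊Z⌋₊ X),
        X * (2 * (1 + Real.log X) ^ 2 * ((q : ℝ) ^ 2)⁻¹) ≤
        ∑ q ∈ Finset.Ioc ⌊Z⌋₊ X, X * (2 * (1 + Real.log X) ^ 2 * ((q : ℝ) ^ 2)⁻¹) := by
      refine Finset.sum_le_sum_of_subset_of_nonneg (fun q hq => ?_) fun q _ _ => by positivity
      exact (Finset.mem_filter.1 hq).2
    refine k0.trans ?_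
    rw [← Finset.mul_sum, ← Finset.mul_sum]
    have k1 := htail ⌊Z⌋₊ (by omega)
    have k2 : 2 * (1 + Real.log X) ^ 2 * ∑ q ∈ Finset.Ioc ⌊Z⌋₊ X, ((q : ℝ) ^ 2)⁻¹ ≤ √β := by
      refine (mul_le_mul_of_nonneg_left k1 (by positivity)).trans ?_
      rw [← div_eq_mul_inv, div_le_iff₀ hZf0]
      have k4 := mul_le_mul_of_nonneg_left hZ2 hs.le
      linarith
    have k3 := mul_le_mul_of_nonneg_left k2 hX0.le
    linarith
  rw [Finset.sum_add_distrib] at hsum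
  have hfin : (A.ncard : ℝ) + (F.card : ℝ) ≤ (C1 + 2) * √β * X := by
    have : (C1 + 2) * √β * X = C1 * √β * X + (√β * X + √β * X) := by ring
    rw [this]
    linarith
  exact hcardR.trans hfin

end Pool.Agent.H91.NL
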