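import Pool.Agent.H22.Pairs

/-!
JOB NL-15 (upper bound sieve for the primes `k < X` with `m k + 1` prime, about 150-200 lines).

`m` odd: for a prime `k ≥ 3`, `m k + 1` is even and `≥ 4`, so at most one `k` (`k = 2`) is counted; the
claim holds for large `X` since `m/φ(m) ≥ 1` and `X/(log X)^2 → ∞`.
`m` even: let `b = 10`, `z = ⌊X^(1/110)⌋`, so `z^110 = z^(9*10+20) ≤ X`; `z ≥ z0` for `X ≥ X0` (`fund_lemma`).
`R p = {r ∈ range p | r = 0 ∨ p ∣ m r + 1}` for primes `p`.  `#(R p) ≤ 2` (for `p ∤ m` the congruence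
`m r ≡ -1` has exactly one solution, and it is not `0`, so `#(R p) = 2`; for `p ∣ m` none, `#(R p) = 1`).
`#(R p) < p`: for `p = 2`, `p ∣ m`, `#(R 2) = 1`; for `p ≥ 3` clear.
A counted `k` with `k > z` satisfies `k % p ∉ R p` for all primes `p ≤ z` (`k` is a prime `> z ≥ p`, and
`m k + 1 > z` is prime; `(m (k % p) + 1) ≡ m k + 1` mod `p`).  Hence
`count ≤ (z+1) + (1 + 3/2^10) X dens R z`.
`dens R z = ∏_{p≤z} (1 - #(R p)/p)`: for `p ∤ m`: `1 - 2/p ≤ (1-1/p)^2`; for `p ∣ m`: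
`1 - 1/p = (1-1/p)^2 (1-1/p)^(-1)`.  So `dens R z ≤ (∏_{p≤z} (1-1/p))^2 * ∏_{p ∣ m, p ≤ z} (1-1/p)^(-1)
≤ (1/log (z+1))^2 * (m/φ(m))` (`prod_primes_le` in `Pool/Agent/H16/Euler.lean`;
`φ(m) = m ∏_{p∣m} (1-1/p)`, the factors `(1-1/p)^(-1) ≥ 1` of the `p ∣ m`, `p > z` may be added).
`log (z+1) ≥ (log X)/110`.  And `z + 1 ≤ X^(1/110) + 1 ≤ X/(log X)^2` for large `X`.
-/

set_option autoImplicit false

namespace Pool.Agent.H91.NL

open Finset Real Pool.Agent.H16 Pool.Agent.H22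

/-- the excluded classes -/
def PrB_R (m p : ℕ) : Finset ℕ := insert 0 (AA m (-1) p)

theorem PrB_card_le (m p : ℕ) (hp : p.Prime) : (PrB_R m p).card ≤ 2 := by
  unfold PrB_R
  refine (Finset.card_insert_le _ _).trans ?_
  have := AA_card_le m (-1) (Or.inr rfl) p hp
  omega

theorem PrB_card_lt (m p : ℕ) (hm : 2 ∣ m) (hp : p.Prime) : (PrB_R m p).card < p := by
  by_cases h2 : p = 2
  · subst h2
    unfold PrB_R
    rw [AA_two m hm (-1) (Or.inr rfl)]
    simp
  · have := PrB_card_le m p hp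
    have := hp.two_le
    omega

theorem PrB_card_one (m p : ℕ) : 1 ≤ (PrB_R m p).card := by
  unfold PrB_R
  exact Finset.card_pos.2 ⟨0, Finset.mem_insert_self _ _⟩

theorem PrB_zero (m p : ℕ) (hp : p.Prime) : 0 ∉ AA m (-1) p := by
  unfold AA
  intro h
  rw [Finset.mem_filter] at h
  have h1 := h.2
  have h2 : ((m : ℕ) : ℤ) * ((0 : ℕ) : ℤ) - -1 = ((1 : ℕ) : ℤ) := by push_cast; ring
  rw [h2] at h1
  have h3 : p ∣ 1 := by exact_mod_cast h1
  exact hp.one_lt.ne' (Nat.dvd_one.1 h3)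

theorem PrB_card_two (m p : ℕ) (hp : p.Prime) (hm : ¬ p ∣ m) : 2 ≤ (PrB_R m p).card := by
  unfold PrB_R
  rw [Finset.card_insert_of_notMem (PrB_zero m p hp)]
  have := Finset.card_pos.2 (AA_nonempty m (-1) p hp hm)
  omega

theorem PrB_EW (m : ℕ) (hm : 1 ≤ m) : EW m = (m : ℝ) / m.totient := by
  have h1 := Nat.totient_eq_mul_prod_factors m
  have h2 : (m.totient : ℝ) = m * ∏ p ∈ m.primeFactors, (1 - 1 / (p : ℝ)) := by
    have h3 := congrArg (fun x : ℚ => (x : ℝ)) h1
    push_cast at h3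
    simp only [one_div]
    exact h3
  have h4 : 0 < ∏ p ∈ m.primeFactors, (1 - 1 / (p : ℝ)) := by
    apply Finset.prod_pos
    intro p hp
    have hp2 : (2 : ℝ) ≤ p := by exact_mod_cast (Nat.mem_primeFactors.mp hp).1.two_le
    have : 1 / (p : ℝ) ≤ 1 / 2 := one_div_le_one_div_of_le (by norm_num) hp2
    linarith
  have h5 : (0 : ℝ) < m := by exact_mod_cast hm
  unfold EW
  rw [h2, Finset.prod_inv_distrib]
  field_simp

theorem PrB_dens (m z : ℕ) (hm : 1 ≤ m) (h2 : 2 ∣ m) :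
    dens (PrB_R m) z ≤ (mp z) ^ 2 * EW m := by
  have h1 : dens (PrB_R m) z ≤ ∏ p ∈ primesIoc 0 z, ((1 - 1 / (p : ℝ)) ^ 2 *
      (if p ∣ m then (1 - 1 / (p : ℝ))⁻¹ else 1)) := by
    unfold Pool.Agent.H22.dens
    apply Finset.prod_le_prod
    · intro p hp
      rw [mem_primesIoc] at hp
      have hp0 : (0 : ℝ) < p := by exact_mod_cast hp.2.2.pos
      have := PrB_card_lt m p h2 hp.2.2
      have h3 : ((PrB_R m p).card : ℝ) / p ≤ 1 := by
        rw [div_le_one hp0]; exact_mod_cast this.le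
      linarith
    · intro p hp
      rw [mem_primesIoc] at hp
      have hpp := hp.2.2
      have hp2 : (2 : ℝ) ≤ p := by exact_mod_cast hpp.two_le
      have hp0 : (0 : ℝ) < p := by linarith
      have hx : 0 < 1 - 1 / (p : ℝ) := by
        have : 1 / (p : ℝ) ≤ 1 / 2 := one_div_le_one_div_of_le (by norm_num) hp2
        linarith
      by_cases hA : p ∣ m
      · rw [if_pos hA]
        have h3 : (1 - 1 / (p : ℝ)) ^ 2 * (1 - 1 / (p : ℝ))⁻¹ = 1 - 1 / (p : ℝ) := by
          rw [pow_two, mul_assoc, mul_inv_cancel₀ hx.ne', mul_one]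
        rw [h3]
        have h4 : (1 : ℝ) ≤ ((PrB_R m p).card : ℝ) := by exact_mod_cast PrB_card_one m p
        have h5 : 1 / (p : ℝ) ≤ ((PrB_R m p).card : ℝ) / p := by gcongr
        linarith
      · rw [if_neg hA]
        have h4 : (2 : ℝ) ≤ ((PrB_R m p).card : ℝ) := by exact_mod_cast PrB_card_two m p hpp hA
        have h5 : 2 / (p : ℝ) ≤ ((PrB_R m p).card : ℝ) / p := by gcongr
        have h6 : (1 - 1 / (p : ℝ)) ^ 2 * 1 = 1 - 2 / p + 1 / (p : ℝ) ^ 2 := by
          field_simp; ring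
        rw [h6]
        have : 0 < 1 / (p : ℝ) ^ 2 := by positivity
        linarith
  refine h1.trans ?_
  rw [Finset.prod_mul_distrib, Finset.prod_pow]
  have h3 := filter_prod_le m z (by omega)
  have h5 : (∏ p ∈ primesIoc 0 z, (1 - 1 / (p : ℝ))) = mp z := rfl
  rw [h5]
  exact mul_le_mul_of_nonneg_left h3 (sq_nonneg _)

theorem PrB_not_mem (m z k : ℕ) (hm : 1 ≤ m) (hk : z < k) (h1 : k.Prime) (h2 : (m * k + 1).Prime) :
    ∀ p ∈ primesIoc 0 z, k % p ∉ PrB_R m p := by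
  intro p hp hmem
  rw [mem_primesIoc] at hp
  unfold PrB_R at hmem
  rw [Finset.mem_insert] at hmem
  rcases hmem with h | h
  · have h3 : p ∣ k := Nat.dvd_of_mod_eq_zero h
    have h4 := (Nat.prime_dvd_prime_iff_eq hp.2.2 h1).mp h3
    omega
  · unfold AA at h
    rw [Finset.mem_filter] at h
    have hmod : (k : ℤ) = (p : ℤ) * ((k / p : ℕ) : ℤ) + ((k % p : ℕ) : ℤ) := by
      exact_mod_cast (Nat.div_add_mod k p).symm
    have h3 : (p : ℤ) ∣ ((m * k + 1 : ℕ) : ℤ) := by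
      have h4 : ((m * k + 1 : ℕ) : ℤ) =
          ((m : ℤ) * ((k % p : ℕ) : ℤ) - -1) + (p : ℤ) * (m * ((k / p : ℕ) : ℤ)) := by
        push_cast
        push_cast at hmod
        nth_rw 1 [hmod]
        ring
      rw [h4]
      exact dvd_add h.2 (dvd_mul_right _ _)
    have h4 : p ∣ m * k + 1 := by exact_mod_cast h3
    have h5 := (Nat.prime_dvd_prime_iff_eq hp.2.2 h2).mp h4
    have h6 : k ≤ m * k := Nat.le_mul_of_pos_left k hm
    omega

theorem pair_sieve : ∃ C : ℝ, 0 < C ∧ ∃ X0 : ℕ, 2 ≤ X0 ∧ ∀ X ≥ X0, ∀ m : ℕ, 1 ≤ m →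
    (((Finset.range X).filter (fun k => k.Prime ∧ (m * k + 1).Prime)).card : ℝ) ≤
      C * X * (m / m.totient) / (Real.log X) ^ 2 := by
  obtain ⟨z0, hz0, hfund⟩ := fund_lemma
  refine ⟨1 + 2 * 220 ^ 2, by norm_num, (z0 + 4) ^ 110, ?_, ?_⟩
  · calc 2 ≤ z0 + 4 := by omega
      _ ≤ (z0 + 4) ^ 110 := Nat.le_self_pow (by norm_num) _
  intro M hM m hm
  obtain ⟨t, ht⟩ : ∃ t, t = (M : ℝ) ^ (1 / 110 : ℝ) := ⟨_, rfl⟩
  have hM0 : (0 : ℝ) < M := by
    have : 0 < M := lt_of_lt_of_le (by positivity) hM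
    exact_mod_cast this
  have ht0 : 0 < t := by rw [ht]; exact Real.rpow_pos_of_pos hM0 _
  have hpowt : t ^ 110 = M := by
    rw [ht, ← Real.rpow_natCast, ← Real.rpow_mul hM0.le]
    norm_num
  have hlogt : Real.log t = Real.log M / 110 := by
    rw [ht, Real.log_rpow hM0]; ring
  obtain ⟨z, hz⟩ : ∃ z, z = ⌊t⌋₊ := ⟨_, rfl⟩
  have hzt : (z : ℝ) ≤ t := by rw [hz]; exact Nat.floor_le ht0.le
  have hz4 : z0 + 4 ≤ z := by
    rw [hz]
    apply Nat.le_floor
    by_contra hc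
    push Not at hc
    have h1 : t ^ 110 < (((z0 + 4 : ℕ) : ℝ)) ^ 110 := pow_lt_pow_left₀ hc ht0.le (by norm_num)
    rw [hpowt] at h1
    have : (((z0 + 4 : ℕ) : ℝ)) ^ 110 ≤ M := by exact_mod_cast hM
    linarith
  have hzM : z ^ 110 ≤ M := by
    have : (z : ℝ) ^ 110 ≤ M := by
      rw [← hpowt]; gcongr
    exact_mod_cast this
  have hz4r : (4 : ℝ) ≤ z := by exact_mod_cast (by omega : 4 ≤ z)
  have hz0r : (0 : ℝ) < z := by linarith
  have hlz : Real.log M / 220 ≤ Real.log z := by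
    have h1 : t < z + 1 := by rw [hz]; exact Nat.lt_floor_add_one t
    have h2 : Real.sqrt t ≤ z := by
      have h3 : 2 ≤ Real.sqrt t := by
        apply Real.le_sqrt_of_sq_le
        nlinarith only [hzt, hz4r]
      have h4 : Real.sqrt t ^ 2 = t := Real.sq_sqrt ht0.le
      nlinarith only [h1, h3, h4]
    have h5 : Real.log (Real.sqrt t) = Real.log M / 220 := by
      rw [Real.log_sqrt ht0.le, hlogt]
      ring
    rw [← h5]
    exact Real.log_le_log (Real.sqrt_pos.mpr ht0) h2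
  have hlogM : 0 < Real.log M := by
    apply Real.log_pos
    have h1 : (z : ℝ) ≤ z ^ 110 := by
      have : z ≤ z ^ 110 := Nat.le_self_pow (by norm_num) z
      exact_mod_cast this
    have h2 : ((z ^ 110 : ℕ) : ℝ) ≤ M := by exact_mod_cast hzM
    push_cast at h2
    linarith
  have hlz0 : 0 < Real.log z := lt_of_lt_of_le (by positivity) hlz
  have hsmall : ((z + 1 : ℕ) : ℝ) ≤ M / (Real.log M) ^ 2 := by
    rw [le_div_iff₀ (by positivity)]
    have h1 : Real.log M ≤ 220 * z := by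
      have := Real.log_le_sub_one_of_pos hz0r
      linarith
    have h2 : (Real.log M) ^ 2 ≤ (220 * z) ^ 2 := by gcongr
    have h3 : (z : ℝ) ^ 110 ≤ M := by exact_mod_cast hzM
    have h5 : (4 : ℝ) ^ 107 ≤ (z : ℝ) ^ 107 := by gcongr
    calc ((z + 1 : ℕ) : ℝ) * (Real.log M) ^ 2 ≤ (2 * z) * (220 * z) ^ 2 := by
          gcongr
          push_cast; linarith
      _ = 96800 * (z : ℝ) ^ 3 := by ring
      _ ≤ (z : ℝ) ^ 107 * (z : ℝ) ^ 3 := by
          gcongr
          refine le_trans ?_ h5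
          norm_num
      _ = (z : ℝ) ^ 110 := by ring
      _ ≤ M := h3
  obtain ⟨G, hG⟩ : ∃ G, G = EW m := ⟨_, rfl⟩
  have hG1 : 1 ≤ G := by rw [hG]; exact EW_ge_one m
  have hMl : (M : ℝ) / (Real.log M) ^ 2 ≤ M * G / (Real.log M) ^ 2 := by
    gcongr
    exact le_mul_of_one_le_right hM0.le hG1
  have hMG0 : 0 ≤ M * G / (Real.log M) ^ 2 := by positivity
  rw [← PrB_EW m hm, ← hG]
  have hgoal : (1 + 2 * 220 ^ 2) * (M : ℝ) * G / (Real.log M) ^ 2 =
      M * G / (Real.log M) ^ 2 + 2 * 220 ^ 2 * (M * G / (Real.log M) ^ 2) := by ring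
  rw [hgoal]
  by_cases hev : 2 ∣ m
  · -- the sieve
    have hsieve := hfund z (by omega) 10 le_rfl M (by
      calc z ^ (9 * 10 + 20) = z ^ 110 := by norm_num
        _ ≤ M := hzM) (PrB_R m)
      (fun p hp _ => by
        unfold PrB_R AA
        rw [Finset.insert_subset_iff]
        exact ⟨Finset.mem_range.2 hp.pos, Finset.filter_subset _ _⟩)
      (fun p hp _ => PrB_card_le m p hp)
      (fun p hp _ => PrB_card_lt m p hev hp)
    obtain ⟨D, hD⟩ : ∃ D, D = dens (PrB_R m) z := ⟨_, rfl⟩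
    have hDle := PrB_dens m z hm hev
    rw [← hD] at hDle hsieve
    rw [← hG] at hDle
    have hD0 : 0 ≤ D := by
      rw [hD]
      unfold Pool.Agent.H22.dens
      apply Finset.prod_nonneg
      intro p hp
      rw [mem_primesIoc] at hp
      have hp0 : (0 : ℝ) < p := by exact_mod_cast hp.2.2.pos
      have := PrB_card_lt m p hev hp.2.2
      have h3 : ((PrB_R m p).card : ℝ) / p ≤ 1 := by
        rw [div_le_one hp0]; exact_mod_cast this.le
      linarith
    have hcount : ((#{k ∈ range M | ∀ p ∈ primesIoc 0 z, k % p ∉ PrB_R m p} : ℕ) : ℝ) ≤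
        2 * ((M : ℝ) * D) := by
      have h1 := (abs_le.mp hsieve).2
      have h2 : 0 ≤ (M : ℝ) * D := by positivity
      have h3 : 3 * (1 / 2 : ℝ) ^ 10 * ((M : ℝ) * D) ≤ 1 * ((M : ℝ) * D) := by
        gcongr; norm_num
      linarith
    have hsub : (Finset.filter (fun k => k.Prime ∧ (m * k + 1).Prime) (range M)) ⊆
        range (z + 1) ∪
          Finset.filter (fun k => ∀ p ∈ primesIoc 0 z, k % p ∉ PrB_R m p) (range M) := by
      intro k hk
      rw [Finset.mem_filter, Finset.mem_range] at hk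
      rw [Finset.mem_union]
      by_cases h : k ≤ z
      · left; rw [Finset.mem_range]; omega
      · right
        push Not at h
        rw [Finset.mem_filter, Finset.mem_range]
        exact ⟨hk.1, PrB_not_mem m z k hm h hk.2.1 hk.2.2⟩
    have hcard : (((Finset.filter (fun k => k.Prime ∧ (m * k + 1).Prime) (range M)).card : ℕ) : ℝ) ≤
        ((z + 1 : ℕ) : ℝ) + 2 * ((M : ℝ) * D) := by
      have h1 := (Finset.card_le_card hsub).trans (Finset.card_union_le _ _)
      rw [Finset.card_range] at h1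
      have h2 : (((Finset.filter (fun k => k.Prime ∧ (m * k + 1).Prime) (range M)).card : ℕ) : ℝ) ≤
        ((z + 1 : ℕ) : ℝ) +
          ((#{k ∈ range M | ∀ p ∈ primesIoc 0 z, k % p ∉ PrB_R m p} : ℕ) : ℝ) := by
        exact_mod_cast h1
      linarith
    refine hcard.trans ?_
    have hmain : 2 * ((M : ℝ) * D) ≤ 2 * 220 ^ 2 * (M * G / (Real.log M) ^ 2) := by
      have hmpz : mp z ≤ 220 / Real.log M := by
        refine (mp_le z (by omega)).trans ?_
        rw [div_le_div_iff₀ hlz0 hlogM]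
        linarith
      have hmp0 := mp_nonneg z
      have hD2 : D ≤ (220 / Real.log M) ^ 2 * G := by
        refine hDle.trans ?_
        gcongr
      calc 2 * ((M : ℝ) * D) ≤ 2 * (M * ((220 / Real.log M) ^ 2 * G)) := by gcongr
        _ = _ := by field_simp
    linarith
  · -- m odd
    have hsub : (Finset.filter (fun k => k.Prime ∧ (m * k + 1).Prime) (range M)) ⊆ {2} := by
      intro k hk
      rw [Finset.mem_filter] at hk
      rw [Finset.mem_singleton]
      rcases hk.2.1.eq_two_or_odd with h | h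
      · exact h
      · exfalso
        have hmo : m % 2 = 1 := by omega
        have h3 : (m * k + 1) % 2 = 0 := by
          rw [Nat.add_mod, Nat.mul_mod, hmo, h]
        rcases hk.2.2.eq_two_or_odd with h4 | h4
        · have h5 : k ≤ m * k := Nat.le_mul_of_pos_left k hm
          have := hk.2.1.two_le
          omega
        · omega
    have h1 := Finset.card_le_card hsub
    rw [Finset.card_singleton] at h1
    have h2 : (((Finset.filter (fun k => k.Prime ∧ (m * k + 1).Prime) (range M)).card : ℕ) : ℝ) ≤ 1 := by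
      exact_mod_cast h1
    have h3 : (1 : ℝ) ≤ ((z + 1 : ℕ) : ℝ) := by push_cast; linarith
    have h4 : 0 ≤ 2 * 220 ^ 2 * (M * G / (Real.log M) ^ 2) := by positivity
    linarith

end Pool.Agent.H91.NL
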