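import Pool.Agent.H91.NL.PrA
import Pool.Agent.H91.NL.PrB

/-!
JOB NL-16 (primes `l` such that `l - 1` has a very large prime factor, about 120-160 lines).

Let `0 < δ ≤ 1/2`, `z` large (depending on `δ`).  For a counted `l` take a prime `p > z^(1-δ)`, `p ∣ l - 1`,
`l - 1 = m p`, `m ≥ 1`, `m < z^δ` (as `m p < z`), `p < z/m + 1`, `m p + 1 = l` prime.  So the count is at most
`∑_{1 ≤ m ≤ z^δ} #{p < X_m : p prime, m p + 1 prime}`, `X_m = z/m + 1` (natural division; `p ≤ z/m`).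
`X_m ≥ z/m ≥ z^(1-δ) ≥ z^(1/2)` (real division; `z/m + 1 ≥` real quotient), `X_m ≤ 2 z/m`,
`log X_m ≥ (1/2) log z`.  By `pair_sieve` (constant `C1`) each summand is at most
`C1 (2z/m) (m/φ(m)) * 4/(log z)^2 = 8 C1 z/(φ(m) (log z)^2)`; by `sum_inv_totient` (constant `C2`) the sum
is at most `8 C1 C2 z (1 + δ log z)/(log z)^2 ≤ 16 C1 C2 δ z/log z` as soon as `δ log z ≥ 1`.
-/

set_option autoImplicit false

namespace Pool.Agent.H91.NL

/-- the bound for one `m` -/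
theorem PrC_one {C1 : ℝ} (hC1 : 0 < C1) {X0 : ℕ}
    (h1 : ∀ X ≥ X0, ∀ m : ℕ, 1 ≤ m →
      (((Finset.range X).filter (fun k => k.Prime ∧ (m * k + 1).Prime)).card : ℝ) ≤
        C1 * X * (m / m.totient) / (Real.log X) ^ 2)
    {z m : ℕ} (hz : 2 ≤ z) (hzX : X0 ^ 2 ≤ z) (hm : 1 ≤ m) (hmz : (m : ℝ) ≤ Real.sqrt z) :
    (((Finset.range (z / m + 1)).filter (fun k => k.Prime ∧ (m * k + 1).Prime)).card : ℝ) ≤
      8 * C1 * z / (Real.log z) ^ 2 * (1 / (m.totient : ℝ)) := by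
  have hz0 : (0 : ℝ) < z := by
    have : 0 < z := by omega
    exact_mod_cast this
  have hm0 : (0 : ℝ) < m := by exact_mod_cast hm
  have hs0 : 0 < Real.sqrt z := Real.sqrt_pos.2 hz0
  have hss : Real.sqrt z * Real.sqrt z = z := Real.mul_self_sqrt hz0.le
  have hlogz : 0 < Real.log z := by
    apply Real.log_pos
    have : 1 < z := by omega
    exact_mod_cast this
  have hX1 : Real.sqrt z ≤ ((z / m + 1 : ℕ) : ℝ) := by
    have h3 : (z : ℝ) / m < ((z / m + 1 : ℕ) : ℝ) := by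
      rw [div_lt_iff₀ hm0]
      have : z < (z / m + 1) * m := by
        have := Nat.lt_div_mul_add (a := z) (b := m) (by omega)
        calc z < z / m * m + m := this
          _ = (z / m + 1) * m := by ring
      exact_mod_cast this
    have h4 : Real.sqrt z ≤ (z : ℝ) / m := by
      rw [le_div_iff₀ hm0]
      calc Real.sqrt z * m ≤ Real.sqrt z * Real.sqrt z := by gcongr
        _ = z := hss
    linarith
  have hX2 : ((z / m + 1 : ℕ) : ℝ) ≤ 2 * (z / m) := by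
    have h3 : ((z / m : ℕ) : ℝ) ≤ (z : ℝ) / m := Nat.cast_div_le
    have h4 : (1 : ℝ) ≤ (z : ℝ) / m := by
      rw [le_div_iff₀ hm0, one_mul]
      have h5 : (1 : ℝ) ≤ Real.sqrt z := by
        rw [Real.one_le_sqrt]
        have : 1 ≤ z := by omega
        exact_mod_cast this
      calc (m : ℝ) ≤ Real.sqrt z := hmz
        _ ≤ Real.sqrt z * Real.sqrt z := le_mul_of_one_le_left hs0.le h5
        _ = z := hss
    push_cast
    linarith
  have hXX : X0 ≤ z / m + 1 := by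
    have h3 : (X0 : ℝ) ≤ Real.sqrt z := by
      apply Real.le_sqrt_of_sq_le
      exact_mod_cast hzX
    exact_mod_cast h3.trans hX1
  have hlogX : Real.log z / 2 ≤ Real.log ((z / m + 1 : ℕ) : ℝ) := by
    rw [← Real.log_sqrt hz0.le]
    exact Real.log_le_log hs0 hX1
  have hl0 : 0 < Real.log z / 2 := by positivity
  have hlX0 : 0 < Real.log ((z / m + 1 : ℕ) : ℝ) := lt_of_lt_of_le hl0 hlogX
  have htot : (0 : ℝ) < m.totient := by exact_mod_cast Nat.totient_pos.2 hm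
  refine (h1 _ hXX m hm).trans ?_
  calc C1 * ((z / m + 1 : ℕ) : ℝ) * (m / m.totient) / (Real.log ((z / m + 1 : ℕ) : ℝ)) ^ 2
      ≤ C1 * (2 * (z / m)) * (m / m.totient) / (Real.log z / 2) ^ 2 := by gcongr
    _ = 8 * C1 * z / (Real.log z) ^ 2 * (1 / (m.totient : ℝ)) := by
      field_simp
      ring

theorem nonsmooth : ∃ C : ℝ, 0 < C ∧ ∀ δ : ℝ, 0 < δ → δ ≤ 1 / 2 → ∃ z0 : ℕ, ∀ z ≥ z0,
    (({l : ℕ | l ≤ z ∧ l.Prime ∧
      ∃ p : ℕ, p.Prime ∧ (z : ℝ) ^ (1 - δ) < p ∧ p ∣ l - 1}.ncard : ℕ) : ℝ) ≤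
      C * δ * z / Real.log z := by
  obtain ⟨C1, hC1, X0, hX0, h1⟩ := pair_sieve
  obtain ⟨C2, hC2, h2⟩ := sum_inv_totient
  refine ⟨16 * C1 * C2, by positivity, fun δ hδ hδ2 => ?_⟩
  refine ⟨max (X0 ^ 2 + 2) ⌈Real.exp (1 / δ)⌉₊, fun z hz => ?_⟩
  have hzX : X0 ^ 2 + 2 ≤ z := (le_max_left _ _).trans hz
  have hze : Real.exp (1 / δ) ≤ z := (Nat.le_ceil _).trans (by exact_mod_cast (le_max_right _ _).trans hz)
  have hz2 : 2 ≤ z := by omega
  have hz0 : (0 : ℝ) < z := by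
    have : 0 < z := by omega
    exact_mod_cast this
  have hz1 : (1 : ℝ) ≤ z := by
    have : 1 ≤ z := by omega
    exact_mod_cast this
  have hlog : 1 / δ ≤ Real.log z := by
    rw [← Real.log_exp (1 / δ)]
    exact Real.log_le_log (Real.exp_pos _) hze
  have hlog1 : 1 ≤ δ * Real.log z := by
    rw [div_le_iff₀ hδ] at hlog
    linarith
  have hlog0 : 0 < Real.log z := lt_of_lt_of_le (by positivity) hlog
  obtain ⟨Y, hY⟩ : ∃ Y, Y = ⌊(z : ℝ) ^ δ⌋₊ := ⟨_, rfl⟩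
  have hzδ1 : (1 : ℝ) ≤ (z : ℝ) ^ δ := Real.one_le_rpow hz1 hδ.le
  have hY1 : 1 ≤ Y := by
    rw [hY]
    exact Nat.le_floor (by exact_mod_cast hzδ1)
  have hYz : (Y : ℝ) ≤ (z : ℝ) ^ δ := by
    rw [hY]
    exact Nat.floor_le (by positivity)
  have hYs : (Y : ℝ) ≤ Real.sqrt z := by
    refine hYz.trans ?_
    rw [Real.sqrt_eq_rpow]
    exact Real.rpow_le_rpow_of_exponent_le hz1 hδ2
  have hYlog : Real.log Y ≤ δ * Real.log z := by
    rw [← Real.log_rpow hz0]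
    exact Real.log_le_log (by exact_mod_cast hY1) hYz
  -- the covering
  have hsub : {l : ℕ | l ≤ z ∧ l.Prime ∧ ∃ p : ℕ, p.Prime ∧ (z : ℝ) ^ (1 - δ) < p ∧ p ∣ l - 1} ⊆
      (((Finset.Icc 1 Y).biUnion fun m =>
        ((Finset.range (z / m + 1)).filter (fun k => k.Prime ∧ (m * k + 1).Prime)).image
          fun k => m * k + 1 : Finset ℕ) : Set ℕ) := by
    rintro l ⟨hlz, hl, p, hp, hzp, m, hm⟩
    have hl2 := hl.two_le
    have hm1 : 1 ≤ m := by
      rcases Nat.eq_zero_or_pos m with h | h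
      · rw [h, mul_zero] at hm
        omega
      · exact h
    have hlm : m * p + 1 = l := by
      rw [mul_comm]
      omega
    have hmpz : m * p < z := by omega
    have hmY : m ≤ Y := by
      rw [hY]
      apply Nat.le_floor
      have h3 : (m : ℝ) * (z : ℝ) ^ (1 - δ) ≤ z := by
        calc (m : ℝ) * (z : ℝ) ^ (1 - δ) ≤ m * p := by gcongr
          _ ≤ z := by exact_mod_cast hmpz.le
      have h4 : (z : ℝ) ^ δ * (z : ℝ) ^ (1 - δ) = z := by
        rw [← Real.rpow_add hz0]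
        simp
      have h5 : 0 < (z : ℝ) ^ (1 - δ) := Real.rpow_pos_of_pos hz0 _
      exact le_of_mul_le_mul_right (h3.trans h4.ge) h5
    rw [Finset.mem_coe, Finset.mem_biUnion]
    refine ⟨m, Finset.mem_Icc.2 ⟨hm1, hmY⟩, ?_⟩
    rw [Finset.mem_image]
    refine ⟨p, ?_, hlm⟩
    rw [Finset.mem_filter, Finset.mem_range]
    refine ⟨?_, hp, by rw [hlm]; exact hl⟩
    have : p ≤ z / m := by
      rw [Nat.le_div_iff_mul_le (by omega), mul_comm]
      exact hmpz.le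
    omega
  have hcard : ({l : ℕ | l ≤ z ∧ l.Prime ∧
      ∃ p : ℕ, p.Prime ∧ (z : ℝ) ^ (1 - δ) < p ∧ p ∣ l - 1}.ncard : ℕ) ≤
      ∑ m ∈ Finset.Icc 1 Y,
        ((Finset.range (z / m + 1)).filter (fun k => k.Prime ∧ (m * k + 1).Prime)).card := by
    refine (Set.ncard_le_ncard hsub (Finset.finite_toSet _)).trans ?_
    rw [Set.ncard_coe_finset]
    refine Finset.card_biUnion_le.trans ?_
    exact Finset.sum_le_sum fun m _ => Finset.card_image_le
  have hcard' : (({l : ℕ | l ≤ z ∧ l.Prime ∧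
      ∃ p : ℕ, p.Prime ∧ (z : ℝ) ^ (1 - δ) < p ∧ p ∣ l - 1}.ncard : ℕ) : ℝ) ≤
      ∑ m ∈ Finset.Icc 1 Y,
        (((Finset.range (z / m + 1)).filter (fun k => k.Prime ∧ (m * k + 1).Prime)).card : ℝ) := by
    exact_mod_cast hcard
  refine hcard'.trans ?_
  calc ∑ m ∈ Finset.Icc 1 Y,
        (((Finset.range (z / m + 1)).filter (fun k => k.Prime ∧ (m * k + 1).Prime)).card : ℝ)
      ≤ ∑ m ∈ Finset.Icc 1 Y, 8 * C1 * z / (Real.log z) ^ 2 * (1 / (m.totient : ℝ)) := by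
        apply Finset.sum_le_sum
        intro m hm
        rw [Finset.mem_Icc] at hm
        apply PrC_one hC1 h1 hz2 (by omega) hm.1
        refine le_trans ?_ hYs
        exact_mod_cast hm.2
    _ = 8 * C1 * z / (Real.log z) ^ 2 * ∑ m ∈ Finset.Icc 1 Y, 1 / (m.totient : ℝ) := by
        rw [Finset.mul_sum]
    _ ≤ 8 * C1 * z / (Real.log z) ^ 2 * (C2 * (1 + Real.log Y)) := by
        gcongr
        exact h2 Y hY1
    _ ≤ 8 * C1 * z / (Real.log z) ^ 2 * (C2 * (2 * (δ * Real.log z))) := by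
        gcongr
        linarith
    _ = 16 * C1 * C2 * δ * z / Real.log z := by
        field_simp
        ring

end Pool.Agent.H91.NL
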