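import Pool.Agent.H90.PNT
import Pool.Agent.H91.NL.PrC

/-!
JOB NL-17 (many primes `l ≡ 1 mod q` with `l - 1` dividing a number which is not too large, about
100-150 lines).

By `tendsto_primeCounting_residue` of `Pool/Agent/H90/PNT.lean` (namespace there, `a = 1`):
for `z ≥ z1` the number of primes `l ≤ z`, `l ≡ 1 mod q`, is at least `z/(2(q-1) log z)`.
Let `C` be the constant of `nonsmooth`, `δ = min (1/2) (1/(4 C (q-1)))`, `c = 1/(4(q-1))`.
`P` = the primes `l ≤ z`, `l ≡ 1 mod q`, without prime factor `p > z^(1-δ)` of `l - 1`; `#P ≥ c z/log z`.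
`y = ⌊z^(1-δ)⌋₊`, `L = ∏_{p ≤ y prime} p^(Nat.log p z)`.  For `l ∈ P` every prime factor `p` of `l - 1`
is `≤ y` and `p^v ∣ l - 1 < z` gives `v ≤ Nat.log p z`; so `l - 1 ∣ L` (factorization).
`log L = ∑_{p≤y} (Nat.log p z) log p ≤ y log z ≤ z^(1-δ) log z`.
-/

namespace Pool.Agent.H91.NL

open Filter Topology in
theorem primes_exist {q : ℕ} (hq : q.Prime) (hq3 : 3 ≤ q) : ∃ c δ : ℝ, 0 < c ∧ 0 < δ ∧ δ < 1 ∧
    ∃ z0 : ℕ, ∀ z ≥ z0, ∃ (P : Finset ℕ) (L : ℕ), 0 < L ∧
      (∀ l ∈ P, l.Prime ∧ q ∣ l - 1 ∧ l ≤ z ∧ l - 1 ∣ L) ∧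
      Real.log L ≤ (z : ℝ) ^ (1 - δ) * Real.log z ∧ c * z / Real.log z ≤ P.card := by
  classical
  have : NeZero q := ⟨hq.ne_zero⟩
  obtain ⟨C, hC, hns⟩ := nonsmooth
  have hq1 : (0 : ℝ) < (q : ℝ) - 1 := by
    have : (3 : ℝ) ≤ q := by exact_mod_cast hq3
    linarith
  obtain ⟨δ, hδ⟩ : ∃ δ : ℝ, δ = min (1 / 2) (1 / (4 * C * ((q : ℝ) - 1))) := ⟨_, rfl⟩
  have hδ0 : 0 < δ := by
    rw [hδ]
    apply lt_min (by norm_num)
    positivity
  have hδ2 : δ ≤ 1 / 2 := by
    rw [hδ]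
    exact min_le_left _ _
  have hδC : C * δ ≤ 1 / (4 * ((q : ℝ) - 1)) := by
    have h1 : δ ≤ 1 / (4 * C * ((q : ℝ) - 1)) := by
      rw [hδ]
      exact min_le_right _ _
    calc C * δ ≤ C * (1 / (4 * C * ((q : ℝ) - 1))) := by gcongr
      _ = 1 / (4 * ((q : ℝ) - 1)) := by
        field_simp
  refine ⟨1 / (4 * ((q : ℝ) - 1)), δ, by positivity, hδ0, by linarith, ?_⟩
  obtain ⟨z1, hz1⟩ := hns δ hδ0 hδ2
  have hpnt := Pool.Agent.H90.tendsto_primeCounting_residue q 1 isUnit_one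
  have htot : ((q.totient : ℝ)⁻¹) = 1 / ((q : ℝ) - 1) := by
    rw [Nat.totient_prime hq, Nat.cast_sub hq.one_lt.le]
    simp
  rw [htot] at hpnt
  have hlt : 1 / (2 * ((q : ℝ) - 1)) < 1 / ((q : ℝ) - 1) := by
    apply one_div_lt_one_div_of_lt hq1
    linarith
  have hev := hpnt.eventually (lt_mem_nhds hlt)
  obtain ⟨x0, hx0⟩ := eventually_atTop.1 hev
  refine ⟨max (max z1 ⌈x0⌉₊) 3, fun z hz => ?_⟩
  have hz1z : z1 ≤ z := (le_max_left _ _).trans ((le_max_left _ _).trans hz)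
  have hx0z : x0 ≤ z := (Nat.le_ceil _).trans
    (by exact_mod_cast (le_max_right _ _).trans ((le_max_left _ _).trans hz))
  have hz3 : 3 ≤ z := (le_max_right _ _).trans hz
  have hz0 : (0 : ℝ) < z := by
    have : 0 < z := by omega
    exact_mod_cast this
  have hlogz : 0 < Real.log z := by
    apply Real.log_pos
    have : 1 < z := by omega
    exact_mod_cast this
  have hA := hx0 (z : ℝ) hx0z
  rw [Nat.floor_natCast, lt_div_iff₀ (by positivity)] at hA
  have hB := hz1 z hz1z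
  set B : Set ℕ := {l : ℕ | l ≤ z ∧ l.Prime ∧
      ∃ p : ℕ, p.Prime ∧ (z : ℝ) ^ (1 - δ) < p ∧ p ∣ l - 1} with hBdef
  have hBfin : B.Finite := (Set.finite_Iic z).subset fun l hl => hl.1
  obtain ⟨y, hy⟩ : ∃ y, y = ⌊(z : ℝ) ^ (1 - δ)⌋₊ := ⟨_, rfl⟩
  have hyz : (y : ℝ) ≤ (z : ℝ) ^ (1 - δ) := by
    rw [hy]
    exact Nat.floor_le (by positivity)
  refine ⟨(Pool.Agent.H90.primesRes q 1 z).filter (fun l => l ∉ B),
    ∏ p ∈ (Finset.Icc 1 y).filter Nat.Prime, p ^ Nat.log p z, ?_, ?_, ?_, ?_⟩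
  · apply Finset.prod_pos
    intro p hp
    exact pow_pos (Finset.mem_filter.1 hp).2.pos _
  · intro l hl
    rw [Finset.mem_filter, Pool.Agent.H90.primesRes, Finset.mem_filter, Finset.mem_Icc] at hl
    obtain ⟨⟨⟨hl1, hlz⟩, hlp, hlq⟩, hlB⟩ := hl
    refine ⟨hlp, ?_, hlz, ?_⟩
    · have h1 : ((1 : ℕ) : ZMod q) = (l : ZMod q) := by
        rw [hlq]
        simp
      exact (Nat.modEq_iff_dvd' hl1).1 ((ZMod.natCast_eq_natCast_iff 1 l q).1 h1)
    · have hl0 : l - 1 ≠ 0 := by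
        have := hlp.two_le
        omega
      have h1 : l - 1 = ∏ p ∈ (l - 1).primeFactors, p ^ (l - 1).factorization p := by
        conv_lhs => rw [← Nat.prod_factorization_pow_eq_self hl0]
        rfl
      rw [h1]
      refine dvd_trans (Finset.prod_dvd_prod_of_dvd _ (fun p => p ^ Nat.log p z) ?_)
        (Finset.prod_dvd_prod_of_subset _ _ _ ?_)
      · intro p hp
        have hpp := Nat.prime_of_mem_primeFactors hp
        apply pow_dvd_pow
        apply Nat.le_log_of_pow_le hpp.one_lt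
        have h2 : p ^ (l - 1).factorization p ∣ l - 1 := Nat.ordProj_dvd _ _
        exact (Nat.le_of_dvd (by omega) h2).trans (by omega)
      · intro p hp
        have hpp := Nat.prime_of_mem_primeFactors hp
        rw [Finset.mem_filter, Finset.mem_Icc]
        refine ⟨⟨hpp.one_lt.le, ?_⟩, hpp⟩
        rw [hy]
        apply Nat.le_floor
        by_contra hlt2
        push Not at hlt2
        exact hlB ⟨hlz, hlp, p, hpp, hlt2, Nat.dvd_of_mem_primeFactors hp⟩
  · have h1 : Real.log ((∏ p ∈ (Finset.Icc 1 y).filter Nat.Prime, p ^ Nat.log p z : ℕ) : ℝ) =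
        ∑ p ∈ (Finset.Icc 1 y).filter Nat.Prime, Real.log ((p ^ Nat.log p z : ℕ) : ℝ) := by
      rw [Nat.cast_prod, Real.log_prod]
      intro p hp
      have := (Finset.mem_filter.1 hp).2.pos
      positivity
    rw [h1]
    calc ∑ p ∈ (Finset.Icc 1 y).filter Nat.Prime, Real.log ((p ^ Nat.log p z : ℕ) : ℝ)
        ≤ ∑ p ∈ (Finset.Icc 1 y).filter Nat.Prime, Real.log z := by
          apply Finset.sum_le_sum
          intro p hp
          have hp0 := (Finset.mem_filter.1 hp).2.pos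
          apply Real.log_le_log
          · have : 0 < p ^ Nat.log p z := pow_pos hp0 _
            exact_mod_cast this
          · have : p ^ Nat.log p z ≤ z := Nat.pow_log_le_self p (by omega)
            exact_mod_cast this
      _ = (((Finset.Icc 1 y).filter Nat.Prime).card : ℝ) * Real.log z := by
          rw [Finset.sum_const, nsmul_eq_mul]
      _ ≤ (y : ℝ) * Real.log z := by
          gcongr
          have h2 := Finset.card_filter_le (Finset.Icc 1 y) Nat.Prime
          rw [Nat.card_Icc] at h2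
          simpa using h2
      _ ≤ (z : ℝ) ^ (1 - δ) * Real.log z := by gcongr
  · have h1 : ((Pool.Agent.H90.primesRes q 1 z).card : ℝ) ≤
        (((Pool.Agent.H90.primesRes q 1 z).filter (fun l => l ∉ B)).card : ℝ) + (B.ncard : ℝ) := by
      have h2 := Finset.card_filter_add_card_filter_not (s := Pool.Agent.H90.primesRes q 1 z)
        (fun l => l ∉ B)
      have h3 : ((Pool.Agent.H90.primesRes q 1 z).filter (fun l => ¬ l ∉ B)).card ≤ B.ncard := by
        rw [Set.ncard_eq_toFinset_card B hBfin]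
        apply Finset.card_le_card
        intro l hl
        rw [Finset.mem_filter, not_not] at hl
        rw [Set.Finite.mem_toFinset]
        exact hl.2
      have h4 : (Pool.Agent.H90.primesRes q 1 z).card ≤
          ((Pool.Agent.H90.primesRes q 1 z).filter (fun l => l ∉ B)).card + B.ncard := by omega
      exact_mod_cast h4
    have h5 : C * δ * z / Real.log z ≤ 1 / (4 * ((q : ℝ) - 1)) * z / Real.log z := by gcongr
    have h6 : 1 / (2 * ((q : ℝ) - 1)) * (z / Real.log z) =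
        1 / (4 * ((q : ℝ) - 1)) * z / Real.log z + 1 / (4 * ((q : ℝ) - 1)) * z / Real.log z := by
      field_simp
      ring
    linarith

end Pool.Agent.H91.NL
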