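import Pool.Agent.H91.NL.SieveQ
import Pool.Agent.H91.NL.PrD
import Pool.Agent.H91.NL.Adm

/-!
JOB NL-21 (fixed exponent: `X^(1 - c/loglog X)`, about 150-200 lines).

Let `c1, δ, z0` be as in `primes_exist`.  For large `X` let `z = ⌈log X⌉₊`, take `P`, `L` for `z`, and let
`r = ⌊c2 log X/loglog X⌋₊`, `c2 = min c1 1 / 4`; since `#P ≥ c1 z/log z ≥ r` (`z ≥ log X`, `log z ≤ 2 loglog X`)
choose `P' ⊆ P` with `#P' = r` (`Finset.exists_subset_card_eq`), `r ≥ 1`.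
`∏_{l∈P'} l ≤ z^r ≤ exp(r * 2 loglog X) ≤ exp ((1/2) log X) ≤ X`.  `log L ≤ z^(1-δ) log z`.
`sieve_q`: the admissible set has at most `L (4 X) (23/24)^r` elements in `[-X, X]`, and
`log (L * 4 * (23/24)^r) ≤ z^(1-δ) log z + log 4 - r log(24/23) ≤ - 2c log X/loglog X` for large `X` with
`c = c2 * 0.01` (`log (24/23) ≥ 0.04`, `r ≥ c2 log X/(2 loglog X)`..; `z^(1-δ) log z = o(log X/loglog X)`).
So it has at most `X^(1 - 2c/loglog X) ≤ (1/2) X^(1 - c/loglog X)` elements (log X/loglog X → ∞).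
The other `x` in the set of the theorem have `|x| < (8q^2)^21 + 2` by `adm` (`n ≥ 2`): a constant number
`≤ (1/2) X^(1 - c/loglog X)` for large `X`.
-/

namespace Pool.Agent.H91.NL

open Filter Topology

theorem rateQ_ev {c2 δ : ℝ} (B z0 : ℝ) (hc2 : 0 < c2) (hδ : 0 < δ) : ∀ᶠ t : ℝ in atTop,
    (2 ≤ Real.log t ∧ 2 ≤ t ∧ z0 ≤ t) ∧
    (4 * t ^ (1 - δ) * Real.log t ≤ c2 / 100 * t / Real.log t ∧
    4 ≤ c2 / 100 * t / Real.log t ∧ B ≤ Real.exp (t / 2)) := by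
  have e1 : ∀ᶠ t : ℝ in atTop, 2 ≤ Real.log t := Real.tendsto_log_atTop.eventually_ge_atTop 2
  have e2 : ∀ᶠ t : ℝ in atTop, 2 ≤ t := eventually_ge_atTop 2
  have e3 : ∀ᶠ t : ℝ in atTop, z0 ≤ t := eventually_ge_atTop z0
  have e4 := (isLittleO_log_rpow_rpow_atTop (2 : ℝ) hδ).bound (show 0 < c2 / 400 by positivity)
  have e5 := Real.isLittleO_log_id_atTop.bound (show 0 < c2 / 400 by positivity)
  have e6 : ∀ᶠ t : ℝ in atTop, B ≤ Real.exp (t / 2) :=
    (Real.tendsto_exp_atTop.comp (tendsto_id.atTop_div_const (by norm_num))).eventually_ge_atTop B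
  filter_upwards [e1, e2, e3, e4, e5, e6] with t h1 h2 h3 h4 h5 h6
  have ht0 : 0 < t := by linarith
  have hl0 : 0 < Real.log t := by linarith
  refine ⟨⟨h1, h2, h3⟩, ?_, ?_, h6⟩
  · rw [le_div_iff₀ hl0]
    rw [Real.norm_of_nonneg (by positivity), Real.norm_of_nonneg (by positivity),
      Real.rpow_two] at h4
    have h7 : t ^ (1 - δ) * t ^ δ = t := by
      rw [← Real.rpow_add ht0]
      norm_num
    calc 4 * t ^ (1 - δ) * Real.log t * Real.log t = 4 * t ^ (1 - δ) * Real.log t ^ 2 := by ring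
      _ ≤ 4 * t ^ (1 - δ) * (c2 / 400 * t ^ δ) :=
          mul_le_mul_of_nonneg_left h4 (by positivity)
      _ = c2 / 100 * (t ^ (1 - δ) * t ^ δ) := by ring
      _ = c2 / 100 * t := by rw [h7]
  · rw [le_div_iff₀ hl0]
    rw [Real.norm_of_nonneg hl0.le, id, Real.norm_of_nonneg ht0.le] at h5
    linarith

theorem rateQ_split {q : ℕ} (hq : q.Prime) (hq3 : 3 ≤ q) (X : ℕ) :
    (cnt {x | ∃ (y : ℤ) (n : ℕ), 2 ≤ n ∧ rep x n = y ^ q} X : ℝ) ≤
      (cnt {x | ∃ (y : ℤ) (n : ℕ), 1 ≤ n ∧ ¬ n ≡ 1 [MOD q] ∧ ¬ 2 * q ∣ n ∧ rep x n = y ^ q} X : ℝ)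
        + (2 * ((8 * (q : ℝ) ^ 2) ^ 21 + 2) + 1) := by
  set S1 : Set ℤ := {x | ∃ (y : ℤ) (n : ℕ), 1 ≤ n ∧ ¬ n ≡ 1 [MOD q] ∧ ¬ 2 * q ∣ n ∧
    rep x n = y ^ q} with hS1
  set A : ℕ := (8 * q ^ 2) ^ 21 + 2 with hA
  have hfin : ({x : ℤ | |x| ≤ (X : ℤ) ∧ x ∈ S1} : Set ℤ).Finite := by
    refine (Set.finite_Icc (-(X : ℤ)) X).subset ?_
    rintro x ⟨hx, -⟩
    exact abs_le.1 hx
  have hsub : {x : ℤ | |x| ≤ (X : ℤ) ∧ x ∈ {x : ℤ | ∃ (y : ℤ) (n : ℕ), 2 ≤ n ∧ rep x n = y ^ q}} ⊆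
      {x : ℤ | |x| ≤ (X : ℤ) ∧ x ∈ S1} ∪ ((Finset.Icc (-(A : ℤ)) A : Finset ℤ) : Set ℤ) := by
    rintro x ⟨hx, y, n, hn, hxy⟩
    by_cases hA' : |x| ≤ (A : ℤ)
    · right
      rw [Finset.mem_coe, Finset.mem_Icc]
      exact abs_le.1 hA'
    · left
      refine ⟨hx, y, n, by omega, ?_⟩
      have h1 : ((8 * q ^ 2) ^ 21 + 2 : ℤ) ≤ |x| := by
        push Not at hA'
        rw [hA] at hA'
        push_cast at hA'
        exact hA'.le
      obtain ⟨h2, h3⟩ := adm hq hq3 hn h1 hxy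
      exact ⟨h2, h3, hxy⟩
  have h1 : cnt {x | ∃ (y : ℤ) (n : ℕ), 2 ≤ n ∧ rep x n = y ^ q} X ≤ cnt S1 X + (2 * A + 1) := by
    unfold cnt
    refine (Set.ncard_le_ncard hsub (hfin.union (Finset.finite_toSet _))).trans ?_
    refine (Set.ncard_union_le _ _).trans ?_
    rw [Set.ncard_coe_finset, Int.card_Icc]
    omega
  have h2 : (cnt {x | ∃ (y : ℤ) (n : ℕ), 2 ≤ n ∧ rep x n = y ^ q} X : ℝ) ≤
      ((cnt S1 X + (2 * A + 1) : ℕ) : ℝ) := by exact_mod_cast h1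
  refine h2.trans (le_of_eq ?_)
  rw [hA]
  push_cast
  ring

theorem rateQ_pow (r : ℕ) : ((23 : ℝ) / 24) ^ r ≤ Real.exp (-(r / 24)) := by
  have h1 : (23 : ℝ) / 24 ≤ Real.exp (-(1 / 24)) := by
    have := Real.add_one_le_exp (-(1 / 24) : ℝ)
    linarith
  calc ((23 : ℝ) / 24) ^ r ≤ Real.exp (-(1 / 24)) ^ r := pow_le_pow_left₀ (by norm_num) h1 r
    _ = Real.exp (-(r / 24)) := by
        rw [← Real.exp_nat_mul]
        congr 1
        ring

theorem rate_q {q : ℕ} (hq : q.Prime) (hq3 : 3 ≤ q) : ∃ c : ℝ, 0 < c ∧ ∃ X0 : ℕ, ∀ X ≥ X0,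
    (cnt {x | ∃ (y : ℤ) (n : ℕ), 2 ≤ n ∧ rep x n = y ^ q} X : ℝ) ≤
      (X : ℝ) ^ (1 - c / Real.log (Real.log X)) := by
  obtain ⟨c1, δ, hc1, hδ, hδ1, z0, hz0⟩ := primes_exist hq hq3
  set c2 : ℝ := min c1 1 / 4 with hc2
  have hc2p : 0 < c2 := by
    rw [hc2]
    have : 0 < min c1 1 := lt_min hc1 one_pos
    positivity
  have hc2a : c2 ≤ c1 / 4 := by
    rw [hc2]
    have := min_le_left c1 1
    linarith
  have hc2b : c2 ≤ 1 / 4 := by
    rw [hc2]
    have := min_le_right c1 1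
    linarith
  set B : ℝ := 2 * (2 * ((8 * (q : ℝ) ^ 2) ^ 21 + 2) + 1) with hB
  refine ⟨c2 / 100, by positivity, ?_⟩
  have hev := (Real.tendsto_log_atTop.comp tendsto_natCast_atTop_atTop).eventually
    (rateQ_ev B z0 hc2p hδ)
  obtain ⟨X0, hX0⟩ := Filter.eventually_atTop.1 hev
  refine ⟨X0, fun X hX => ?_⟩
  obtain ⟨⟨h1, h2, h3⟩, h4, h5, h6⟩ := hX0 X hX
  simp only [Function.comp_apply] at h1 h2 h3 h4 h5 h6
  set t : ℝ := Real.log X with ht
  have hXpos : 0 < (X : ℝ) := by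
    rcases Nat.eq_zero_or_pos X with h | h
    · rw [ht, h, Nat.cast_zero, Real.log_zero] at h2
      linarith
    · exact_mod_cast h
  have hXexp : (X : ℝ) = Real.exp t := (Real.exp_log hXpos).symm
  have ht0 : 0 < t := by linarith
  have hl0 : 0 < Real.log t := by linarith
  set w : ℝ := t / Real.log t with hw
  have hw0 : 0 < w := by positivity
  have h4' : 4 * t ^ (1 - δ) * Real.log t ≤ c2 / 100 * w := by
    rw [hw, ← mul_div_assoc]
    exact h4
  have h5' : 4 ≤ c2 / 100 * w := by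
    rw [hw, ← mul_div_assoc]
    exact h5
  -- the parameter z
  set z : ℕ := ⌈t⌉₊ with hz
  have hz1 : t ≤ z := Nat.le_ceil t
  have hz2 : (z : ℝ) ≤ 2 * t := by
    have := (Nat.ceil_lt_add_one ht0.le).le
    linarith
  have hzpos : (0 : ℝ) < z := by linarith
  have hlz1 : Real.log t ≤ Real.log z := Real.log_le_log ht0 hz1
  have hlz2 : Real.log z ≤ 2 * Real.log t := by
    have h7 : Real.log z ≤ Real.log (2 * t) := Real.log_le_log hzpos hz2
    rw [Real.log_mul (by norm_num) ht0.ne'] at h7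
    have h8 : Real.log 2 ≤ Real.log t := Real.log_le_log (by norm_num) h2
    linarith
  have hlz0 : 0 < Real.log z := by linarith
  have hzz0 : z ≥ z0 := by
    have : (z0 : ℝ) ≤ z := by linarith
    exact_mod_cast this
  obtain ⟨P, L, hL, hP, hlogL, hcard⟩ := hz0 z hzz0
  -- the subset
  set r : ℕ := ⌊c2 * w⌋₊ with hr
  have hr1 : (r : ℝ) ≤ c2 * w := Nat.floor_le (by positivity)
  have hr2 : c2 * w - 1 ≤ r := by
    have := Nat.lt_floor_add_one (c2 * w)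
    linarith
  have hrP : r ≤ P.card := by
    have h7 : (r : ℝ) ≤ P.card := by
      refine hr1.trans (le_trans ?_ hcard)
      rw [le_div_iff₀ hlz0, hw]
      have h8 : c2 * (t / Real.log t) * Real.log z ≤ c2 * (t / Real.log t) * (2 * Real.log t) :=
        mul_le_mul_of_nonneg_left hlz2 (by positivity)
      have h9 : c2 * (t / Real.log t) * (2 * Real.log t) = 2 * c2 * t := by
        field_simp
      have h10 : 2 * c2 * t ≤ c1 * z := by
        calc 2 * c2 * t ≤ c1 * t := by nlinarith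
          _ ≤ c1 * z := mul_le_mul_of_nonneg_left hz1 hc1.le
      linarith
    exact_mod_cast h7
  obtain ⟨P', hP'P, hP'c⟩ := Finset.exists_subset_card_eq hrP
  have hr0 : 1 ≤ r := by
    have h7 : (0 : ℝ) < r := by nlinarith
    exact_mod_cast h7
  have hne : P'.Nonempty := by
    rw [← Finset.card_pos, hP'c]
    exact hr0
  have hsieve := sieve_q hq hq3 P' hne (fun l hl => ⟨(hP l (hP'P hl)).1, (hP l (hP'P hl)).2.1⟩) L hL
    (fun l hl => (hP l (hP'P hl)).2.2.2) X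
  rw [hP'c] at hsieve
  -- the product
  have hprod : ((∏ l ∈ P', l : ℕ) : ℝ) ≤ X := by
    have h7 : ∏ l ∈ P', l ≤ z ^ r := by
      rw [← hP'c]
      exact Finset.prod_le_pow_card _ _ _ (fun l hl => (hP l (hP'P hl)).2.2.1)
    have h8 : ((∏ l ∈ P', l : ℕ) : ℝ) ≤ (z : ℝ) ^ r := by exact_mod_cast h7
    refine h8.trans ?_
    have h9 : (z : ℝ) ^ r = Real.exp (r * Real.log z) := by
      rw [Real.exp_nat_mul, Real.exp_log hzpos]
    rw [h9, hXexp]
    apply Real.exp_le_exp.2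
    calc (r : ℝ) * Real.log z ≤ (c2 * w) * (2 * Real.log t) :=
          mul_le_mul hr1 hlz2 hlz0.le (by positivity)
      _ = 2 * c2 * t := by
          rw [hw]
          field_simp
      _ ≤ t := by nlinarith
  -- log L
  have hLexp : (L : ℝ) ≤ Real.exp (c2 / 100 * w) := by
    have hLpos : (0 : ℝ) < L := by exact_mod_cast hL
    rw [← Real.exp_log hLpos]
    apply Real.exp_le_exp.2
    refine hlogL.trans (le_trans ?_ h4')
    have h7 : (z : ℝ) ^ (1 - δ) ≤ 2 * t ^ (1 - δ) := by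
      calc (z : ℝ) ^ (1 - δ) ≤ (2 * t) ^ (1 - δ) :=
            Real.rpow_le_rpow hzpos.le hz2 (by linarith)
        _ = 2 ^ (1 - δ) * t ^ (1 - δ) := Real.mul_rpow (by norm_num) ht0.le
        _ ≤ 2 * t ^ (1 - δ) := by
            refine mul_le_mul_of_nonneg_right ?_ (by positivity)
            calc (2 : ℝ) ^ (1 - δ) ≤ 2 ^ (1 : ℝ) :=
                  Real.rpow_le_rpow_of_exponent_le (by norm_num) (by linarith)
              _ = 2 := Real.rpow_one 2
    calc (z : ℝ) ^ (1 - δ) * Real.log z ≤ (2 * t ^ (1 - δ)) * (2 * Real.log t) :=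
          mul_le_mul h7 hlz2 hlz0.le (by positivity)
      _ = 4 * t ^ (1 - δ) * Real.log t := by ring
  -- the two parts
  have hE : (X : ℝ) ^ (1 - c2 / 100 / Real.log t) = Real.exp (t - c2 / 100 * w) := by
    rw [Real.rpow_def_of_pos hXpos, ← ht, hw]
    congr 1
    field_simp
  have he2 : (4 : ℝ) ≤ Real.exp 2 := by
    have := Real.quadratic_le_exp_of_nonneg (show (0 : ℝ) ≤ 2 by norm_num)
    linarith
  have he1 : (2 : ℝ) ≤ Real.exp 1 := by
    have := Real.add_one_le_exp (1 : ℝ)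
    linarith
  have hpart1 : (L : ℝ) * (2 * X + 2 * ((∏ l ∈ P', l : ℕ) : ℝ)) * (23 / 24) ^ r ≤
      Real.exp (t - c2 / 100 * w) / 2 := by
    have h7 : 2 * (X : ℝ) + 2 * ((∏ l ∈ P', l : ℕ) : ℝ) ≤ Real.exp 2 * Real.exp t := by
      rw [← hXexp]
      nlinarith
    have h8 : (L : ℝ) * (2 * X + 2 * ((∏ l ∈ P', l : ℕ) : ℝ)) * (23 / 24) ^ r ≤
        Real.exp (c2 / 100 * w) * (Real.exp 2 * Real.exp t) * Real.exp (-(r / 24)) :=
      mul_le_mul (mul_le_mul hLexp h7 (by positivity) (Real.exp_pos _).le) (rateQ_pow r)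
        (by positivity) (by positivity)
    refine h8.trans ?_
    rw [le_div_iff₀ (by norm_num : (0 : ℝ) < 2), ← Real.exp_add, ← Real.exp_add, ← Real.exp_add]
    calc Real.exp (c2 / 100 * w + (2 + t) + -(r / 24)) * 2 ≤
          Real.exp (c2 / 100 * w + (2 + t) + -(r / 24)) * Real.exp 1 :=
          mul_le_mul_of_nonneg_left he1 (Real.exp_pos _).le
      _ = Real.exp (c2 / 100 * w + (2 + t) + -(r / 24) + 1) := (Real.exp_add _ _).symm
      _ ≤ Real.exp (t - c2 / 100 * w) := by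
          apply Real.exp_le_exp.2
          linarith
  have hpart2 : 2 * ((8 * (q : ℝ) ^ 2) ^ 21 + 2) + 1 ≤ Real.exp (t - c2 / 100 * w) / 2 := by
    have h7 : Real.exp (t / 2) ≤ Real.exp (t - c2 / 100 * w) := by
      apply Real.exp_le_exp.2
      have h8 : w ≤ t := by
        rw [hw, div_le_iff₀ hl0]
        nlinarith
      nlinarith
    rw [hB] at h6
    linarith
  have hfinal := rateQ_split hq hq3 X
  rw [hE]
  linarith

end Pool.Agent.H91.NL
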