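import Pool.Agent.H91.NL.Foreign
import Pool.Agent.H91.NL.RateQ
import Pool.Agent.H91.NL.EE

/-!
JOB NL-27 (final assembly: density zero, about 150-200 lines).

Let `S` be the set of the theorem.  Let `x ∈ S`, `rep x d = y^k`, `k` odd, `k > 1`; take a prime `q ∣ k`
(`q ≥ 3`), `y' = y^(k/q)`, `|y'| ≥ 2`, `rep x d = y'^q`.
(1) For `β > 0` there is `Q1` with `2000 log q/√q ≤ β` for `q > Q1`.  If `q > Q1` then `|x|` is `Bad β q`: let
`p` be a prime factor of `|x|` with `p ≠ q`, `q ∤ p - 1`; `foreign` with `M = p` gives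
`log p ≤ β log |x|`, i.e. `p ≤ |x|^β`.
(2) Let `ε > 0`.  Let `C` be the constant of `large_q`, choose `β ≤ 1/4` with `2 C √β ≤ ε/2`, `Q0` from
`large_q`, `Q = max Q0 Q1`.  Then for large `X`
`cnt S X ≤ ∑_{q ≤ Q, q ≥ 3 prime} cnt {x | ∃ y n, 2 ≤ n ∧ rep x n = y^q} X + 2 #{m ≤ X : ∃ q > Q, Bad β q m}`
(the second set counts `|x|`, two signs), and by `rate_q` each of the finitely many terms of the first sum is
`≤ X^(1 - c/loglog X) = X exp(- c log X/loglog X) ≤ (ε/(2Q)) X` for large `X`.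
-/

namespace Pool.Agent.H91.NL

open Filter

theorem fin1_ratio : Tendsto (fun u : ℝ => u / Real.log u) atTop atTop := by
  have h0 : Tendsto (fun u : ℝ => Real.log u / u) atTop (nhds 0) := by
    have := Real.isLittleO_log_id_atTop.tendsto_div_nhds_zero
    simpa using this
  have h1 : Tendsto (fun u : ℝ => Real.log u / u) atTop (nhdsWithin 0 (Set.Ioi 0)) := by
    refine tendsto_nhdsWithin_iff.2 ⟨h0, ?_⟩
    filter_upwards [eventually_gt_atTop (1 : ℝ)] with u hu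
    exact div_pos (Real.log_pos hu) (by linarith)
  have h2 := h1.inv_tendsto_nhdsGT_zero
  refine h2.congr (fun u => ?_)
  simp

theorem fin1_fixed {q : ℕ} (hq : q.Prime) (hq3 : 3 ≤ q) :
    Tendsto (fun X : ℕ => (cnt {x | ∃ (y : ℤ) (n : ℕ), 2 ≤ n ∧ rep x n = y ^ q} X : ℝ) / X)
      atTop (nhds 0) := by
  obtain ⟨c, hc, X0, hX0⟩ := rate_q hq hq3
  have hlog : Tendsto (fun X : ℕ => Real.log (X : ℝ)) atTop atTop :=
    Real.tendsto_log_atTop.comp tendsto_natCast_atTop_atTop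
  have h1 : Tendsto (fun X : ℕ => Real.exp (-(c * (Real.log X / Real.log (Real.log X)))))
      atTop (nhds 0) := by
    refine Real.tendsto_exp_neg_atTop_nhds_zero.comp ?_
    exact (fin1_ratio.comp hlog).const_mul_atTop hc
  refine tendsto_of_tendsto_of_tendsto_of_le_of_le' tendsto_const_nhds h1 ?_ ?_
  · filter_upwards with X
    positivity
  · filter_upwards [eventually_ge_atTop X0, eventually_ge_atTop 1] with X hX hX1
    have hXpos : (0 : ℝ) < X := by exact_mod_cast hX1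
    rw [div_le_iff₀ hXpos]
    refine (hX0 X hX).trans (le_of_eq ?_)
    rw [Real.rpow_sub hXpos, Real.rpow_one, Real.rpow_def_of_pos hXpos, Real.exp_neg, div_eq_mul_inv,
      mul_comm]
    congr 3
    ring

theorem fin1_union (s : Finset ℕ) (hs : ∀ q ∈ s, q.Prime ∧ 3 ≤ q) :
    Tendsto (fun X : ℕ => (cnt {x | ∃ q ∈ s, ∃ (y : ℤ) (n : ℕ), 2 ≤ n ∧ rep x n = y ^ q} X : ℝ) / X)
      atTop (nhds 0) := by
  classical
  induction s using Finset.induction_on with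
  | empty =>
    have : ∀ X : ℕ, cnt {x | ∃ q ∈ (∅ : Finset ℕ), ∃ (y : ℤ) (n : ℕ), 2 ≤ n ∧ rep x n = y ^ q} X
        = 0 := by
      intro X
      unfold cnt
      have : {x : ℤ | |x| ≤ (X : ℤ) ∧ x ∈ {x | ∃ q ∈ (∅ : Finset ℕ), ∃ (y : ℤ) (n : ℕ),
          2 ≤ n ∧ rep x n = y ^ q}} = ∅ := by
        ext x
        simp
      rw [this, Set.ncard_empty]
    simp only [this, Nat.cast_zero, zero_div]
    exact tendsto_const_nhds
  | insert a s ha ih =>
    have h1 := ih (fun q hq => hs q (Finset.mem_insert_of_mem hq))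
    have ha' := hs a (Finset.mem_insert_self a s)
    have h2 := fin1_fixed ha'.1 ha'.2
    have h3 := h2.add h1
    rw [add_zero] at h3
    refine tendsto_of_tendsto_of_tendsto_of_le_of_le' tendsto_const_nhds h3 ?_ ?_
    · filter_upwards with X
      positivity
    · filter_upwards with X
      rw [← add_div]
      refine div_le_div_of_nonneg_right ?_ (Nat.cast_nonneg X)
      have hsub : {x : ℤ | ∃ q ∈ insert a s, ∃ (y : ℤ) (n : ℕ), 2 ≤ n ∧ rep x n = y ^ q} ⊆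
          {x | ∃ (y : ℤ) (n : ℕ), 2 ≤ n ∧ rep x n = y ^ a} ∪
          {x | ∃ q ∈ s, ∃ (y : ℤ) (n : ℕ), 2 ≤ n ∧ rep x n = y ^ q} := by
        rintro x ⟨q, hq, h⟩
        rcases Finset.mem_insert.1 hq with rfl | hq
        · exact Or.inl h
        · exact Or.inr ⟨q, hq, h⟩
      have := (cnt_mono hsub X).trans (cnt_union _ _ X)
      exact_mod_cast this

theorem fin1_Q {β : ℝ} (hβ : 0 < β) : ∃ Q1 : ℕ, ∀ q : ℕ, Q1 < q →
    2000 * (Real.log q / √q) ≤ β := by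
  have h0 : Tendsto (fun u : ℝ => Real.log u / √u) atTop (nhds 0) := by
    have := (isLittleO_log_rpow_atTop (r := 1 / 2) (by norm_num)).tendsto_div_nhds_zero
    refine this.congr (fun u => ?_)
    rw [Real.sqrt_eq_rpow]
  have h1 : Tendsto (fun q : ℕ => 2000 * (Real.log q / √q)) atTop (nhds 0) := by
    have := (h0.comp tendsto_natCast_atTop_atTop).const_mul 2000
    simpa using this
  obtain ⟨Q1, hQ1⟩ := (h1.eventually (gt_mem_nhds hβ)).exists_forall_of_atTop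
  exact ⟨Q1, fun q hq => (hQ1 q hq.le).le⟩

theorem fin1_bad {β : ℝ} {q : ℕ} (hq : q.Prime) (hQ : 2000 * (Real.log q / √q) ≤ β)
    {x y : ℤ} {n : ℕ} (hx : 2 ≤ |x|) (hy : 2 ≤ |y|) (h : rep x n = y ^ q) :
    Bad β q x.natAbs := by
  intro p hp hpx hlt
  by_contra hcon
  push Not at hcon
  have hdvd : (p : ℤ) ∣ x := Int.natCast_dvd.2 hpx
  have hf := foreign hx hy hq h hdvd (fun r hr hrp => by
    have : r = p := (Nat.prime_dvd_prime_iff_eq hr hp).1 hrp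
    rw [this]
    exact hcon)
  have habs : (0 : ℝ) < |(x : ℝ)| := by
    have : (2 : ℝ) ≤ |(x : ℝ)| := by exact_mod_cast hx
    linarith
  have hlog : 0 ≤ Real.log |(x : ℝ)| := by
    apply Real.log_nonneg
    have : (2 : ℝ) ≤ |(x : ℝ)| := by exact_mod_cast hx
    linarith
  have h1 : Real.log p ≤ β * Real.log |(x : ℝ)| :=
    hf.trans (mul_le_mul_of_nonneg_right hQ hlog)
  have hppos : (0 : ℝ) < p := by exact_mod_cast hp.pos
  have h2 : (p : ℝ) ≤ |(x : ℝ)| ^ β := by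
    rw [← Real.log_le_log_iff hppos (Real.rpow_pos_of_pos habs β), Real.log_rpow habs]
    exact h1
  have h3 : ((x.natAbs : ℕ) : ℝ) = |(x : ℝ)| := by
    rw [Nat.cast_natAbs, Int.cast_abs]
  rw [h3] at hlt
  linarith

theorem fin1_card (P : ℕ → Prop) (X : ℕ) :
    ({x : ℤ | |x| ≤ (X : ℤ) ∧ x ∈ {x : ℤ | 1 ≤ x.natAbs ∧ P x.natAbs}}.ncard) ≤
      2 * {m : ℕ | 1 ≤ m ∧ m ≤ X ∧ P m}.ncard := by
  have hfin : {m : ℕ | 1 ≤ m ∧ m ≤ X ∧ P m}.Finite :=
    (Set.finite_Icc 1 X).subset (fun m hm => ⟨hm.1, hm.2.1⟩)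
  have hsub : {x : ℤ | |x| ≤ (X : ℤ) ∧ x ∈ {x : ℤ | 1 ≤ x.natAbs ∧ P x.natAbs}} ⊆
      (fun m : ℕ => (m : ℤ)) '' {m : ℕ | 1 ≤ m ∧ m ≤ X ∧ P m} ∪
      (fun m : ℕ => -(m : ℤ)) '' {m : ℕ | 1 ≤ m ∧ m ≤ X ∧ P m} := by
    rintro x ⟨h1, h2, h3⟩
    have h4 : x.natAbs ≤ X := by
      zify
      exact h1
    rcases Int.natAbs_eq x with h | h
    · exact Or.inl ⟨x.natAbs, ⟨h2, h4, h3⟩, h.symm⟩
    · exact Or.inr ⟨x.natAbs, ⟨h2, h4, h3⟩, h.symm⟩
  refine (Set.ncard_le_ncard hsub ((hfin.image _).union (hfin.image _))).trans ?_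
  refine (Set.ncard_union_le _ _).trans ?_
  have a1 := Set.ncard_image_le (f := fun m : ℕ => (m : ℤ)) hfin
  have a2 := Set.ncard_image_le (f := fun m : ℕ => -(m : ℤ)) hfin
  omega

theorem density_zero : Filter.Tendsto (fun X : ℕ => (({x : ℤ | |x| ≤ (X : ℤ) ∧ 1 < |x| ∧
    ∃ (y : ℤ) (d k : ℕ), 1 < |y| ∧ 2 < d ∧ 1 < k ∧ Odd k ∧
      ∑ i ∈ Finset.range d, x ^ i = y ^ k}.ncard : ℕ) : ℝ) / X) Filter.atTop (nhds 0) := by
  classical
  obtain ⟨C, hC, hlarge⟩ := large_q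
  rw [Metric.tendsto_atTop]
  intro ε hε
  set β : ℝ := min (1 / 4) ((ε / (8 * C)) ^ 2) with hβdef
  have hβ : 0 < β := lt_min (by norm_num) (by positivity)
  have hβ4 : β ≤ 1 / 4 := min_le_left _ _
  have hsq : √β ≤ ε / (8 * C) := by
    apply Real.sqrt_le_iff.2
    exact ⟨by positivity, min_le_right _ _⟩
  obtain ⟨Q0, hQ0⟩ := hlarge β hβ hβ4
  obtain ⟨Q1, hQ1⟩ := fin1_Q hβ
  obtain ⟨X0, hX0⟩ := hQ0 (max Q0 Q1) (le_max_left _ _)
  set Q := max Q0 Q1 with hQdef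
  set s : Finset ℕ := (Finset.Icc 3 Q).filter Nat.Prime with hs
  have hunion := fin1_union s (fun q hq => by
    rw [hs, Finset.mem_filter, Finset.mem_Icc] at hq
    exact ⟨hq.2, hq.1.1⟩)
  rw [Metric.tendsto_atTop] at hunion
  obtain ⟨X1, hX1⟩ := hunion (ε / 2) (by positivity)
  refine ⟨max (max X0 X1) 1, fun X hX => ?_⟩
  have hXX0 : X0 ≤ X := le_trans (le_max_left _ _) (le_trans (le_max_left _ _) hX)
  have hXX1 : X1 ≤ X := le_trans (le_max_right _ _) (le_trans (le_max_left _ _) hX)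
  have hXX2 : 1 ≤ X := le_trans (le_max_right _ _) hX
  have hXpos : (0 : ℝ) < X := by exact_mod_cast hXX2
  have e1 := hX0 X hXX0
  have e2 := hX1 X hXX1
  rw [Real.dist_eq, sub_zero] at e2 ⊢
  have e3 := lt_of_le_of_lt (le_abs_self _) e2
  rw [div_lt_iff₀ hXpos] at e3
  rw [abs_of_nonneg (by positivity), div_lt_iff₀ hXpos]
  -- the inclusion
  have hsub : {x : ℤ | 1 < |x| ∧ ∃ (y : ℤ) (d k : ℕ), 1 < |y| ∧ 2 < d ∧ 1 < k ∧ Odd k ∧
      ∑ i ∈ Finset.range d, x ^ i = y ^ k} ⊆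
      {x | ∃ q ∈ s, ∃ (y : ℤ) (n : ℕ), 2 ≤ n ∧ rep x n = y ^ q} ∪
      {x : ℤ | 1 ≤ x.natAbs ∧ (fun m => ∃ q : ℕ, q.Prime ∧ Q < q ∧ Bad β q m) x.natAbs} := by
    rintro x ⟨hx, y, d, k, hy, hd, hk, hodd, h⟩
    obtain ⟨q, hqp, hqk⟩ := Nat.exists_prime_and_dvd (by omega : k ≠ 1)
    obtain ⟨j, rfl⟩ := hqk
    have hj : j ≠ 0 := by
      rintro rfl
      simp at hk
    have hq3 : 3 ≤ q := by
      have h2 := hqp.two_le
      rcases Nat.lt_or_ge 2 q with h | h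
      · exact h
      · have : q = 2 := by omega
        subst this
        rw [Nat.odd_mul] at hodd
        exact absurd hodd.1 (by decide)
    have hrep : rep x d = (y ^ j) ^ q := by
      rw [← pow_mul, mul_comm j q]
      exact h
    have hy' : 2 ≤ |y ^ j| := by
      rw [abs_pow]
      have : 1 < |y| ^ j := one_lt_pow₀ hy hj
      omega
    by_cases hqQ : q ≤ Q
    · left
      refine ⟨q, ?_, y ^ j, d, by omega, hrep⟩
      rw [hs, Finset.mem_filter, Finset.mem_Icc]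
      exact ⟨⟨hq3, hqQ⟩, hqp⟩
    · right
      push Not at hqQ
      refine ⟨?_, q, hqp, hqQ, ?_⟩
      · have : x ≠ 0 := by
          rintro rfl
          simp at hx
        exact Int.natAbs_pos.2 this
      · exact fin1_bad hqp (hQ1 q (lt_of_le_of_lt (le_max_right _ _) hqQ)) (by omega) hy' hrep
  have hc1 := (cnt_mono hsub X).trans (cnt_union _ _ X)
  have hc2 := fin1_card (fun m => ∃ q : ℕ, q.Prime ∧ Q < q ∧ Bad β q m) X
  have hc3 : (({x : ℤ | |x| ≤ (X : ℤ) ∧ 1 < |x| ∧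
      ∃ (y : ℤ) (d k : ℕ), 1 < |y| ∧ 2 < d ∧ 1 < k ∧ Odd k ∧
      ∑ i ∈ Finset.range d, x ^ i = y ^ k}.ncard : ℕ) : ℝ) ≤
      (cnt {x | ∃ q ∈ s, ∃ (y : ℤ) (n : ℕ), 2 ≤ n ∧ rep x n = y ^ q} X : ℝ) +
      2 * ({m : ℕ | 1 ≤ m ∧ m ≤ X ∧ ∃ q : ℕ, q.Prime ∧ Q < q ∧ Bad β q m}.ncard : ℝ) := by
    unfold cnt at hc1 ⊢
    have := hc1.trans (Nat.add_le_add_left hc2 _)
    exact_mod_cast this
  have e4 : C * √β * X ≤ ε / 8 * X := by
    have : C * √β ≤ ε / 8 := by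
      calc C * √β ≤ C * (ε / (8 * C)) := mul_le_mul_of_nonneg_left hsq hC.le
        _ = ε / 8 := by field_simp
    exact mul_le_mul_of_nonneg_right this hXpos.le
  nlinarith [mul_pos hε hXpos]

end Pool.Agent.H91.NL
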