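import Mathlib

/-!
JOB NL-18 (the finite field lemma, about 120-180 lines).

`l` prime, `q ∣ l - 1`, `q ≥ 3` prime (so `l` is odd and `2q ∣ l - 1`), `c` with `c ≢ 1 mod q` and `2q ∤ c`.
Let `G = (ZMod l)ˣ` (cyclic of order `l - 1`), `R = {u ∈ G : u is a q-th power}`,
`Z = {u ∈ G : u^c = 1}`.  Both are subgroups.
`#R ≤ (l-1)/3`: the kernel of `u ↦ u^q` has at least `q ≥ 3` elements (an element of order `q` exists).
`#Z ≤ (l-1)/2`: `Z ≠ G`, because a generator `g` with `g^c = 1` would give `l - 1 ∣ c`, hence `2q ∣ c`.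
`D \ {0}` consists of units `u`.  Let `H = G \ (R ∪ Z)`; it is closed under inversion and `u ≠ u⁻¹` for
`u ∈ H` (`u = u⁻¹` means `u = ±1` and `±1 ∈ R`, since `(-1)^q = -1`).
If `u ∈ D ∩ H` then `u⁻¹ ∉ D`: `u ≠ 1`, `u^c ≠ 1`, so `u^c - 1 = (u-1) y^q` with `y ≠ 0`, and
`u⁻¹^c - 1 = (u⁻¹ - 1) w^q`, `w ≠ 0`; but `(u⁻¹^c - 1) = - u^(-c) (u^c - 1)`, `u⁻¹ - 1 = - u⁻¹ (u - 1)`, so
`w^q = u^(1-c) y^q`, i.e. `u^(c-1) (w)^q = y^q` (multiply; for `c = 0`: excluded, `2q ∣ 0`), so `u^(c-1) ∈ R`;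
`gcd(c-1,q) = 1`
(`q` prime, `c ≢ 1`) and `u^q ∈ R` give `u ∈ R` (Bezout), contradiction.
So `#(D ∩ H) ≤ #H/2` and
`#D ≤ 1 + #(R ∪ Z) + #H/2 = 1 + (l-1)/2 + #(R ∪ Z)/2 ≤ 1 + (l-1)(1/2 + (1/3+1/2)/2) = 1 + 11(l-1)/12`.
-/

namespace Pool.Agent.H91.NL

/-- admissible residues -/
noncomputable def D (l q c : ℕ) [NeZero l] : Finset (ZMod l) :=
  open Classical in
  Finset.univ.filter (fun x => x = 0 ∨ x = 1 ∨ ∃ y : ZMod l, x ^ c - 1 = (x - 1) * y ^ q)

theorem finD_mem {l q c : ℕ} [NeZero l] {x : ZMod l} :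
    x ∈ D l q c ↔ (x = 0 ∨ x = 1 ∨ ∃ y : ZMod l, x ^ c - 1 = (x - 1) * y ^ q) := by
  classical
  unfold D
  simp

/-- in a group, `u^c = u * z^q` with `gcd(c-1,q) = 1` makes `u` a `q`-th power -/
theorem finD_pow {G : Type*} [CommGroup G] {q c : ℕ} (hq : q.Prime) (hc1 : ¬ c ≡ 1 [MOD q])
    {u z : G} (h : u ^ c = u * z ^ q) : ∃ v : G, v ^ q = u := by
  have hcop : IsCoprime (q : ℤ) ((c : ℤ) - 1) := by
    rw [(Nat.prime_iff_prime_int.1 hq).coprime_iff_not_dvd]
    intro hd
    apply hc1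
    have h1 : (1 : ℤ) ≡ (c : ℤ) [ZMOD (q : ℤ)] := (Int.modEq_iff_dvd).2 (by simpa using hd)
    have h2 : (1 : ℕ) ≡ c [MOD q] := by
      rw [← Int.natCast_modEq_iff]
      simpa using h1
    exact h2.symm
  obtain ⟨a, b, hab⟩ := hcop
  have h1 : u ^ ((c : ℤ) - 1) = z ^ (q : ℤ) := by
    rw [zpow_sub, zpow_one, zpow_natCast, zpow_natCast, h]
    rw [mul_comm u, mul_assoc, mul_inv_cancel, mul_one]
  refine ⟨u ^ a * z ^ b, ?_⟩
  have h3 : u ^ ((a * q + b * ((c : ℤ) - 1)) : ℤ) = u := by rw [hab, zpow_one]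
  rw [mul_pow]
  calc (u ^ a) ^ q * (z ^ b) ^ q = u ^ (a * q) * (z ^ (q : ℤ)) ^ b := by
        congr 1
        · rw [zpow_mul, zpow_natCast]
        · rw [← zpow_mul, ← zpow_natCast, ← zpow_mul, mul_comm]
    _ = u ^ (a * q) * (u ^ ((c : ℤ) - 1)) ^ b := by rw [h1]
    _ = u ^ ((a * q + b * ((c : ℤ) - 1)) : ℤ) := by
        rw [zpow_add, ← zpow_mul, mul_comm b]
    _ = u := h3

theorem finD_inv {l q c : ℕ} [Fact l.Prime] (hq : q.Prime) (hc1 : ¬ c ≡ 1 [MOD q])
    {u : (ZMod l)ˣ} (hR : ∀ v : (ZMod l)ˣ, v ^ q ≠ u) (hZ : u ^ c ≠ 1)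
    (h1 : (u : ZMod l) ∈ D l q c) (h2 : ((u⁻¹ : (ZMod l)ˣ) : ZMod l) ∈ D l q c) : False := by
  have hu0 : (u : ZMod l) ≠ 0 := u.ne_zero
  have hu1 : (u : ZMod l) ≠ 1 := by
    intro h
    apply hR 1
    rw [one_pow]
    exact (Units.val_eq_one.1 h).symm
  have hv0 : ((u⁻¹ : (ZMod l)ˣ) : ZMod l) ≠ 0 := (u⁻¹).ne_zero
  have hv1 : ((u⁻¹ : (ZMod l)ˣ) : ZMod l) ≠ 1 := by
    intro h
    apply hu1
    have h3 : u⁻¹ = 1 := Units.val_eq_one.1 h
    have h4 : u = 1 := inv_eq_one.1 h3
    rw [h4]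
    rfl
  have huc : (u : ZMod l) ^ c ≠ 1 := by
    intro h
    apply hZ
    apply Units.val_eq_one.1
    rw [Units.val_pow_eq_pow_val]
    exact h
  rcases finD_mem.1 h1 with h | h | ⟨y, hy⟩
  · exact hu0 h
  · exact hu1 h
  rcases finD_mem.1 h2 with h | h | ⟨w, hw⟩
  · exact hv0 h
  · exact hv1 h
  have hqne : q ≠ 0 := hq.ne_zero
  have hmul : (u : ZMod l) * ((u⁻¹ : (ZMod l)ˣ) : ZMod l) = 1 := by
    rw [← Units.val_mul, mul_inv_cancel, Units.val_one]
  set U : ZMod l := (u : ZMod l) with hU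
  set V : ZMod l := ((u⁻¹ : (ZMod l)ˣ) : ZMod l) with hV
  have hmulc : U ^ c * V ^ c = 1 := by rw [← mul_pow, hmul, one_pow]
  have hy0 : y ≠ 0 := by
    intro h
    rw [h, zero_pow hqne, mul_zero] at hy
    exact huc (sub_eq_zero.1 hy)
  have hkey0 : (1 - U) * (U ^ c * w ^ q) = (1 - U) * (U * y ^ q) := by
    have e1 : U ^ c * U * (V ^ c - 1) = U ^ c * U * ((V - 1) * w ^ q) := by rw [hw]
    have e2 : U ^ c * U * (V ^ c - 1) = U * (1 - U ^ c) := by
      linear_combination U * hmulc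
    have e3 : U ^ c * U * ((V - 1) * w ^ q) = (1 - U) * (U ^ c * w ^ q) := by
      linear_combination U ^ c * w ^ q * hmul
    have e4 : U * (1 - U ^ c) = (1 - U) * (U * y ^ q) := by
      linear_combination (-U) * hy
    rw [← e3, ← e1, e2, e4]
  have hkey : U ^ c * w ^ q = U * y ^ q := by
    have h5 : (1 - U) ≠ 0 := sub_ne_zero.2 (Ne.symm hu1)
    exact mul_left_cancel₀ h5 hkey0
  have hw0 : w ≠ 0 := by
    intro h
    rw [h, zero_pow hqne, mul_zero] at hkey
    exact (mul_ne_zero hu0 (pow_ne_zero q hy0)) hkey.symm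
  obtain ⟨v, hv⟩ := finD_pow (G := (ZMod l)ˣ) hq hc1 (u := u)
    (z := Units.mk0 y hy0 * (Units.mk0 w hw0)⁻¹) (by
      rw [mul_pow, inv_pow, ← mul_assoc, eq_mul_inv_iff_mul_eq]
      apply Units.ext
      push_cast
      simpa using hkey)
  exact hR v hv

theorem card_D_le {l q c : ℕ} [NeZero l] (hl : l.Prime) (hq : q.Prime) (hq3 : 3 ≤ q)
    (hql : q ∣ l - 1) (hc1 : ¬ c ≡ 1 [MOD q]) (hc2 : ¬ 2 * q ∣ c) :
    12 * (D l q c).card ≤ 12 + 11 * (l - 1) := by
  classical
  have : Fact l.Prime := ⟨hl⟩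
  have hl2 : 2 ≤ l := hl.two_le
  have hcardG : Nat.card (ZMod l)ˣ = l - 1 := by
    rw [Nat.card_eq_fintype_card, ZMod.card_units]
  have hcardF : Fintype.card (ZMod l)ˣ = l - 1 := ZMod.card_units l
  -- `2 q` divides `l - 1`
  have hl4 : 4 ≤ l := by
    have := Nat.le_of_dvd (by omega) hql
    omega
  have hodd : l % 2 = 1 := by
    rcases hl.eq_two_or_odd with h | h
    · omega
    · exact h
  have hqodd : q % 2 = 1 := by
    rcases hq.eq_two_or_odd with h | h
    · omega
    · exact h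
  have h2q : 2 * q ∣ l - 1 := by
    apply Nat.Coprime.mul_dvd_of_dvd_of_dvd
    · rw [Nat.coprime_two_left]
      exact Nat.odd_iff.2 hqodd
    · omega
    · exact hql
  -- the subgroup of `q`-th powers
  let fq : (ZMod l)ˣ →* (ZMod l)ˣ := powMonoidHom q
  let fc : (ZMod l)ˣ →* (ZMod l)ˣ := powMonoidHom c
  have hK : 3 ≤ Nat.card fq.ker := by
    obtain ⟨x, hx⟩ := exists_prime_orderOf_dvd_card (G := (ZMod l)ˣ) q (hp := ⟨hq⟩)
      (by rw [hcardF]; exact hql)
    have hle : Subgroup.zpowers x ≤ fq.ker := by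
      rw [Subgroup.zpowers_le, MonoidHom.mem_ker]
      show x ^ q = 1
      rw [← hx, pow_orderOf_eq_one]
    have h3 : Nat.card (Subgroup.zpowers x) = q := by rw [Nat.card_zpowers, hx]
    have h4 := Subgroup.card_le_of_le hle
    omega
  have hR : 3 * Nat.card fq.range ≤ l - 1 := by
    have h5 : Nat.card fq.ker * fq.ker.index = Nat.card (ZMod l)ˣ := Subgroup.card_mul_index _
    rw [Subgroup.index_ker, hcardG] at h5
    rw [← h5]
    exact Nat.mul_le_mul_right _ hK
  have hZ : 2 * Nat.card fc.ker ≤ l - 1 := by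
    have h5 : Nat.card fc.ker * fc.ker.index = Nat.card (ZMod l)ˣ := Subgroup.card_mul_index _
    have h6 : fc.ker.index ≠ 1 := by
      intro h
      rw [Subgroup.index_eq_one] at h
      obtain ⟨g, hg⟩ := IsCyclic.exists_generator (α := (ZMod l)ˣ)
      have h7 : g ∈ fc.ker := by rw [h]; trivial
      rw [MonoidHom.mem_ker] at h7
      have h8 : g ^ c = 1 := h7
      have h9 : orderOf g ∣ c := orderOf_dvd_of_pow_eq_one h8
      have h10 : orderOf g = l - 1 := by
        rw [orderOf_eq_card_of_forall_mem_zpowers hg, hcardG]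
      rw [h10] at h9
      exact hc2 (h2q.trans h9)
    have h7 : fc.ker.index ≠ 0 := Subgroup.index_ne_zero_of_finite
    have h8 : 2 ≤ fc.ker.index := by omega
    rw [hcardG] at h5
    rw [← h5, mul_comm]
    exact Nat.mul_le_mul_left _ h8
  -- finsets
  let R : Finset (ZMod l)ˣ := Finset.univ.filter (fun u => u ∈ fq.range)
  let Z : Finset (ZMod l)ˣ := Finset.univ.filter (fun u => u ∈ fc.ker)
  have hRc : R.card = Nat.card fq.range := by
    rw [Nat.card_eq_fintype_card, Fintype.card_subtype]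
  have hZc : Z.card = Nat.card fc.ker := by
    rw [Nat.card_eq_fintype_card, Fintype.card_subtype]
  let H : Finset (ZMod l)ˣ := Finset.univ \ (R ∪ Z)
  let D' : Finset (ZMod l)ˣ := Finset.univ.filter (fun u => (u : ZMod l) ∈ D l q c)
  have hD : (D l q c).card ≤ 1 + D'.card := by
    have hsub : D l q c ⊆ insert 0 (D'.image (fun u : (ZMod l)ˣ => (u : ZMod l))) := by
      intro x hx
      by_cases hx0 : x = 0
      · simp [hx0]
      · rw [Finset.mem_insert]
        right
        rw [Finset.mem_image]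
        refine ⟨Units.mk0 x hx0, ?_, rfl⟩
        simp only [D', Finset.mem_filter, Finset.mem_univ, true_and]
        simpa using hx
    refine (Finset.card_le_card hsub).trans ((Finset.card_insert_le _ _).trans ?_)
    rw [add_comm]
    exact Nat.add_le_add_left Finset.card_image_le 1
  have hRZ : (R ∪ Z).card + H.card = l - 1 := by
    have h1 : H.card = Fintype.card (ZMod l)ˣ - (R ∪ Z).card := by
      rw [Finset.card_sdiff_of_subset (Finset.subset_univ _), Finset.card_univ]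
    have h2 : (R ∪ Z).card ≤ Fintype.card (ZMod l)ˣ := by
      rw [← Finset.card_univ]
      exact Finset.card_le_card (Finset.subset_univ _)
    omega
  have hhalf : 2 * (D' ∩ H).card ≤ H.card := by
    have h1 : (D' ∩ H).card ≤ (H \ D').card := by
      apply Finset.card_le_card_of_injOn (fun u => u⁻¹)
      · intro u hu
        rw [Finset.mem_coe, Finset.mem_inter] at hu
        obtain ⟨huD, huH⟩ := hu
        have huRZ : u ∉ R ∧ u ∉ Z := by
          simp only [H, Finset.mem_sdiff, Finset.mem_univ, true_and, Finset.mem_union,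
            not_or] at huH
          exact huH
        have huR : u ∉ fq.range := by
          have := huRZ.1
          simpa [R] using this
        have huZ : u ∉ fc.ker := by
          have := huRZ.2
          simpa [Z] using this
        have huR' : u⁻¹ ∉ R := by
          simp only [R, Finset.mem_filter, Finset.mem_univ, true_and]
          rwa [Subgroup.inv_mem_iff]
        have huZ' : u⁻¹ ∉ Z := by
          simp only [Z, Finset.mem_filter, Finset.mem_univ, true_and]
          rwa [Subgroup.inv_mem_iff]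
        rw [Finset.mem_coe, Finset.mem_sdiff]
        refine ⟨?_, ?_⟩
        · simp only [H, Finset.mem_sdiff, Finset.mem_univ, true_and, Finset.mem_union, not_or]
          exact ⟨huR', huZ'⟩
        · intro hm
          have hm' : ((u⁻¹ : (ZMod l)ˣ) : ZMod l) ∈ D l q c := by
            simpa only [D', Finset.mem_filter, Finset.mem_univ, true_and] using hm
          have huD' : (u : ZMod l) ∈ D l q c := by
            simpa only [D', Finset.mem_filter, Finset.mem_univ, true_and] using huD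
          refine finD_inv hq hc1 (u := u) ?_ ?_ huD' hm'
          · intro v hv
            exact huR ⟨v, hv⟩
          · intro h
            exact huZ (MonoidHom.mem_ker.2 h)
      · intro a _ b _ hab
        exact inv_injective hab
    have h2 : (H \ D').card + (D' ∩ H).card = H.card := by
      rw [Finset.inter_comm]
      exact Finset.card_sdiff_add_card_inter _ _
    omega
  have hD' : D'.card ≤ (R ∪ Z).card + (D' ∩ H).card := by
    have hsub : D' ⊆ (R ∪ Z) ∪ (D' ∩ H) := by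
      intro u hu
      by_cases h : u ∈ R ∪ Z
      · exact Finset.mem_union_left _ h
      · apply Finset.mem_union_right
        rw [Finset.mem_inter]
        exact ⟨hu, Finset.mem_sdiff.2 ⟨Finset.mem_univ _, h⟩⟩
    exact (Finset.card_le_card hsub).trans (Finset.card_union_le _ _)
  have hun : (R ∪ Z).card ≤ R.card + Z.card := Finset.card_union_le _ _
  omega

end Pool.Agent.H91.NL
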