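import Mathlib

/-!
JOB NL-04 (upper bound for the determinant, about 60-100 lines).

(1) For `k ≤ K ≤ U`, `1 ≤ K`: `choose U k ≤ (3 U / K)^K`.  Proof: with `t = K / U ≤ 1`:
`choose U k * t^K ≤ choose U k * t^k ≤ (1 + t)^U ≤ exp (t U) = exp K ≤ 3^K`
(one term of the binomial expansion `add_pow`, `Real.add_one_le_exp`, `Real.exp_one_lt_three` or
`exp 1 < 2.7182818286`), and divide by `t^K = (K/U)^K`.
(2) For `u ≤ U`: `choose u k ≤ choose U k` (`Nat.choose_le_choose`).
(3) Each product in the Leibniz formula: `∏_{(k,l)} |choose (u (σ x)) k| * |v (σ x)|^l ≤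
∏_{(k,l)} (3U/K)^K * W^l = ((3U/K)^K)^(KL) * W^(K * ∑_{l<L} l)` and `∑_{l<L} l = L(L-1)/2`
(`Finset.sum_range_id`); there are `(K L)!` permutations.  (Use `Matrix.det_apply`, or `det_le`-type
lemmas; cast the integer determinant to the reals first, `Int.cast_det` / `RingHom.map_det`.)
-/

namespace Pool.Agent.H91.NL

private theorem SizeM_choose (U K k : ℕ) (hk : k ≤ K) (hK : 1 ≤ K) (hKU : K ≤ U) :
    ((U.choose k : ℕ) : ℝ) ≤ (3 * U / K : ℝ) ^ K := by
  have hK0 : (0:ℝ) < K := by exact_mod_cast hK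
  have hU0 : (0:ℝ) < U := by exact_mod_cast (lt_of_lt_of_le hK hKU)
  set t : ℝ := (K:ℝ) / U with ht
  have ht0 : 0 < t := by positivity
  have ht1 : t ≤ 1 := by
    rw [ht, div_le_one hU0]
    exact_mod_cast hKU
  have h1 : (U.choose k : ℝ) * t ^ k ≤ (t + 1) ^ U := by
    rw [add_pow]
    have h2 := Finset.single_le_sum (f := fun m => t ^ m * 1 ^ (U - m) * ((U.choose m : ℕ) : ℝ))
      (s := Finset.range (U + 1)) (fun m _ => by positivity)
      (Finset.mem_range.mpr (by omega) : k ∈ Finset.range (U + 1))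
    simp only [one_pow, mul_one] at h2 ⊢
    linarith
  have h3 : (t + 1) ^ U ≤ 3 ^ K := by
    calc (t + 1) ^ U ≤ (Real.exp t) ^ U :=
          pow_le_pow_left₀ (by positivity) (Real.add_one_le_exp t) U
      _ = Real.exp 1 ^ K := by
          rw [← Real.exp_nat_mul, ← Real.exp_nat_mul]
          congr 1
          rw [ht]
          field_simp
      _ ≤ 3 ^ K := by
          apply pow_le_pow_left₀ (Real.exp_pos 1).le
          have := Real.exp_one_lt_d9
          linarith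
  have h4 : (U.choose k : ℝ) * t ^ K ≤ 3 ^ K := by
    refine le_trans ?_ (h1.trans h3)
    exact mul_le_mul_of_nonneg_left (pow_le_pow_of_le_one ht0.le ht1 hk) (by positivity)
  have h5 : (3 * U / K : ℝ) ^ K = 3 ^ K / t ^ K := by
    rw [← div_pow]
    congr 1
    rw [ht]
    field_simp
  rw [h5, le_div_iff₀ (by positivity)]
  exact h4

theorem det_abs_le {K L U : ℕ} {W : ℝ} (u : Fin K × Fin L → ℕ) (v : Fin K × Fin L → ℤ)
    (hu : ∀ y, u y ≤ U) (hv : ∀ y, |(v y : ℝ)| ≤ W) (hW : 1 ≤ W) (hK : 1 ≤ K) (hKU : K ≤ U) :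
    |(((Matrix.of (fun x y : Fin K × Fin L =>
        ((u y).choose x.1 : ℤ) * v y ^ (x.2 : ℕ))).det : ℤ) : ℝ)|
      ≤ ((K * L).factorial : ℝ) * ((3 * U / K : ℝ) ^ K) ^ (K * L) *
        W ^ (K * (L * (L - 1) / 2)) := by
  have hW0 : 0 ≤ W := by linarith
  have hB0 : (0:ℝ) ≤ (3 * U / K : ℝ) ^ K := by positivity
  have hent : ∀ x y : Fin K × Fin L,
      |((((u y).choose x.1 : ℤ) * v y ^ (x.2 : ℕ) : ℤ) : ℝ)| ≤ (3 * U / K : ℝ) ^ K * W ^ (x.2 : ℕ) := by
    intro x y
    push_cast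
    rw [abs_mul, abs_pow, abs_of_nonneg (by positivity : (0:ℝ) ≤ (((u y).choose x.1 : ℕ) : ℝ))]
    apply mul_le_mul _ (pow_le_pow_left₀ (abs_nonneg _) (hv y) _) (by positivity) hB0
    refine le_trans ?_ (SizeM_choose U K x.1 x.1.2.le hK hKU)
    exact_mod_cast Nat.choose_le_choose _ (hu y)
  rw [Matrix.det_apply']
  push_cast
  refine (Finset.abs_sum_le_sum_abs _ _).trans ?_
  have hterm : ∀ σ ∈ (Finset.univ : Finset (Equiv.Perm (Fin K × Fin L))),
      |(((Equiv.Perm.sign σ : ℤˣ) : ℤ) : ℝ) * ∏ x, ((Matrix.of (fun x y : Fin K × Fin L =>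
        ((u y).choose x.1 : ℤ) * v y ^ (x.2 : ℕ)) (σ x) x : ℤ) : ℝ)| ≤
      ((3 * U / K : ℝ) ^ K) ^ (K * L) * W ^ (K * (L * (L - 1) / 2)) := by
    intro σ _
    have hs : |(((Equiv.Perm.sign σ : ℤˣ) : ℤ) : ℝ)| = 1 := by
      rcases Int.units_eq_one_or (Equiv.Perm.sign σ) with h | h <;> rw [h] <;> simp
    rw [abs_mul, hs, one_mul, Finset.abs_prod]
    calc ∏ x, |((Matrix.of (fun x y : Fin K × Fin L =>
          ((u y).choose x.1 : ℤ) * v y ^ (x.2 : ℕ)) (σ x) x : ℤ) : ℝ)|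
        ≤ ∏ x, ((3 * U / K : ℝ) ^ K * W ^ ((σ x).2 : ℕ)) := by
          apply Finset.prod_le_prod
          · intro x _; exact abs_nonneg _
          · intro x _; exact hent (σ x) x
      _ = ((3 * U / K : ℝ) ^ K) ^ (K * L) * W ^ (K * (L * (L - 1) / 2)) := by
          rw [Finset.prod_mul_distrib, Finset.prod_const, Finset.prod_pow_eq_pow_sum]
          congr 1
          · congr 1
            simp
          · congr 1
            rw [Equiv.sum_comp σ (fun x : Fin K × Fin L => (x.2 : ℕ)), Fintype.sum_prod_type]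
            simp only [Finset.sum_const, Finset.card_univ, Fintype.card_fin, smul_eq_mul]
            congr 1
            rw [Fin.sum_univ_eq_sum_range (fun l => l) L, Finset.sum_range_id]
  refine (Finset.sum_le_sum hterm).trans ?_
  rw [Finset.sum_const, Finset.card_univ, Fintype.card_perm, Fintype.card_prod, Fintype.card_fin,
    Fintype.card_fin, nsmul_eq_mul, mul_assoc]

end Pool.Agent.H91.NL
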