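import Pool.Agent.H91.NL.ZeroM
import Pool.Agent.H91.NL.BinE
import Pool.Agent.H91.NL.SizeM

/-!
JOB NL-05 (choice of parameters, about 150-220 lines).

Put `lam = log M > 0`, `Γ = log |γ|`; hypotheses `lam ≤ h`, `q Γ ≤ (n+1) h`, `lam ≤ 2 Γ`,
`11 + 20 (1 + log q)/lam ≤ L`, `200 L^2 h^2 ≤ q lam^2`.  Note `q ≥ 200 * 121 = 24200` (as `h ≥ lam`,
`L ≥ 11`), `log q ≥ 10`.
Parameters: `S = ⌈4 L h / lam⌉₊ ≤ 4Lh/lam + 1 ≤ 5 L h/lam`;
`K = ⌈64 L (n+1) h^2 / (q lam^2)⌉₊`;  `R = ⌈K L / S⌉₊`, so `R S ≥ K L > (K-1) L`,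
`R ≤ K L / S + 1 ≤ K lam/(4h) + 1`.
(a) `(n+1)/q ≥ Γ/h ≥ lam/(2h)`, so `K ≥ 64 L h^2/lam^2 * lam/(2h) = 32 L h/lam ≥ 352`.
(b) `S ≤ q`: `5Lh/lam ≤ 200 L^2 h^2/lam^2 ≤ q`.
(c) `K L ≤ 64 L^2 (n+1) h^2/(q lam^2) + L ≤ (64/200)(n+1) + L ≤ n + 1`, since
`n + 1 ≥ q lam/(2h) ≥ 100 L^2 h/lam ≥ 100 L^2 ≥ 2 L`.
Take `e` from `exists_points` (`α ≠ 0`, `|γ| ≥ 2`), `r < R`, `s < S + L`.  By `det_pow_dvd` and
`det ≠ 0`: `|det| ≥ M^(K K B)`, `B = L(L-1)/2` (natural number, `L(L-1)` is even, `B ≥ 55`).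
Upper bound: `U = S + L + q R` (so `u = s + q (R - r) ≤ U`), `K ≤ U` as `q R ≥ q K L / S ≥ K`
(`S ≤ q`), `W = exp (R h + (S+L) Γ) ≥ 1`, `|α^r γ^s| ≤ W` (`|α| ≥ 1`, `log|α| ≤ h`, `h > 0`).
`3U/K ≤ q`: `U ≤ 6Lh/lam + q (K lam/(4h) + 1) ≤ 6 L h/lam + q K/4 + q`, and `6Lh/(lam K) ≤ 6/32`,
`q/K ≤ q/352`; so `3U/K ≤ 0.6 + 0.76 q ≤ q`.
Taking logarithms (`log ((KL)!) ≤ K L log (K L)`, `Nat.factorial_le_pow`):
`K^2 B lam ≤ K L log(KL) + K * K L * log q + K B (R h + (S+L) Γ)`.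
Divide by `K B`, `L / B = 2/(L-1)`:
`K lam ≤ (2/(L-1)) log(KL) + (2/(L-1)) K log q + R h + (S+L) Γ`.
Now `R h ≤ K lam/4 + h ≤ K lam/4 + K lam/352` (by (a), `h ≤ K lam/(32 L)`);
`(S+L) Γ ≤ (6 L h/lam) (n+1) h/q ≤ 6 K lam/64`  (as `K lam / 64 ≥ L (n+1) h^2/(q lam)`);
`(2/(L-1)) K log q ≤ K lam/10` as `L - 1 ≥ 20 (1 + log q)/lam`;
`(2/(L-1)) log(KL) ≤ (lam/110) * 2 log K ≤ K lam/55` as `L - 1 ≥ 20*11/lam` and `L ≤ K`.
The sum of the coefficients is `0.25 + 0.003 + 0.094 + 0.1 + 0.019 < 1`.  Contradiction (`K lam > 0`).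
-/

namespace Pool.Agent.H91.NL

/-- the final contradiction -/
theorem ParM_fin {k l lam h G lq lkl R S n1 q b : ℝ} (hlam : 0 < lam) (hh : lam ≤ h) (hl : 11 ≤ l)
    (hlq : 10 * lam + 20 + 20 * lq ≤ (l - 1) * lam) (hk0 : 0 < k) (hk : 32 * l * h ≤ k * lam)
    (hk2 : 64 * l * n1 * h ^ 2 ≤ k * (q * lam ^ 2)) (hq : 0 < q) (hG : q * G ≤ n1 * h)
    (hG0 : 0 ≤ G) (hR : R * (4 * h) ≤ k * lam + 4 * h) (hS : S * lam ≤ 5 * l * h)
    (hlkl : lkl ≤ k) (hb : 2 * b = l * (l - 1))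
    (hmain : k * k * b * lam ≤ k * l * lkl + k * (k * l) * lq + k * b * (R * h + (S + l) * G)) :
    False := by
  have hl0 : 0 < l := by linarith
  have hh0 : 0 < h := by linarith
  have hkl : 0 < k * l := mul_pos hk0 hl0
  have h1 : k * (l - 1) * lam ≤ 2 * lkl + 2 * k * lq + (l - 1) * (R * h + (S + l) * G) := by
    refine le_of_mul_le_mul_left ?_ hkl
    have e1 : k * l * (k * (l - 1) * lam) = 2 * (k * k * b * lam) := by
      have : 2 * (k * k * b * lam) = k * k * lam * (2 * b) := by ring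
      rw [this, hb]; ring
    have e2 : k * l * (2 * lkl + 2 * k * lq + (l - 1) * (R * h + (S + l) * G)) =
        2 * (k * l * lkl + k * (k * l) * lq + k * b * (R * h + (S + l) * G)) := by
      have : 2 * (k * l * lkl + k * (k * l) * lq + k * b * (R * h + (S + l) * G)) =
          2 * (k * l * lkl + k * (k * l) * lq) + k * (2 * b) * (R * h + (S + l) * G) := by ring
      rw [this, hb]; ring
    rw [e1, e2]
    linarith
  have h2 : R * h ≤ k * lam / 4 + h := by linarith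
  have h3 : h ≤ k * lam / 352 := by
    have : 11 * h ≤ l * h := mul_le_mul_of_nonneg_right hl hh0.le
    linarith
  have h4 : (S + l) * G ≤ 6 / 64 * (k * lam) := by
    have hql : 0 < q * lam := mul_pos hq hlam
    refine le_of_mul_le_mul_right ?_ hql
    have a1 : (S + l) * lam ≤ 6 * l * h := by
      have : l * lam ≤ l * h := mul_le_mul_of_nonneg_left hh hl0.le
      linarith
    have a2 : (S + l) * G * (q * lam) = ((S + l) * lam) * (q * G) := by ring
    have a3 : ((S + l) * lam) * (q * G) ≤ (6 * l * h) * (q * G) :=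
      mul_le_mul_of_nonneg_right a1 (mul_nonneg hq.le hG0)
    have a4 : (6 * l * h) * (q * G) ≤ (6 * l * h) * (n1 * h) :=
      mul_le_mul_of_nonneg_left hG (by positivity)
    have a5 : (6 * l * h) * (n1 * h) = 6 / 64 * (64 * l * n1 * h ^ 2) := by ring
    have a6 : 6 / 64 * (k * lam) * (q * lam) = 6 / 64 * (k * (q * lam ^ 2)) := by ring
    rw [a2, a6]
    linarith
  have h5 : 2 * lkl + 2 * k * lq ≤ (l - 1) * (k * lam) / 10 := by
    have b1 : k * (10 * lam + 20 + 20 * lq) ≤ k * ((l - 1) * lam) :=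
      mul_le_mul_of_nonneg_left hlq hk0.le
    have b2 : 0 < k * lam := mul_pos hk0 hlam
    have b3 : k * (10 * lam + 20 + 20 * lq) = 10 * (k * lam) + 20 * k + 20 * (k * lq) := by ring
    have b4 : (l - 1) * (k * lam) = k * ((l - 1) * lam) := by ring
    rw [b4]
    have b5 : 2 * k * lq = 2 * (k * lq) := by ring
    rw [b5]
    linarith
  have h6 : (l - 1) * (R * h + (S + l) * G) ≤ (l - 1) * (k * lam * (1 / 4 + 1 / 352 + 6 / 64)) := by
    refine mul_le_mul_of_nonneg_left ?_ (by linarith)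
    linarith
  have h7 : 0 < (l - 1) * (k * lam) := mul_pos (by linarith) (mul_pos hk0 hlam)
  have h8 : k * (l - 1) * lam = (l - 1) * (k * lam) := by ring
  have h9 : (l - 1) * (k * lam * (1 / 4 + 1 / 352 + 6 / 64)) =
      (l - 1) * (k * lam) * (1 / 4 + 1 / 352 + 6 / 64) := by ring
  rw [h8] at h1
  rw [h9] at h6
  linarith

theorem ParM_log_le {k : ℝ} (hk : 0 < k) : Real.log k ≤ k / 2 := by
  have h1 : Real.log (k / 2) ≤ k / 2 - 1 := Real.log_le_sub_one_of_pos (by linarith)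
  rw [Real.log_div hk.ne' (by norm_num)] at h1
  have h2 : Real.log 2 < 0.6931471808 := Real.log_two_lt_d9
  linarith

/-- size of `α^r γ^s` -/
theorem ParM_size {α γ : ℤ} {h : ℝ} {r s R T : ℕ} (hα : α ≠ 0) (hγ : 2 ≤ |γ|)
    (hαh : Real.log |(α : ℝ)| ≤ h) (hr : r ≤ R) (hs : s ≤ T) :
    |((α ^ r * γ ^ s : ℤ) : ℝ)| ≤ Real.exp (R * h + T * Real.log |(γ : ℝ)|) := by
  have ha : 0 < |(α : ℝ)| := abs_pos.2 (by exact_mod_cast hα)
  have hg2 : (2 : ℝ) ≤ |(γ : ℝ)| := by exact_mod_cast hγ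
  have ha1 : (1 : ℝ) ≤ |(α : ℝ)| := by
    have : (1 : ℤ) ≤ |α| := Int.one_le_abs hα
    exact_mod_cast this
  have hg : 0 < |(γ : ℝ)| := by linarith
  have hla : 0 ≤ Real.log |(α : ℝ)| := Real.log_nonneg ha1
  have hlg : 0 ≤ Real.log |(γ : ℝ)| := Real.log_nonneg (by linarith)
  have e1 : |((α ^ r * γ ^ s : ℤ) : ℝ)| =
      Real.exp (r * Real.log |(α : ℝ)| + s * Real.log |(γ : ℝ)|) := by
    rw [Real.exp_add, ← Real.log_pow, ← Real.log_pow, Real.exp_log (pow_pos ha r),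
      Real.exp_log (pow_pos hg s)]
    push_cast
    rw [abs_mul, abs_pow, abs_pow]
  rw [e1]
  refine Real.exp_le_exp.2 ?_
  have hr' : (r : ℝ) ≤ R := by exact_mod_cast hr
  have hs' : (s : ℝ) ≤ T := by exact_mod_cast hs
  have i1 : (r : ℝ) * Real.log |(α : ℝ)| ≤ R * h :=
    mul_le_mul hr' hαh hla (by positivity)
  have i2 : (s : ℝ) * Real.log |(γ : ℝ)| ≤ T * Real.log |(γ : ℝ)| :=
    mul_le_mul_of_nonneg_right hs' hlg
  linarith

/-- taking logarithms of the two bounds for the determinant -/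
theorem ParM_logs {K L U M q B : ℕ} {W D : ℝ} (hM : 2 ≤ M) (hK : 1 ≤ K) (hL : 1 ≤ L) (hq : 1 ≤ q)
    (hlow : (M : ℝ) ^ (K * K * B) ≤ D)
    (hup : D ≤ ((K * L).factorial : ℝ) * ((3 * U / K : ℝ) ^ K) ^ (K * L) * Real.exp W ^ (K * B))
    (hU : (3 * U / K : ℝ) ≤ q) :
    (K : ℝ) * K * B * Real.log M ≤ K * L * Real.log ((K : ℝ) * L) + K * (K * L) * Real.log q +
      K * B * W := by
  have hK0 : (0 : ℝ) < K := by exact_mod_cast hK
  have hL0 : (0 : ℝ) < L := by exact_mod_cast hL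
  have hq0 : (0 : ℝ) < q := by exact_mod_cast hq
  have hM0 : (0 : ℝ) < M := by
    have : 0 < M := by omega
    exact_mod_cast this
  have hKL0 : (0 : ℝ) < (K : ℝ) * L := mul_pos hK0 hL0
  have f1 : ((K * L).factorial : ℝ) ≤ ((K : ℝ) * L) ^ (K * L) := by
    have := Nat.factorial_le_pow (K * L)
    have h2 : ((K * L).factorial : ℝ) ≤ (((K * L) ^ (K * L) : ℕ) : ℝ) := by exact_mod_cast this
    rw [Nat.cast_pow, Nat.cast_mul] at h2
    exact h2
  have f2 : ((3 * U / K : ℝ) ^ K) ^ (K * L) ≤ ((q : ℝ) ^ K) ^ (K * L) := by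
    have h0 : (0 : ℝ) ≤ 3 * U / K := by positivity
    exact pow_le_pow_left₀ (pow_nonneg h0 K) (pow_le_pow_left₀ h0 hU K) (K * L)
  have f3 : (M : ℝ) ^ (K * K * B) ≤
      ((K : ℝ) * L) ^ (K * L) * ((q : ℝ) ^ K) ^ (K * L) * Real.exp W ^ (K * B) := by
    refine le_trans hlow (le_trans hup ?_)
    refine mul_le_mul_of_nonneg_right ?_ (by positivity)
    refine mul_le_mul f1 f2 ?_ (by positivity)
    have h0 : (0 : ℝ) ≤ 3 * U / K := by positivity
    exact pow_nonneg (pow_nonneg h0 K) _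
  have f4 := Real.log_le_log (pow_pos hM0 _) f3
  rw [Real.log_mul (by positivity) (by positivity), Real.log_mul (by positivity) (by positivity),
    Real.log_pow, Real.log_pow, Real.log_pow, Real.log_pow, Real.log_pow, Real.log_exp] at f4
  push_cast at f4
  linarith

theorem par {M : ℕ} {α γ : ℤ} {q n L : ℕ} {h : ℝ} (hM : 2 ≤ M) (hα : α ≠ 0) (hγ : 2 ≤ |γ|)
    (hγM : (M : ℤ) ∣ γ - 1) (hαM : (M : ℤ) ^ n ∣ α * γ ^ q - 1) (hMh : Real.log M ≤ h)
    (hαh : Real.log |(α : ℝ)| ≤ h) (hγh : q * Real.log |(γ : ℝ)| ≤ (n + 1) * h)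
    (hγl : Real.log M ≤ 2 * Real.log |(γ : ℝ)|)
    (hL : 11 + 20 * (1 + Real.log q) / Real.log M ≤ L)
    (hq : 200 * (L : ℝ) ^ 2 * h ^ 2 ≤ q * (Real.log M) ^ 2) : False := by
  have hM1 : (1 : ℝ) < M := by
    have : 1 < M := by omega
    exact_mod_cast this
  set lam := Real.log M with hlamdef
  set G := Real.log |(γ : ℝ)| with hGdef
  have hlam : 0 < lam := Real.log_pos hM1
  have hh0 : 0 < h := by linarith
  have hlq0 : 0 ≤ Real.log (q : ℝ) := Real.log_natCast_nonneg q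
  have hG0 : 0 < G := by linarith
  -- L
  have hL11 : (11 : ℝ) ≤ L := by
    have : 0 ≤ 20 * (1 + Real.log q) / lam := by positivity
    linarith
  have hL0 : (0 : ℝ) < L := by linarith
  have hLN : 1 ≤ L := by
    have : (1 : ℝ) ≤ L := by linarith
    exact_mod_cast this
  have hLlam : 10 * lam + 20 + 20 * Real.log q ≤ ((L : ℝ) - 1) * lam := by
    have h1 : 20 * (1 + Real.log q) / lam ≤ (L : ℝ) - 11 := by linarith
    rw [div_le_iff₀ hlam] at h1
    linarith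
  -- x = L h / lam
  set x : ℝ := L * h / lam with hxdef
  have hxlam : x * lam = L * h := by rw [hxdef]; field_simp
  have hx11 : 11 ≤ x := by
    rw [hxdef, le_div_iff₀ hlam]
    exact mul_le_mul hL11 hMh hlam.le hL0.le
  have hLx : (L : ℝ) ≤ x := by
    rw [hxdef, le_div_iff₀ hlam]
    exact mul_le_mul_of_nonneg_left hMh hL0.le
  have hx0 : 0 < x := by linarith
  -- q
  have hqx : 200 * x ^ 2 ≤ (q : ℝ) := by
    have h1 : 200 * x ^ 2 * lam ^ 2 ≤ q * lam ^ 2 := by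
      have : 200 * x ^ 2 * lam ^ 2 = 200 * (x * lam) ^ 2 := by ring
      rw [this, hxlam]
      linarith
    exact le_of_mul_le_mul_right h1 (by positivity)
  have hqx2 : 2200 * x ≤ (q : ℝ) := by nlinarith
  have hq0 : (0 : ℝ) < q := by linarith
  have hqN : 1 ≤ q := by
    have : (1 : ℝ) ≤ q := by linarith
    exact_mod_cast this
  -- n
  have hn1 : (q : ℝ) * lam ≤ 2 * ((n + 1) * h) := by nlinarith
  -- S
  set S : ℕ := ⌈4 * x⌉₊ with hSdef
  have hS1 : 4 * x ≤ S := Nat.le_ceil _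
  have hS2 : (S : ℝ) < 4 * x + 1 := Nat.ceil_lt_add_one (by linarith)
  have hS3 : (S : ℝ) ≤ 5 * x := by linarith
  have hSq : S ≤ q := by
    have : (S : ℝ) ≤ q := by linarith
    exact_mod_cast this
  have hS0 : (0 : ℝ) < S := by linarith
  -- K
  set y : ℝ := 64 * L * (n + 1) * h ^ 2 / (q * lam ^ 2) with hydef
  have hql : 0 < (q : ℝ) * lam ^ 2 := by positivity
  have hy0 : 0 < y := by positivity
  have hyq : y * (q * lam ^ 2) = 64 * L * (n + 1) * h ^ 2 := by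
    rw [hydef, div_mul_cancel₀ _ hql.ne']
  set K : ℕ := ⌈y⌉₊ with hKdef
  have hK1 : y ≤ K := Nat.le_ceil _
  have hK2 : (K : ℝ) < y + 1 := Nat.ceil_lt_add_one hy0.le
  have hyx : 32 * x ≤ y := by
    refine le_of_mul_le_mul_right ?_ hql
    rw [hyq]
    have e1 : 32 * x * (q * lam ^ 2) = 32 * (x * lam) * (q * lam) := by ring
    rw [e1, hxlam]
    have e2 : 64 * (L : ℝ) * (n + 1) * h ^ 2 = 32 * (L * h) * (2 * ((n + 1) * h)) := by ring
    rw [e2]
    exact mul_le_mul_of_nonneg_left hn1 (by positivity)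
  have hKx : 32 * x ≤ K := by linarith
  have hK352 : (352 : ℝ) ≤ K := by linarith
  have hK0 : (0 : ℝ) < K := by linarith
  have hKN : 1 ≤ K := by
    have : (1 : ℝ) ≤ K := by linarith
    exact_mod_cast this
  -- K L ≤ n + 1
  have hn2 : 100 * x * L ≤ (n : ℝ) + 1 := by
    have a1 : 200 * x ^ 2 * lam ≤ 2 * ((n + 1) * h) :=
      le_trans (mul_le_mul_of_nonneg_right hqx hlam.le) hn1
    have a2 : 200 * x ^ 2 * lam = 2 * ((100 * x * L) * h) := by
      have : 200 * x ^ 2 * lam = 200 * x * (x * lam) := by ring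
      rw [this, hxlam]; ring
    rw [a2] at a1
    have a3 : (100 * x * L) * h ≤ (n + 1) * h := by linarith
    exact le_of_mul_le_mul_right a3 hh0
  have hyL : y * L ≤ 64 / 200 * ((n : ℝ) + 1) := by
    refine le_of_mul_le_mul_right ?_ hql
    have e1 : y * L * (q * lam ^ 2) = L * (y * (q * lam ^ 2)) := by ring
    rw [e1, hyq]
    have e2 : (L : ℝ) * (64 * L * (n + 1) * h ^ 2) =
      64 / 200 * ((n : ℝ) + 1) * (200 * (L : ℝ) ^ 2 * h ^ 2) := by ring
    rw [e2]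
    exact mul_le_mul_of_nonneg_left hq (by positivity)
  have hKL : K * L ≤ n + 1 := by
    have a1 : (K : ℝ) * L ≤ (y + 1) * L := mul_le_mul_of_nonneg_right hK2.le hL0.le
    have a2 : 1100 * (L : ℝ) ≤ 100 * x * L := by nlinarith
    have a3 : (K : ℝ) * L ≤ n + 1 := by linarith
    exact_mod_cast a3
  -- R
  set z : ℝ := K * L / S with hzdef
  have hz0 : 0 < z := by positivity
  have hzS : z * S = K * L := by rw [hzdef, div_mul_cancel₀ _ hS0.ne']
  set R : ℕ := ⌈z⌉₊ with hRdef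
  have hR1 : z ≤ R := Nat.le_ceil _
  have hR2 : (R : ℝ) < z + 1 := Nat.ceil_lt_add_one hz0.le
  have hRS : (K - 1) * L < R * S := by
    have a1 : (K : ℝ) * L ≤ R * S := by
      rw [← hzS]
      exact mul_le_mul_of_nonneg_right hR1 hS0.le
    have a2 : K * L ≤ R * S := by exact_mod_cast a1
    have a3 : (K - 1) * L < K * L := Nat.mul_lt_mul_of_pos_right (by omega) (by omega)
    omega
  have hRh : (R : ℝ) * (4 * h) ≤ K * lam + 4 * h := by
    have a1 : z * (4 * h) ≤ K * lam := by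
      have a2 : z * (4 * x) ≤ K * L := by
        rw [← hzS]
        exact mul_le_mul_of_nonneg_left hS1 hz0.le
      have a3 : z * (4 * h) * L = z * (4 * x) * lam := by
        have : z * (4 * x) * lam = z * 4 * (x * lam) := by ring
        rw [this, hxlam]; ring
      have a4 : z * (4 * h) * L ≤ K * lam * L := by
        rw [a3]
        calc z * (4 * x) * lam ≤ K * L * lam := mul_le_mul_of_nonneg_right a2 hlam.le
          _ = K * lam * L := by ring
      exact le_of_mul_le_mul_right a4 hL0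
    have a5 : (R : ℝ) * (4 * h) ≤ (z + 1) * (4 * h) :=
      mul_le_mul_of_nonneg_right hR2.le (by positivity)
    linarith
  -- points
  obtain ⟨e, he1, he2⟩ := exists_points hα hγ hKN hLN hSq hRS
  have hdvd := det_pow_dvd (R := R) hγM hαM hKL e (fun y => (he1 y).1.le)
  have hlow := Int.le_of_dvd (abs_pos.2 he2) ((dvd_abs _ _).2 hdvd)
  have hu : ∀ y, (e y).2 + q * (R - (e y).1) ≤ S + L + q * R := by
    intro y
    have h1 := (he1 y).2.le
    have h2 : q * (R - (e y).1) ≤ q * R := Nat.mul_le_mul_left q (Nat.sub_le _ _)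
    omega
  have hv : ∀ y, |((α ^ (e y).1 * γ ^ (e y).2 : ℤ) : ℝ)| ≤
      Real.exp (R * h + (S + L : ℕ) * Real.log |(γ : ℝ)|) := fun y =>
    ParM_size hα hγ hαh (he1 y).1.le (he1 y).2.le
  have hW : 1 ≤ Real.exp (R * h + (S + L : ℕ) * Real.log |(γ : ℝ)|) := by
    refine Real.one_le_exp ?_
    rw [← hGdef]
    positivity
  have hqR : (q : ℝ) * z ≤ q * R := mul_le_mul_of_nonneg_left hR1 hq0.le
  have hKU : K ≤ S + L + q * R := by
    have a1 : (K : ℝ) ≤ q * z := by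
      refine le_of_mul_le_mul_right ?_ hS0
      rw [mul_assoc, hzS]
      have a2 : (S : ℝ) ≤ q * L := by
        have a4 : (S : ℝ) ≤ q := by exact_mod_cast hSq
        have a5 : (q : ℝ) * 1 ≤ q * L := mul_le_mul_of_nonneg_left (by linarith) hq0.le
        linarith
      calc (K : ℝ) * S ≤ K * (q * L) := mul_le_mul_of_nonneg_left a2 hK0.le
        _ = q * (K * L) := by ring
    have a3 : (K : ℝ) ≤ (q * R : ℕ) := by push_cast; linarith
    have a4 : K ≤ q * R := by exact_mod_cast a3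
    omega
  have hup := det_abs_le (fun y => (e y).2 + q * (R - (e y).1))
    (fun y => α ^ (e y).1 * γ ^ (e y).2) hu hv hW hKN hKU
  have hU3 : (3 * ((S + L + q * R : ℕ) : ℝ) / K : ℝ) ≤ q := by
    rw [div_le_iff₀ hK0]
    push_cast
    have a1 : (q : ℝ) * R ≤ q * (K / 4 + 1) := by
      refine mul_le_mul_of_nonneg_left ?_ hq0.le
      have a2 : (R : ℝ) * (4 * h) ≤ (K / 4 + 1) * (4 * h) := by
        have : (K : ℝ) * lam ≤ K * h := mul_le_mul_of_nonneg_left hMh hK0.le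
        linarith
      exact le_of_mul_le_mul_right a2 (by positivity)
    have a3 : 352 * (q : ℝ) ≤ q * K := by
      have := mul_le_mul_of_nonneg_left hK352 hq0.le
      linarith
    have a4 : (S : ℝ) + L ≤ 6 * x := by linarith
    have a5 : 6 * x ≤ q := by linarith
    nlinarith
  have hlow' : (M : ℝ) ^ (K * K * (L * (L - 1) / 2)) ≤
      |(((Matrix.of (fun x y : Fin K × Fin L =>
        (((e y).2 + q * (R - (e y).1)).choose x.1 : ℤ) *
          (α ^ (e y).1 * γ ^ (e y).2) ^ (x.2 : ℕ))).det : ℤ) : ℝ)| := by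
    rw [← Int.cast_abs]
    exact_mod_cast hlow
  have hfin := ParM_logs hM hKN hLN hqN hlow' hup hU3
  have hLpred : 2 * ((L * (L - 1) / 2 : ℕ) : ℝ) = L * ((L : ℝ) - 1) := by
    have h1 : 2 * (L * (L - 1) / 2) = L * (L - 1) :=
      Nat.mul_div_cancel' (Nat.even_mul_pred_self L).two_dvd
    have h2 : ((2 * (L * (L - 1) / 2) : ℕ) : ℝ) = ((L * (L - 1) : ℕ) : ℝ) := by rw [h1]
    rw [Nat.cast_mul, Nat.cast_mul, Nat.cast_sub hLN] at h2
    push_cast at h2
    linarith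
  refine ParM_fin (k := K) (l := L) (lam := lam) (h := h) (G := G) (lq := Real.log q)
    (lkl := Real.log ((K : ℝ) * L)) (R := R) (S := S) (n1 := n + 1) (q := q)
    (b := ((L * (L - 1) / 2 : ℕ) : ℝ)) hlam hMh hL11 hLlam hK0 ?_ ?_ hq0 hγh hG0.le hRh ?_ ?_ hLpred ?_
  · have : 32 * (L : ℝ) * h = 32 * x * lam := by
      have : 32 * x * lam = 32 * (x * lam) := by ring
      rw [this, hxlam]; ring
    rw [this]
    exact mul_le_mul_of_nonneg_right hKx hlam.le
  · rw [← hyq]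
    exact mul_le_mul_of_nonneg_right hK1 hql.le
  · have : 5 * (L : ℝ) * h = 5 * x * lam := by
      have : 5 * x * lam = 5 * (x * lam) := by ring
      rw [this, hxlam]; ring
    rw [this]
    exact mul_le_mul_of_nonneg_right hS3 hlam.le
  · rw [Real.log_mul hK0.ne' hL0.ne']
    have hLK : Real.log (L : ℝ) ≤ Real.log K := Real.log_le_log hL0 (by linarith)
    have := ParM_log_le hK0
    linarith
  · have e1 : ((S + L : ℕ) : ℝ) = (S : ℝ) + L := by push_cast; ring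
    rw [e1] at hfin
    exact hfin

end Pool.Agent.H91.NL
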