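import Pool.Agent.H91.NL.Def
import Pool.Agent.H91.NL.ParM

/-!
JOB NL-06 (the foreign part of `x`, about 120-180 lines).

`M ≠ 0` since `M ∣ x ≠ 0`; if `M = 1` the claim is `0 ≤ ..`.  Let `M ≥ 2`.
(1) `y ≡ 1 mod M`: `n ≥ 1` and `rep x n = 1 + x * (..)` so `y^q ≡ 1 mod M`; `y` is a unit of `ZMod M`
and the group `(ZMod M)ˣ` has order `φ(M) = ∏ p^(a-1) (p-1)`, prime to `q` by `hM`; so `y = 1` in
`ZMod M` (e.g. `orderOf y ∣ q` and `orderOf y ∣ φ(M)`, coprime).  So `(M:ℤ) ∣ y - 1`.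
[`q` prime, `Nat.Coprime q (φ M)`: if `q ∣ φ M` then `q = p` or `q ∣ p - 1` for some prime `p ∣ M`,
e.g. by `Nat.totient_eq_prod_factorization` / `Prime.dvd_finset_prod_iff`.]
(2) Put `α = 1 - x ≠ 0`, `γ = y`, `h = log (|x| + 1)`.  `α γ^q - 1 = (1-x) rep x n - 1 = - x^n` is
divisible by `M^n`.  `log M ≤ log |x| ≤ h`, `log |1-x| ≤ h`.
`|y|^q = |rep x n| ≤ (|x|+1)^n`, so `q log |y| ≤ n h ≤ (n+1) h`.
`M ≤ |y - 1| ≤ |y| + 1 ≤ |y|^2` (as `y ≠ 1`, `|y| ≥ 2`), so `log M ≤ 2 log |y|`.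
(3) `q = 2`: the claim follows from `log M ≤ log |x|` and `2000 log 2/√2 ≥ 1`.  Let `q ≥ 3`.
Let `L = ⌈11 + 20 (1 + log q)/log M⌉₊`.  By `par`, `q (log M)^2 < 200 L^2 h^2`, i.e.
`√q log M < 14.15 L h` and `L ≤ 12 + 20 (1 + log q)/log M ≤ 12 + 29 (1 + log q) ≤ 66.5 log q`
(`log M ≥ log 2 ≥ 0.69`, `log q ≥ log 3 ≥ 1.0986`), `h ≤ 1.6 log |x|` (`|x|+1 ≤ |x|^1.6` for `|x| ≥ 2`:
`|x| + 1 ≤ (3/2)|x|` and `log (3/2) ≤ 0.6 log 2`).  So `√q log M ≤ 14.15*66.5*1.6 log q log |x| ≤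
2000 log q log |x|`.
-/

namespace Pool.Agent.H91.NL

theorem fo_coprime {q M : ℕ} (hq : q.Prime) (hM0 : M ≠ 0)
    (hM : ∀ p : ℕ, p.Prime → p ∣ M → p ≠ q ∧ ¬ q ∣ p - 1) : Nat.Coprime q (Nat.totient M) := by
  rw [Nat.Prime.coprime_iff_not_dvd hq]
  intro h
  rw [Nat.totient_eq_prod_factorization hM0, Finsupp.prod,
    Prime.dvd_finsetProd_iff hq.prime] at h
  obtain ⟨p, hp, hd⟩ := h
  rw [Nat.support_factorization, Nat.mem_primeFactors] at hp
  obtain ⟨h1, h2⟩ := hM p hp.1 hp.2.1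
  rcases (Nat.Prime.dvd_mul hq).1 hd with h3 | h3
  · have h4 := Nat.Prime.dvd_of_dvd_pow hq h3
    exact h1 ((Nat.prime_dvd_prime_iff_eq hq hp.1).1 h4).symm
  · exact h2 h3

theorem fo_rep_succ (x : ℤ) (n : ℕ) : rep x (n + 1) = 1 + x * rep x n := by
  unfold rep
  rw [Finset.sum_range_succ', Finset.mul_sum, pow_zero, add_comm]
  congr 1
  refine Finset.sum_congr rfl fun i _ => ?_
  rw [pow_succ]
  ring

theorem fo_dvd {x y : ℤ} {n q M : ℕ} (hq : q.Prime) (hn : n ≠ 0)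
    (h : rep x n = y ^ q) (hMx : (M : ℤ) ∣ x) (hM0 : M ≠ 0)
    (hM : ∀ p : ℕ, p.Prime → p ∣ M → p ≠ q ∧ ¬ q ∣ p - 1) : (M : ℤ) ∣ y - 1 := by
  have hne : NeZero M := ⟨hM0⟩
  obtain ⟨m, rfl⟩ := Nat.exists_eq_succ_of_ne_zero hn
  have hx0 : ((x : ℤ) : ZMod M) = 0 := (ZMod.intCast_zmod_eq_zero_iff_dvd x M).2 hMx
  have h1 : ((y : ℤ) : ZMod M) ^ q = 1 := by
    have h2 := congrArg (fun z : ℤ => (z : ZMod M)) h
    simp only [Nat.succ_eq_add_one, fo_rep_succ] at h2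
    push_cast at h2
    rw [hx0, zero_mul, add_zero] at h2
    exact h2.symm
  have hu : IsUnit ((y : ℤ) : ZMod M) := IsUnit.of_pow_eq_one h1 hq.ne_zero
  obtain ⟨u, hu'⟩ := hu
  have h3 : u ^ q = 1 := by
    apply Units.ext
    rw [Units.val_pow_eq_pow_val, hu', h1, Units.val_one]
  have h4 : orderOf u ∣ q := orderOf_dvd_of_pow_eq_one h3
  have h5 : orderOf u ∣ Nat.totient M := by
    rw [← ZMod.card_units_eq_totient]
    exact orderOf_dvd_card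
  have h6 : orderOf u = 1 := Nat.eq_one_of_dvd_coprimes (fo_coprime hq hM0 hM) h4 h5
  have h7 : u = 1 := orderOf_eq_one_iff.1 h6
  have h8 : ((y : ℤ) : ZMod M) = 1 := by
    rw [← hu', h7, Units.val_one]
  rw [← ZMod.intCast_zmod_eq_zero_iff_dvd]
  push_cast
  rw [h8, sub_self]

theorem fo_rep_le (x : ℤ) (n : ℕ) (hx : 1 ≤ |x|) : |rep x n| ≤ (|x| + 1) ^ n := by
  have h1 : |rep x n| ≤ ∑ i ∈ Finset.range n, |x| ^ i := by
    unfold rep
    refine (Finset.abs_sum_le_sum_abs _ _).trans (le_of_eq ?_)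
    exact Finset.sum_congr rfl fun i _ => abs_pow x i
  refine h1.trans ?_
  generalize |x| = a at hx
  clear h1
  induction n with
  | zero => simp
  | succ n ih =>
    rw [Finset.sum_range_succ]
    have h2 : a ^ n ≤ (a + 1) ^ n := pow_le_pow_left₀ (by linarith) (by linarith) n
    have h3 : (a + 1) ^ n ≤ a * (a + 1) ^ n := by
      have h4 : 0 ≤ (a + 1) ^ n := by positivity
      nlinarith
    calc ∑ i ∈ Finset.range n, a ^ i + a ^ n ≤ (a + 1) ^ n + a * (a + 1) ^ n := by linarith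
      _ = (a + 1) ^ (n + 1) := by ring

theorem foreign {x y : ℤ} {n q M : ℕ} (hx : 2 ≤ |x|) (hy : 2 ≤ |y|) (hq : q.Prime)
    (h : rep x n = y ^ q) (hMx : (M : ℤ) ∣ x)
    (hM : ∀ p : ℕ, p.Prime → p ∣ M → p ≠ q ∧ ¬ q ∣ p - 1) :
    Real.log M ≤ 2000 * (Real.log q / √q) * Real.log |(x : ℝ)| := by
  have hx0 : x ≠ 0 := by
    rintro rfl
    simp at hx
  have hM0 : M ≠ 0 := by
    rintro rfl
    rw [Nat.cast_zero, zero_dvd_iff] at hMx
    exact hx0 hMx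
  have hxR : (2:ℝ) ≤ |(x:ℝ)| := by exact_mod_cast hx
  have hyR : (2:ℝ) ≤ |(y:ℝ)| := by exact_mod_cast hy
  have hlx : Real.log 2 ≤ Real.log |(x:ℝ)| := Real.log_le_log (by norm_num) hxR
  have hl2 := Real.log_two_gt_d9
  have hlx0 : 0 < Real.log |(x:ℝ)| := by linarith
  have hq1 : (1:ℝ) < q := by exact_mod_cast hq.one_lt
  have hlq0 : 0 < Real.log q := Real.log_pos hq1
  have hsq0 : 0 < √(q:ℝ) := Real.sqrt_pos.2 (by linarith)
  rcases Nat.lt_or_ge M 2 with hM2 | hM2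
  · have hM1 : M = 1 := by omega
    rw [hM1, Nat.cast_one, Real.log_one]
    positivity
  have hn : n ≠ 0 := by
    rintro rfl
    have h1 : y ^ q = 0 := by
      rw [← h]
      simp [rep]
    have h2 : y = 0 := pow_eq_zero_iff hq.ne_zero |>.1 h1
    rw [h2] at hy
    simp at hy
  have hMR : (2:ℝ) ≤ M := by exact_mod_cast hM2
  have hlM2 : Real.log 2 ≤ Real.log M := Real.log_le_log (by norm_num) hMR
  have hlM0 : 0 < Real.log M := by linarith
  have hMle : (M:ℝ) ≤ |(x:ℝ)| := by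
    have h1 : (M:ℤ) ≤ |x| := Int.le_of_dvd (abs_pos.2 hx0) ((dvd_abs _ _).2 hMx)
    exact_mod_cast h1
  have hlMx : Real.log M ≤ Real.log |(x:ℝ)| := Real.log_le_log (by linarith) hMle
  rcases Nat.lt_or_ge q 3 with hq3 | hq3
  · have hq2 : q = 2 := by
      have := hq.two_le
      omega
    subst hq2
    have h1 : √((2:ℕ):ℝ) ≤ 2 := by
      rw [Real.sqrt_le_left (by norm_num)]
      norm_num
    have h2 : (1:ℝ) ≤ 2000 * (Real.log ((2:ℕ):ℝ) / √((2:ℕ):ℝ)) := by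
      have h3 : (1:ℝ)/4 ≤ Real.log ((2:ℕ):ℝ) / √((2:ℕ):ℝ) := by
        rw [le_div_iff₀ hsq0]
        push_cast at h1 ⊢
        linarith
      linarith
    calc Real.log M ≤ 1 * Real.log |(x:ℝ)| := by linarith
      _ ≤ 2000 * (Real.log ((2:ℕ):ℝ) / √((2:ℕ):ℝ)) * Real.log |(x:ℝ)| :=
        mul_le_mul_of_nonneg_right h2 hlx0.le
  have hlq1 : 1 ≤ Real.log q := by
    have h1 : Real.exp 1 ≤ q := by
      have h2 := Real.exp_one_lt_d9
      have h3 : (3:ℝ) ≤ q := by exact_mod_cast hq3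
      linarith
    have h2 := Real.log_le_log (Real.exp_pos 1) h1
    rwa [Real.log_exp] at h2
  -- the parameters
  have hhle : Real.log (|(x:ℝ)| + 1) ≤ 1.6 * Real.log |(x:ℝ)| := by
    have h1 : |(x:ℝ)| + 1 ≤ 3 / 2 * |(x:ℝ)| := by linarith
    have h2 := Real.log_le_log (by linarith) h1
    rw [Real.log_mul (by norm_num) (by linarith)] at h2
    have h3 : 5 * Real.log (3 / 2) ≤ 3 * Real.log 2 := by
      have h4 : Real.log ((3 / 2 : ℝ) ^ 5) ≤ Real.log ((2:ℝ) ^ 3) :=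
        Real.log_le_log (by norm_num) (by norm_num)
      rw [Real.log_pow, Real.log_pow] at h4
      push_cast at h4
      exact h4
    linarith
  have hdy : (M : ℤ) ∣ y - 1 := fo_dvd hq hn h hMx hM0 hM
  have hx1 : (1:ℤ) - x ≠ 0 := by
    intro h1
    have h2 : x = 1 := by linarith
    rw [h2] at hx
    norm_num at hx
  have hdx : (M : ℤ) ^ n ∣ (1 - x) * y ^ q - 1 := by
    rw [← h]
    have h1 : (1 - x) * rep x n - 1 = - x ^ n := by
      have h2 := rep_mul x n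
      linarith
    rw [h1]
    exact (dvd_neg).2 (pow_dvd_pow_of_dvd hMx n)
  have hh1 : Real.log M ≤ Real.log (|(x:ℝ)| + 1) := by
    refine hlMx.trans (Real.log_le_log (by linarith) (by linarith))
  have hh2 : Real.log |((1 - x : ℤ) : ℝ)| ≤ Real.log (|(x:ℝ)| + 1) := by
    refine Real.log_le_log ?_ ?_
    · apply abs_pos.2
      exact_mod_cast hx1
    · push_cast
      have h1 := abs_sub (1:ℝ) (x:ℝ)
      rw [abs_one] at h1
      linarith
  have hh3 : (q:ℝ) * Real.log |(y:ℝ)| ≤ (n + 1) * Real.log (|(x:ℝ)| + 1) := by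
    have h1 : |(y:ℝ)| ^ q ≤ (|(x:ℝ)| + 1) ^ n := by
      have h2 := fo_rep_le x n (by linarith)
      rw [h, abs_pow] at h2
      exact_mod_cast h2
    have h2 := Real.log_le_log (by positivity) h1
    rw [Real.log_pow, Real.log_pow] at h2
    have h3 : 0 ≤ Real.log (|(x:ℝ)| + 1) := by linarith
    linarith
  have hh4 : Real.log M ≤ 2 * Real.log |(y:ℝ)| := by
    have h1 : y - 1 ≠ 0 := by
      intro h2
      have h3 : y = 1 := by linarith
      rw [h3] at hy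
      norm_num at hy
    have h2 : (M:ℤ) ≤ |y - 1| := Int.le_of_dvd (abs_pos.2 h1) ((dvd_abs _ _).2 hdy)
    have h3 : (M:ℝ) ≤ |(y:ℝ) - 1| := by exact_mod_cast h2
    have h4 : |(y:ℝ) - 1| ≤ |(y:ℝ)| + 1 := by
      have h5 := abs_sub (y:ℝ) (1:ℝ)
      rwa [abs_one] at h5
    have h5 : (M:ℝ) ≤ |(y:ℝ)| ^ 2 := by nlinarith
    have h6 := Real.log_le_log (by linarith) h5
    rw [Real.log_pow] at h6
    push_cast at h6
    exact h6
  obtain ⟨L, hL⟩ : ∃ L : ℕ, L = ⌈11 + 20 * (1 + Real.log q) / Real.log M⌉₊ := ⟨_, rfl⟩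
  have hdiv : 20 * (1 + Real.log q) / Real.log M ≤ 29 * (1 + Real.log q) := by
    rw [div_le_iff₀ hlM0]
    have h1 : 0 < 1 + Real.log q := by linarith
    nlinarith
  have hdiv0 : 0 ≤ 20 * (1 + Real.log q) / Real.log M := by positivity
  have hL1 : 11 + 20 * (1 + Real.log q) / Real.log M ≤ L := by
    rw [hL]
    exact Nat.le_ceil _
  have hL2 : (L:ℝ) ≤ 70 * Real.log q := by
    have h1 := Nat.ceil_lt_add_one (a := 11 + 20 * (1 + Real.log q) / Real.log M) (by linarith)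
    rw [← hL] at h1
    linarith
  have hL0 : (0:ℝ) ≤ L := Nat.cast_nonneg L
  have hmain : (q:ℝ) * (Real.log M) ^ 2 < 200 * (L:ℝ) ^ 2 * (Real.log (|(x:ℝ)| + 1)) ^ 2 := by
    by_contra hcon
    exact par hM2 hx1 hy hdy hdx hh1 hh2 hh3 hh4 hL1 (not_lt.1 hcon)
  have hh0 : 0 ≤ Real.log (|(x:ℝ)| + 1) := by linarith
  have hs : √(q:ℝ) * Real.log M ≤ 15 * L * Real.log (|(x:ℝ)| + 1) := by
    have h1 : (√(q:ℝ) * Real.log M) ^ 2 ≤ (15 * L * Real.log (|(x:ℝ)| + 1)) ^ 2 := by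
      rw [mul_pow, Real.sq_sqrt (by linarith)]
      have h2 : (15 * (L:ℝ) * Real.log (|(x:ℝ)| + 1)) ^ 2 =
          225 * (L:ℝ) ^ 2 * (Real.log (|(x:ℝ)| + 1)) ^ 2 := by ring
      rw [h2]
      have h3 : 0 ≤ (L:ℝ) ^ 2 * (Real.log (|(x:ℝ)| + 1)) ^ 2 := by positivity
      nlinarith
    exact le_of_sq_le_sq h1 (by positivity)
  have hfin : √(q:ℝ) * Real.log M ≤ 2000 * Real.log q * Real.log |(x:ℝ)| := by
    have h1 : (L:ℝ) * Real.log (|(x:ℝ)| + 1) ≤ (70 * Real.log q) * (1.6 * Real.log |(x:ℝ)|) :=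
      mul_le_mul hL2 hhle hh0 (by positivity)
    have h2 : 0 ≤ Real.log q * Real.log |(x:ℝ)| := by positivity
    nlinarith
  have e : 2000 * (Real.log q / √q) * Real.log |(x : ℝ)| =
      2000 * Real.log q * Real.log |(x:ℝ)| / √(q:ℝ) := by ring
  rw [e, le_div_iff₀ hsq0]
  linarith

end Pool.Agent.H91.NL
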