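import Pool.Agent.H91.NL.Bin

/-!
JOB NL-08 (definitions and bounds for the Pade approximants, about 120-180 lines).

(1) `abs_pa_le`: for `j ≤ n`, `|choose (n - 1/q) j| ≤ choose n j` (natural): the numerator is
`∏_{t<j} (n - t - 1/q)` and `0 ≤ n - t - 1/q ≤ n - t` for `t < j ≤ n` (as `q ≥ 1`).
(`Ring.choose_eq_smul`, `descPochhammer` as a product, or induction with
`choose r (j+1) * (j+1) = choose r j * (r - j)` -- `Ring.choose_smul_choose` with `k = j` or prove this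
recursion first; it is the useful tool for everything here.)
(2) `abs_pc_le`: `|choose (1/q) i| ≤ 1`: by the recursion `choose r (i+1) = choose r i * (r - i)/(i+1)` and
`|1/q - i| ≤ i + 1`.
(3) `sum_pa_le`: `∑_{j ≤ n} |pa q n j| ≤ ∑_j choose n j * choose (2n) n ≤ 2^n * 4^n = 8^n`
(`Nat.sum_range_choose`, `Nat.choose_le_choose`/`choose_mono`, `choose (2n) n ≤ 4^n`).
(4) `int_choose`: for an integer `a` and `q ≥ 1`, `q^(2k) * choose (a/q) k` is an integer.
It equals `q^k * ∏_{t<k} (a - t q) / k!`; so one needs `k! ∣ q^k * ∏_{t<k} (a - t q)` in `ℤ`.  For a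
prime `p ∤ q` let `u` be an inverse of `q` mod `p^E`, `E = v_p(k!)`: `∏ (a - tq) ≡ q^k ∏_{t<k} (u a - t)
= q^k k! choose (ua) k` mod `p^E`, hence `p^E` divides it; for `p ∣ q`, `v_p(q^k) ≥ k ≥ v_p(k!)`
(`v_p(k!) < k` for `k ≥ 1`: Legendre).  [Alternative: write `k! = A * B`, `A` prime to `q`, `B ∣ q^k`; with
`u q ≡ 1 mod A`, `∏ (a - tq) ≡ q^k ∏ (ua - t) ≡ 0 mod A`.]
(5) `QA_int`, `QB_int`: `q^(2n) pa q n j` is an integer for `j ≤ n` (`n - 1/q = (nq-1)/q`), and
`q^(2n) pa q n j pc q i` is an integer for `j + i ≤ n` (`q^(2j) * q^(2i)` divides `q^(2n)`).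
(6) `abs_QA_le`: `|QA q a n| ≤ q^(2n) a^n ∑ |pa| ≤ (8 q^2 a)^n` (`a ≥ 1`).
-/

namespace Pool.Agent.H91.NL

/-- coefficients (up to the sign `(-1)^j`) of the Pade denominator -/
noncomputable def pa (q n j : ℕ) : ℚ :=
  Ring.choose ((n : ℚ) - 1 / q) j * (((2 * n - j).choose n : ℕ) : ℚ)

/-- coefficients (up to the sign `(-1)^i`) of `(1 - z)^(1/q)` -/
noncomputable def pc (q i : ℕ) : ℚ := Ring.choose (1 / (q : ℚ)) i

/-- scaled Pade denominator at `z = 1/a` -/
noncomputable def QA (q a n : ℕ) : ℚ :=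
  ∑ j ∈ Finset.range (n + 1), (-1) ^ j * (q : ℚ) ^ (2 * n) * pa q n j * (a : ℚ) ^ (n - j)

/-- scaled Pade numerator at `z = 1/a` -/
noncomputable def QB (q a n : ℕ) : ℚ :=
  ∑ k ∈ Finset.range (n + 1), (-1) ^ k * (q : ℚ) ^ (2 * n) *
    (∑ ij ∈ Finset.HasAntidiagonal.antidiagonal k, pa q n ij.1 * pc q ij.2) * (a : ℚ) ^ (n - k)

theorem choose_succ_mul (r : ℚ) (k : ℕ) :
    Ring.choose r (k + 1) * ((k : ℚ) + 1) = Ring.choose r k * (r - k) := by
  have h := Ring.choose_smul_choose r (Nat.le_succ k)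
  have e1 : (k + 1).choose k = k + 1 := Nat.choose_succ_self_right k
  simp only [Nat.succ_eq_add_one, Nat.add_sub_cancel_left, Ring.choose_one_right, e1, nsmul_eq_mul] at h
  push_cast at h
  rw [mul_comm]; exact h

theorem pade_prod (r : ℚ) (k : ℕ) :
    Ring.choose r k * (k.factorial : ℚ) = ∏ t ∈ Finset.range k, (r - t) := by
  induction k with
  | zero => simp
  | succ k ih =>
      rw [Finset.prod_range_succ, ← ih, Nat.factorial_succ]
      push_cast
      linear_combination (k.factorial : ℚ) * choose_succ_mul r k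

theorem pade_choose_le {q n : ℕ} (hq : 1 ≤ q) : ∀ j : ℕ, j ≤ n →
    |Ring.choose ((n : ℚ) - 1 / q) j| ≤ (n.choose j : ℚ) := by
  intro j
  induction j with
  | zero => intro _; simp
  | succ j ih =>
      intro hj
      have h0 := ih (by omega)
      have h1 := choose_succ_mul ((n : ℚ) - 1 / q) j
      have h2 : ((n.choose (j + 1) : ℕ) : ℚ) * ((j : ℚ) + 1) = (n.choose j : ℚ) * ((n : ℚ) - j) := by
        have h3 := Nat.choose_succ_right_eq n j
        have h4 : (((n - j : ℕ) : ℕ) : ℚ) = (n : ℚ) - j := by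
          rw [Nat.cast_sub (by omega)]
        rw [← h4]
        exact_mod_cast h3
      have hq1 : (1 : ℚ) ≤ q := by exact_mod_cast hq
      have hq2 : 1 / (q : ℚ) ≤ 1 := by
        rw [div_le_one (by linarith)]; exact hq1
      have hq3 : 0 ≤ 1 / (q : ℚ) := by positivity
      have hj1 : (j : ℚ) + 1 ≤ n := by exact_mod_cast hj
      have h5 : |(n : ℚ) - 1 / q - j| ≤ (n : ℚ) - j := by
        rw [abs_of_nonneg (by linarith)]; linarith
      have h6 : |Ring.choose ((n : ℚ) - 1 / q) (j + 1)| * ((j : ℚ) + 1)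
          ≤ (n.choose (j + 1) : ℚ) * ((j : ℚ) + 1) := by
        rw [h2]
        calc |Ring.choose ((n : ℚ) - 1 / q) (j + 1)| * ((j : ℚ) + 1)
            = |Ring.choose ((n : ℚ) - 1 / q) (j + 1) * ((j : ℚ) + 1)| := by
              rw [abs_mul, abs_of_nonneg (by positivity : (0 : ℚ) ≤ (j : ℚ) + 1)]
          _ = |Ring.choose ((n : ℚ) - 1 / q) j| * |(n : ℚ) - 1 / q - j| := by
              rw [h1, abs_mul]
          _ ≤ (n.choose j : ℚ) * ((n : ℚ) - j) := by
              apply mul_le_mul h0 h5 (abs_nonneg _) (by positivity)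
      exact le_of_mul_le_mul_right h6 (by positivity)

theorem pade_cb (n j : ℕ) : (((2 * n - j).choose n : ℕ) : ℚ) ≤ 4 ^ n := by
  have h1 : (2 * n - j).choose n ≤ 4 ^ n := by
    calc (2 * n - j).choose n ≤ (2 * n).choose n := Nat.choose_le_choose n (by omega)
      _ ≤ 2 ^ (2 * n) := Nat.choose_le_two_pow _ _
      _ = 4 ^ n := by rw [pow_mul]; norm_num
  exact_mod_cast h1

theorem abs_pa_le {q n j : ℕ} (hq : 1 ≤ q) (hj : j ≤ n) :
    |pa q n j| ≤ (n.choose j : ℚ) * 4 ^ n := by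
  unfold pa
  rw [abs_mul, abs_of_nonneg (by positivity : (0 : ℚ) ≤ (((2 * n - j).choose n : ℕ) : ℚ))]
  exact mul_le_mul (pade_choose_le hq j hj) (pade_cb n j) (by positivity) (by positivity)

theorem abs_pc_le {q : ℕ} (hq : 1 ≤ q) (i : ℕ) : |pc q i| ≤ 1 := by
  unfold pc
  induction i with
  | zero => simp
  | succ i ih =>
      have h1 := choose_succ_mul (1 / (q : ℚ)) i
      have hq1 : (1 : ℚ) ≤ q := by exact_mod_cast hq
      have hq2 : 1 / (q : ℚ) ≤ 1 := by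
        rw [div_le_one (by linarith)]; exact hq1
      have hq3 : 0 ≤ 1 / (q : ℚ) := by positivity
      have hi : (0 : ℚ) ≤ i := by positivity
      have h5 : |1 / (q : ℚ) - i| ≤ (i : ℚ) + 1 := by
        rw [abs_le]; constructor <;> linarith
      have h6 : |Ring.choose (1 / (q : ℚ)) (i + 1)| * ((i : ℚ) + 1) ≤ 1 * ((i : ℚ) + 1) := by
        calc |Ring.choose (1 / (q : ℚ)) (i + 1)| * ((i : ℚ) + 1)
            = |Ring.choose (1 / (q : ℚ)) (i + 1) * ((i : ℚ) + 1)| := by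
              rw [abs_mul, abs_of_nonneg (by positivity : (0 : ℚ) ≤ (i : ℚ) + 1)]
          _ = |Ring.choose (1 / (q : ℚ)) i| * |1 / (q : ℚ) - i| := by
              rw [h1, abs_mul]
          _ ≤ 1 * ((i : ℚ) + 1) := by
              apply mul_le_mul ih h5 (abs_nonneg _) (by norm_num)
      exact le_of_mul_le_mul_right h6 (by positivity)

theorem sum_pa_le {q n : ℕ} (hq : 1 ≤ q) :
    ∑ j ∈ Finset.range (n + 1), |pa q n j| ≤ (8 : ℚ) ^ n := by
  calc ∑ j ∈ Finset.range (n + 1), |pa q n j|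
      ≤ ∑ j ∈ Finset.range (n + 1), (n.choose j : ℚ) * 4 ^ n := by
        apply Finset.sum_le_sum
        intro j hj
        exact abs_pa_le hq (by have := Finset.mem_range.1 hj; omega)
    _ = 8 ^ n := by
        rw [← Finset.sum_mul]
        have h1 : (∑ j ∈ Finset.range (n + 1), (n.choose j : ℚ)) = 2 ^ n := by
          have h2 := Nat.sum_range_choose n
          exact_mod_cast h2
        rw [h1, ← mul_pow]; norm_num

theorem pade_fact_dvd (a : ℤ) (k : ℕ) :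
    (k.factorial : ℤ) ∣ ∏ t ∈ Finset.range k, (a - t) := by
  have h1 : ((Ring.choose a k : ℤ) : ℚ) * (k.factorial : ℚ)
      = ((∏ t ∈ Finset.range k, (a - t) : ℤ) : ℚ) := by
    have h2 : ((Ring.choose a k : ℤ) : ℚ) = Ring.choose (a : ℚ) k := by
      exact Ring.map_choose (Int.castRingHom ℚ) a k
    rw [h2, pade_prod]
    push_cast
    rfl
  have h3 : Ring.choose a k * (k.factorial : ℤ) = ∏ t ∈ Finset.range k, (a - t) := by
    exact_mod_cast h1
  exact ⟨Ring.choose a k, by rw [← h3]; ring⟩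

theorem pade_val {p E k : ℕ} (hp : p.Prime) (h : p ^ E ∣ k.factorial) : E ≤ k := by
  haveI := Fact.mk hp
  have h1 : E ≤ padicValNat p k.factorial :=
    (padicValNat_dvd_iff_le (Nat.factorial_ne_zero k)).1 h
  have h2 := sub_one_mul_padicValNat_factorial (p := p) k
  have h3 : 1 ≤ p - 1 := by have := hp.two_le; omega
  have h4 : padicValNat p k.factorial ≤ (p - 1) * padicValNat p k.factorial :=
    Nat.le_mul_of_pos_left _ h3
  omega

theorem pade_dvd (q : ℕ) (a : ℤ) (k : ℕ) :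
    (k.factorial : ℤ) ∣ (q : ℤ) ^ k * ∏ t ∈ Finset.range k, (a - t * q) := by
  rw [← Int.natAbs_dvd_natAbs]
  rw [Int.natAbs_natCast, Nat.dvd_iff_prime_pow_dvd_dvd]
  intro p E hp hE
  by_cases hpq : p ∣ q
  · have h1 : E ≤ k := pade_val hp hE
    rw [Int.natAbs_mul]
    apply Dvd.dvd.mul_right
    rw [Int.natAbs_pow, Int.natAbs_natCast]
    exact (pow_dvd_pow p h1).trans (pow_dvd_pow_of_dvd hpq k)
  · have hc : Nat.Coprime q (p ^ E) := by
      apply Nat.Coprime.pow_right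
      exact ((Nat.Prime.coprime_iff_not_dvd hp).2 hpq).symm
    have hc2 : IsCoprime (q : ℤ) ((p ^ E : ℕ) : ℤ) := Nat.isCoprime_iff_coprime.2 hc
    obtain ⟨u, v, huv⟩ := hc2
    rw [Int.natAbs_mul]
    apply Dvd.dvd.mul_left
    rw [← Int.natCast_dvd]
    rw [← ZMod.intCast_zmod_eq_zero_iff_dvd]
    have h1 : ((u : ℤ) : ZMod (p ^ E)) * (q : ZMod (p ^ E)) = 1 := by
      have h2 : (((u * (q : ℤ) + v * ((p ^ E : ℕ) : ℤ) : ℤ)) : ZMod (p ^ E)) = ((1 : ℤ) : ZMod (p ^ E)) := by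
        rw [huv]
      rw [Int.cast_add, Int.cast_mul, Int.cast_mul, Int.cast_natCast, Int.cast_natCast,
        ZMod.natCast_self, mul_zero, add_zero, Int.cast_one] at h2
      exact h2
    have h3 : ((∏ t ∈ Finset.range k, (a - t * q) : ℤ) : ZMod (p ^ E))
        = (q : ZMod (p ^ E)) ^ k * ((∏ t ∈ Finset.range k, (u * a - t) : ℤ) : ZMod (p ^ E)) := by
      rw [Int.cast_prod, Int.cast_prod]
      have h4 : (q : ZMod (p ^ E)) ^ k = ∏ t ∈ Finset.range k, (q : ZMod (p ^ E)) := by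
        rw [Finset.prod_const, Finset.card_range]
      rw [h4, ← Finset.prod_mul_distrib]
      apply Finset.prod_congr rfl
      intro t _
      push_cast
      linear_combination (-(a : ZMod (p ^ E))) * h1
    rw [h3]
    have h5 : ((∏ t ∈ Finset.range k, (u * a - t) : ℤ) : ZMod (p ^ E)) = 0 := by
      rw [ZMod.intCast_zmod_eq_zero_iff_dvd]
      exact (Int.natCast_dvd_natCast.2 hE).trans (pade_fact_dvd (u * a) k)
    rw [h5, mul_zero]

theorem int_choose (q : ℕ) (hq : 1 ≤ q) (a : ℤ) (k : ℕ) :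
    ∃ z : ℤ, (q : ℚ) ^ (2 * k) * Ring.choose ((a : ℚ) / q) k = z := by
  obtain ⟨z, hz⟩ := pade_dvd q a k
  refine ⟨z, ?_⟩
  have hq0 : (q : ℚ) ≠ 0 := by
    have : (1 : ℚ) ≤ q := by exact_mod_cast hq
    intro h; linarith
  have hf : (k.factorial : ℚ) ≠ 0 := by exact_mod_cast Nat.factorial_ne_zero k
  have h1 := pade_prod ((a : ℚ) / q) k
  have h2 : (q : ℚ) ^ k * ∏ t ∈ Finset.range k, ((a : ℚ) / q - t)
      = ∏ t ∈ Finset.range k, ((a : ℚ) - t * q) := by
    have h4 : (q : ℚ) ^ k = ∏ t ∈ Finset.range k, (q : ℚ) := by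
      rw [Finset.prod_const, Finset.card_range]
    rw [h4, ← Finset.prod_mul_distrib]
    apply Finset.prod_congr rfl
    intro t _
    field_simp
  have h3 : (q : ℚ) ^ k * ∏ t ∈ Finset.range k, ((a : ℚ) - t * q) = (k.factorial : ℚ) * z := by
    have h5 : (((q : ℤ) ^ k * ∏ t ∈ Finset.range k, (a - t * q) : ℤ) : ℚ)
        = (((k.factorial : ℤ) * z : ℤ) : ℚ) := by rw [hz]
    push_cast at h5
    exact h5
  apply mul_right_cancel₀ hf
  calc (q : ℚ) ^ (2 * k) * Ring.choose ((a : ℚ) / q) k * (k.factorial : ℚ)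
      = (q : ℚ) ^ k * ((q : ℚ) ^ k * (Ring.choose ((a : ℚ) / q) k * (k.factorial : ℚ))) := by
        rw [two_mul, pow_add]; ring
    _ = (k.factorial : ℚ) * z := by rw [h1, h2, h3]
    _ = z * (k.factorial : ℚ) := by ring

theorem pade_mem {x : ℚ} : x ∈ (Int.castRingHom ℚ).range ↔ ∃ z : ℤ, x = z := by
  rw [RingHom.mem_range]
  constructor
  · rintro ⟨z, hz⟩; exact ⟨z, by rw [← hz]; rfl⟩
  · rintro ⟨z, hz⟩; exact ⟨z, by rw [hz]; rfl⟩

theorem pade_pa_mem {q : ℕ} (hq : 1 ≤ q) (n j : ℕ) :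
    (q : ℚ) ^ (2 * j) * pa q n j ∈ (Int.castRingHom ℚ).range := by
  have hq0 : (q : ℚ) ≠ 0 := by
    have : (1 : ℚ) ≤ q := by exact_mod_cast hq
    intro h; linarith
  unfold pa
  have h1 : (n : ℚ) - 1 / q = (((n : ℤ) * q - 1 : ℤ) : ℚ) / q := by
    push_cast
    field_simp
  rw [h1, ← mul_assoc]
  apply mul_mem
  · exact pade_mem.2 (int_choose q hq _ j)
  · exact natCast_mem _ _

theorem pade_pc_mem {q : ℕ} (hq : 1 ≤ q) (i : ℕ) :
    (q : ℚ) ^ (2 * i) * pc q i ∈ (Int.castRingHom ℚ).range := by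
  unfold pc
  have h1 : (1 : ℚ) / q = ((1 : ℤ) : ℚ) / q := by norm_num
  rw [h1]
  exact pade_mem.2 (int_choose q hq 1 i)

theorem QA_int {q : ℕ} (hq : 1 ≤ q) (a n : ℕ) : ∃ z : ℤ, QA q a n = z := by
  rw [← pade_mem]
  unfold QA
  apply sum_mem
  intro j hj
  have hj' : j ≤ n := by have := Finset.mem_range.1 hj; omega
  have e : (-1 : ℚ) ^ j * (q : ℚ) ^ (2 * n) * pa q n j * (a : ℚ) ^ (n - j)
      = (-1) ^ j * (q : ℚ) ^ (2 * (n - j)) * ((q : ℚ) ^ (2 * j) * pa q n j) * (a : ℚ) ^ (n - j) := by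
    have : 2 * n = 2 * (n - j) + 2 * j := by omega
    rw [this, pow_add]
    have e2 : 2 * (n - j) + 2 * j - 0 = 2 * (n - j) + 2 * j := rfl
    ring
  rw [e]
  refine mul_mem (mul_mem (mul_mem ?_ ?_) (pade_pa_mem hq n j)) ?_
  · exact pow_mem (neg_mem (one_mem _)) _
  · exact pow_mem (natCast_mem _ _) _
  · exact pow_mem (natCast_mem _ _) _

theorem QB_int {q : ℕ} (hq : 1 ≤ q) (a n : ℕ) : ∃ z : ℤ, QB q a n = z := by
  rw [← pade_mem]
  unfold QB
  apply sum_mem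
  intro k hk
  have hk' : k ≤ n := by have := Finset.mem_range.1 hk; omega
  apply mul_mem _ (pow_mem (natCast_mem _ _) _)
  rw [mul_assoc, Finset.mul_sum]
  apply mul_mem (pow_mem (neg_mem (one_mem _)) _)
  apply sum_mem
  intro ij hij
  have hs : ij.1 + ij.2 = k := Finset.HasAntidiagonal.mem_antidiagonal.1 hij
  have e : (q : ℚ) ^ (2 * n) * (pa q n ij.1 * pc q ij.2)
      = (q : ℚ) ^ (2 * (n - k)) * ((q : ℚ) ^ (2 * ij.1) * pa q n ij.1)
        * ((q : ℚ) ^ (2 * ij.2) * pc q ij.2) := by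
    have : 2 * n = 2 * (n - k) + 2 * ij.1 + 2 * ij.2 := by omega
    rw [this, pow_add, pow_add]
    ring
  rw [e]
  exact mul_mem (mul_mem (pow_mem (natCast_mem _ _) _) (pade_pa_mem hq n _)) (pade_pc_mem hq _)

theorem abs_QA_le {q a n : ℕ} (hq : 1 ≤ q) (ha : 1 ≤ a) :
    |QA q a n| ≤ (8 * (q : ℚ) ^ 2 * a) ^ n := by
  unfold QA
  have ha1 : (1 : ℚ) ≤ a := by exact_mod_cast ha
  calc |∑ j ∈ Finset.range (n + 1), (-1 : ℚ) ^ j * (q : ℚ) ^ (2 * n) * pa q n j * (a : ℚ) ^ (n - j)|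
      ≤ ∑ j ∈ Finset.range (n + 1), |(-1 : ℚ) ^ j * (q : ℚ) ^ (2 * n) * pa q n j * (a : ℚ) ^ (n - j)| :=
        Finset.abs_sum_le_sum_abs _ _
    _ ≤ ∑ j ∈ Finset.range (n + 1), (q : ℚ) ^ (2 * n) * (a : ℚ) ^ n * |pa q n j| := by
        apply Finset.sum_le_sum
        intro j hj
        rw [abs_mul, abs_mul, abs_mul, abs_pow, abs_neg, abs_one, one_pow, one_mul,
          abs_of_nonneg (by positivity : (0 : ℚ) ≤ (q : ℚ) ^ (2 * n)),
          abs_of_nonneg (by positivity : (0 : ℚ) ≤ (a : ℚ) ^ (n - j))]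
        have h1 : (a : ℚ) ^ (n - j) ≤ (a : ℚ) ^ n := pow_le_pow_right₀ ha1 (by omega)
        have h2 : 0 ≤ (q : ℚ) ^ (2 * n) * |pa q n j| := by positivity
        nlinarith [mul_le_mul_of_nonneg_left h1 h2]
    _ ≤ (q : ℚ) ^ (2 * n) * (a : ℚ) ^ n * 8 ^ n := by
        rw [← Finset.mul_sum]
        exact mul_le_mul_of_nonneg_left (sum_pa_le hq) (by positivity)
    _ = (8 * (q : ℚ) ^ 2 * a) ^ n := by
        rw [mul_pow, mul_pow, ← pow_mul]; ring

end Pool.Agent.H91.NL
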