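import Pool.Agent.H91.NL.PadeV

/-!
JOB NL-10 (size of the remainder, about 80-130 lines).

`θ = (1 - 1/a)^(1/q)` (real power).  By the binomial series
(`Real.one_add_rpow_hasFPowerSeriesOnBall_zero`, `a ≥ 2`, at the point `-1/a` of norm `≤ 1/2 < 1`)
`θ = ∑_i (-1)^i pc q i / a^i` (`HasSum`).  Multiply by the finite sum `QA = ∑_j (-1)^j q^(2n) pa_j a^(n-j)`:
`QA θ = q^(2n) a^n ∑_k (-1)^k ps q n k / a^k` (Cauchy product with a finite sum; e.g. write
`pa' j = if j ≤ n then pa q n j else 0`, both series are absolutely summable,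
`tsum_mul_tsum_eq_tsum_sum_antidiagonal_of_summable_norm`).
The part `k ≤ n` is `QB` (`ps_of_le`), the part `n < k ≤ 2n` vanishes (`mid_zero`), and
`|∑_{k ≥ 2n+1} ..| ≤ q^(2n) a^n 8^n ∑_{k≥2n+1} a^(-k) ≤ q^(2n) 8^n a^n * 2 a^(-2n-1) = 2 (8q^2/a)^n / a`
(`a ≥ 2`).
-/

namespace Pool.Agent.H91.NL

/-- `(1 - 1/a)^(1/q)` -/
noncomputable def theta (q a : ℕ) : ℝ := (1 - 1 / (a : ℝ)) ^ (1 / (q : ℝ))

private theorem padeR_choose (q i : ℕ) : Ring.choose (1 / (q : ℝ)) i = ((pc q i : ℚ) : ℝ) := by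
  have h := Ring.map_choose (algebraMap ℚ ℝ) (1 / (q : ℚ)) i
  have e : (algebraMap ℚ ℝ) (1 / (q : ℚ)) = 1 / (q : ℝ) := by simp
  rw [e] at h
  rw [← h]
  rfl

private theorem padeR_hasSum (q : ℕ) {x : ℝ} (hx0 : 0 ≤ x) (hx1 : x < 1) :
    HasSum (fun i : ℕ => ((pc q i : ℚ) : ℝ) * (-x) ^ i) ((1 - x) ^ (1 / (q : ℝ))) := by
  have h := (Real.one_add_rpow_hasFPowerSeriesOnBall_zero (a := 1 / (q : ℝ))).hasSum
    (y := -x) (by
      rw [Metric.mem_eball, edist_dist, dist_zero_right, norm_neg, Real.norm_eq_abs,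
        abs_of_nonneg hx0]
      exact ENNReal.ofReal_lt_one.2 hx1)
  have e1 : (1 + (0 + -x)) = 1 - x := by ring
  rw [e1] at h
  have e2 : (fun i : ℕ => ((pc q i : ℚ) : ℝ) * (-x) ^ i) =
      fun i : ℕ => (binomialSeries ℝ (1 / (q : ℝ)) i) fun _ => -x := by
    funext i
    rw [binomialSeries_apply, List.ofFn_const, List.prod_replicate, smul_eq_mul, padeR_choose]
  rw [e2]
  exact h

theorem remainder {q a n : ℕ} (hq : 1 ≤ q) (ha : 2 ≤ a) :
    |((QA q a n : ℚ) : ℝ) * theta q a - ((QB q a n : ℚ) : ℝ)| ≤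
      2 * (8 * (q : ℝ) ^ 2 / a) ^ n / a := by
  have haR : (2 : ℝ) ≤ a := by exact_mod_cast ha
  have ha0 : (0 : ℝ) < a := by linarith
  set x : ℝ := 1 / (a : ℝ) with hx
  have hx0 : 0 < x := by positivity
  have hx2 : x ≤ 1 / 2 := by
    rw [hx]
    exact one_div_le_one_div_of_le (by norm_num) haR
  have hx1 : x < 1 := by linarith
  have hax : (a : ℝ) * x = 1 := by rw [hx]; field_simp
  -- the two series
  set f : ℕ → ℝ := fun j => (((if j ≤ n then pa q n j else 0 : ℚ)) : ℝ) * (-x) ^ j with hf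
  set g : ℕ → ℝ := fun i => ((pc q i : ℚ) : ℝ) * (-x) ^ i with hg
  have hgs : HasSum g (theta q a) := padeR_hasSum q hx0.le hx1
  have hf0 : ∀ j ∉ Finset.range (n + 1), f j = 0 := by
    intro j hj
    have : ¬ j ≤ n := by
      rw [Finset.mem_range] at hj
      omega
    simp [hf, this]
  have hfs : Summable (fun j => ‖f j‖) :=
    summable_of_ne_finset_zero (s := Finset.range (n + 1)) (fun j hj => by rw [hf0 j hj, norm_zero])
  have hgn : Summable (fun i => ‖g i‖) := by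
    refine Summable.of_nonneg_of_le (fun i => norm_nonneg _) (fun i => ?_)
      (summable_geometric_of_lt_one hx0.le hx1)
    have h1 : |((pc q i : ℚ) : ℝ)| ≤ 1 := by exact_mod_cast abs_pc_le hq i
    rw [Real.norm_eq_abs, abs_mul, abs_pow, abs_neg, abs_of_pos hx0]
    exact mul_le_of_le_one_left (by positivity) h1
  have hprod := tsum_mul_tsum_eq_tsum_sum_antidiagonal_of_summable_norm hfs hgn
  have hsn := summable_norm_sum_mul_antidiagonal_of_summable_norm hfs hgn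
  set s : ℕ → ℝ := fun k => ((ps q n k : ℚ) : ℝ) * (-x) ^ k with hs
  have hsk : ∀ k, ∑ kl ∈ Finset.HasAntidiagonal.antidiagonal k, f kl.1 * g kl.2 = s k := by
    intro k
    rw [hs]
    simp only [ps]
    rw [Rat.cast_sum, Finset.sum_mul]
    refine Finset.sum_congr rfl fun kl hkl => ?_
    rw [Finset.HasAntidiagonal.mem_antidiagonal] at hkl
    rw [← hkl, pow_add, Rat.cast_mul]
    simp only [hf, hg]
    ring
  have hsum : Summable s := by
    refine Summable.of_norm ?_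
    refine hsn.congr fun k => ?_
    rw [← hsk k]
  rw [tsum_congr hsk, hgs.tsum_eq] at hprod
  rw [tsum_eq_sum hf0, ← hsum.sum_add_tsum_nat_add (2 * n + 1)] at hprod
  -- the middle part vanishes
  have hmid : ∑ k ∈ Finset.range (2 * n + 1), s k = ∑ k ∈ Finset.range (n + 1), s k := by
    symm
    refine Finset.sum_subset (fun k hk => ?_) (fun k hk1 hk2 => ?_)
    · rw [Finset.mem_range] at hk ⊢
      omega
    · rw [Finset.mem_range] at hk1 hk2
      rw [hs]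
      simp only
      rw [mid_zero hq (by omega) (by omega)]
      simp
  rw [hmid] at hprod
  -- the values of QA and QB
  have hpw : ∀ k, k ≤ n → (-1 : ℝ) ^ k * (a : ℝ) ^ (n - k) = (a : ℝ) ^ n * (-x) ^ k := by
    intro k hk
    have e1 : (a : ℝ) ^ n = (a : ℝ) ^ (n - k) * (a : ℝ) ^ k := by
      rw [← pow_add]
      congr 1
      omega
    have e2 : (-x) ^ k = (-1) ^ k * x ^ k := by rw [← neg_one_mul, mul_pow]
    have e3 : (a : ℝ) ^ k * x ^ k = 1 := by rw [← mul_pow, hax, one_pow]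
    rw [e1, e2]
    calc (-1 : ℝ) ^ k * (a : ℝ) ^ (n - k) = (-1 : ℝ) ^ k * (a : ℝ) ^ (n - k) * 1 := by ring
      _ = (-1 : ℝ) ^ k * (a : ℝ) ^ (n - k) * ((a : ℝ) ^ k * x ^ k) := by rw [e3]
      _ = _ := by ring
  have hQA : ((QA q a n : ℚ) : ℝ) = (q : ℝ) ^ (2 * n) * (a : ℝ) ^ n *
      ∑ j ∈ Finset.range (n + 1), f j := by
    unfold QA
    rw [Rat.cast_sum, Finset.mul_sum]
    refine Finset.sum_congr rfl fun j hj => ?_
    rw [Finset.mem_range] at hj
    have hjn : j ≤ n := by omega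
    have e := hpw j hjn
    push_cast
    simp only [hf, if_pos hjn]
    calc (-1 : ℝ) ^ j * (q : ℝ) ^ (2 * n) * (pa q n j : ℝ) * (a : ℝ) ^ (n - j)
        = (q : ℝ) ^ (2 * n) * (pa q n j : ℝ) * ((-1 : ℝ) ^ j * (a : ℝ) ^ (n - j)) := by ring
      _ = _ := by rw [e]; ring
  have hQB : ((QB q a n : ℚ) : ℝ) = (q : ℝ) ^ (2 * n) * (a : ℝ) ^ n *
      ∑ k ∈ Finset.range (n + 1), s k := by
    unfold QB
    rw [Rat.cast_sum, Finset.mul_sum]
    refine Finset.sum_congr rfl fun j hj => ?_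
    rw [Finset.mem_range] at hj
    have hjn : j ≤ n := by omega
    have e := hpw j hjn
    rw [← ps_of_le hjn]
    push_cast
    simp only [hs]
    calc (-1 : ℝ) ^ j * (q : ℝ) ^ (2 * n) * (ps q n j : ℝ) * (a : ℝ) ^ (n - j)
        = (q : ℝ) ^ (2 * n) * (ps q n j : ℝ) * ((-1 : ℝ) ^ j * (a : ℝ) ^ (n - j)) := by ring
      _ = _ := by rw [e]; ring
  -- the tail
  have htail : ‖∑' k, s (k + (2 * n + 1))‖ ≤ 8 ^ n * x ^ (2 * n + 1) * (1 - x)⁻¹ := by
    refine tsum_of_norm_bounded ((hasSum_geometric_of_lt_one hx0.le hx1).mul_left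
      (8 ^ n * x ^ (2 * n + 1))) (fun k => ?_)
    have h1 : |((ps q n (k + (2 * n + 1)) : ℚ) : ℝ)| ≤ 8 ^ n := by
      exact_mod_cast abs_ps_le (n := n) hq (k + (2 * n + 1))
    simp only [hs]
    rw [Real.norm_eq_abs, abs_mul, abs_pow, abs_neg, abs_of_pos hx0, pow_add x k]
    calc |((ps q n (k + (2 * n + 1)) : ℚ) : ℝ)| * (x ^ k * x ^ (2 * n + 1))
        ≤ 8 ^ n * (x ^ k * x ^ (2 * n + 1)) :=
          mul_le_mul_of_nonneg_right h1 (by positivity)
      _ = 8 ^ n * x ^ (2 * n + 1) * x ^ k := by ring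
  have hdiff : ((QA q a n : ℚ) : ℝ) * theta q a - ((QB q a n : ℚ) : ℝ) =
      (q : ℝ) ^ (2 * n) * (a : ℝ) ^ n * ∑' k, s (k + (2 * n + 1)) := by
    rw [hQA, hQB, mul_assoc, hprod]
    ring
  rw [hdiff, abs_mul, abs_of_nonneg (by positivity : (0 : ℝ) ≤ (q : ℝ) ^ (2 * n) * (a : ℝ) ^ n)]
  rw [Real.norm_eq_abs] at htail
  have hinv : (1 - x)⁻¹ ≤ 2 := by
    rw [inv_le_comm₀ (by linarith) (by norm_num)]
    linarith
  calc (q : ℝ) ^ (2 * n) * (a : ℝ) ^ n * |∑' k, s (k + (2 * n + 1))|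
      ≤ (q : ℝ) ^ (2 * n) * (a : ℝ) ^ n * (8 ^ n * x ^ (2 * n + 1) * (1 - x)⁻¹) :=
        mul_le_mul_of_nonneg_left htail (by positivity)
    _ ≤ (q : ℝ) ^ (2 * n) * (a : ℝ) ^ n * (8 ^ n * x ^ (2 * n + 1) * 2) := by
        refine mul_le_mul_of_nonneg_left (mul_le_mul_of_nonneg_left hinv (by positivity))
          (by positivity)
    _ = 2 * (8 * (q : ℝ) ^ 2 / a) ^ n / a := by
        have e1 : (8 * (q : ℝ) ^ 2 / a) = 8 * (q : ℝ) ^ 2 * x := by rw [hx]; ring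
        have e2 : ∀ t : ℝ, t / a = t * x := fun t => by rw [hx]; ring
        have e3 : (a : ℝ) ^ n * x ^ n = 1 := by rw [← mul_pow, hax, one_pow]
        rw [e1, e2, mul_pow, mul_pow, ← pow_mul]
        have e4 : x ^ (2 * n + 1) = x ^ n * x ^ n * x := by
          rw [pow_succ, two_mul, pow_add]
        rw [e4]
        calc (q : ℝ) ^ (2 * n) * (a : ℝ) ^ n * (8 ^ n * (x ^ n * x ^ n * x) * 2)
            = (q : ℝ) ^ (2 * n) * ((a : ℝ) ^ n * x ^ n) * (8 ^ n * x ^ n * x * 2) := by ring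
          _ = _ := by rw [e3]; ring

end Pool.Agent.H91.NL
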