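import Pool.Agent.H91.NL.Pade

/-!
JOB NL-09 (vanishing of the middle coefficients and the first remainder coefficient, about 60-100
lines).

Let `s k = ∑_{j+i=k, j ≤ n} pa q n j * pc q i` (the coefficient of `z^k` in `Q(z)(1-z)^(1/q)` up to the sign
`(-1)^k`).  With the polynomial `g` of degree `n`, `g(j) = ∏_{t<n} (2n - j - t) / n!` (as a polynomial in
`j` over `ℚ`), `g(j) = choose (2n - j) n` (natural) for `0 ≤ j ≤ 2n` (for `n < j ≤ 2n` both are `0`; careful
for `n = 0`: `g = 1`), and `g(2n+1) = ∏_{t<n} (-1-t)/n! = (-1)^n`.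
(1) `mid_zero`: for `n < k ≤ 2n`: the terms with `n < j ≤ k ≤ 2n` have `g(j) = 0`, so
`s k = ∑_{j+i=k} choose (n-1/q) j * choose (1/q) i * g(j) = 0` by `choose_sum_zero`
(`(n - 1/q) + 1/q = n`).
(2) `first_coeff`: for `k = 2n+1`: `0 = s k + choose (n - 1/q) (2n+1) * choose (1/q) 0 * (-1)^n`, and
`choose (n-1/q) (2n+1) ≠ 0` because the factors `n - 1/q - t` are not zero (`q ≥ 2`: `1/q` is not an
integer; use `choose_succ_mul` and induction).  So `s (2n+1) ≠ 0`.
-/

namespace Pool.Agent.H91.NL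

/-- coefficient of `z^k` (up to sign) in the product of the Pade denominator and `(1-z)^(1/q)` -/
noncomputable def ps (q n k : ℕ) : ℚ :=
  ∑ ij ∈ Finset.HasAntidiagonal.antidiagonal k, (if ij.1 ≤ n then pa q n ij.1 else 0) * pc q ij.2

private noncomputable def PadeV_g (n : ℕ) : Polynomial ℚ :=
  Polynomial.C (1 / (n.factorial : ℚ)) *
    (descPochhammer ℚ n).comp (Polynomial.C (2 * (n : ℚ)) - Polynomial.X)

private theorem PadeV_deg (n : ℕ) : (PadeV_g n).natDegree ≤ n := by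
  unfold PadeV_g
  refine (Polynomial.natDegree_C_mul_le _ _).trans ?_
  refine Polynomial.natDegree_comp_le.trans ?_
  have h1 : (descPochhammer ℚ n).natDegree = n := descPochhammer_natDegree ℚ n
  have h2 : (Polynomial.C (2 * (n : ℚ)) - Polynomial.X).natDegree ≤ 1 := by
    refine (Polynomial.natDegree_sub_le _ _).trans (max_le ?_ Polynomial.natDegree_X_le)
    rw [Polynomial.natDegree_C]
    exact Nat.zero_le 1
  rw [h1]
  calc n * (Polynomial.C (2 * (n : ℚ)) - Polynomial.X).natDegree ≤ n * 1 :=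
        Nat.mul_le_mul_left n h2
    _ = n := Nat.mul_one n

private theorem PadeV_eval (n : ℕ) (x : ℚ) : (PadeV_g n).eval x =
    1 / (n.factorial : ℚ) * (descPochhammer ℚ n).eval (2 * (n : ℚ) - x) := by
  unfold PadeV_g
  simp [Polynomial.eval_comp]

private theorem PadeV_eval_nat {n j : ℕ} (hj : j ≤ 2 * n) :
    (PadeV_g n).eval (j : ℚ) = (((2 * n - j).choose n : ℕ) : ℚ) := by
  rw [PadeV_eval]
  have h1 : 2 * (n : ℚ) - j = ((2 * n - j : ℕ) : ℚ) := by
    rw [Nat.cast_sub hj]; push_cast; ring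
  rw [h1, descPochhammer_eval_eq_descFactorial, Nat.descFactorial_eq_factorial_mul_choose,
    Nat.cast_mul]
  have h2 : (n.factorial : ℚ) ≠ 0 := by exact_mod_cast n.factorial_ne_zero
  field_simp

private theorem PadeV_eval_last (n : ℕ) : (PadeV_g n).eval ((2 * n + 1 : ℕ) : ℚ) ≠ 0 := by
  rw [PadeV_eval]
  have h1 : 2 * (n : ℚ) - ((2 * n + 1 : ℕ) : ℚ) = -1 := by push_cast; ring
  have h2 : (n.factorial : ℚ) ≠ 0 := by exact_mod_cast n.factorial_ne_zero
  rw [h1, descPochhammer_eval_eq_prod_range]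
  refine mul_ne_zero (one_div_ne_zero h2) (Finset.prod_ne_zero_iff.2 fun t _ => ?_)
  have : (0 : ℚ) ≤ t := Nat.cast_nonneg t
  intro h
  linarith

private theorem PadeV_term {q n : ℕ} (ij : ℕ × ℕ) (hj : ij.1 ≤ 2 * n) :
    (if ij.1 ≤ n then pa q n ij.1 else 0) * pc q ij.2 =
      Ring.choose ((n : ℚ) - 1 / q) ij.1 * Ring.choose (1 / (q : ℚ)) ij.2 *
        (PadeV_g n).eval (ij.1 : ℚ) := by
  rw [PadeV_eval_nat hj]
  unfold pc
  by_cases h : ij.1 ≤ n
  · rw [if_pos h]
    unfold pa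
    ring
  · have h0 : (2 * n - ij.1).choose n = 0 := Nat.choose_eq_zero_of_lt (by omega)
    rw [if_neg h, h0]
    simp

private theorem PadeV_sum (q n k : ℕ) (hk : n < k) :
    ∑ ij ∈ Finset.HasAntidiagonal.antidiagonal k,
      Ring.choose ((n : ℚ) - 1 / q) ij.1 * Ring.choose (1 / (q : ℚ)) ij.2 *
        (PadeV_g n).eval (ij.1 : ℚ) = 0 :=
  choose_sum_zero ((n : ℚ) - 1 / q) (1 / (q : ℚ)) n k (by ring) hk (PadeV_g n) (PadeV_deg n)

private theorem PadeV_choose_ne {q : ℕ} (hq : 2 ≤ q) (n m : ℕ) :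
    Ring.choose ((n : ℚ) - 1 / q) m ≠ 0 := by
  induction m with
  | zero => rw [Ring.choose_zero_right]; exact one_ne_zero
  | succ m ih =>
    intro h
    have h1 := choose_succ_mul ((n : ℚ) - 1 / q) m
    rw [h, zero_mul] at h1
    rcases mul_eq_zero.1 h1.symm with h2 | h2
    · exact ih h2
    · have hq0 : (q : ℚ) ≠ 0 := by
        have : 0 < q := by omega
        exact_mod_cast this.ne'
      have h3 : ((n : ℚ) - m) * q = 1 := by
        have : (n : ℚ) - m = 1 / q := by linarith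
        rw [this]
        field_simp
      have h4 : ((n : ℤ) - m) * q = 1 := by exact_mod_cast h3
      have h5 : (q : ℤ) ∣ 1 := ⟨(n : ℤ) - m, by rw [← h4]; ring⟩
      have h6 : (q : ℤ) ≤ 1 := Int.le_of_dvd one_pos h5
      omega

theorem mid_zero {q n k : ℕ} (hq : 1 ≤ q) (h1 : n < k) (h2 : k ≤ 2 * n) : ps q n k = 0 := by
  have _ := hq
  unfold ps
  refine Eq.trans ?_ (PadeV_sum q n k h1)
  refine Finset.sum_congr rfl fun ij hij => ?_
  have h3 := Finset.HasAntidiagonal.mem_antidiagonal.1 hij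
  have h4 : ij.1 ≤ 2 * n := by omega
  exact PadeV_term ij h4

theorem first_coeff {q n : ℕ} (hq : 2 ≤ q) : ps q n (2 * n + 1) ≠ 0 := by
  have hsum := PadeV_sum q n (2 * n + 1) (by omega)
  have hdiff : ps q n (2 * n + 1) - 0 =
      -(Ring.choose ((n : ℚ) - 1 / q) (2 * n + 1) * Ring.choose (1 / (q : ℚ)) 0 *
        (PadeV_g n).eval ((2 * n + 1 : ℕ) : ℚ)) := by
    rw [← hsum]
    unfold ps
    rw [← Finset.sum_sub_distrib]
    rw [Finset.sum_eq_single ((2 * n + 1, 0) : ℕ × ℕ)]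
    · rw [if_neg (by omega)]
      simp
    · intro ij hij hne
      have h3 := Finset.HasAntidiagonal.mem_antidiagonal.1 hij
      have h4 : ij.1 ≤ 2 * n := by
        by_contra hcon
        apply hne
        refine Prod.ext ?_ ?_
        · show ij.1 = 2 * n + 1
          omega
        · show ij.2 = 0
          omega
      rw [PadeV_term ij h4, sub_self]
    · intro h
      exact absurd (Finset.HasAntidiagonal.mem_antidiagonal.2 (by simp)) h
  rw [sub_zero, Ring.choose_zero_right, mul_one] at hdiff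
  rw [hdiff]
  exact neg_ne_zero.2 (mul_ne_zero (PadeV_choose_ne hq n _) (PadeV_eval_last n))

theorem ps_of_le {q n k : ℕ} (hk : k ≤ n) :
    ps q n k = ∑ ij ∈ Finset.HasAntidiagonal.antidiagonal k, pa q n ij.1 * pc q ij.2 := by
  unfold ps
  refine Finset.sum_congr rfl fun ij hij => ?_
  have h3 := Finset.HasAntidiagonal.mem_antidiagonal.1 hij
  rw [if_pos (by omega)]

theorem abs_ps_le {q n : ℕ} (hq : 1 ≤ q) (k : ℕ) : |ps q n k| ≤ (8 : ℚ) ^ n := by
  have h1 : |ps q n k| ≤ ∑ ij ∈ Finset.HasAntidiagonal.antidiagonal k,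
      (if ij.1 ≤ n then |pa q n ij.1| else 0) := by
    unfold ps
    refine (Finset.abs_sum_le_sum_abs _ _).trans (Finset.sum_le_sum fun ij _ => ?_)
    rw [abs_mul]
    have h2 := abs_pc_le hq ij.2
    by_cases h : ij.1 ≤ n
    · rw [if_pos h, if_pos h]
      calc |pa q n ij.1| * |pc q ij.2| ≤ |pa q n ij.1| * 1 :=
            mul_le_mul_of_nonneg_left h2 (abs_nonneg _)
        _ = |pa q n ij.1| := mul_one _
    · rw [if_neg h, if_neg h, abs_zero, zero_mul]
  have h3 : ∑ ij ∈ Finset.HasAntidiagonal.antidiagonal k,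
      (if ij.1 ≤ n then |pa q n ij.1| else 0) =
      ∑ j ∈ Finset.range (k + 1), (if j ≤ n then |pa q n j| else 0) :=
    Finset.Nat.sum_antidiagonal_eq_sum_range_succ_mk
      (fun ij : ℕ × ℕ => if ij.1 ≤ n then |pa q n ij.1| else 0) k
  rw [h3, ← Finset.sum_filter] at h1
  refine h1.trans (le_trans ?_ (sum_pa_le (n := n) hq))
  refine Finset.sum_le_sum_of_subset_of_nonneg ?_ (fun _ _ _ => abs_nonneg _)
  intro j hj
  rw [Finset.mem_filter] at hj
  exact Finset.mem_range.2 (Nat.lt_succ_of_le hj.2)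

end Pool.Agent.H91.NL
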