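import Mathlib

/-!
JOB NL-14 (sum of `1/φ(m)`, about 80-120 lines).

`m / φ(m) = ∑_{d ∣ m, d squarefree} 1/φ(d)` (see `SelA.sum_inv_totient` in
`Pool/Agent/H16/GPS/Num/SelA.lean` for squarefree `m`; in general both sides depend only on the prime
factors: `m/φ(m) = ∏_{p∣m} (1 + 1/(p-1))`, `Nat.totient_eq_mul_prod_factors`, expand with
`Finset.prod_one_add`/`prod_add`).  Hence
`∑_{m≤Y} 1/φ(m) = ∑_{m≤Y} (1/m) ∑_{d∣m, sqfree} 1/φ(d) = ∑_{d ≤ Y sqfree} 1/(d φ(d)) ∑_{m' ≤ Y/d} 1/m'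
≤ (1 + log Y) ∑_{d ≤ Y, sqfree} 1/(d φ(d))` and
`∑_{d≤Y sqfree} 1/(d φ(d)) ≤ ∏_{p ≤ Y} (1 + 1/(p(p-1))) ≤ exp (∑_{p ≤ Y} 1/(p(p-1))) ≤ exp 1`
(`Finset.prod_one_add` and injectivity of `primeFactors` on squarefree numbers, as in
`sum_inv_totient_le` of `Pool/Agent/H14/PT/Rough.lean`).  So `C = exp 1` works.
-/

namespace Pool.Agent.H91.NL

open Finset in
private theorem PrA_inv_totient {m : ℕ} (hm : 1 ≤ m) :
    1 / (m.totient : ℝ) = 1 / (m : ℝ) * ∏ p ∈ m.primeFactors, (1 + 1 / ((p : ℝ) - 1)) := by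
  have h := congrArg (fun q : ℚ => (q : ℝ)) (Nat.totient_eq_mul_prod_factors m)
  push_cast at h
  rw [h]
  have hm0 : (m : ℝ) ≠ 0 := by
    have : (0 : ℝ) < m := by exact_mod_cast hm
    exact this.ne'
  have key : (∏ p ∈ m.primeFactors, (1 + 1 / ((p : ℝ) - 1))) *
      ∏ p ∈ m.primeFactors, (1 - (p : ℝ)⁻¹) = 1 := by
    rw [← Finset.prod_mul_distrib]
    apply Finset.prod_eq_one
    intro p hp
    have hp2 : (2 : ℝ) ≤ p := by exact_mod_cast (Nat.prime_of_mem_primeFactors hp).two_le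
    have h1 : (p : ℝ) - 1 ≠ 0 := by linarith
    have h2 : (p : ℝ) ≠ 0 := by linarith
    field_simp
    ring
  have hne : ∏ p ∈ m.primeFactors, (1 - (p : ℝ)⁻¹) ≠ 0 := right_ne_zero_of_mul_eq_one key
  rw [eq_one_div_of_mul_eq_one_left key, one_div_mul_one_div]

private theorem PrA_harmonic (Y : ℕ) : ∑ k ∈ Finset.Icc 1 Y, 1 / (k : ℝ) ≤ 1 + Real.log Y := by
  have h := harmonic_le_one_add_log Y
  rw [harmonic_eq_sum_Icc] at h
  push_cast at h
  simpa [one_div] using h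

private theorem PrA_multiples (Y D : ℕ) (hD : 1 ≤ D) :
    ∑ m ∈ (Finset.Icc 1 Y).filter (fun m => D ∣ m), 1 / (m : ℝ) ≤
      1 / (D : ℝ) * (1 + Real.log Y) := by
  have hD0 : (0 : ℝ) < D := by exact_mod_cast hD
  have h1 : ∑ m ∈ (Finset.Icc 1 Y).filter (fun m => D ∣ m), 1 / (m : ℝ) =
      ∑ k ∈ ((Finset.Icc 1 Y).filter (fun m => D ∣ m)).image (fun m => m / D),
        1 / (D : ℝ) * (1 / (k : ℝ)) := by
    rw [Finset.sum_image]
    · refine Finset.sum_congr rfl fun m hm => ?_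
      obtain ⟨k, rfl⟩ := (Finset.mem_filter.1 hm).2
      rw [Nat.mul_div_cancel_left k (by omega)]
      push_cast
      rw [← one_div_mul_one_div]
    · intro a ha b hb hab
      obtain ⟨k, rfl⟩ := (Finset.mem_filter.1 (Finset.mem_coe.1 ha)).2
      obtain ⟨l, rfl⟩ := (Finset.mem_filter.1 (Finset.mem_coe.1 hb)).2
      simp only [Nat.mul_div_cancel_left _ (show 0 < D by omega)] at hab
      rw [hab]
  rw [h1]
  calc ∑ k ∈ ((Finset.Icc 1 Y).filter (fun m => D ∣ m)).image (fun m => m / D),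
        1 / (D : ℝ) * (1 / (k : ℝ))
      ≤ ∑ k ∈ Finset.Icc 1 Y, 1 / (D : ℝ) * (1 / (k : ℝ)) := by
        apply Finset.sum_le_sum_of_subset_of_nonneg
        · intro k hk
          obtain ⟨m, hm, rfl⟩ := Finset.mem_image.1 hk
          obtain ⟨hm1, l, rfl⟩ := Finset.mem_filter.1 hm
          rw [Finset.mem_Icc] at hm1 ⊢
          simp only [Nat.mul_div_cancel_left _ (show 0 < D by omega)]
          constructor
          · rcases Nat.eq_zero_or_pos l with h | h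
            · rw [h, mul_zero] at hm1
              omega
            · exact h
          · calc l ≤ D * l := Nat.le_mul_of_pos_left l (by omega)
              _ ≤ Y := hm1.2
        · intro k _ _
          positivity
    _ = 1 / (D : ℝ) * ∑ k ∈ Finset.Icc 1 Y, 1 / (k : ℝ) := by rw [Finset.mul_sum]
    _ ≤ 1 / (D : ℝ) * (1 + Real.log Y) :=
        mul_le_mul_of_nonneg_left (PrA_harmonic Y) (by positivity)

private theorem PrA_tel (Y : ℕ) (hY : 1 ≤ Y) :
    ∑ k ∈ Finset.Icc 2 Y, 1 / ((k : ℝ) * ((k : ℝ) - 1)) = 1 - 1 / (Y : ℝ) := by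
  induction Y, hY using Nat.le_induction with
  | base => norm_num
  | succ n hn ih =>
    rw [Finset.sum_Icc_succ_top (by omega), ih]
    have h0 : (0 : ℝ) < n := by exact_mod_cast hn
    push_cast
    rw [show (n : ℝ) + 1 - 1 = n by ring]
    field_simp
    ring

private theorem PrA_prod (Y : ℕ) (hY : 1 ≤ Y) :
    ∏ p ∈ (Finset.Icc 1 Y).filter Nat.Prime, (1 + 1 / ((p : ℝ) * ((p : ℝ) - 1))) ≤
      Real.exp 1 := by
  have hnn : ∀ k : ℕ, 2 ≤ k → (0 : ℝ) ≤ 1 / ((k : ℝ) * ((k : ℝ) - 1)) := by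
    intro k hk
    have : (2 : ℝ) ≤ k := by exact_mod_cast hk
    have h1 : (0 : ℝ) ≤ (k : ℝ) - 1 := by linarith
    positivity
  calc ∏ p ∈ (Finset.Icc 1 Y).filter Nat.Prime, (1 + 1 / ((p : ℝ) * ((p : ℝ) - 1)))
      ≤ ∏ p ∈ (Finset.Icc 1 Y).filter Nat.Prime, Real.exp (1 / ((p : ℝ) * ((p : ℝ) - 1))) := by
        apply Finset.prod_le_prod
        · intro p hp
          have := hnn p (Finset.mem_filter.1 hp).2.two_le
          linarith
        · intro p _
          have := Real.add_one_le_exp (1 / ((p : ℝ) * ((p : ℝ) - 1)))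
          linarith
    _ = Real.exp (∑ p ∈ (Finset.Icc 1 Y).filter Nat.Prime, 1 / ((p : ℝ) * ((p : ℝ) - 1))) := by
        rw [Real.exp_sum]
    _ ≤ Real.exp 1 := by
        apply Real.exp_le_exp.2
        calc ∑ p ∈ (Finset.Icc 1 Y).filter Nat.Prime, 1 / ((p : ℝ) * ((p : ℝ) - 1))
            ≤ ∑ k ∈ Finset.Icc 2 Y, 1 / ((k : ℝ) * ((k : ℝ) - 1)) := by
              apply Finset.sum_le_sum_of_subset_of_nonneg
              · intro p hp
                obtain ⟨h1, h2⟩ := Finset.mem_filter.1 hp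
                exact Finset.mem_Icc.2 ⟨h2.two_le, (Finset.mem_Icc.1 h1).2⟩
              · intro k hk _
                exact hnn k (Finset.mem_Icc.1 hk).1
          _ = 1 - 1 / (Y : ℝ) := PrA_tel Y hY
          _ ≤ 1 := by
              have : (0 : ℝ) ≤ 1 / (Y : ℝ) := by positivity
              linarith

theorem sum_inv_totient : ∃ C : ℝ, 0 < C ∧ ∀ Y : ℕ, 1 ≤ Y →
    ∑ m ∈ Finset.Icc 1 Y, 1 / (m.totient : ℝ) ≤ C * (1 + Real.log Y) := by
  classical
  refine ⟨Real.exp 1, Real.exp_pos 1, fun Y hY => ?_⟩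
  have hlog : 0 ≤ 1 + Real.log Y := by
    have := Real.log_natCast_nonneg Y
    linarith
  obtain ⟨P, hP⟩ : ∃ P : Finset ℕ, P = (Finset.Icc 1 Y).filter Nat.Prime := ⟨_, rfl⟩
  have hF : ∀ S ∈ P.powerset, (0 : ℝ) ≤ ∏ p ∈ S, 1 / ((p : ℝ) - 1) := by
    intro S hS
    apply Finset.prod_nonneg
    intro p hp
    have h1 := Finset.mem_powerset.1 hS hp
    rw [hP] at h1
    have h2 : (2 : ℝ) ≤ p := by exact_mod_cast (Finset.mem_filter.1 h1).2.two_le
    have h3 : (0 : ℝ) ≤ (p : ℝ) - 1 := by linarith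
    positivity
  have h1 : ∀ m ∈ Finset.Icc 1 Y, 1 / (m.totient : ℝ) =
      ∑ S ∈ P.powerset, if S ⊆ m.primeFactors then
        1 / (m : ℝ) * ∏ p ∈ S, 1 / ((p : ℝ) - 1) else 0 := by
    intro m hm
    obtain ⟨hm1, hm2⟩ := Finset.mem_Icc.1 hm
    rw [PrA_inv_totient hm1, Finset.prod_one_add, Finset.mul_sum, ← Finset.sum_filter]
    apply Finset.sum_congr
    · ext S
      rw [Finset.mem_filter, Finset.mem_powerset, Finset.mem_powerset]
      constructor
      · intro hS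
        refine ⟨fun p hp => ?_, hS⟩
        have h2 := hS hp
        rw [hP, Finset.mem_filter, Finset.mem_Icc]
        have h3 := Nat.prime_of_mem_primeFactors h2
        exact ⟨⟨h3.one_le, (Nat.le_of_dvd (by omega)
          (Nat.dvd_of_mem_primeFactors h2)).trans hm2⟩, h3⟩
      · exact fun h => h.2
    · intro S _
      rfl
  rw [Finset.sum_congr rfl h1, Finset.sum_comm]
  have h2 : ∀ S ∈ P.powerset, (∑ m ∈ Finset.Icc 1 Y, if S ⊆ m.primeFactors then
      1 / (m : ℝ) * ∏ p ∈ S, 1 / ((p : ℝ) - 1) else 0) ≤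
      (1 + Real.log Y) * ∏ p ∈ S, 1 / ((p : ℝ) * ((p : ℝ) - 1)) := by
    intro S hS
    have hD : 1 ≤ ∏ p ∈ S, p := by
      apply Nat.succ_le_of_lt
      apply Finset.prod_pos
      intro p hp
      have h3 := Finset.mem_powerset.1 hS hp
      rw [hP] at h3
      exact (Finset.mem_filter.1 h3).2.pos
    rw [← Finset.sum_filter, ← Finset.sum_mul]
    have h4 : ∑ m ∈ (Finset.Icc 1 Y).filter (fun m => S ⊆ m.primeFactors), 1 / (m : ℝ) ≤
        1 / ((∏ p ∈ S, p : ℕ) : ℝ) * (1 + Real.log Y) := by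
      refine le_trans ?_ (PrA_multiples Y _ hD)
      apply Finset.sum_le_sum_of_subset_of_nonneg
      · intro m hm
        obtain ⟨hm1, hm2⟩ := Finset.mem_filter.1 hm
        refine Finset.mem_filter.2 ⟨hm1, ?_⟩
        exact (Finset.prod_dvd_prod_of_subset _ _ _ hm2).trans (Nat.prod_primeFactors_dvd m)
      · intro m _ _
        positivity
    refine (mul_le_mul_of_nonneg_right h4 (hF S hS)).trans (le_of_eq ?_)
    have h5 : ∏ p ∈ S, 1 / ((p : ℝ) * ((p : ℝ) - 1)) =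
        1 / ((∏ p ∈ S, p : ℕ) : ℝ) * ∏ p ∈ S, 1 / ((p : ℝ) - 1) := by
      push_cast
      rw [one_div, ← Finset.prod_inv_distrib, ← Finset.prod_mul_distrib]
      refine Finset.prod_congr rfl fun p _ => ?_
      rw [← one_div_mul_one_div, one_div (p : ℝ)]
    rw [h5]
    ring
  refine (Finset.sum_le_sum h2).trans ?_
  rw [← Finset.mul_sum, ← Finset.prod_one_add, mul_comm]
  apply mul_le_mul_of_nonneg_right _ hlog
  rw [hP]
  exact PrA_prod Y hY

end Pool.Agent.H91.NL
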