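import Pool.Agent.H91.NL.Def
import Pool.Agent.H91.NL.FinD
import Pool.Agent.H91.NL.Crt

/-!
JOB NL-20 (union over the residue of `n` mod `L`, about 120-160 lines).

Let `x` be in the set, `rep x n = y^q`, `n ≥ 1`, `c = n % L`.  For `l ∈ P`: `l - 1 ∣ L`, so `n ≡ c` mod
`l - 1`; with `x̄ = x mod l`: `x̄ = 0`, or `x̄ ≠ 0` and then `x̄^n = x̄^c` (Fermat, `ZMod.pow_card_sub_one_eq_one`;
`x̄^n` depends only on `n mod (l-1)`), and `(x̄ - 1) ȳ^q = x̄^n - 1 = x̄^c - 1`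
(`rep_mul`).  So `x̄ ∈ D l q c` (as `l` is prime, `NeZero l`).
`q` odd and `q ∣ l - 1`, `l` odd (`l ≥ q + 1 > 2`), so `2 q ∣ l - 1 ∣ L` (take one `l ∈ P`), so `n ≡ c` mod `2q` and
`c ≢ 1 mod q`, `2q ∤ c`.
For each such `c < L`, by `card_crt` and `card_D_le`: with `M = ∏ l`,
`#{x} ≤ (2X/M + 2) ∏ #(D l q c) = (2X + 2M) ∏ (#(D l q c)/l) ≤ (2X+2M) (23/24)^#P`, since
`#D ≤ 1 + 11(l-1)/12 ≤ 23 l/24` for `l ≥ 2`.  (Use `E l = if h : l.Prime then D l q c else ∅` or a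
version of `D` without the instance problem.)  Sum over `c < L`.
-/

namespace Pool.Agent.H91.NL

/-- the admissible residues without instance argument -/
noncomputable def sieveQ_E (q c l : ℕ) : Finset (ZMod l) :=
  if h : l ≠ 0 then @D l q c ⟨h⟩ else ∅

theorem sieveQ_pow {M : Type*} [Monoid M] {u : M} {m a b : ℕ} (hu : u ^ m = 1)
    (h : a ≡ b [MOD m]) : u ^ a = u ^ b := by
  have key : ∀ a : ℕ, u ^ a = u ^ (a % m) := by
    intro a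
    conv_lhs => rw [← Nat.mod_add_div a m]
    rw [pow_add, pow_mul, hu, one_pow, mul_one]
  rw [key a, key b, show a % m = b % m from h]

theorem sieveQ_mem {q l n c : ℕ} (hl : l.Prime) (h : c ≡ n [MOD l - 1]) {x y : ℤ}
    (hxy : rep x n = y ^ q) : ((x : ℤ) : ZMod l) ∈ sieveQ_E q c l := by
  have : Fact l.Prime := ⟨hl⟩
  have h1 : (((x : ℤ) : ZMod l) - 1) * (((y : ℤ) : ZMod l)) ^ q = ((x : ℤ) : ZMod l) ^ n - 1 := by
    have h2 := congrArg (Int.cast : ℤ → ZMod l) (rep_mul x n)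
    rw [hxy] at h2
    push_cast at h2
    exact h2
  unfold sieveQ_E
  rw [dif_pos hl.ne_zero]
  unfold D
  simp only [Finset.mem_filter, Finset.mem_univ, true_and]
  by_cases hx0 : ((x : ℤ) : ZMod l) = 0
  · exact Or.inl hx0
  · right; right
    refine ⟨((y : ℤ) : ZMod l), ?_⟩
    rw [h1, sieveQ_pow (ZMod.pow_card_sub_one_eq_one hx0) h]

theorem sieveQ_card {q l c : ℕ} (hl : l.Prime) (hq : q.Prime) (hq3 : 3 ≤ q)
    (hql : q ∣ l - 1) (hc1 : ¬ c ≡ 1 [MOD q]) (hc2 : ¬ 2 * q ∣ c) :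
    ((sieveQ_E q c l).card : ℝ) / l ≤ 23 / 24 := by
  have hl0 : (0 : ℝ) < l := by exact_mod_cast hl.pos
  rw [div_le_iff₀ hl0]
  unfold sieveQ_E
  rw [dif_pos hl.ne_zero]
  have h1 := @card_D_le l q c ⟨hl.ne_zero⟩ hl hq hq3 hql hc1 hc2
  have h2 : (12 : ℝ) * ((@D l q c ⟨hl.ne_zero⟩).card : ℝ) ≤ 12 + 11 * ((l : ℝ) - 1) := by
    have h3 : ((12 * (@D l q c ⟨hl.ne_zero⟩).card : ℕ) : ℝ) ≤ ((12 + 11 * (l - 1) : ℕ) : ℝ) := by
      exact_mod_cast h1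
    rw [Nat.cast_add, Nat.cast_mul, Nat.cast_mul, Nat.cast_sub hl.one_le] at h3
    exact_mod_cast h3
  have h4 : (2 : ℝ) ≤ l := by exact_mod_cast hl.two_le
  linarith

theorem sieveQ_two {q l : ℕ} (hl : l.Prime) (hq : q.Prime) (hq3 : 3 ≤ q)
    (hql : q ∣ l - 1) : 2 * q ∣ l - 1 := by
  have h1 : 0 < l - 1 := Nat.sub_pos_of_lt hl.one_lt
  have h2 : q ≤ l - 1 := Nat.le_of_dvd h1 hql
  have hodd : ¬ 2 ∣ l := by
    intro h
    have := (Nat.prime_dvd_prime_iff_eq Nat.prime_two hl).1 h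
    omega
  have h3 : 2 ∣ l - 1 := by omega
  have hcop : Nat.Coprime 2 q := by
    rw [Nat.coprime_primes Nat.prime_two hq]
    omega
  exact hcop.mul_dvd_of_dvd_of_dvd h3 hql

theorem sieveQ_alg {a M p : ℝ} (hM : 0 < M) : (a / M + 2) * p = (a + 2 * M) * (p / M) := by
  have := hM.ne'
  field_simp

theorem sieveQ_class {q : ℕ} (hq : q.Prime) (hq3 : 3 ≤ q) (P : Finset ℕ)
    (hP : ∀ l ∈ P, l.Prime ∧ q ∣ l - 1) (X c : ℕ) (hc1 : ¬ c ≡ 1 [MOD q]) (hc2 : ¬ 2 * q ∣ c) :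
    (({x : ℤ | |x| ≤ (X : ℤ) ∧ ∀ l ∈ P, ((x : ℤ) : ZMod l) ∈ sieveQ_E q c l}.ncard : ℕ) : ℝ) ≤
      (2 * X + 2 * ((∏ l ∈ P, l : ℕ) : ℝ)) * (23 / 24) ^ P.card := by
  have hM0 : (0 : ℝ) < ((∏ l ∈ P, l : ℕ) : ℝ) := by
    exact_mod_cast Finset.prod_pos fun l hl => (hP l hl).1.pos
  refine (card_crt P (fun l hl => (hP l hl).1) (fun l => sieveQ_E q c l) X).trans ?_
  rw [sieveQ_alg hM0]
  refine mul_le_mul_of_nonneg_left ?_ (by positivity)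
  have h4 : ((∏ l ∈ P, l : ℕ) : ℝ) = ∏ l ∈ P, (l : ℝ) := by push_cast; rfl
  rw [h4, ← Finset.prod_div_distrib, ← Finset.prod_const]
  refine Finset.prod_le_prod (fun l _ => by positivity) fun l hl => ?_
  exact sieveQ_card (hP l hl).1 hq hq3 (hP l hl).2 hc1 hc2

theorem sieve_q {q : ℕ} (hq : q.Prime) (hq3 : 3 ≤ q) (P : Finset ℕ) (hPne : P.Nonempty)
    (hP : ∀ l ∈ P, l.Prime ∧ q ∣ l - 1) (L : ℕ) (hL : 0 < L) (hPL : ∀ l ∈ P, l - 1 ∣ L) (X : ℕ) :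
    (cnt {x | ∃ (y : ℤ) (n : ℕ), 1 ≤ n ∧ ¬ n ≡ 1 [MOD q] ∧ ¬ 2 * q ∣ n ∧ rep x n = y ^ q} X : ℝ)
      ≤ L * (2 * X + 2 * ((∏ l ∈ P, l : ℕ) : ℝ)) * (23 / 24) ^ P.card := by
  classical
  set S : Set ℤ := {x | ∃ (y : ℤ) (n : ℕ), 1 ≤ n ∧ ¬ n ≡ 1 [MOD q] ∧ ¬ 2 * q ∣ n ∧
    rep x n = y ^ q} with hS
  set M : ℝ := ((∏ l ∈ P, l : ℕ) : ℝ) with hM
  have hM0 : 0 < M := by
    rw [hM]
    exact_mod_cast Finset.prod_pos fun l hl => (hP l hl).1.pos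
  obtain ⟨l0, hl0⟩ := hPne
  have h2qL : 2 * q ∣ L :=
    (sieveQ_two (hP l0 hl0).1 hq hq3 (hP l0 hl0).2).trans (hPL l0 hl0)
  have hqL : q ∣ L := (Dvd.intro_left 2 rfl).trans h2qL
  set T : ℕ → Finset ℤ := fun c => (Finset.Icc (-(X : ℤ)) X).filter fun x =>
    ∀ l ∈ P, ((x : ℤ) : ZMod l) ∈ sieveQ_E q c l with hT
  set good : Finset ℕ := (Finset.range L).filter fun c => ¬ c ≡ 1 [MOD q] ∧ ¬ 2 * q ∣ c with hgood
  have hsub : {x : ℤ | |x| ≤ (X : ℤ) ∧ x ∈ S} ⊆ ((good.biUnion T : Finset ℤ) : Set ℤ) := by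
    rintro x ⟨hxX, y, n, -, hn1, hn2, hxy⟩
    rw [Finset.mem_coe, Finset.mem_biUnion]
    have hmod : n % L ≡ n [MOD L] := Nat.mod_modEq n L
    refine ⟨n % L, ?_, ?_⟩
    · rw [hgood, Finset.mem_filter, Finset.mem_range]
      refine ⟨Nat.mod_lt _ hL, ?_, ?_⟩
      · intro h
        exact hn1 ((hmod.of_dvd hqL).symm.trans h)
      · intro h
        exact hn2 (((hmod.of_dvd h2qL).dvd_iff dvd_rfl).1 h)
    · rw [hT]
      simp only [Finset.mem_filter, Finset.mem_Icc]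
      exact ⟨abs_le.1 hxX, fun l hl =>
        sieveQ_mem (hP l hl).1 (hmod.of_dvd (hPL l hl)) hxy⟩
  have hcnt : (cnt S X : ℝ) ≤ ∑ c ∈ good, ((T c).card : ℝ) := by
    have h1 : cnt S X ≤ (good.biUnion T).card := by
      unfold cnt
      refine le_trans (Set.ncard_le_ncard hsub (Finset.finite_toSet _)) ?_
      rw [Set.ncard_coe_finset]
    have h2 : (good.biUnion T).card ≤ ∑ c ∈ good, (T c).card := Finset.card_biUnion_le
    exact_mod_cast h1.trans h2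
  have hTc : ∀ c ∈ good, ((T c).card : ℝ) ≤ (2 * X + 2 * M) * (23 / 24) ^ P.card := by
    intro c hc
    obtain ⟨-, hc1, hc2⟩ := Finset.mem_filter.1 hc
    have h1 := sieveQ_class hq hq3 P hP X c hc1 hc2
    have h2 : {x : ℤ | |x| ≤ (X : ℤ) ∧ ∀ l ∈ P, ((x : ℤ) : ZMod l) ∈ sieveQ_E q c l} =
        ((T c : Finset ℤ) : Set ℤ) := by
      ext x
      simp only [hT, Set.mem_ofPred_eq, Finset.coe_filter, Finset.mem_Icc, abs_le]
    rw [h2, Set.ncard_coe_finset] at h1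
    exact h1
  refine hcnt.trans ?_
  refine (Finset.sum_le_card_nsmul _ _ _ hTc).trans ?_
  rw [nsmul_eq_mul, mul_assoc]
  refine mul_le_mul_of_nonneg_right ?_ (by positivity)
  have h5 : good.card ≤ L := by
    refine (Finset.card_filter_le _ _).trans ?_
    rw [Finset.card_range]
  exact_mod_cast h5

end Pool.Agent.H91.NL
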