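import Pool.Agent.H91.CA.Zero

/-!
JOB NL-02 (zero estimate and choice of points, about 120-180 lines; adapt the files
`Pool/Agent/H91/CA/Zero.lean` and `Pool/Agent/H91/CA/Pts.lean`, whose lemmas `Zero_M`, `Zero_det_ne`,
`Zero_deg` can be used as they are).

(1) Zero estimate.  Let `c : Fin K → Fin L → ℝ` with
`∑_{k,l} c k l * choose (u r s) k * ((α^r γ^s : ℤ) : ℝ)^l = 0` for all `r < R`, `s < S + L`, where
`u r s = s + q * (R - r)`.  Then `c = 0`.
Proof.  Let `A_l = ∑_k C (c k l / k!) * descPochhammer ℝ k` (degree `≤ K - 1`;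
`(descPochhammer ℝ k).eval (u : ℝ) = u.descFactorial k = k! * choose u k`:
`descPochhammer_eval_eq_descFactorial`, `Nat.descFactorial_eq_factorial_mul_choose`), so
`A_l.eval u = ∑_k c k l * choose u k` for natural `u`.
If all `A_l = 0` then all `c k l = 0` (the polynomials `descPochhammer ℝ k` are monic of degree `k`;
evaluate `A_l` at `0, 1, .., K-1` and use induction, or compare the top coefficient; for instance
`∑_k c k l choose u k = 0` for `u = 0, 1, 2, ..` gives `c 0 l = 0`, `c 1 l = 0`, ..).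
Otherwise put `A'_l = A_l` if `A_l ≠ 0` and `1` otherwise, `x_j = j`, `y_j = γ^j` for `j : Fin L`
(distinct because `|γ| ≥ 2`).  `D = det (Zero_M A' x y)` is not zero (`Zero_det_ne`) and of degree
`≤ (K-1) * L` (`Zero_deg`).  For `r < R`, `s < S` the points `(r, s + j)` are in the range and
`u r (s+j) = u r s + j`, `α^r γ^(s+j) = (α^r γ^s) * γ^j`; so the vector `(α^r γ^s)^l` (with `0` at the
`l` where `A_l = 0`), which is not zero, is in the kernel of `Zero_M A' x y` evaluated at `X = u r s`,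
and `D.eval (u r s) = 0` (exactly as in `zero_est`).  The `R S` numbers `u r s = s + q (R - r)`
(`r < R`, `s < S ≤ q`) are distinct, so `D` has more than `(K-1) L` roots.  Contradiction.
(2) `exists_points`: as in `CA/Pts.lean` (`Pts_span`, `exists_points`).
-/

namespace Pool.Agent.H91.NL

private theorem ZeroM_eval (K : ℕ) (d : Fin K → ℝ) (t : ℕ) :
    (∑ k : Fin K, Polynomial.C (d k / ((k : ℕ).factorial : ℝ)) *
      descPochhammer ℝ (k : ℕ)).eval (t : ℝ) = ∑ k : Fin K, d k * (t.choose k : ℝ) := by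
  rw [Polynomial.eval_finsetSum]
  refine Finset.sum_congr rfl fun k _ => ?_
  rw [Polynomial.eval_mul, Polynomial.eval_C, descPochhammer_eval_eq_descFactorial,
    Nat.descFactorial_eq_factorial_mul_choose]
  have h1 : ((k : ℕ).factorial : ℝ) ≠ 0 := by
    exact_mod_cast (Nat.factorial_pos _).ne'
  push_cast
  field_simp

private theorem ZeroM_zero (K : ℕ) (d : Fin K → ℝ)
    (h : ∀ t : ℕ, ∑ k : Fin K, d k * (t.choose k : ℝ) = 0) : d = 0 := by
  have key : ∀ m : ℕ, ∀ hm : m < K, d ⟨m, hm⟩ = 0 := by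
    intro m
    induction m using Nat.strong_induction_on with
    | _ m ih =>
      intro hm
      have h1 := h m
      rw [Finset.sum_eq_single (⟨m, hm⟩ : Fin K)] at h1
      · simpa using h1
      · intro k _ hk
        rcases lt_trichotomy (k : ℕ) m with hlt | heq | hgt
        · rw [ih k hlt k.2, zero_mul]
        · exact absurd (Fin.ext heq) hk
        · rw [Nat.choose_eq_zero_of_lt hgt]
          simp
      · intro hk
        exact absurd (Finset.mem_univ _) hk
  funext k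
  exact key k k.2

private theorem ZeroM_est {α γ : ℤ} {q K L R S : ℕ} (hα : α ≠ 0) (hγ : 2 ≤ |γ|)
    (hS : S ≤ q) (hN : (K - 1) * L < R * S) (c : Fin K → Fin L → ℝ)
    (hc : ∀ r s : ℕ, r < R → s < S + L →
      ∑ k : Fin K, ∑ l : Fin L, c k l * (((s + q * (R - r)).choose (k : ℕ) : ℕ) : ℝ) *
        ((α ^ r * γ ^ s : ℤ) : ℝ) ^ (l : ℕ) = 0) :
    c = 0 := by
  classical
  by_contra hne
  have hγ0 : γ ≠ 0 := by
    rintro rfl
    simp at hγ
  set A : Fin L → Polynomial ℝ := fun l => ∑ k : Fin K,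
    Polynomial.C (c k l / ((k : ℕ).factorial : ℝ)) * descPochhammer ℝ (k : ℕ) with hAdef
  have hAev : ∀ l (t : ℕ), (A l).eval (t : ℝ) = ∑ k : Fin K, c k l * (t.choose k : ℝ) :=
    fun l t => ZeroM_eval K (fun k => c k l) t
  have hAdeg : ∀ l, (A l).natDegree ≤ K - 1 := by
    intro l
    refine Polynomial.natDegree_sum_le_of_forall_le _ _ fun k _ => ?_
    refine (Polynomial.natDegree_C_mul_le _ _).trans ?_
    rw [descPochhammer_natDegree]
    have := k.2
    omega
  obtain ⟨l0, hl0⟩ : ∃ l, A l ≠ 0 := by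
    by_contra h
    push Not at h
    apply hne
    funext k l
    have h1 : (fun k => c k l) = 0 := by
      apply ZeroM_zero
      intro t
      rw [← hAev l t, h l, Polynomial.eval_zero]
    exact congrFun h1 k
  set A' : Fin L → Polynomial ℝ := fun l => if A l = 0 then 1 else A l with hA'def
  have hA'ne : ∀ l, A' l ≠ 0 := by
    intro l
    by_cases h : A l = 0
    · simp [hA'def, h]
    · simp [hA'def, h]
  have hA'deg : ∀ l, (A' l).natDegree ≤ K - 1 := by
    intro l
    by_cases h : A l = 0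
    · simp [hA'def, h]
    · simp only [hA'def, if_neg h]
      exact hAdeg l
  set x : Fin L → ℝ := fun j => ((j : ℕ) : ℝ) with hx
  set y : Fin L → ℝ := fun j => ((γ ^ (j : ℕ) : ℤ) : ℝ) with hy
  have hyinj : Function.Injective y := by
    intro i j hij
    have h0 : y i = y j := hij
    simp only [hy] at h0
    have h1 : γ ^ (i : ℕ) = γ ^ (j : ℕ) := by exact_mod_cast h0
    have h2 := congrArg Int.natAbs h1
    rw [Int.natAbs_pow, Int.natAbs_pow] at h2
    have h3 : 2 ≤ γ.natAbs := by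
      rw [Int.abs_eq_natAbs] at hγ
      exact_mod_cast hγ
    exact Fin.ext (Nat.pow_right_injective h3 h2)
  have hD := Pool.Agent.H91.CA.Zero_det_ne A' hA'ne x y hyinj
  have hdeg := Pool.Agent.H91.CA.Zero_deg A' hA'deg x y
  apply hD
  refine Polynomial.eq_zero_of_natDegree_lt_card_of_eval_eq_zero' _
    ((Finset.univ : Finset (Fin R × Fin S)).image
      fun z => (((z.2 : ℕ) + q * (R - (z.1 : ℕ)) : ℕ) : ℝ)) ?_ ?_
  · intro t ht
    obtain ⟨z, -, rfl⟩ := Finset.mem_image.1 ht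
    have h1 : (Pool.Agent.H91.CA.Zero_M A' x y).det.eval
        (((z.2 : ℕ) + q * (R - (z.1 : ℕ)) : ℕ) : ℝ) =
        ((Polynomial.evalRingHom (((z.2 : ℕ) + q * (R - (z.1 : ℕ)) : ℕ) : ℝ)).mapMatrix
          (Pool.Agent.H91.CA.Zero_M A' x y)).det := by
      rw [← RingHom.map_det]
      rfl
    rw [h1]
    refine Matrix.exists_mulVec_eq_zero_iff.1
      ⟨fun l => if A l = 0 then 0 else
        ((α ^ (z.1 : ℕ) * γ ^ (z.2 : ℕ) : ℤ) : ℝ) ^ (l : ℕ), ?_, ?_⟩
    · intro h
      have h2 := congrFun h l0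
      simp only [if_neg hl0, Pi.zero_apply] at h2
      have h3 : ((α ^ (z.1 : ℕ) * γ ^ (z.2 : ℕ) : ℤ) : ℝ) ≠ 0 := by
        have : α ^ (z.1 : ℕ) * γ ^ (z.2 : ℕ) ≠ 0 := mul_ne_zero (pow_ne_zero _ hα) (pow_ne_zero _ hγ0)
        exact_mod_cast this
      exact pow_ne_zero _ h3 h2
    · funext j
      have h4 := hc z.1 (z.2 + j) z.1.2 (by have := z.2.2; have := j.2; omega)
      rw [Finset.sum_comm] at h4
      show ∑ l, Polynomial.eval (((z.2 : ℕ) + q * (R - (z.1 : ℕ)) : ℕ) : ℝ)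
        ((A' l).comp (Polynomial.X + Polynomial.C (x j)) * Polynomial.C (y j ^ (l : ℕ))) *
          (if A l = 0 then 0 else
            ((α ^ (z.1 : ℕ) * γ ^ (z.2 : ℕ) : ℤ) : ℝ) ^ (l : ℕ)) = 0
      refine Eq.trans ?_ h4
      refine Finset.sum_congr rfl fun l _ => ?_
      rw [Polynomial.eval_mul, Polynomial.eval_comp, Polynomial.eval_C, Polynomial.eval_add,
        Polynomial.eval_X, Polynomial.eval_C]
      have h5 : (((z.2 : ℕ) + q * (R - (z.1 : ℕ)) : ℕ) : ℝ) + x j =
          (((z.2 : ℕ) + (j : ℕ) + q * (R - (z.1 : ℕ)) : ℕ) : ℝ) := by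
        simp only [hx]
        push_cast
        ring
      have h6 : ((α ^ (z.1 : ℕ) * γ ^ ((z.2 : ℕ) + (j : ℕ)) : ℤ) : ℝ) =
          ((α ^ (z.1 : ℕ) * γ ^ (z.2 : ℕ) : ℤ) : ℝ) * y j := by
        simp only [hy]
        push_cast
        ring
      rw [← Finset.sum_mul]
      rw [h5, h6, ← hAev l]
      by_cases h : A l = 0
      · rw [if_pos h, h]
        simp
      · rw [if_neg h]
        simp only [hA'def, if_neg h]
        rw [mul_pow]
        ring
  · rw [Finset.card_image_of_injective]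
    · rw [Finset.card_univ, Fintype.card_prod, Fintype.card_fin, Fintype.card_fin]
      exact hdeg.trans_lt hN
    · intro z z' hz
      have hz1 : (((z.2 : ℕ) + q * (R - (z.1 : ℕ)) : ℕ) : ℝ) =
          (((z'.2 : ℕ) + q * (R - (z'.1 : ℕ)) : ℕ) : ℝ) := hz
      have h1 : (z.2 : ℕ) + q * (R - (z.1 : ℕ)) = (z'.2 : ℕ) + q * (R - (z'.1 : ℕ)) := by
        exact_mod_cast hz1
      have hz2 := z.2.2
      have hz2' := z'.2.2
      have hq : 0 < q := by omega
      have h2 := congrArg (· % q) h1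
      simp only [Nat.add_mul_mod_self_left] at h2
      rw [Nat.mod_eq_of_lt (by omega), Nat.mod_eq_of_lt (by omega)] at h2
      have h3 : q * (R - (z.1 : ℕ)) = q * (R - (z'.1 : ℕ)) := by omega
      have h4 : R - (z.1 : ℕ) = R - (z'.1 : ℕ) := Nat.eq_of_mul_eq_mul_left hq h3
      have hz3 := z.1.2
      have hz3' := z'.1.2
      exact Prod.ext (Fin.ext (by omega)) (Fin.ext h2)

/-- the vector attached to a point -/
private noncomputable def ZeroM_w (α γ : ℤ) (q K L R : ℕ) (p : ℕ × ℕ) (x : Fin K × Fin L) : ℝ :=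
  (((p.2 + q * (R - p.1)).choose (x.1 : ℕ) : ℕ) : ℝ) * ((α ^ p.1 * γ ^ p.2 : ℤ) : ℝ) ^ (x.2 : ℕ)

private theorem ZeroM_span {α γ : ℤ} {q K L R S : ℕ} (hα : α ≠ 0) (hγ : 2 ≤ |γ|)
    (hS : S ≤ q) (hN : (K - 1) * L < R * S) :
    Submodule.span ℝ (Set.range fun p : {p : ℕ × ℕ // p.1 < R ∧ p.2 < S + L} =>
      ZeroM_w α γ q K L R p.1) = ⊤ := by
  by_contra hne
  obtain ⟨f, hf0, hf⟩ := Submodule.exists_le_ker_of_lt_top _ (lt_top_iff_ne_top.2 hne)
  apply hf0
  have key : (fun (k : Fin K) (l : Fin L) => f (Pi.single (k, l) 1)) = 0 := by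
    refine ZeroM_est hα hγ hS hN _ ?_
    intro r s hr hs
    have h1 : ZeroM_w α γ q K L R (r, s) ∈ LinearMap.ker f :=
      hf (Submodule.subset_span ⟨⟨(r, s), hr, hs⟩, rfl⟩)
    rw [LinearMap.mem_ker, LinearMap.pi_apply_eq_sum_univ, Fintype.sum_prod_type] at h1
    rw [← h1]
    refine Finset.sum_congr rfl fun k _ => Finset.sum_congr rfl fun l _ => ?_
    have h2 : (Pi.single (k, l) 1 : Fin K × Fin L → ℝ) = fun j => if (k, l) = j then 1 else 0 := by
      funext j
      by_cases hj : (k, l) = j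
      · rw [if_pos hj, ← hj, Pi.single_eq_same]
      · rw [if_neg hj, Pi.single_eq_of_ne (Ne.symm hj)]
    rw [h2]
    simp only [ZeroM_w, smul_eq_mul]
    ring
  refine LinearMap.pi_ext' fun x => LinearMap.ext_ring ?_
  have h3 := congrFun (congrFun key x.1) x.2
  simpa using h3

theorem exists_points {α γ : ℤ} {q K L R S : ℕ} (hα : α ≠ 0) (hγ : 2 ≤ |γ|) (hK : 1 ≤ K)
    (hL : 1 ≤ L) (hS : S ≤ q) (hN : (K - 1) * L < R * S) :
    ∃ e : Fin K × Fin L → ℕ × ℕ, (∀ x, (e x).1 < R ∧ (e x).2 < S + L) ∧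
      (Matrix.of (fun x y : Fin K × Fin L =>
        (((e y).2 + q * (R - (e y).1)).choose x.1 : ℤ) *
          (α ^ (e y).1 * γ ^ (e y).2) ^ (x.2 : ℕ))).det ≠ 0 := by
  classical
  obtain ⟨κ, g, -, hg2, hg3⟩ := exists_linearIndependent' ℝ
    (fun p : {p : ℕ × ℕ // p.1 < R ∧ p.2 < S + L} => ZeroM_w α γ q K L R p.1)
  rw [ZeroM_span hα hγ hS hN] at hg2
  obtain ⟨B, hB⟩ : ∃ B : Module.Basis κ ℝ (Fin K × Fin L → ℝ),
      ∀ i, B i = ZeroM_w α γ q K L R (g i).1 :=
    ⟨Module.Basis.mk hg3 hg2.ge, fun i => by rw [Module.Basis.mk_apply]; rfl⟩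
  have he : Nonempty (Fin K × Fin L ≃ κ) :=
    ⟨(Pi.basisFun ℝ (Fin K × Fin L)).indexEquiv B⟩
  obtain ⟨ee⟩ := he
  refine ⟨fun x => (g (ee x)).1, fun x => (g (ee x)).2, ?_⟩
  intro hdet
  have hli : LinearIndependent ℝ
      (Matrix.of (fun x y : Fin K × Fin L => ZeroM_w α γ q K L R (g (ee y)).1 x)).col := by
    have h1 := B.linearIndependent.comp ee ee.injective
    have h2 : (B ∘ ee) =
        (Matrix.of (fun x y : Fin K × Fin L => ZeroM_w α γ q K L R (g (ee y)).1 x)).col := by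
      funext y
      exact hB (ee y)
    rw [h2] at h1
    exact h1
  rw [Matrix.linearIndependent_cols_iff_isUnit, Matrix.isUnit_iff_isUnit_det,
    isUnit_iff_ne_zero] at hli
  apply hli
  have h3 := congrArg (Int.castRingHom ℝ) hdet
  rw [RingHom.map_det, map_zero] at h3
  rw [← h3]
  congr 1
  ext x y
  simp [ZeroM_w]

end Pool.Agent.H91.NL
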